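import Pool.Agent.Helper25.MOB.Defs

/-!
Block MOB-PT.  Basic facts on the points of exact order `s` and on the arcs `cl t q`.
Use `AddCircle.addOrderOf_eq_pos_iff`, `AddCircle.le_add_order_smul_norm_of_isOfFinAddOrder`,
`AddCircle.volume_closedBall`, `UnitAddCircle.norm_eq`.
-/

namespace Pool.Agent.Helper25.MOB

open MeasureTheory

theorem mem_pt {s : ℕ} (hs : 0 < s) (a : UnitAddCircle) : a ∈ pt s ↔ addOrderOf a = s := by
  classical
  rw [AddCircle.addOrderOf_eq_pos_iff hs]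
  simp only [pt, Finset.mem_image, Finset.bind_def, Finset.pure_def, Finset.mem_sup,
    Finset.mem_singleton, Finset.mem_filter, Finset.mem_range, mul_one]
  constructor
  · rintro ⟨x, ⟨m, ⟨h1, h2⟩, h4⟩, h3⟩
    rw [h4] at h3
    exact ⟨m, h1, h2, h3⟩
  · rintro ⟨m, h1, h2, h3⟩
    exact ⟨(m : ℝ), ⟨m, ⟨h1, h2⟩, rfl⟩, h3⟩

theorem pt_zero : pt 0 = ∅ := by
  simp [pt, Finset.bind_def]

theorem addOrderOf_of_mem_pt {s : ℕ} {a : UnitAddCircle} (h : a ∈ pt s) :
    addOrderOf a = s ∧ 0 < s := by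
  rcases Nat.eq_zero_or_pos s with hs | hs
  · rw [hs, pt_zero] at h
    exact absurd h (Finset.notMem_empty a)
  · exact ⟨(mem_pt hs a).1 h, hs⟩

theorem card_pt_le (s : ℕ) : (pt s).card ≤ s := by
  classical
  have h : pt s ⊆ (Finset.range s).image
      fun m : ℕ => (((m : ℝ) / (s : ℝ) : ℝ) : UnitAddCircle) := by
    intro a ha
    rcases Nat.eq_zero_or_pos s with hs | hs
    · rw [hs, pt_zero] at ha
      exact absurd ha (Finset.notMem_empty a)
    · rw [mem_pt hs, AddCircle.addOrderOf_eq_pos_iff hs] at ha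
      obtain ⟨m, h1, -, h3⟩ := ha
      rw [mul_one] at h3
      exact Finset.mem_image.2 ⟨m, Finset.mem_range.2 h1, h3⟩
  refine (Finset.card_le_card h).trans (Finset.card_image_le.trans ?_)
  rw [Finset.card_range]

theorem mem_pts' {D : Finset ℕ} (a : UnitAddCircle) :
    a ∈ pts D ↔ ∃ s ∈ D, a ∈ pt s := by
  classical
  simp only [pts, Finset.mem_biUnion]

theorem mem_pts {D : Finset ℕ} (hD : 0 ∉ D) (a : UnitAddCircle) :
    a ∈ pts D ↔ addOrderOf a ∈ D := by
  rw [mem_pts']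
  constructor
  · rintro ⟨s, hs, ha⟩
    rw [(addOrderOf_of_mem_pt ha).1]
    exact hs
  · intro h
    refine ⟨addOrderOf a, h, ?_⟩
    have h0 : 0 < addOrderOf a := by
      rcases Nat.eq_zero_or_pos (addOrderOf a) with h1 | h1
      · rw [h1] at h
        exact absurd h hD
      · exact h1
    exact (mem_pt h0 a).2 rfl

/-- A nonzero torsion point of exponent `D` has norm at least `1 / D`. -/
theorem one_le_norm_of_torsion {D : ℕ} (hD : 0 < D) {u : UnitAddCircle} (h : D • u = 0)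
    (hu : u ≠ 0) : 1 / (D : ℝ) ≤ ‖u‖ := by
  have hfin : IsOfFinAddOrder u := isOfFinAddOrder_iff_nsmul_eq_zero.2 ⟨D, hD, h⟩
  have h1 := AddCircle.le_add_order_smul_norm_of_isOfFinAddOrder hfin hu
  have h2 : addOrderOf u ≤ D := addOrderOf_le_of_nsmul_eq_zero hD h
  have h3 : (addOrderOf u : ℝ) ≤ D := by exact_mod_cast h2
  have hD' : (0 : ℝ) < D := by exact_mod_cast hD
  rw [div_le_iff₀ hD']
  rw [nsmul_eq_mul] at h1
  calc (1 : ℝ) ≤ addOrderOf u * ‖u‖ := h1
    _ ≤ D * ‖u‖ := mul_le_mul_of_nonneg_right h3 (norm_nonneg _)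
    _ = ‖u‖ * D := mul_comm _ _

theorem h33_norm_coe_le (x : ℝ) : ‖(x : UnitAddCircle)‖ ≤ |x| := by
  rw [UnitAddCircle.norm_eq]
  exact round_le x 0 |>.trans (by simp)

/-- The nearest torsion point: lift `y` to a real `x`, let `k = round (D x)`, `a = k / D`. -/
theorem exists_torsion_near {D : ℕ} (hD : 0 < D) (y : UnitAddCircle) :
    ∃ a : UnitAddCircle, D • a = 0 ∧ ‖y - a‖ ≤ ‖D • y‖ / D := by
  have hD' : (0 : ℝ) < D := by exact_mod_cast hD
  induction y using QuotientAddGroup.induction_on with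
  | H x =>
    refine ⟨((round ((D : ℝ) * x) / (D : ℝ) : ℝ) : UnitAddCircle), ?_, ?_⟩
    · rw [← AddCircle.coe_nsmul, nsmul_eq_mul, mul_div_cancel₀ _ hD'.ne']
      rw [AddCircle.coe_eq_zero_iff]
      exact ⟨round ((D : ℝ) * x), by simp⟩
    · have h1 : ‖D • ((x : ℝ) : UnitAddCircle)‖ = |(D : ℝ) * x - round ((D : ℝ) * x)| := by
        rw [← AddCircle.coe_nsmul, nsmul_eq_mul, UnitAddCircle.norm_eq]
      have h2 : ((x : ℝ) : UnitAddCircle) - ((round ((D : ℝ) * x) / (D : ℝ) : ℝ) : UnitAddCircle)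
          = ((x - round ((D : ℝ) * x) / (D : ℝ) : ℝ) : UnitAddCircle) := by
        rw [AddCircle.coe_sub]
      change ‖((x : ℝ) : UnitAddCircle) - _‖ ≤ ‖D • ((x : ℝ) : UnitAddCircle)‖ / D
      rw [h1, h2]
      refine (h33_norm_coe_le _).trans (le_of_eq ?_)
      have h3 : x - round ((D : ℝ) * x) / (D : ℝ) = ((D : ℝ) * x - round ((D : ℝ) * x)) / D := by
        field_simp
      rw [h3, abs_div, abs_of_pos hD']

theorem norm_nsmul_le' (n : ℕ) (y : UnitAddCircle) : ‖n • y‖ ≤ n * ‖y‖ :=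
  norm_nsmul_le

theorem h33_ball_eq (t : ℝ) (r : UnitAddCircle) :
    {z : UnitAddCircle | ‖z - r‖ ≤ t} = Metric.closedBall r t := by
  ext z
  simp [Metric.mem_closedBall, dist_eq_norm]

theorem measurableSet_ball' (t : ℝ) (r : UnitAddCircle) :
    MeasurableSet {z : UnitAddCircle | ‖z - r‖ ≤ t} := by
  rw [h33_ball_eq]
  exact Metric.isClosed_closedBall.measurableSet

/-- The volume of `{z | ‖z - r‖ ≤ t}`. -/
theorem volume_ball_le {t : ℝ} (ht : 0 ≤ t) (r : UnitAddCircle) :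
    volume.real {z : UnitAddCircle | ‖z - r‖ ≤ t} ≤ 2 * t := by
  rw [h33_ball_eq, Measure.real, AddCircle.volume_closedBall]
  rw [ENNReal.toReal_ofReal (by positivity)]
  exact min_le_right _ _

theorem h33_cl_eq (t : ℝ) (q : ℕ) :
    cl t q = ⋃ a ∈ pt q, {z : UnitAddCircle | ‖z - a‖ ≤ t} := by
  ext z
  simp [cl]

theorem measurableSet_cl (t : ℝ) (q : ℕ) : MeasurableSet (cl t q) := by
  rw [h33_cl_eq]
  exact Finset.measurableSet_biUnion _ fun a _ => measurableSet_ball' t a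

theorem volume_cl_le {t : ℝ} (ht : 0 ≤ t) (q : ℕ) : volume.real (cl t q) ≤ 2 * t * q := by
  rw [h33_cl_eq]
  refine (measureReal_biUnion_finset_le _ _).trans ?_
  refine (Finset.sum_le_sum fun a _ => volume_ball_le ht a).trans ?_
  rw [Finset.sum_const, nsmul_eq_mul, mul_comm]
  have h : ((pt q).card : ℝ) ≤ q := by exact_mod_cast card_pt_le q
  exact mul_le_mul_of_nonneg_left h (by positivity)

end Pool.Agent.Helper25.MOB
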