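import Pool.Agent.Helper25.MOB.Pt

/-!
Block MOB-I1.  The mean square of `om`.

`om H δ y ^ 2 = ∑_{d, d' ≤ H} 1[‖d y‖ ≤ 2δ] 1[‖d' y‖ ≤ 2δ]`.
`inter_two`: for `1 ≤ d' ≤ d ≤ H` the set `{‖d y‖ ≤ 2δ, ‖d' y‖ ≤ 2δ}` has volume at most
`4 δ gcd(d,d') / d`.  Proof: let `a`, `a'` be killed by `d`, `d'`, `‖y - a‖ ≤ 2δ / d`, `‖y - a'‖ ≤ 2δ / d'`
(`exists_torsion_near`).  `a - a'` is killed by `d d'` and has norm `≤ 4 δ < 1 / (d d')` (as `20 H² δ < 1`), so
`a = a'` (`one_le_norm_of_torsion`), so `a` is killed by `gcd(d, d')`: there are `gcd(d,d')` such points, and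
`y` is within `2 δ / d` of one of them (`volume_ball_le`).
Then `∫ om² ≤ 2 ∑_{d' ≤ d ≤ H} 4 δ gcd(d,d') / d`, and
`∑_{d' ≤ d} gcd(d,d') ≤ ∑_{g ∣ d} g (d / g) = d τ(d)`, `∑_{d ≤ H} τ(d) ≤ ∑_{g ≤ H} H / g ≤ H (1 + log H)`.
-/

namespace Pool.Agent.Helper25.MOB

open MeasureTheory

/-- There are at most `g` points killed by `g`. -/
theorem card_torsion_le {g : ℕ} (hg : 0 < g) :
    ∃ T : Finset UnitAddCircle, T.card ≤ g ∧ ∀ a : UnitAddCircle, g • a = 0 → a ∈ T := by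
  classical
  refine ⟨(Finset.range g).image fun m : ℕ => (((m : ℝ) / (g : ℝ) * 1 : ℝ) : UnitAddCircle), ?_, ?_⟩
  · exact Finset.card_image_le.trans (Finset.card_range g).le
  · intro a ha
    obtain ⟨m, hm, hma⟩ := (AddCircle.nsmul_eq_zero_iff (p := (1 : ℝ)) hg).1 ha
    exact Finset.mem_image.2 ⟨m, Finset.mem_range.2 hm, hma⟩

theorem inter_two {H d d' : ℕ} {δ : ℝ} (hδ : 0 ≤ δ) (h : 20 * (H : ℝ) ^ 2 * δ < 1)
    (hd' : 1 ≤ d') (hdd : d' ≤ d) (hdH : d ≤ H) :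
    volume.real {y : UnitAddCircle | ‖d • y‖ ≤ 2 * δ ∧ ‖d' • y‖ ≤ 2 * δ} ≤
      4 * δ * (d.gcd d') / d := by
  have hd : 1 ≤ d := hd'.trans hdd
  have hd0 : (0 : ℝ) < d := by exact_mod_cast hd
  have hd0' : (0 : ℝ) < d' := by exact_mod_cast hd'
  have hg : 0 < d.gcd d' := Nat.gcd_pos_of_pos_left _ hd
  obtain ⟨T, hT, hT2⟩ := card_torsion_le hg
  have hsub : {y : UnitAddCircle | ‖d • y‖ ≤ 2 * δ ∧ ‖d' • y‖ ≤ 2 * δ} ⊆
      ⋃ a ∈ T, {y : UnitAddCircle | ‖y - a‖ ≤ 2 * δ / d} := by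
    rintro y ⟨h1, h2⟩
    obtain ⟨a, ha, hya⟩ := exists_torsion_near hd y
    obtain ⟨a', ha', hya'⟩ := exists_torsion_near hd' y
    have h3 : ‖y - a‖ ≤ 2 * δ / d := hya.trans (div_le_div_of_nonneg_right h1 hd0.le)
    have h4 : ‖y - a'‖ ≤ 2 * δ / d' := hya'.trans (div_le_div_of_nonneg_right h2 hd0'.le)
    have h5 : a = a' := by
      by_contra hne
      have h6 : (d * d') • (a - a') = 0 := by
        have e1 : (d * d') • a = 0 := by rw [mul_comm, mul_nsmul', ha, smul_zero]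
        have e2 : (d * d') • a' = 0 := by rw [mul_nsmul', ha', smul_zero]
        rw [smul_sub, e1, e2, sub_zero]
      have h7 := one_le_norm_of_torsion (Nat.mul_pos hd hd') h6 (sub_ne_zero.2 hne)
      have h8 : ‖a - a'‖ ≤ 2 * δ / d + 2 * δ / d' := by
        have e1 : a - a' = (y - a') - (y - a) := by abel
        rw [e1]
        exact (norm_sub_le _ _).trans (by linarith)
      have h9 : 2 * δ / d ≤ 2 * δ := div_le_self (by linarith) (by exact_mod_cast hd)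
      have h10 : 2 * δ / d' ≤ 2 * δ := div_le_self (by linarith) (by exact_mod_cast hd')
      have h11 : 1 / ((d * d' : ℕ) : ℝ) ≤ 4 * δ := h7.trans (h8.trans (by linarith))
      rw [div_le_iff₀ (by positivity)] at h11
      push_cast at h11
      have h12 : (d : ℝ) * d' ≤ (H : ℝ) ^ 2 := by
        have e1 : (d : ℝ) ≤ H := by exact_mod_cast hdH
        have e2 : (d' : ℝ) ≤ H := by exact_mod_cast hdd.trans hdH
        rw [pow_two]
        exact mul_le_mul e1 e2 hd0'.le (hd0.le.trans e1)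
      have h13 : 4 * δ * ((d : ℝ) * d') ≤ 4 * δ * (H : ℝ) ^ 2 := mul_le_mul_of_nonneg_left h12 (by linarith)
      have h14 : 0 ≤ (H : ℝ) ^ 2 * δ := by positivity
      linarith
    have h6 : (d.gcd d') • a = 0 := by
      rw [← addOrderOf_dvd_iff_nsmul_eq_zero] at ha ⊢
      rw [← h5, ← addOrderOf_dvd_iff_nsmul_eq_zero] at ha'
      exact Nat.dvd_gcd ha ha'
    exact Set.mem_biUnion (Finset.mem_coe.2 (hT2 a h6)) h3
  calc volume.real {y : UnitAddCircle | ‖d • y‖ ≤ 2 * δ ∧ ‖d' • y‖ ≤ 2 * δ}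
      ≤ volume.real (⋃ a ∈ T, {y : UnitAddCircle | ‖y - a‖ ≤ 2 * δ / d}) :=
        measureReal_mono hsub (measure_ne_top _ _)
    _ ≤ ∑ a ∈ T, volume.real {y : UnitAddCircle | ‖y - a‖ ≤ 2 * δ / d} := measureReal_biUnion_finset_le _ _
    _ ≤ ∑ _a ∈ T, 2 * (2 * δ / d) := Finset.sum_le_sum fun a _ => volume_ball_le (by positivity) a
    _ = T.card * (4 * δ / d) := by rw [Finset.sum_const, nsmul_eq_mul]; ring
    _ ≤ (d.gcd d' : ℕ) * (4 * δ / d) := mul_le_mul_of_nonneg_right (by exact_mod_cast hT) (by positivity)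
    _ = 4 * δ * (d.gcd d') / d := by ring

private lemma gcd_row_h17 {d : ℕ} (hd : 1 ≤ d) {H : ℕ} (hdH : d ≤ H) :
    ∑ d' ∈ Finset.Icc 1 d, ((d.gcd d' : ℕ) : ℝ) / d ≤ ∑ g ∈ Finset.Icc 1 H, (if g ∣ d then (1 : ℝ) else 0) := by
  have hd0 : (0 : ℝ) < d := by exact_mod_cast hd
  have h1 : ∀ d' ∈ Finset.Icc 1 d, ((d.gcd d' : ℕ) : ℝ) / d ≤
      ∑ g ∈ Finset.Icc 1 H, (if g ∣ d then (if g ∣ d' then (g : ℝ) / d else 0) else 0) := by
    intro d' _
    have hg : 0 < d.gcd d' := Nat.gcd_pos_of_pos_left _ hd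
    have hmem : d.gcd d' ∈ Finset.Icc 1 H :=
      Finset.mem_Icc.2 ⟨hg, (Nat.le_of_dvd hd (Nat.gcd_dvd_left d d')).trans hdH⟩
    have h2 := Finset.single_le_sum (f := fun g : ℕ => (if g ∣ d then (if g ∣ d' then (g : ℝ) / d else 0) else 0))
      (fun g _ => by split_ifs <;> positivity) hmem
    simp only [Nat.gcd_dvd_left, Nat.gcd_dvd_right, if_true] at h2
    exact h2
  refine (Finset.sum_le_sum h1).trans ?_
  rw [Finset.sum_comm]
  refine Finset.sum_le_sum fun g hg => ?_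
  have hg1 : 1 ≤ g := (Finset.mem_Icc.1 hg).1
  by_cases hgd : g ∣ d
  · simp only [if_pos hgd]
    rw [← Finset.sum_filter, Finset.sum_const, nsmul_eq_mul]
    have h3 : ((Finset.Icc 1 d).filter fun a => g ∣ a).card = d / g := by
      rw [← Nat.Ioc_filter_dvd_card_eq_div]
      rfl
    rw [h3]
    have h4 : ((d / g : ℕ) : ℝ) = (d : ℝ) / g := Nat.cast_div hgd (by positivity)
    rw [h4]
    have hg0 : (0 : ℝ) < g := by exact_mod_cast hg1
    apply le_of_eq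
    field_simp
  · simp only [if_neg hgd, Finset.sum_const_zero, le_refl]

theorem sum_gcd_div_le (H : ℕ) (hH : 1 ≤ H) :
    ∑ d ∈ Finset.Icc 1 H, ∑ d' ∈ Finset.Icc 1 d, ((d.gcd d' : ℕ) : ℝ) / d ≤
      H * (1 + Real.log H) := by
  calc ∑ d ∈ Finset.Icc 1 H, ∑ d' ∈ Finset.Icc 1 d, ((d.gcd d' : ℕ) : ℝ) / d
      ≤ ∑ d ∈ Finset.Icc 1 H, ∑ g ∈ Finset.Icc 1 H, (if g ∣ d then (1 : ℝ) else 0) :=
        Finset.sum_le_sum fun d hd => gcd_row_h17 (Finset.mem_Icc.1 hd).1 (Finset.mem_Icc.1 hd).2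
    _ = ∑ g ∈ Finset.Icc 1 H, ((H / g : ℕ) : ℝ) := by
        rw [Finset.sum_comm]
        refine Finset.sum_congr rfl fun g _ => ?_
        rw [← Finset.sum_filter, Finset.sum_const, nsmul_eq_mul, mul_one]
        congr 1
        rw [← Nat.Ioc_filter_dvd_card_eq_div]
        rfl
    _ ≤ ∑ g ∈ Finset.Icc 1 H, (H : ℝ) * (g : ℝ)⁻¹ := by
        refine Finset.sum_le_sum fun g _ => ?_
        rw [← div_eq_mul_inv]
        exact Nat.cast_div_le
    _ = (H : ℝ) * ((harmonic H : ℚ) : ℝ) := by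
        rw [← Finset.mul_sum, harmonic_eq_sum_Icc]
        push_cast
        rfl
    _ ≤ H * (1 + Real.log H) := mul_le_mul_of_nonneg_left (harmonic_le_one_add_log H) (by positivity)

private lemma om_eq_h17 (H : ℕ) (δ : ℝ) (y : UnitAddCircle) :
    (om H δ y : ℝ) = ∑ d ∈ Finset.Icc 1 H, Set.indicator {y : UnitAddCircle | ‖d • y‖ ≤ 2 * δ} (fun _ => (1 : ℝ)) y := by
  classical
  unfold om
  rw [Finset.card_filter]
  push_cast
  refine Finset.sum_congr rfl fun d _ => ?_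
  rw [Set.indicator_apply]
  by_cases h : ‖d • y‖ ≤ 2 * δ
  · rw [if_pos h, if_pos (show y ∈ {y : UnitAddCircle | ‖d • y‖ ≤ 2 * δ} from h)]
  · rw [if_neg h, if_neg (show y ∉ {y : UnitAddCircle | ‖d • y‖ ≤ 2 * δ} from h)]

private lemma meas_E_h17 (d : ℕ) (δ : ℝ) : MeasurableSet {y : UnitAddCircle | ‖d • y‖ ≤ 2 * δ} :=
  (isClosed_le ((continuous_nsmul d).norm) continuous_const).measurableSet

theorem measurable_om (H : ℕ) (δ : ℝ) : Measurable fun y => (om H δ y : ℝ) := by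
  simp only [om_eq_h17]
  exact Finset.measurable_sum _ fun d _ => measurable_const.indicator (meas_E_h17 d δ)

theorem om_le (H : ℕ) (δ : ℝ) (y : UnitAddCircle) : om H δ y ≤ H := by
  classical
  unfold om
  exact (Finset.card_filter_le _ _).trans (by rw [Nat.card_Icc]; omega)

private lemma sq_le_h17 (H : ℕ) (f : ℕ → ℝ) (hf : ∀ d, 0 ≤ f d) :
    (∑ d ∈ Finset.Icc 1 H, f d) ^ 2 ≤ 2 * ∑ d ∈ Finset.Icc 1 H, ∑ d' ∈ Finset.Icc 1 d, f d * f d' := by
  have hA : ∑ d ∈ Finset.Icc 1 H, ∑ d' ∈ Finset.Icc 1 d, f d * f d' =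
      ∑ d ∈ Finset.Icc 1 H, ∑ d' ∈ Finset.Icc 1 H, (if d' ≤ d then f d * f d' else 0) := by
    refine Finset.sum_congr rfl fun d hd => ?_
    rw [← Finset.sum_filter]
    refine Finset.sum_congr ?_ fun _ _ => rfl
    ext x
    rw [Finset.mem_filter, Finset.mem_Icc, Finset.mem_Icc]
    have := (Finset.mem_Icc.1 hd).2
    omega
  have hB : ∑ d ∈ Finset.Icc 1 H, ∑ d' ∈ Finset.Icc 1 H, (if d' ≤ d then 0 else f d * f d') ≤
      ∑ d ∈ Finset.Icc 1 H, ∑ d' ∈ Finset.Icc 1 H, (if d' ≤ d then f d * f d' else 0) := by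
    rw [Finset.sum_comm]
    refine Finset.sum_le_sum fun d _ => Finset.sum_le_sum fun d' _ => ?_
    have h0 : 0 ≤ f d * f d' := mul_nonneg (hf _) (hf _)
    by_cases h : d ≤ d'
    · rw [if_pos h]
      split_ifs
      · exact h0
      · exact le_rfl
    · rw [if_neg h, if_pos (by omega), mul_comm]
  have hC : (∑ d ∈ Finset.Icc 1 H, f d) ^ 2 =
      ∑ d ∈ Finset.Icc 1 H, ∑ d' ∈ Finset.Icc 1 H, (if d' ≤ d then f d * f d' else 0) +
      ∑ d ∈ Finset.Icc 1 H, ∑ d' ∈ Finset.Icc 1 H, (if d' ≤ d then 0 else f d * f d') := by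
    rw [pow_two, Finset.sum_mul_sum, ← Finset.sum_add_distrib]
    refine Finset.sum_congr rfl fun d _ => ?_
    rw [← Finset.sum_add_distrib]
    refine Finset.sum_congr rfl fun d' _ => ?_
    split_ifs <;> ring
  rw [hC, hA]
  linarith

theorem integral_om_sq {H : ℕ} (hH : 1 ≤ H) {δ : ℝ} (hδ : 0 ≤ δ)
    (h : 20 * (H : ℝ) ^ 2 * δ < 1) :
    ∫ y, (om H δ y : ℝ) ^ 2 ≤ 8 * δ * H * (1 + Real.log H) := by
  let E : ℕ → Set UnitAddCircle := fun d => {y : UnitAddCircle | ‖d • y‖ ≤ 2 * δ}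
  have hE : ∀ d, MeasurableSet (E d) := fun d => meas_E_h17 d δ
  have hpt : ∀ y, (om H δ y : ℝ) ^ 2 ≤
      2 * ∑ d ∈ Finset.Icc 1 H, ∑ d' ∈ Finset.Icc 1 d, Set.indicator (E d ∩ E d') (fun _ => (1 : ℝ)) y := by
    intro y
    rw [om_eq_h17]
    refine (sq_le_h17 H (fun d => Set.indicator (E d) (fun _ => (1 : ℝ)) y)
      (fun d => Set.indicator_nonneg (fun _ _ => zero_le_one) y)).trans (le_of_eq ?_)
    congr 1
    refine Finset.sum_congr rfl fun d _ => Finset.sum_congr rfl fun d' _ => ?_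
    rw [← Set.inter_indicator_mul]
    congr 1
    funext z
    norm_num
  have hint : ∀ d d' : ℕ, Integrable (Set.indicator (E d ∩ E d') (fun _ => (1 : ℝ))) (volume : Measure UnitAddCircle) :=
    fun d d' => (integrable_const 1).indicator ((hE d).inter (hE d'))
  have hom : Integrable (fun y => (om H δ y : ℝ) ^ 2) (volume : Measure UnitAddCircle) := by
    refine Integrable.of_bound (((measurable_om H δ).pow_const 2).aestronglyMeasurable) ((H : ℝ) ^ 2)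
      (Filter.Eventually.of_forall fun y => ?_)
    rw [Real.norm_eq_abs, abs_of_nonneg (by positivity)]
    have h1 : (om H δ y : ℝ) ≤ H := by exact_mod_cast om_le H δ y
    exact pow_le_pow_left₀ (by positivity) h1 2
  calc ∫ y, (om H δ y : ℝ) ^ 2
      ≤ ∫ y, 2 * ∑ d ∈ Finset.Icc 1 H, ∑ d' ∈ Finset.Icc 1 d, Set.indicator (E d ∩ E d') (fun _ => (1 : ℝ)) y :=
        integral_mono hom ((integrable_finsetSum _ fun d _ => integrable_finsetSum _ fun d' _ =>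
          hint d d').const_mul 2) hpt
    _ = 2 * ∑ d ∈ Finset.Icc 1 H, ∑ d' ∈ Finset.Icc 1 d, volume.real (E d ∩ E d') := by
        rw [integral_const_mul, integral_finsetSum _ fun d _ => integrable_finsetSum _ fun d' _ => hint d d']
        congr 1
        refine Finset.sum_congr rfl fun d _ => ?_
        rw [integral_finsetSum _ fun d' _ => hint d d']
        refine Finset.sum_congr rfl fun d' _ => ?_
        exact integral_indicator_one ((hE d).inter (hE d'))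
    _ ≤ 2 * ∑ d ∈ Finset.Icc 1 H, ∑ d' ∈ Finset.Icc 1 d, 4 * δ * (((d.gcd d' : ℕ) : ℝ) / d) := by
        refine mul_le_mul_of_nonneg_left ?_ (by norm_num)
        refine Finset.sum_le_sum fun d hd => Finset.sum_le_sum fun d' hd' => ?_
        rw [← mul_div_assoc]
        exact inter_two hδ h (Finset.mem_Icc.1 hd').1 (Finset.mem_Icc.1 hd').2 (Finset.mem_Icc.1 hd).2
    _ = 8 * δ * ∑ d ∈ Finset.Icc 1 H, ∑ d' ∈ Finset.Icc 1 d, (((d.gcd d' : ℕ) : ℝ) / d) := by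
        simp only [← Finset.mul_sum]
        ring
    _ ≤ 8 * δ * (H * (1 + Real.log H)) := mul_le_mul_of_nonneg_left (sum_gcd_div_le H hH) (by positivity)
    _ = 8 * δ * H * (1 + Real.log H) := by ring

end Pool.Agent.Helper25.MOB
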