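import Pool.Agent.Helper25.MOB.C5
import Pool.Agent.Helper25.MOB.I1

/-!
Block MOB-I2.  Integration of the pair lemma over `R × R`.

Integrate `card_S_le` over `(y, y') ∈ R × R`; `ρ = volume.real R`, `P = primesIn H`:
* the constant `6` gives `6 ρ²`;
* `∫_R ∫_R 1[‖y - y'‖ ≤ δ / H] ≤ ρ (2 δ / H)` (`volume_ball_le`);
* `∫_R ∫_R om y = ρ ∫_R om ≤ ρ √(ρ ∫ om²) ≤ ρ √(ρ 8 δ H (1 + log H))`, twice with factor `2`;
* the terms of the double sum are products of a function of `y` and a function of `y'`: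
  `(B / (q 2^j)) volume.real (R ∩ cl (2^j / N) q) ^ 2`.
All functions are bounded and measurable.
-/

namespace Pool.Agent.Helper25.MOB

open MeasureTheory

private lemma h94_ball_mem (r : ℝ) (y : UnitAddCircle) :
    (fun y' : UnitAddCircle => (if ‖y - y'‖ ≤ r then (1 : ℝ) else 0)) =
      Set.indicator {z : UnitAddCircle | ‖z - y‖ ≤ r} 1 := by
  classical
  funext z
  rw [Set.indicator_apply]
  simp only [Set.mem_ofPred_eq, norm_sub_rev y z, Pi.one_apply]

private lemma h94_near_le (R : Set UnitAddCircle) {r : ℝ} (hr : 0 ≤ r) (y : UnitAddCircle) :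
    ∫ y' in R, (if ‖y - y'‖ ≤ r then (1 : ℝ) else 0) ≤ 2 * r := by
  have hE := measurableSet_ball' r y
  rw [h94_ball_mem, integral_indicator_one hE, measureReal_restrict_apply hE]
  exact (measureReal_mono Set.inter_subset_left (measure_ne_top _ _)).trans (volume_ball_le hr y)

private lemma h94_near_int (R : Set UnitAddCircle) (r : ℝ) (y : UnitAddCircle) :
    Integrable (fun y' : UnitAddCircle => (if ‖y - y'‖ ≤ r then (1 : ℝ) else 0)) (volume.restrict R) := by
  rw [h94_ball_mem]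
  exact (integrable_const (1 : ℝ)).indicator (measurableSet_ball' r y)

open scoped Classical in
theorem integral_near (R : Set UnitAddCircle) (hR : MeasurableSet R) {r : ℝ} (hr : 0 ≤ r) :
    ∫ y in R, ∫ y' in R, (if ‖y - y'‖ ≤ r then (1 : ℝ) else 0) ≤ volume.real R * (2 * r) := by
  have h2 : ∫ y in R, ∫ y' in R, (if ‖y - y'‖ ≤ r then (1 : ℝ) else 0) ≤ ∫ _y in R, (2 * r) := by
    refine integral_mono_of_nonneg (Filter.Eventually.of_forall fun y => ?_) (integrable_const _)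
      (Filter.Eventually.of_forall fun y => h94_near_le R hr y)
    refine integral_nonneg fun y' => ?_
    show (0 : ℝ) ≤ if ‖y - y'‖ ≤ r then (1 : ℝ) else 0
    split_ifs
    · exact zero_le_one
    · exact le_rfl
  refine h2.trans (le_of_eq ?_)
  rw [setIntegral_const, smul_eq_mul]

private lemma h94_om_int (R : Set UnitAddCircle) (H : ℕ) (δ : ℝ) :
    Integrable (fun y => (om H δ y : ℝ)) (volume.restrict R) := by
  refine Integrable.of_bound (measurable_om H δ).aestronglyMeasurable (H : ℝ)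
    (Filter.Eventually.of_forall fun y => ?_)
  rw [Real.norm_eq_abs, abs_of_nonneg (by positivity)]
  exact_mod_cast om_le H δ y

private lemma h94_om_sq_int (R : Set UnitAddCircle) (H : ℕ) (δ : ℝ) :
    Integrable (fun y => (om H δ y : ℝ) ^ 2) (volume.restrict R) := by
  refine Integrable.of_bound ((measurable_om H δ).pow_const 2).aestronglyMeasurable ((H : ℝ) ^ 2)
    (Filter.Eventually.of_forall fun y => ?_)
  rw [Real.norm_eq_abs, abs_of_nonneg (by positivity)]
  have h1 : (om H δ y : ℝ) ≤ H := by exact_mod_cast om_le H δ y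
  exact pow_le_pow_left₀ (by positivity) h1 2

private lemma h94_cs (R : Set UnitAddCircle) (H : ℕ) (δ : ℝ) :
    (∫ y in R, (om H δ y : ℝ)) ^ 2 ≤ volume.real R * ∫ y in R, (om H δ y : ℝ) ^ 2 := by
  set ρ : ℝ := volume.real R with hρ
  set I : ℝ := ∫ y in R, (om H δ y : ℝ) with hI
  set J : ℝ := ∫ y in R, (om H δ y : ℝ) ^ 2 with hJ
  have hρ0 : 0 ≤ ρ := measureReal_nonneg
  rcases hρ0.eq_or_lt with h0 | h0
  · have h1 : volume R = 0 := by
      have h2 : volume.real R = 0 := h0.symm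
      rwa [measureReal_eq_zero_iff (measure_ne_top _ _)] at h2
    have h3 : I = 0 := by rw [hI, setIntegral_measure_zero _ h1]
    rw [h3, ← h0]
    norm_num
  · have hi1 := h94_om_int R H δ
    have hi2 := h94_om_sq_int R H δ
    have h1 : 0 ≤ ∫ y in R, ((om H δ y : ℝ) - I / ρ) ^ 2 := integral_nonneg fun y => sq_nonneg _
    have h2 : ∫ y in R, ((om H δ y : ℝ) - I / ρ) ^ 2 = J - 2 * (I / ρ) * I + ρ * (I / ρ) ^ 2 := by
      have e : (fun y => ((om H δ y : ℝ) - I / ρ) ^ 2) =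
          fun y => ((om H δ y : ℝ) ^ 2 - 2 * (I / ρ) * (om H δ y : ℝ)) + (I / ρ) ^ 2 := by
        funext y
        ring
      have k1 : Integrable (fun y => 2 * (I / ρ) * (om H δ y : ℝ)) (volume.restrict R) := hi1.const_mul _
      have k2 : Integrable (fun y => (om H δ y : ℝ) ^ 2 - 2 * (I / ρ) * (om H δ y : ℝ)) (volume.restrict R) :=
        hi2.sub k1
      rw [e, integral_add k2 (integrable_const _), integral_sub hi2 k1, integral_const_mul, setIntegral_const,
        smul_eq_mul]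
    rw [h2] at h1
    have h3 : J - 2 * (I / ρ) * I + ρ * (I / ρ) ^ 2 = J - I ^ 2 / ρ := by
      field_simp
      ring
    rw [h3] at h1
    have h4 : I ^ 2 / ρ ≤ J := by linarith
    rw [div_le_iff₀ h0] at h4
    linarith

theorem integral_om_le {H : ℕ} (hH : 1 ≤ H) {δ : ℝ} (hδ : 0 ≤ δ)
    (h : 20 * (H : ℝ) ^ 2 * δ < 1) (R : Set UnitAddCircle) (hR : MeasurableSet R) :
    ∫ y in R, (om H δ y : ℝ) ≤ √(volume.real R * (8 * δ * H * (1 + Real.log H))) := by
  have hI0 : 0 ≤ ∫ y in R, (om H δ y : ℝ) := integral_nonneg fun y => by positivity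
  have h1 := h94_cs R H δ
  have hi : Integrable (fun y => (om H δ y : ℝ) ^ 2) (volume : Measure UnitAddCircle) := by
    have := h94_om_sq_int Set.univ H δ
    rwa [Measure.restrict_univ] at this
  have h2 : ∫ y in R, (om H δ y : ℝ) ^ 2 ≤ 8 * δ * H * (1 + Real.log H) :=
    (setIntegral_le_integral hi (Filter.Eventually.of_forall fun y => sq_nonneg _)).trans
      (integral_om_sq hH hδ h)
  have h3 := h1.trans (mul_le_mul_of_nonneg_left h2 measureReal_nonneg)
  calc ∫ y in R, (om H δ y : ℝ) = √((∫ y in R, (om H δ y : ℝ)) ^ 2) := (Real.sqrt_sq hI0).symm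
    _ ≤ _ := Real.sqrt_le_sqrt h3

open scoped Classical in
private lemma h94_cl_ind (t : ℝ) (q : ℕ) :
    (fun y : UnitAddCircle => (if y ∈ cl t q then (1 : ℝ) else 0)) = Set.indicator (cl t q) 1 := by
  funext z
  rw [Set.indicator_apply]
  simp only [Pi.one_apply]

open scoped Classical in
private lemma h94_cl_int (R : Set UnitAddCircle) (t : ℝ) (q : ℕ) :
    Integrable (fun y : UnitAddCircle => (if y ∈ cl t q then (1 : ℝ) else 0)) (volume.restrict R) := by
  rw [h94_cl_ind]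
  exact (integrable_const (1 : ℝ)).indicator (measurableSet_cl t q)

open scoped Classical in
private lemma h94_cl_val (R : Set UnitAddCircle) (t : ℝ) (q : ℕ) :
    ∫ y in R, (if y ∈ cl t q then (1 : ℝ) else 0) = volume.real (R ∩ cl t q) := by
  have hE := measurableSet_cl t q
  rw [h94_cl_ind, integral_indicator_one hE, measureReal_restrict_apply hE, Set.inter_comm]

open scoped Classical in
/-- the integral of a constant plus multiples of `om` and of indicator functions -/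
private lemma h94_gen (R : Set UnitAddCircle) (H : ℕ) (δ a b : ℝ) (T : Finset (ℕ × ℕ)) (c : ℕ × ℕ → ℝ) (t : ℕ × ℕ → ℝ) :
    Integrable (fun y : UnitAddCircle => a + b * (om H δ y : ℝ) + ∑ v ∈ T, c v * (if y ∈ cl (t v) v.1 then (1 : ℝ) else 0))
      (volume.restrict R) ∧
    ∫ y in R, (a + b * (om H δ y : ℝ) + ∑ v ∈ T, c v * (if y ∈ cl (t v) v.1 then (1 : ℝ) else 0)) =
      volume.real R * a + b * (∫ y in R, (om H δ y : ℝ)) + ∑ v ∈ T, c v * volume.real (R ∩ cl (t v) v.1) := by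
  have h1 : Integrable (fun y : UnitAddCircle => a + b * (om H δ y : ℝ)) (volume.restrict R) :=
    (integrable_const a).add ((h94_om_int R H δ).const_mul b)
  have h2 : ∀ v ∈ T, Integrable (fun y : UnitAddCircle => c v * (if y ∈ cl (t v) v.1 then (1 : ℝ) else 0)) (volume.restrict R) :=
    fun v _ => (h94_cl_int R (t v) v.1).const_mul _
  refine ⟨h1.add (integrable_finsetSum _ h2), ?_⟩
  rw [integral_add h1 (integrable_finsetSum _ h2), integral_add (integrable_const a) ((h94_om_int R H δ).const_mul b),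
    setIntegral_const, smul_eq_mul, integral_const_mul, integral_finsetSum _ h2]
  congr 1
  refine Finset.sum_congr rfl fun v _ => ?_
  rw [integral_const_mul, h94_cl_val]

theorem integral_S_le {H : ℕ} (hH : 4 ≤ H) {δ : ℝ} (hδ : 0 ≤ δ) (h : 20 * (H : ℝ) ^ 2 * δ < 1)
    {N : ℝ} (hN : 0 < N) {B k : ℕ} (hB1 : 30 * (H : ℝ) ^ 2 ≤ B) (hB2 : 40 * H * N * δ ≤ B)
    (hk : B < 2 ^ k) (R : Set UnitAddCircle) (hR : MeasurableSet R) :
    ∫ y in R, ∫ y' in R, ((S H δ y y').card : ℝ) ≤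
      6 * (volume.real R) ^ 2 + ((primesIn H).card : ℝ) * (volume.real R * (2 * (δ / H))) +
      4 * volume.real R * √(volume.real R * (8 * δ * H * (1 + Real.log H))) +
      ∑ v ∈ (Finset.Icc 1 B ×ˢ Finset.range k).filter (fun v => v.1 * 2 ^ v.2 ≤ B),
        (B : ℝ) / (v.1 * 2 ^ v.2) * (volume.real (R ∩ cl (2 ^ v.2 / N) v.1)) ^ 2 := by
  classical
  set T := (Finset.Icc 1 B ×ˢ Finset.range k).filter (fun v => v.1 * 2 ^ v.2 ≤ B) with hT
  set ρ : ℝ := volume.real R with hρ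
  set I : ℝ := ∫ y in R, (om H δ y : ℝ) with hI
  set P : ℝ := ((primesIn H).card : ℝ) with hP
  have hρ0 : 0 ≤ ρ := measureReal_nonneg
  have hP0 : 0 ≤ P := Nat.cast_nonneg _
  have hH0 : (0 : ℝ) < H := by
    have : 0 < H := by omega
    exact_mod_cast this
  have hdH : 0 ≤ δ / H := by positivity
  -- inner integral
  have hin : ∀ y : UnitAddCircle, ∫ y' in R, ((S H δ y y').card : ℝ) ≤
      (6 * ρ + P * (2 * (δ / H)) + 2 * I) + (2 * ρ) * (om H δ y : ℝ) +
        ∑ v ∈ T, ((B : ℝ) / (v.1 * 2 ^ v.2) * volume.real (R ∩ cl (2 ^ v.2 / N) v.1)) *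
          (if y ∈ cl (2 ^ v.2 / N) v.1 then (1 : ℝ) else 0) := by
    intro y
    obtain ⟨hg1, hg2⟩ := h94_gen R H δ (6 + 2 * (om H δ y : ℝ)) 2 T
      (fun v => (B : ℝ) / (v.1 * 2 ^ v.2) * (if y ∈ cl (2 ^ v.2 / N) v.1 then (1 : ℝ) else 0))
      (fun v => 2 ^ v.2 / N)
    have hn := (h94_near_int R (δ / H) y).const_mul P
    have h1 : ∫ y' in R, ((S H δ y y').card : ℝ) ≤
        ∫ y' in R, (P * (if ‖y - y'‖ ≤ δ / H then (1 : ℝ) else 0) +
          ((6 + 2 * (om H δ y : ℝ)) + 2 * (om H δ y' : ℝ) + ∑ v ∈ T,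
            ((B : ℝ) / (v.1 * 2 ^ v.2) * (if y ∈ cl (2 ^ v.2 / N) v.1 then (1 : ℝ) else 0)) *
              (if y' ∈ cl (2 ^ v.2 / N) v.1 then (1 : ℝ) else 0))) := by
      refine integral_mono_of_nonneg (Filter.Eventually.of_forall fun y' => Nat.cast_nonneg _) (hn.add hg1)
        (Filter.Eventually.of_forall fun y' => ?_)
      refine (card_S_le hH hδ h hN hB1 hB2 hk y y').trans (le_of_eq ?_)
      have e1 : (if ‖y - y'‖ ≤ δ / H then P else 0) = P * (if ‖y - y'‖ ≤ δ / H then (1 : ℝ) else 0) := by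
        split_ifs <;> simp
      have e2 : ∑ v ∈ T, (B : ℝ) / (v.1 * 2 ^ v.2) * ((if y ∈ cl (2 ^ v.2 / N) v.1 then (1 : ℝ) else 0) *
          (if y' ∈ cl (2 ^ v.2 / N) v.1 then (1 : ℝ) else 0)) = ∑ v ∈ T,
            ((B : ℝ) / (v.1 * 2 ^ v.2) * (if y ∈ cl (2 ^ v.2 / N) v.1 then (1 : ℝ) else 0)) *
              (if y' ∈ cl (2 ^ v.2 / N) v.1 then (1 : ℝ) else 0) :=
        Finset.sum_congr rfl fun v _ => by ring
      simp only [← hP, ← hT]
      rw [e1, e2]
      ring
    refine h1.trans ?_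
    rw [integral_add hn hg1, hg2, integral_const_mul]
    have h3 := mul_le_mul_of_nonneg_left (h94_near_le R hdH y) hP0
    have e3 : ∑ v ∈ T, ((B : ℝ) / (v.1 * 2 ^ v.2) * (if y ∈ cl (2 ^ v.2 / N) v.1 then (1 : ℝ) else 0)) *
          volume.real (R ∩ cl (2 ^ v.2 / N) v.1) =
        ∑ v ∈ T, ((B : ℝ) / (v.1 * 2 ^ v.2) * volume.real (R ∩ cl (2 ^ v.2 / N) v.1)) *
          (if y ∈ cl (2 ^ v.2 / N) v.1 then (1 : ℝ) else 0) :=
      Finset.sum_congr rfl fun v _ => by ring
    rw [e3]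
    simp only [← hρ, ← hI]
    linarith
  obtain ⟨hG1, hG2⟩ := h94_gen R H δ (6 * ρ + P * (2 * (δ / H)) + 2 * I) (2 * ρ) T
    (fun v => (B : ℝ) / (v.1 * 2 ^ v.2) * volume.real (R ∩ cl (2 ^ v.2 / N) v.1)) (fun v => 2 ^ v.2 / N)
  have hout := integral_mono_of_nonneg (μ := volume.restrict R)
    (Filter.Eventually.of_forall fun y : UnitAddCircle =>
      (integral_nonneg fun y' : UnitAddCircle => Nat.cast_nonneg _ :
        (0 : ℝ) ≤ ∫ y' in R, ((S H δ y y').card : ℝ))) hG1 (Filter.Eventually.of_forall hin)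
  refine hout.trans ?_
  rw [hG2]
  have hI2 : I ≤ √(ρ * (8 * δ * H * (1 + Real.log H))) := integral_om_le (by omega) hδ h R hR
  have h5 := mul_le_mul_of_nonneg_left hI2 (show 0 ≤ 4 * ρ by positivity)
  have e4 : ∑ v ∈ T, (B : ℝ) / (v.1 * 2 ^ v.2) * volume.real (R ∩ cl (2 ^ v.2 / N) v.1) *
        volume.real (R ∩ cl (2 ^ v.2 / N) v.1) =
      ∑ v ∈ T, (B : ℝ) / (v.1 * 2 ^ v.2) * (volume.real (R ∩ cl (2 ^ v.2 / N) v.1)) ^ 2 :=
    Finset.sum_congr rfl fun v _ => by ring
  rw [e4]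
  simp only [← hρ, ← hI]
  linarith

end Pool.Agent.Helper25.MOB
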