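import Pool.Agent.Helper25.MOB.Defs

/-!
Block MOB-A3.  Primes in dyadic intervals: for every `η > 0` the number of primes in
`[H, 2H)` is at least `H ^ (1 - η)` for all large `H`, and the same for the primes up to `M`.

Any proof will do.  (i) The prime number theorem is proved in `Pool.Agent.Helper7.PNT.AP`
(`prime_number_theorem`), `π(2H - 1) - π(H - 1) ~ H / log H`.  (ii) Or elementary: the central
binomial coefficient `C(2n, n) ≥ 4 ^ n / (2 n)` divides the product of prime powers `≤ 2 n`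
(`Nat.factorization_choose_le_log`), the primes `≤ √(2n)` contribute at most `(2n) ^ √(2n)`, the
primes in `(√(2n), 2n/3]` at most `primorial (2n/3) ≤ 4 ^ (2n/3)`, and there are none in
`(2n/3, n]`, so the product of the primes in `(n, 2n]` is at least `4 ^ (n/3) (2n) ^ (-√(2n) - 1)` (this is in
Mathlib's proof of Bertrand's postulate, `Mathlib.NumberTheory.Bertrand`) and each is `≤ 2n`.
-/

namespace Pool.Agent.Helper25.MOB

open Filter

private theorem cb_small56 (n : ℕ) (n_large : 2 < n) :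
    ∏ p ∈ (Finset.range (2 * n / 3 + 1)).filter Nat.Prime,
      p ^ (Nat.centralBinom n).factorization p ≤
      (2 * n) ^ Nat.sqrt (2 * n) * 4 ^ (2 * n / 3) := by
  have n_pos : 0 < n := (Nat.zero_le _).trans_lt n_large
  have n2_pos : 1 ≤ 2 * n := by omega
  obtain ⟨S, hS⟩ : ∃ S, S = (Finset.range (2 * n / 3 + 1)).filter Nat.Prime := ⟨_, rfl⟩
  let f : ℕ → ℕ := fun x => x ^ n.centralBinom.factorization x
  rw [← hS]
  change ∏ p ∈ S, f p ≤ _
  rw [← Finset.prod_filter_mul_prod_filter_not S (· ≤ Nat.sqrt (2 * n))]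
  apply mul_le_mul'
  · refine (Finset.prod_le_prod' fun p _ => (?_ : f p ≤ 2 * n)).trans ?_
    · exact Nat.pow_factorization_choose_le (mul_pos two_pos n_pos)
    have h0 : (Finset.Icc 1 (Nat.sqrt (2 * n))).card = Nat.sqrt (2 * n) := by
      rw [Nat.card_Icc, Nat.add_sub_cancel]
    rw [Finset.prod_const]
    refine pow_right_mono₀ n2_pos ((Finset.card_le_card fun x hx => ?_).trans h0.le)
    obtain ⟨h1, h2⟩ := Finset.mem_filter.1 hx
    rw [hS] at h1
    exact Finset.mem_Icc.mpr ⟨(Finset.mem_filter.1 h1).2.one_lt.le, h2⟩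
  · refine le_trans ?_ (primorial_le_four_pow (2 * n / 3))
    refine (Finset.prod_le_prod' fun p hp => (?_ : f p ≤ p)).trans ?_
    · obtain ⟨h1, h2⟩ := Finset.mem_filter.1 hp
      rw [hS] at h1
      refine (pow_right_mono₀ (Finset.mem_filter.1 h1).2.one_lt.le ?_).trans (pow_one p).le
      exact Nat.factorization_choose_le_one (Nat.sqrt_lt'.mp <| not_le.1 h2)
    rw [hS]
    refine Finset.prod_le_prod_of_subset_of_one_le' (Finset.filter_subset _ _) ?_
    exact fun p hp _ => (Finset.mem_filter.1 hp).2.one_lt.le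

private theorem cb_le56 (n : ℕ) (hn : 2 < n) : Nat.centralBinom n ≤
    (2 * n) ^ (Nat.sqrt (2 * n) + (primesIn n).card) * 4 ^ (2 * n / 3) := by
  classical
  have n_pos : 0 < n := by omega
  obtain ⟨f, hf⟩ : ∃ f : ℕ → ℕ, f = fun p => p ^ n.centralBinom.factorization p := ⟨_, rfl⟩
  have h1 : n.centralBinom = ∏ p ∈ Finset.range (2 * n + 1), f p := by
    rw [hf]
    exact n.prod_pow_factorization_centralBinom.symm
  have h2 : ∏ p ∈ Finset.range (2 * n + 1), f p =
      ∏ p ∈ (Finset.range (2 * n / 3 + 1)).filter Nat.Prime ∪ primesIn n, f p := by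
    symm
    apply Finset.prod_subset
    · intro p hp
      rcases Finset.mem_union.1 hp with hp | hp
      · have h3 := Finset.mem_range.1 (Finset.mem_filter.1 hp).1
        exact Finset.mem_range.2 (by omega)
      · have h3 := Finset.mem_Ico.1 (Finset.mem_filter.1 hp).1
        exact Finset.mem_range.2 (by omega)
    · intro p hp hp2
      rw [hf]
      change p ^ n.centralBinom.factorization p = 1
      by_cases hpp : p.Prime
      · have h3 := Finset.mem_range.1 hp
        have h4 : 2 * n / 3 < p := by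
          by_contra hcon
          exact hp2 (Finset.mem_union_left _ (Finset.mem_filter.2
            ⟨Finset.mem_range.2 (by omega), hpp⟩))
        have h5 : p < n := by
          by_contra hcon
          have h6 : ¬ p < 2 * n := fun h6 => hp2 (Finset.mem_union_right _
            (Finset.mem_filter.2 ⟨Finset.mem_Ico.2 ⟨by omega, h6⟩, hpp⟩))
          have h7 : p = 2 * n := by omega
          have h8 : 2 ∣ p := by rw [h7]; exact dvd_mul_right _ _
          have h9 := (Nat.prime_dvd_prime_iff_eq Nat.prime_two hpp).mp h8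
          omega
        rw [Nat.factorization_centralBinom_of_two_mul_self_lt_three_mul hn (by omega) (by omega),
          pow_zero]
      · rw [Nat.factorization_eq_zero_of_not_prime _ hpp, pow_zero]
  have h3 : Disjoint ((Finset.range (2 * n / 3 + 1)).filter Nat.Prime) (primesIn n) := by
    rw [Finset.disjoint_left]
    intro p hp hp'
    have h4 := Finset.mem_range.1 (Finset.mem_filter.1 hp).1
    have h5 := Finset.mem_Ico.1 (Finset.mem_filter.1 hp').1
    omega
  rw [h1, h2, Finset.prod_union h3]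
  have h4 : ∏ p ∈ primesIn n, f p ≤ (2 * n) ^ (primesIn n).card := by
    rw [← Finset.prod_const]
    refine Finset.prod_le_prod' fun p _ => ?_
    rw [hf]
    exact Nat.pow_factorization_choose_le (mul_pos two_pos n_pos)
  have h5 : ∏ p ∈ (Finset.range (2 * n / 3 + 1)).filter Nat.Prime, f p ≤
      (2 * n) ^ Nat.sqrt (2 * n) * 4 ^ (2 * n / 3) := by
    rw [hf]
    exact cb_small56 n hn
  calc _ ≤ ((2 * n) ^ Nat.sqrt (2 * n) * 4 ^ (2 * n / 3)) * (2 * n) ^ (primesIn n).card :=
        mul_le_mul' h5 h4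
    _ = _ := by rw [pow_add]; ring

private theorem key56 (n : ℕ) (hn : 4 ≤ n) : (n : ℝ) / 3 * Real.log 4 ≤
    (Real.sqrt (2 * n) + (primesIn n).card + 1) * Real.log (2 * n) := by
  have h1 := Nat.four_pow_lt_mul_centralBinom n hn
  have h2 := cb_le56 n (by omega)
  have h3 : (4 : ℕ) ^ n ≤ (2 * n) ^ (Nat.sqrt (2 * n) + (primesIn n).card + 1) *
      4 ^ (2 * n / 3) := by
    calc 4 ^ n ≤ n * Nat.centralBinom n := h1.le
      _ ≤ (2 * n) * ((2 * n) ^ (Nat.sqrt (2 * n) + (primesIn n).card) * 4 ^ (2 * n / 3)) :=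
          mul_le_mul' (by omega) h2
      _ = _ := by rw [pow_succ]; ring
  have hn0 : (0 : ℝ) < n := by exact_mod_cast (by omega : 0 < n)
  have h4 : (4 : ℝ) ^ n ≤ (2 * (n : ℝ)) ^ (Nat.sqrt (2 * n) + (primesIn n).card + 1) *
      4 ^ (2 * n / 3) := by exact_mod_cast h3
  have h5 := Real.log_le_log (by positivity) h4
  rw [Real.log_mul (by positivity) (by positivity), Real.log_pow, Real.log_pow, Real.log_pow] at h5
  push_cast at h5
  have h6 : ((2 * n / 3 : ℕ) : ℝ) ≤ 2 * n / 3 := by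
    have := Nat.cast_div_le (α := ℝ) (m := 2 * n) (n := 3)
    push_cast at this
    exact this
  have h7 : ((Nat.sqrt (2 * n) : ℕ) : ℝ) ≤ Real.sqrt (2 * n) := by
    have := Real.nat_sqrt_le_real_sqrt (a := 2 * n)
    push_cast at this
    exact this
  have h8 : 0 ≤ Real.log 4 := Real.log_nonneg (by norm_num)
  have h9 : 0 ≤ Real.log (2 * n) := Real.log_nonneg (by
    have : (4 : ℝ) ≤ n := by exact_mod_cast hn
    linarith)
  have h10 : ((2 * n / 3 : ℕ) : ℝ) * Real.log 4 ≤ (2 * n / 3) * Real.log 4 :=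
    mul_le_mul_of_nonneg_right h6 h8
  have h11 : (((Nat.sqrt (2 * n) : ℕ) : ℝ) + (primesIn n).card + 1) * Real.log (2 * n) ≤
      (Real.sqrt (2 * n) + (primesIn n).card + 1) * Real.log (2 * n) :=
    mul_le_mul_of_nonneg_right (by linarith) h9
  linarith

private theorem little56 {η : ℝ} (hη : 0 < η) :
    (fun x : ℝ => (Real.sqrt (2 * x) + x ^ (1 - η) + 1) * Real.log (2 * x)) =o[atTop]
      fun x : ℝ => x := by
  have hlog : ∀ r : ℝ, 0 < r → (fun x : ℝ => Real.log (2 * x)) =o[atTop] fun x : ℝ => x ^ r := by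
    intro r hr
    have h1 : (fun x : ℝ => Real.log 2 + Real.log x) =o[atTop] fun x : ℝ => x ^ r := by
      refine Asymptotics.IsLittleO.add ?_ (isLittleO_log_rpow_atTop hr)
      refine Asymptotics.isLittleO_const_left.2 (Or.inr ?_)
      exact tendsto_norm_atTop_atTop.comp (tendsto_rpow_atTop hr)
    refine h1.congr' ?_ EventuallyEq.rfl
    filter_upwards [eventually_gt_atTop 0] with x hx
    rw [Real.log_mul (by norm_num) hx.ne']
  have e : ∀ a b : ℝ, a + b = 1 → (fun x : ℝ => x ^ a * x ^ b) =ᶠ[atTop] fun x : ℝ => x := by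
    intro a b hab
    filter_upwards [eventually_gt_atTop 0] with x hx
    rw [← Real.rpow_add hx, hab, Real.rpow_one]
  have h1 : (fun x : ℝ => Real.sqrt (2 * x) * Real.log (2 * x)) =o[atTop] fun x : ℝ => x := by
    have h2 : (fun x : ℝ => Real.sqrt (2 * x)) =O[atTop] fun x : ℝ => x ^ (1 / 2 : ℝ) := by
      have h3 : (fun x : ℝ => Real.sqrt (2 * x)) = fun x : ℝ => Real.sqrt 2 * x ^ (1 / 2 : ℝ) := by
        funext x
        rw [Real.sqrt_mul (by norm_num), Real.sqrt_eq_rpow x]
      rw [h3]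
      exact (Asymptotics.isBigO_refl _ _).const_mul_left _
    exact (h2.mul_isLittleO (hlog (1 / 2) (by norm_num))).congr' EventuallyEq.rfl
      (e _ _ (by norm_num))
  have h2 : (fun x : ℝ => x ^ (1 - η) * Real.log (2 * x)) =o[atTop] fun x : ℝ => x :=
    ((Asymptotics.isBigO_refl (fun x : ℝ => x ^ (1 - η)) atTop).mul_isLittleO (hlog η hη)).congr'
      EventuallyEq.rfl (e _ _ (by ring))
  have h3 : (fun x : ℝ => Real.log (2 * x)) =o[atTop] fun x : ℝ => x := by
    refine (hlog 1 one_pos).congr' EventuallyEq.rfl ?_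
    filter_upwards with x
    rw [Real.rpow_one]
  refine ((h1.add h2).add h3).congr' ?_ EventuallyEq.rfl
  filter_upwards with x
  ring

theorem primesIn_ge {η : ℝ} (hη : 0 < η) :
    ∀ᶠ H : ℕ in atTop, (H : ℝ) ^ (1 - η) ≤ (primesIn H).card := by
  have h1 := (little56 hη).def (c := Real.log 4 / 6) (by
    have := Real.log_pos (by norm_num : (1 : ℝ) < 4)
    positivity)
  have h2 := tendsto_natCast_atTop_atTop.eventually h1
  filter_upwards [h2, eventually_ge_atTop 4] with n hn hn4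
  by_contra hcon
  push Not at hcon
  have h3 := key56 n hn4
  have hn0 : (0 : ℝ) < n := by exact_mod_cast (by omega : 0 < n)
  have h9 : 0 < Real.log (2 * n) := Real.log_pos (by
    have : (4 : ℝ) ≤ n := by exact_mod_cast hn4
    linarith)
  have h4 : (Real.sqrt (2 * n) + (primesIn n).card + 1) * Real.log (2 * n) ≤
      (Real.sqrt (2 * n) + (n : ℝ) ^ (1 - η) + 1) * Real.log (2 * n) :=
    mul_le_mul_of_nonneg_right (by linarith) h9.le
  have h5 := (Real.le_norm_self _).trans hn
  rw [Real.norm_of_nonneg hn0.le] at h5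
  have h6 := Real.log_pos (by norm_num : (1 : ℝ) < 4)
  have h7 : (0 : ℝ) < n * Real.log 4 := mul_pos hn0 h6
  nlinarith

theorem primes_le_ge {η : ℝ} (hη : 0 < η) :
    ∀ᶠ M : ℕ in atTop, (M : ℝ) ^ (1 - η) ≤ ((Finset.Icc 1 M).filter Nat.Prime).card := by
  have hT : Tendsto (fun M : ℕ => (M + 1) / 2) atTop atTop :=
    tendsto_atTop_atTop.2 fun b => ⟨2 * b, fun a ha => by omega⟩
  have h1 := hT.eventually (primesIn_ge (half_pos hη))
  -- `M ^ (1 - η) ≤ ((M + 1) / 2) ^ (1 - η / 2)`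
  have h2 : ∀ᶠ x : ℝ in atTop, (2 : ℝ) ^ (1 - η / 2) ≤ x ^ (η / 2) :=
    (tendsto_rpow_atTop (half_pos hη)).eventually_ge_atTop _
  have h3 := tendsto_natCast_atTop_atTop.eventually h2
  have h4 : ∀ᶠ M : ℕ in atTop, (M : ℝ) ^ (1 - η) ≤ (((M + 1) / 2 : ℕ) : ℝ) ^ (1 - η / 2) := by
    filter_upwards [h3, eventually_ge_atTop 1] with M hM hM1
    have hM0 : (1 : ℝ) ≤ M := by exact_mod_cast hM1
    have hMp : (0 : ℝ) < M := by linarith
    have ha : 1 ≤ (M + 1) / 2 := by omega
    have hb : (M + 1) / 2 ≤ M := by omega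
    have hc : M ≤ 2 * ((M + 1) / 2) := by omega
    have ha' : (1 : ℝ) ≤ (((M + 1) / 2 : ℕ) : ℝ) := by exact_mod_cast ha
    have hb' : (((M + 1) / 2 : ℕ) : ℝ) ≤ M := by exact_mod_cast hb
    have hc' : (M : ℝ) ≤ 2 * (((M + 1) / 2 : ℕ) : ℝ) := by exact_mod_cast hc
    rcases le_or_gt 0 (1 - η / 2) with h | h
    · have h5 : (M : ℝ) ^ (1 - η / 2) ≤ (2 * (((M + 1) / 2 : ℕ) : ℝ)) ^ (1 - η / 2) :=
        Real.rpow_le_rpow hMp.le hc' h
      rw [Real.mul_rpow (by norm_num) (by linarith)] at h5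
      have h6 : (M : ℝ) ^ (1 - η / 2) = (M : ℝ) ^ (η / 2) * (M : ℝ) ^ (1 - η) := by
        rw [← Real.rpow_add hMp]
        congr 1
        ring
      have h7 : 0 < (2 : ℝ) ^ (1 - η / 2) := Real.rpow_pos_of_pos (by norm_num) _
      have h8 : 0 ≤ (M : ℝ) ^ (1 - η) := Real.rpow_nonneg hMp.le _
      have h9 : (2 : ℝ) ^ (1 - η / 2) * (M : ℝ) ^ (1 - η) ≤
          (2 : ℝ) ^ (1 - η / 2) * (((M + 1) / 2 : ℕ) : ℝ) ^ (1 - η / 2) := by
        calc _ ≤ (M : ℝ) ^ (η / 2) * (M : ℝ) ^ (1 - η) := mul_le_mul_of_nonneg_right hM h8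
          _ = (M : ℝ) ^ (1 - η / 2) := h6.symm
          _ ≤ _ := h5
      exact le_of_mul_le_mul_left h9 h7
    · calc (M : ℝ) ^ (1 - η) ≤ (M : ℝ) ^ (1 - η / 2) :=
            Real.rpow_le_rpow_of_exponent_le hM0 (by linarith)
        _ ≤ _ := Real.rpow_le_rpow_of_nonpos (by linarith) hb' h.le
  filter_upwards [h1, h4] with M h5 h6
  refine h6.trans (h5.trans ?_)
  norm_cast
  refine Finset.card_le_card fun p hp => ?_
  obtain ⟨h7, h8⟩ := Finset.mem_filter.1 hp
  rw [Finset.mem_Ico] at h7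
  exact Finset.mem_filter.2 ⟨Finset.mem_Icc.2 ⟨h8.one_lt.le, by omega⟩, h8⟩

end Pool.Agent.Helper25.MOB
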