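import Pool.Agent.Helper25.MOB.Bas

/-!
Block MOB-A4.  Selection of a dyadic level set.

Let `f`, `g` be continuous, `∫ ‖f‖ ≤ B`, `∫ ‖g‖² ≤ 9 N`, `A ≤ ‖∫ f conj g‖`, `‖f‖ < 2 ^ k V0`.
Then `A ≤ ∫ ‖f‖ ‖g‖`.  On `{‖f‖ < V0}`: by Cauchy-Schwarz
`∫_{‖f‖ < V0} ‖f‖ ‖g‖ ≤ (∫_{‖f‖ < V0} ‖f‖²)^{1/2} (9 N)^{1/2} ≤ 3 √(N V0 B)` as `‖f‖² ≤ V0 ‖f‖` there.
The rest `{‖f‖ ≥ V0}` is the disjoint union of the `k` level sets `{2^i V0 ≤ ‖f‖ < 2^(i+1) V0}`, `i < k`;
one of them carries at least the average.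
-/

namespace Pool.Agent.Helper25.MOB

open MeasureTheory
open scoped ComplexConjugate

private theorem int_h54 {u : UnitAddCircle → ℝ} (hu : Continuous u) : Integrable u volume :=
  hu.integrable_of_hasCompactSupport (HasCompactSupport.of_compactSpace u)

private theorem mem_h54 {u : UnitAddCircle → ℝ} (hu : Continuous u) (R : Set UnitAddCircle) :
    MemLp u (ENNReal.ofReal 2) (volume.restrict R) := by
  obtain ⟨C, hC⟩ := isCompact_univ.exists_bound_of_continuousOn hu.continuousOn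
  exact MemLp.of_bound hu.aestronglyMeasurable C (ae_of_all _ fun y => hC y (Set.mem_univ y))

private theorem cs_h54 {u v : UnitAddCircle → ℝ} (hu : Continuous u) (hv : Continuous v)
    (hu0 : ∀ y, 0 ≤ u y) (hv0 : ∀ y, 0 ≤ v y) (R : Set UnitAddCircle) :
    ∫ y in R, u y * v y ≤ √(∫ y in R, u y ^ 2) * √(∫ y in R, v y ^ 2) := by
  have h := integral_mul_le_Lp_mul_Lq_of_nonneg (μ := volume.restrict R) Real.HolderConjugate.two_two
    (ae_of_all _ hu0) (ae_of_all _ hv0) (mem_h54 hu R) (mem_h54 hv R)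
  simp only [Real.rpow_two] at h
  rw [Real.sqrt_eq_rpow, Real.sqrt_eq_rpow]
  exact h

theorem level_select (f g : UnitAddCircle → ℂ) (hf : Continuous f) (hg : Continuous g)
    {N V0 A B : ℝ} (hN : 0 ≤ N) (hV0 : 0 < V0) (hB0 : 0 ≤ B) {k : ℕ} (hk : 0 < k)
    (hsup : ∀ y, ‖f y‖ < 2 ^ k * V0) (hg2 : ∫ y, ‖g y‖ ^ 2 ≤ 9 * N) (hB : ∫ y, ‖f y‖ ≤ B)
    (hA : A ≤ ‖∫ y, f y * conj (g y)‖) :
    ∃ i < k, A - 3 * √(N * V0 * B) ≤
      k * ∫ y in {y | 2 ^ i * V0 ≤ ‖f y‖ ∧ ‖f y‖ < 2 ^ (i + 1) * V0}, ‖f y‖ * ‖g y‖ := by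
  set h : UnitAddCircle → ℝ := fun y => ‖f y‖ * ‖g y‖ with hh
  have hfn : Continuous fun y => ‖f y‖ := hf.norm
  have hgn : Continuous fun y => ‖g y‖ := hg.norm
  have hhc : Continuous h := hfn.mul hgn
  have hh0 : ∀ y, 0 ≤ h y := fun y => mul_nonneg (norm_nonneg _) (norm_nonneg _)
  set L : ℕ → Set UnitAddCircle := fun i => {y | 2 ^ i * V0 ≤ ‖f y‖ ∧ ‖f y‖ < 2 ^ (i + 1) * V0} with hL
  have hLm : ∀ i, MeasurableSet (L i) := fun i =>
    (measurableSet_le measurable_const hfn.measurable).inter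
      (measurableSet_lt hfn.measurable measurable_const)
  set S : Set UnitAddCircle := {y | ‖f y‖ < V0} with hS
  have hSm : MeasurableSet S := measurableSet_lt hfn.measurable measurable_const
  have h1 : A ≤ ∫ y, h y := by
    refine hA.trans ((norm_integral_le_integral_norm _).trans (le_of_eq ?_))
    refine integral_congr_ae (ae_of_all _ fun y => ?_)
    simp only [norm_mul, RCLike.norm_conj, hh]
  have h2 : ∫ y, h y = (∫ y in S, h y) + ∫ y in Sᶜ, h y := (integral_add_compl hSm (int_h54 hhc)).symm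
  have h3 : ∫ y in S, h y ≤ 3 * √(N * V0 * B) := by
    have e1 := cs_h54 hfn hgn (fun y => norm_nonneg _) (fun y => norm_nonneg _) S
    have e2 : ∫ y in S, ‖f y‖ ^ 2 ≤ V0 * B := by
      have e3 : ∫ y in S, ‖f y‖ ^ 2 ≤ ∫ y in S, V0 * ‖f y‖ := by
        refine setIntegral_mono_on (int_h54 (hfn.pow 2)).integrableOn
          (int_h54 (continuous_const.mul hfn)).integrableOn hSm fun y hy => ?_
        have hy' : ‖f y‖ < V0 := hy
        rw [sq]
        exact mul_le_mul_of_nonneg_right hy'.le (norm_nonneg _)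
      have e4 : ∫ y in S, V0 * ‖f y‖ = V0 * ∫ y in S, ‖f y‖ := integral_const_mul _ _
      have e5 : ∫ y in S, ‖f y‖ ≤ ∫ y, ‖f y‖ :=
        setIntegral_le_integral (int_h54 hfn) (ae_of_all _ fun y => norm_nonneg _)
      rw [e4] at e3
      exact e3.trans (mul_le_mul_of_nonneg_left (e5.trans hB) hV0.le)
    have e6 : ∫ y in S, ‖g y‖ ^ 2 ≤ 9 * N :=
      (setIntegral_le_integral (int_h54 (hgn.pow 2)) (ae_of_all _ fun y => sq_nonneg _)).trans hg2
    have e7 : √(V0 * B) * √(9 * N) = 3 * √(N * V0 * B) := by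
      rw [← Real.sqrt_mul (mul_nonneg hV0.le hB0)]
      have : V0 * B * (9 * N) = 3 ^ 2 * (N * V0 * B) := by ring
      rw [this, Real.sqrt_mul (by positivity), Real.sqrt_sq (by norm_num)]
    rw [← e7]
    exact e1.trans (mul_le_mul (Real.sqrt_le_sqrt e2) (Real.sqrt_le_sqrt e6) (Real.sqrt_nonneg _)
      (Real.sqrt_nonneg _))
  have h4 : ∫ y in Sᶜ, h y ≤ ∑ i ∈ Finset.range k, ∫ y in L i, h y := by
    rw [← integral_indicator hSm.compl]
    have e1 : ∀ i, ∫ y in L i, h y = ∫ y, (L i).indicator h y := fun i => (integral_indicator (hLm i)).symm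
    rw [Finset.sum_congr rfl fun i _ => e1 i, ← integral_finsetSum _ fun i _ => (int_h54 hhc).indicator (hLm i)]
    refine integral_mono ((int_h54 hhc).indicator hSm.compl)
      (integrable_finsetSum _ fun i _ => (int_h54 hhc).indicator (hLm i)) fun y => ?_
    by_cases hy : y ∈ S
    · have : Sᶜ.indicator h y = 0 := Set.indicator_of_notMem (fun hc : y ∈ Sᶜ => hc hy) _
      rw [this]
      exact Finset.sum_nonneg fun i _ => Set.indicator_nonneg (fun y _ => hh0 y) _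
    · rw [Set.indicator_of_mem (show y ∈ Sᶜ from hy)]
      have hy' : V0 ≤ ‖f y‖ := not_lt.1 hy
      have hex : ∃ j, ‖f y‖ < 2 ^ (j + 1) * V0 := by
        obtain ⟨j, rfl⟩ : ∃ j, k = j + 1 := ⟨k - 1, by omega⟩
        exact ⟨j, hsup y⟩
      classical
      obtain ⟨j, hj1, hj2⟩ : ∃ j, ‖f y‖ < 2 ^ (j + 1) * V0 ∧ ∀ i < j, ¬ ‖f y‖ < 2 ^ (i + 1) * V0 :=
        ⟨Nat.find hex, Nat.find_spec hex, fun i hi => Nat.find_min hex hi⟩
      have hjk : j < k := by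
        by_contra hc
        obtain ⟨m, rfl⟩ : ∃ m, k = m + 1 := ⟨k - 1, by omega⟩
        exact hj2 m (by omega) (hsup y)
      have hj3 : 2 ^ j * V0 ≤ ‖f y‖ := by
        rcases Nat.eq_zero_or_pos j with rfl | hj0
        · rw [pow_zero, one_mul]
          exact hy'
        · obtain ⟨m, rfl⟩ : ∃ m, j = m + 1 := ⟨j - 1, by omega⟩
          exact not_lt.1 (hj2 m (by omega))
      have hjL : y ∈ L j := ⟨hj3, hj1⟩
      have e2 : h y = (L j).indicator h y := (Set.indicator_of_mem hjL _).symm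
      rw [e2]
      exact Finset.single_le_sum (f := fun i => (L i).indicator h y)
        (fun i _ => Set.indicator_nonneg (fun y _ => hh0 y) _) (Finset.mem_range.2 hjk)
  by_contra hcon
  push Not at hcon
  have hk0 : (0 : ℝ) < k := Nat.cast_pos.2 hk
  have h5 : ∑ i ∈ Finset.range k, (k : ℝ) * ∫ y in L i, h y <
      ∑ i ∈ Finset.range k, (A - 3 * √(N * V0 * B)) :=
    Finset.sum_lt_sum_of_nonempty ⟨0, Finset.mem_range.2 hk⟩ fun i hi => hcon i (Finset.mem_range.1 hi)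
  rw [← Finset.mul_sum, Finset.sum_const, Finset.card_range, nsmul_eq_mul] at h5
  have h6 := lt_of_mul_lt_mul_left h5 hk0.le
  linarith

/-- Consequences for one level set `R = {V ≤ ‖f‖ < 2V}` with `A' ≤ ∫_R ‖f‖ ‖g‖`,
`∫ ‖f‖² ≤ N`, `∫ ‖g‖² ≤ 9 N`:
`V² ρ ≤ N` (on `R`, `V² ≤ ‖f‖²`); `A' ≤ 2 V ∫_R ‖g‖`; and `A'² ≤ 36 V² ρ N` by Cauchy-Schwarz
(`A' ≤ 2V ∫_R ‖g‖ ≤ 2 V √ρ √(9N)`). -/
theorem level_facts (f g : UnitAddCircle → ℂ) (hf : Continuous f) (hg : Continuous g)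
    {N V A : ℝ} (hN : 0 ≤ N) (hV : 0 < V) (hA0 : 0 ≤ A)
    (hf2 : ∫ y, ‖f y‖ ^ 2 ≤ N) (hg2 : ∫ y, ‖g y‖ ^ 2 ≤ 9 * N)
    (hA : A ≤ ∫ y in {y | V ≤ ‖f y‖ ∧ ‖f y‖ < 2 * V}, ‖f y‖ * ‖g y‖) :
    V ^ 2 * volume.real {y | V ≤ ‖f y‖ ∧ ‖f y‖ < 2 * V} ≤ N ∧
    A ≤ 2 * V * ∫ y in {y | V ≤ ‖f y‖ ∧ ‖f y‖ < 2 * V}, ‖g y‖ ∧
    A ^ 2 ≤ 36 * V ^ 2 * volume.real {y | V ≤ ‖f y‖ ∧ ‖f y‖ < 2 * V} * N := by
  have hfn : Continuous fun y => ‖f y‖ := hf.norm
  have hgn : Continuous fun y => ‖g y‖ := hg.norm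
  set R : Set UnitAddCircle := {y | V ≤ ‖f y‖ ∧ ‖f y‖ < 2 * V} with hR
  have hRm : MeasurableSet R :=
    (measurableSet_le measurable_const hfn.measurable).inter
      (measurableSet_lt hfn.measurable measurable_const)
  have h2 : A ≤ 2 * V * ∫ y in R, ‖g y‖ := by
    refine hA.trans ?_
    rw [← integral_const_mul]
    refine setIntegral_mono_on (int_h54 (hfn.mul hgn)).integrableOn
      (int_h54 (continuous_const.mul hgn)).integrableOn hRm fun y hy => ?_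
    have hy' : ‖f y‖ < 2 * V := hy.2
    exact mul_le_mul_of_nonneg_right hy'.le (norm_nonneg _)
  refine ⟨?_, h2, ?_⟩
  · have e1 : ∫ y in R, V ^ 2 ≤ ∫ y in R, ‖f y‖ ^ 2 := by
      refine setIntegral_mono_on (int_h54 continuous_const).integrableOn
        (int_h54 (hfn.pow 2)).integrableOn hRm fun y hy => ?_
      have hy' : V ≤ ‖f y‖ := hy.1
      exact pow_le_pow_left₀ hV.le hy' 2
    have e2 : ∫ y in R, ‖f y‖ ^ 2 ≤ ∫ y, ‖f y‖ ^ 2 :=
      setIntegral_le_integral (int_h54 (hfn.pow 2)) (ae_of_all _ fun y => sq_nonneg _)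
    rw [setIntegral_const, smul_eq_mul, mul_comm] at e1
    exact e1.trans (e2.trans hf2)
  · have e1 := cs_h54 (u := fun _ => (1 : ℝ)) continuous_const hgn (fun y => zero_le_one)
      (fun y => norm_nonneg _) R
    simp only [one_mul, one_pow] at e1
    rw [setIntegral_const, smul_eq_mul, mul_one] at e1
    have e2 : ∫ y in R, ‖g y‖ ^ 2 ≤ 9 * N :=
      (setIntegral_le_integral (int_h54 (hgn.pow 2)) (ae_of_all _ fun y => sq_nonneg _)).trans hg2
    have hρ : 0 ≤ volume.real R := measureReal_nonneg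
    have e3 : ∫ y in R, ‖g y‖ ≤ √(volume.real R * (9 * N)) := by
      rw [Real.sqrt_mul hρ]
      exact e1.trans (mul_le_mul_of_nonneg_left (Real.sqrt_le_sqrt e2) (Real.sqrt_nonneg _))
    have e4 : A ≤ 2 * V * √(volume.real R * (9 * N)) :=
      h2.trans (mul_le_mul_of_nonneg_left e3 (by positivity))
    have e5 := pow_le_pow_left₀ hA0 e4 2
    rw [mul_pow, Real.sq_sqrt (by positivity)] at e5
    calc A ^ 2 ≤ (2 * V) ^ 2 * (volume.real R * (9 * N)) := e5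
      _ = 36 * V ^ 2 * volume.real R * N := by ring

end Pool.Agent.Helper25.MOB
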