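import Pool.Agent.Helper25.MOB.Bas

/-!
Block MOB-A2.  The trigonometric polynomial `G`: `∫ ‖G‖² ≤ 9 N` and `⟨F, G⟩` is large.

Let `2 H M ≤ N`, `1 ≤ H`.  All products `h m`, `h < 2 H`, `m ≤ M`, lie in `[1, N]`, so
`G H M y = ∑_{n ≤ N} gc n e(n y)` with `gc n = - ∑_{h ∣ n, n / h ≤ M} μ (n / h)`.
* If `N < H ^ 4` then `n ≤ N` has at most `3` prime divisors `h ≥ H` (four distinct ones would
  give `H ^ 4 ≤ n`), so `|gc n| ≤ 3` and by Parseval `∫ ‖G‖² ≤ 9 N`.
* `∫ F conj G = ∑_n μ(n) gc n = - ∑_{m ≤ M} ∑_h μ(h m) μ(m)`; if `h ∣ m` then `μ(h m) = 0`, otherwise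
  `μ(h m) = - μ(m)` and the term is `μ(m)²`.  So the integral is a real number, at least the
  number of pairs `(h, m)`, `m` a prime `≤ M` different from `h`, which is at least
  `(primesIn H).card * (π(M) - 1)`.
-/

namespace Pool.Agent.Helper25.MOB

open MeasureTheory
open scoped ComplexConjugate

/-- The Moebius function. -/
private abbrev mu45 (n : ℕ) : ℤ := ArithmeticFunction.moebius n

/-- The coefficients of `G`. -/
private noncomputable def gc45 (H M n : ℕ) : ℂ :=
  -∑ v ∈ (Finset.Icc 1 M ×ˢ primesIn H).filter (fun v => v.2 * v.1 = n), ((mu45 v.1 : ℤ) : ℂ)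

private theorem mem_primesIn45 {H h : ℕ} : h ∈ primesIn H ↔ (H ≤ h ∧ h < 2 * H) ∧ h.Prime := by
  unfold primesIn
  rw [Finset.mem_filter, Finset.mem_Ico]

private theorem maps45 {N H M : ℕ} (h : 2 * H * M ≤ N) :
    ∀ v ∈ Finset.Icc 1 M ×ˢ primesIn H, v.2 * v.1 ∈ Finset.Icc 1 N := by
  intro v hv
  rw [Finset.mem_product, Finset.mem_Icc, mem_primesIn45] at hv
  obtain ⟨⟨h1, h2⟩, ⟨h3, h4⟩, -⟩ := hv
  rw [Finset.mem_Icc]
  constructor
  · exact Nat.mul_pos (by omega) (by omega)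
  · calc v.2 * v.1 ≤ 2 * H * M := Nat.mul_le_mul h4.le h2
      _ ≤ N := h

private theorem G_eq45 {N H M : ℕ} (h : 2 * H * M ≤ N) (y : UnitAddCircle) :
    G H M y = ∑ n ∈ Finset.Icc 1 N, gc45 H M n * ex n y := by
  unfold G gc45
  rw [← Finset.sum_product', ← Finset.sum_fiberwise_of_maps_to (maps45 h), ← Finset.sum_neg_distrib]
  refine Finset.sum_congr rfl fun n _ => ?_
  rw [neg_mul, Finset.sum_mul]
  congr 1
  refine Finset.sum_congr rfl fun v hv => ?_
  rw [Finset.mem_filter] at hv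
  rw [hv.2]

private theorem norm_gc_le45 {N H M n : ℕ} (hH : 1 ≤ H) (h4 : N < H ^ 4)
    (hn : n ∈ Finset.Icc 1 N) : ‖gc45 H M n‖ ≤ 3 := by
  rw [Finset.mem_Icc] at hn
  have h1 : ‖gc45 H M n‖ ≤
      (((Finset.Icc 1 M ×ˢ primesIn H).filter (fun v => v.2 * v.1 = n)).card : ℝ) := by
    unfold gc45
    rw [norm_neg]
    refine (norm_sum_le _ _).trans ?_
    rw [Finset.card_eq_sum_ones, Nat.cast_sum]
    refine Finset.sum_le_sum fun v _ => ?_
    rw [Complex.norm_intCast, Nat.cast_one]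
    exact_mod_cast (ArithmeticFunction.abs_moebius_le_one (n := v.1))
  have h2 : ((Finset.Icc 1 M ×ˢ primesIn H).filter (fun v => v.2 * v.1 = n)).card ≤
      ((primesIn H).filter (fun p => p ∣ n)).card := by
    refine Finset.card_le_card_of_injOn (fun v => v.2) ?_ ?_
    · intro v hv
      rw [Finset.mem_coe, Finset.mem_filter, Finset.mem_product] at hv
      rw [Finset.mem_coe, Finset.mem_filter]
      exact ⟨hv.1.2, ⟨v.1, hv.2.symm⟩⟩
    · intro v hv w hw hvw
      rw [Finset.mem_coe, Finset.mem_filter, Finset.mem_product, mem_primesIn45] at hv hw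
      have h5 : v.2 = w.2 := hvw
      have h6 : v.2 * v.1 = v.2 * w.1 := by
        rw [hv.2, h5, hw.2]
      have h7 : v.1 = w.1 := Nat.eq_of_mul_eq_mul_left (hv.1.2.2.pos) h6
      exact Prod.ext h7 h5
  have h3 : ((primesIn H).filter (fun p => p ∣ n)).card < 4 := by
    by_contra h5
    push Not at h5
    have h6 : ∏ p ∈ (primesIn H).filter (fun p => p ∣ n), p ∣ n := by
      refine Finset.prod_primes_dvd n (fun p hp => ?_) (fun p hp => ?_)
      · rw [Finset.mem_filter, mem_primesIn45] at hp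
        exact hp.1.2.prime
      · rw [Finset.mem_filter] at hp
        exact hp.2
    have h7 : H ^ ((primesIn H).filter (fun p => p ∣ n)).card ≤
        ∏ p ∈ (primesIn H).filter (fun p => p ∣ n), p := by
      refine Finset.pow_card_le_prod _ _ _ fun p hp => ?_
      rw [Finset.mem_filter, mem_primesIn45] at hp
      exact hp.1.1.1
    have h8 : H ^ 4 ≤ H ^ ((primesIn H).filter (fun p => p ∣ n)).card :=
      Nat.pow_le_pow_right hH h5
    have h9 := Nat.le_of_dvd (by omega) h6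
    omega
  have h5 : (((Finset.Icc 1 M ×ˢ primesIn H).filter (fun v => v.2 * v.1 = n)).card : ℝ) ≤ 3 := by
    have h6 : ((Finset.Icc 1 M ×ˢ primesIn H).filter (fun v => v.2 * v.1 = n)).card ≤ 3 := by
      omega
    exact_mod_cast h6
  exact h1.trans h5

theorem integral_G_sq_le {N H M : ℕ} (hH : 1 ≤ H) (h : 2 * H * M ≤ N) (h4 : N < H ^ 4) :
    ∫ y, ‖G H M y‖ ^ 2 ≤ 9 * (N : ℝ) := by
  have h1 : ∀ y : UnitAddCircle, ‖G H M y‖ ^ 2 =
      ‖∑ n ∈ Finset.Icc 1 N, gc45 H M n * ex n y‖ ^ 2 := fun y => by rw [G_eq45 h y]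
  rw [integral_congr_ae (Filter.Eventually.of_forall h1), integral_norm_sq]
  have h2 : ∑ n ∈ Finset.Icc 1 N, ‖gc45 H M n‖ ^ 2 ≤ ∑ _n ∈ Finset.Icc 1 N, (9 : ℝ) := by
    refine Finset.sum_le_sum fun n hn => ?_
    have h3 := norm_gc_le45 (M := M) hH h4 hn
    have h5 := norm_nonneg (gc45 H M n)
    nlinarith
  refine h2.trans (le_of_eq ?_)
  rw [Finset.sum_const, Nat.card_Icc, nsmul_eq_mul, Nat.add_sub_cancel]
  ring

/-- The terms of the inner product. -/
private theorem term45 {m h : ℕ} (hh : h.Prime) :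
    0 ≤ -(mu45 (h * m) * mu45 m) ∧ (m.Prime → m ≠ h → -(mu45 (h * m) * mu45 m) = 1) := by
  by_cases hd : h ∣ m
  · have h1 : mu45 (h * m) = 0 := by
      apply ArithmeticFunction.moebius_eq_zero_of_not_squarefree
      intro hs
      obtain ⟨c, rfl⟩ := hd
      have h2 := hs h ⟨c, by ring⟩
      exact hh.one_lt.ne' (Nat.isUnit_iff.1 h2)
    rw [h1, zero_mul, neg_zero]
    refine ⟨le_rfl, fun hm hne => ?_⟩
    exact absurd ((Nat.prime_dvd_prime_iff_eq hh hm).1 hd).symm hne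
  · have h1 : mu45 (h * m) = mu45 h * mu45 m :=
      ArithmeticFunction.isMultiplicative_moebius.map_mul_of_coprime ((Nat.Prime.coprime_iff_not_dvd hh).2 hd)
    have h2 : mu45 h = -1 := ArithmeticFunction.moebius_apply_prime hh
    have h3 : -(mu45 (h * m) * mu45 m) = mu45 m * mu45 m := by
      rw [h1, h2]
      ring
    rw [h3]
    refine ⟨mul_self_nonneg _, fun hm _ => ?_⟩
    have h4 : mu45 m = -1 := ArithmeticFunction.moebius_apply_prime hm
    rw [h4]
    norm_num

theorem inner_FG_ge {N H M : ℕ} (hH : 1 ≤ H) (h : 2 * H * M ≤ N) :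
    ((primesIn H).card : ℝ) * ((((Finset.Icc 1 M).filter Nat.Prime).card : ℝ) - 1) ≤
      ‖∫ y, F N y * conj (G H M y)‖ := by
  have h1 : ∀ y : UnitAddCircle, F N y * conj (G H M y) =
      (∑ n ∈ Finset.Icc 1 N, ((mu45 n : ℤ) : ℂ) * ex n y) *
        conj (∑ n ∈ Finset.Icc 1 N, gc45 H M n * ex n y) := fun y => by
    rw [← G_eq45 h y]
    rfl
  rw [integral_congr_ae (Filter.Eventually.of_forall h1), integral_mul_conj, Finset.inter_self]
  obtain ⟨S, hS⟩ : ∃ S : ℤ, S = ∑ v ∈ Finset.Icc 1 M ×ˢ primesIn H, -(mu45 (v.2 * v.1) * mu45 v.1) :=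
    ⟨_, rfl⟩
  have h2 : ∑ n ∈ Finset.Icc 1 N, ((mu45 n : ℤ) : ℂ) * conj (gc45 H M n) = ((S : ℤ) : ℂ) := by
    rw [hS, ← Finset.sum_fiberwise_of_maps_to (maps45 h), Int.cast_sum]
    refine Finset.sum_congr rfl fun n _ => ?_
    unfold gc45
    rw [map_neg, map_sum, mul_neg, Finset.mul_sum, ← Finset.sum_neg_distrib, Int.cast_sum]
    refine Finset.sum_congr rfl fun v hv => ?_
    rw [Finset.mem_filter] at hv
    rw [hv.2, map_intCast]
    push_cast
    ring
  rw [h2, Complex.norm_intCast]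
  have h3 : ((primesIn H).card : ℤ) * ((((Finset.Icc 1 M).filter Nat.Prime).card : ℤ) - 1) ≤ S := by
    rw [hS, Finset.sum_product_right]
    have h4 : ∀ p ∈ primesIn H, (((Finset.Icc 1 M).filter Nat.Prime).card : ℤ) - 1 ≤
        ∑ m ∈ Finset.Icc 1 M, -(mu45 (p * m) * mu45 m) := by
      intro p hp
      have hpp : p.Prime := (mem_primesIn45.1 hp).2
      have h5 : (((Finset.Icc 1 M).filter Nat.Prime).card : ℤ) - 1 ≤
          ((((Finset.Icc 1 M).filter Nat.Prime).erase p).card : ℤ) := by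
        have := Finset.pred_card_le_card_erase (s := (Finset.Icc 1 M).filter Nat.Prime) (a := p)
        omega
      refine h5.trans ?_
      have h6 : ((((Finset.Icc 1 M).filter Nat.Prime).erase p).card : ℤ) =
          ∑ m ∈ ((Finset.Icc 1 M).filter Nat.Prime).erase p, -(mu45 (p * m) * mu45 m) := by
        rw [Finset.card_eq_sum_ones, Nat.cast_sum]
        refine Finset.sum_congr rfl fun m hm => ?_
        rw [Finset.mem_erase, Finset.mem_filter] at hm
        rw [(term45 hpp).2 hm.2.2 hm.1, Nat.cast_one]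
      rw [h6]
      refine Finset.sum_le_sum_of_subset_of_nonneg ?_ fun m _ _ => (term45 hpp).1
      intro m hm
      rw [Finset.mem_erase, Finset.mem_filter] at hm
      exact hm.2.1
    refine le_trans (le_of_eq ?_) (Finset.sum_le_sum h4)
    rw [Finset.sum_const, nsmul_eq_mul]
  have h4 : (((primesIn H).card : ℤ) * ((((Finset.Icc 1 M).filter Nat.Prime).card : ℤ) - 1) : ℝ) ≤
      (S : ℝ) := by exact_mod_cast h3
  refine le_trans ?_ (le_abs_self _)
  exact_mod_cast h4

end Pool.Agent.Helper25.MOB
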