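import Pool.Agent.Helper25.MOB.Bas

/-!
Block MOB-B2.  Duality (Gram matrix) for `∫_R ‖G‖`.

Let `R` be measurable, `K x = ∑ k m e(m x)` with `k ≥ 0` finitely supported, `k m ≥ 1` for
`1 ≤ m ≤ M`.  Let `w y` be the conjugate of the sign of `G H M y` (measurable, `|w| ≤ 1`,
`w G = ‖G‖`), so
`∫_R ‖G‖ = - ∑_{m ≤ M} μ(m) c_m`, `c_m = ∫_R w(y) ∑_h e(h m y) dy`.
By Cauchy-Schwarz over `m`, and as `1 ≤ k m` for `1 ≤ m ≤ M` and `k ≥ 0`,
`(∫_R ‖G‖)² ≤ M ∑_{m ≤ M} |c_m|² ≤ M ∑_m k m |c_m|²`, and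
`∑_m k m |c_m|² = ∫_R ∫_R w(y) conj w(y') ∑_{h,h'} K(h y - h' y') ≤ ∫_R ∫_R ∑_{h,h'} ‖K(h y - h' y')‖`
(expand `|c_m|² = c_m conj c_m` as a double integral; only finite sums are involved).
-/

namespace Pool.Agent.Helper25.MOB

open MeasureTheory
open scoped ComplexConjugate

private noncomputable def Eh12 (H : ℕ) (m : ℤ) (y : UnitAddCircle) : ℂ :=
  ∑ h ∈ primesIn H, ex m (h • y)

private noncomputable def wh12 (H M : ℕ) (y : UnitAddCircle) : ℂ :=
  conj (G H M y) / ((‖G H M y‖ : ℝ) : ℂ)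

private lemma w_mul_G_h12 (H M : ℕ) (y : UnitAddCircle) :
    wh12 H M y * G H M y = ((‖G H M y‖ : ℝ) : ℂ) := by
  unfold wh12
  by_cases h : G H M y = 0
  · simp [h]
  · have h1 : ((‖G H M y‖ : ℝ) : ℂ) ≠ 0 := by
      simpa using h
    rw [div_mul_eq_mul_div, div_eq_iff h1, mul_comm (conj _), Complex.mul_conj,
      Complex.normSq_eq_norm_sq]
    push_cast
    ring

private lemma norm_w_le_h12 (H M : ℕ) (y : UnitAddCircle) : ‖wh12 H M y‖ ≤ 1 := by
  unfold wh12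
  rw [norm_div, Complex.norm_conj, Complex.norm_real, norm_norm]
  exact div_self_le_one _

private lemma measurable_w_h12 (H M : ℕ) : Measurable (wh12 H M) :=
  (Complex.continuous_conj.comp (continuous_G H M)).measurable.div
    (Complex.measurable_ofReal.comp (continuous_G H M).norm.measurable)

private lemma continuous_E_h12 (H : ℕ) (m : ℤ) : Continuous (Eh12 H m) := by
  unfold Eh12
  exact continuous_finsetSum _ fun h _ => (continuous_ex m).comp (continuous_id.nsmul h)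

private lemma norm_E_le_h12 (H : ℕ) (m : ℤ) (y : UnitAddCircle) :
    ‖Eh12 H m y‖ ≤ (primesIn H).card := by
  unfold Eh12
  refine (norm_sum_le _ _).trans ?_
  simp [norm_ex]

private lemma integrable_wE_h12 (H M : ℕ) (m : ℤ) (R : Set UnitAddCircle) :
    Integrable (fun y => wh12 H M y * Eh12 H m y) (volume.restrict R) := by
  refine Integrable.mono' (g := fun _ => ((primesIn H).card : ℝ)) (integrable_const _)
    (((measurable_w_h12 H M).mul (continuous_E_h12 H m).measurable).aestronglyMeasurable)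
    (Filter.Eventually.of_forall fun y => ?_)
  rw [norm_mul]
  calc ‖wh12 H M y‖ * ‖Eh12 H m y‖ ≤ 1 * (primesIn H).card :=
        mul_le_mul (norm_w_le_h12 H M y) (norm_E_le_h12 H m y) (norm_nonneg _) zero_le_one
    _ = _ := one_mul _

private noncomputable def ch12 (H M : ℕ) (R : Set UnitAddCircle) (m : ℤ) : ℂ :=
  ∫ y in R, wh12 H M y * Eh12 H m y

private lemma G_eq_h12 (H M : ℕ) (y : UnitAddCircle) :
    G H M y = -∑ m ∈ Finset.Icc 1 M,
      ((ArithmeticFunction.moebius m : ℤ) : ℂ) * Eh12 H (m : ℤ) y := by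
  unfold G Eh12
  congr 1
  refine Finset.sum_congr rfl fun m _ => ?_
  rw [Finset.mul_sum]
  refine Finset.sum_congr rfl fun h _ => ?_
  rw [ex_nsmul]
  congr 2
  push_cast
  ring

private lemma int_norm_G_h12 (H M : ℕ) (R : Set UnitAddCircle) :
    ((∫ y in R, ‖G H M y‖ : ℝ) : ℂ) =
      -∑ m ∈ Finset.Icc 1 M, ((ArithmeticFunction.moebius m : ℤ) : ℂ) * ch12 H M R (m : ℤ) := by
  have h1 : ∀ y, ((‖G H M y‖ : ℝ) : ℂ) = -∑ m ∈ Finset.Icc 1 M,
      ((ArithmeticFunction.moebius m : ℤ) : ℂ) * (wh12 H M y * Eh12 H (m : ℤ) y) := by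
    intro y
    rw [← w_mul_G_h12]
    rw [G_eq_h12 H M y]
    rw [mul_neg, Finset.mul_sum]
    congr 1
    refine Finset.sum_congr rfl fun m _ => ?_
    ring
  have h2 : (∫ y in R, ((‖G H M y‖ : ℝ) : ℂ)) = ∫ y in R, -∑ m ∈ Finset.Icc 1 M,
      ((ArithmeticFunction.moebius m : ℤ) : ℂ) * (wh12 H M y * Eh12 H (m : ℤ) y) := by
    congr 1
    funext y
    exact h1 y
  rw [← integral_complex_ofReal, h2, integral_neg]
  congr 1
  rw [integral_finsetSum]
  · refine Finset.sum_congr rfl fun m _ => ?_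
    rw [integral_const_mul]
    rfl
  · intro m _
    exact (integrable_wE_h12 H M m R).const_mul _

private lemma sum_c_le_h12 (H M : ℕ) (R : Set UnitAddCircle) (k : ℤ →₀ ℝ)
    (hk0 : ∀ m, 0 ≤ k m) (hk1 : ∀ m : ℤ, 1 ≤ m → m ≤ M → 1 ≤ k m) :
    ∑ m ∈ Finset.Icc 1 M, ‖ch12 H M R (m : ℤ)‖ ^ 2 ≤
      ∑ m ∈ k.support, k m * ‖ch12 H M R m‖ ^ 2 := by
  have h1 : ∑ m ∈ Finset.Icc 1 M, ‖ch12 H M R (m : ℤ)‖ ^ 2 ≤
      ∑ m ∈ Finset.Icc 1 M, k (m : ℤ) * ‖ch12 H M R (m : ℤ)‖ ^ 2 := by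
    refine Finset.sum_le_sum fun m hm => ?_
    rw [Finset.mem_Icc] at hm
    have := hk1 (m : ℤ) (by exact_mod_cast hm.1) (by exact_mod_cast hm.2)
    nlinarith [sq_nonneg ‖ch12 H M R (m : ℤ)‖]
  refine h1.trans ?_
  have h2 : ∑ m ∈ Finset.Icc 1 M, k (m : ℤ) * ‖ch12 H M R (m : ℤ)‖ ^ 2 =
      ∑ m ∈ (Finset.Icc 1 M).map Nat.castEmbedding, k m * ‖ch12 H M R m‖ ^ 2 := by
    rw [Finset.sum_map]
    rfl
  rw [h2]
  refine Finset.sum_le_sum_of_subset_of_nonneg ?_ ?_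
  · intro m hm
    rw [Finset.mem_map] at hm
    obtain ⟨a, ha, rfl⟩ := hm
    rw [Finset.mem_Icc] at ha
    rw [Finsupp.mem_support_iff]
    have := hk1 (a : ℤ) (by exact_mod_cast ha.1) (by exact_mod_cast ha.2)
    have h3 : k (Nat.castEmbedding a : ℤ) = k (a : ℤ) := rfl
    rw [h3]
    intro h0
    linarith
  · intro m _ _
    exact mul_nonneg (hk0 m) (sq_nonneg _)

private noncomputable def Kh12 (k : ℤ →₀ ℝ) (z : UnitAddCircle) : ℂ :=
  k.sum fun m c => (c : ℂ) * ex m z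

private lemma continuous_K_h12 (k : ℤ →₀ ℝ) : Continuous (Kh12 k) := by
  unfold Kh12 Finsupp.sum
  exact continuous_finsetSum _ fun m _ => continuous_const.mul (continuous_ex m)

private noncomputable def Ph12 (H : ℕ) (k : ℤ →₀ ℝ) (p : UnitAddCircle × UnitAddCircle) : ℝ :=
  ∑ h ∈ primesIn H, ∑ h' ∈ primesIn H, ‖Kh12 k (h • p.1 - h' • p.2)‖

private lemma continuous_P_h12 (H : ℕ) (k : ℤ →₀ ℝ) : Continuous (Ph12 H k) := by
  unfold Ph12
  refine continuous_finsetSum _ fun h _ => continuous_finsetSum _ fun h' _ => ?_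
  exact ((continuous_K_h12 k).comp
    ((continuous_fst.nsmul h).sub (continuous_snd.nsmul h'))).norm

private lemma expand_h12 (H M : ℕ) (k : ℤ →₀ ℝ) (y y' : UnitAddCircle) :
    ∑ m ∈ k.support, ((k m : ℂ) * (wh12 H M y * Eh12 H m y)) *
      conj (wh12 H M y' * Eh12 H m y') =
    (wh12 H M y * conj (wh12 H M y')) *
      ∑ h ∈ primesIn H, ∑ h' ∈ primesIn H, Kh12 k (h • y - h' • y') := by
  have h1 : ∀ m, Eh12 H m y * conj (Eh12 H m y') =
      ∑ h ∈ primesIn H, ∑ h' ∈ primesIn H, ex m (h • y - h' • y') := by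
    intro m
    unfold Eh12
    rw [map_sum, Finset.sum_mul_sum]
    refine Finset.sum_congr rfl fun h _ => Finset.sum_congr rfl fun h' _ => ?_
    rw [sub_eq_add_neg, ex_add_arg]
    congr 1
    have h2 : ex m (-(h' • y')) * ex m (h' • y') = 1 := by
      rw [← ex_add_arg, neg_add_cancel]
      have h3 : ex m (0 : UnitAddCircle) = ex m ((0 : ℕ) • (0 : UnitAddCircle)) := by simp
      rw [h3, ex_nsmul]
      simp [ex_zero]
    have h4 : conj (ex m (h' • y')) * ex m (h' • y') = 1 := by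
      rw [mul_comm, Complex.mul_conj, Complex.normSq_eq_norm_sq, norm_ex]
      simp
    have h5 : ex m (h' • y') ≠ 0 := by
      intro h0
      rw [h0, mul_zero] at h4
      exact zero_ne_one h4
    exact mul_right_cancel₀ h5 (h4.trans h2.symm)
  have h6 : ∑ h ∈ primesIn H, ∑ h' ∈ primesIn H, Kh12 k (h • y - h' • y') =
      ∑ m ∈ k.support, (k m : ℂ) *
        ∑ h ∈ primesIn H, ∑ h' ∈ primesIn H, ex m (h • y - h' • y') := by
    unfold Kh12 Finsupp.sum
    rw [Finset.sum_comm' (t' := primesIn H) (s' := fun _ => primesIn H) (by simp)]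
    simp_rw [Finset.mul_sum]
    rw [Finset.sum_comm]
    rw [Finset.sum_comm (s := k.support)]
    refine Finset.sum_congr rfl fun h _ => ?_
    rw [Finset.sum_comm]
  rw [h6, Finset.mul_sum]
  refine Finset.sum_congr rfl fun m _ => ?_
  rw [← h1 m, map_mul]
  ring

private lemma double_h12 (H M : ℕ) (R : Set UnitAddCircle) (k : ℤ →₀ ℝ) :
    ((∑ m ∈ k.support, k m * ‖ch12 H M R m‖ ^ 2 : ℝ) : ℂ) =
      ∫ y in R, ∫ y' in R, (wh12 H M y * conj (wh12 H M y')) *
        ∑ h ∈ primesIn H, ∑ h' ∈ primesIn H, Kh12 k (h • y - h' • y') := by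
  have hI : ∀ m, Integrable (fun y => conj (wh12 H M y * Eh12 H m y)) (volume.restrict R) := by
    intro m
    have h0 := (integrable_wE_h12 H M m R)
    exact (RCLike.conjCLE (K := ℂ)).toContinuousLinearMap.restrictScalars ℝ |>.integrable_comp h0
  have h1 : ∀ y, (∫ y' in R, (wh12 H M y * conj (wh12 H M y')) *
        ∑ h ∈ primesIn H, ∑ h' ∈ primesIn H, Kh12 k (h • y - h' • y')) =
      ∑ m ∈ k.support, ((k m : ℂ) * (wh12 H M y * Eh12 H m y)) * conj (ch12 H M R m) := by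
    intro y
    simp_rw [← expand_h12]
    rw [integral_finsetSum]
    · refine Finset.sum_congr rfl fun m _ => ?_
      rw [integral_const_mul]
      congr 1
      unfold ch12
      exact integral_conj
    · intro m _
      exact (hI m).const_mul _
  simp_rw [h1]
  rw [integral_finsetSum]
  · push_cast
    refine Finset.sum_congr rfl fun m _ => ?_
    rw [integral_mul_const, integral_const_mul]
    change _ = (k m : ℂ) * ch12 H M R m * conj (ch12 H M R m)
    rw [mul_assoc, Complex.mul_conj, Complex.normSq_eq_norm_sq]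
    push_cast
    ring
  · intro m _
    exact ((integrable_wE_h12 H M m R).const_mul _).mul_const _

private lemma bound_h12 (H M : ℕ) (R : Set UnitAddCircle) (k : ℤ →₀ ℝ) :
    ∑ m ∈ k.support, k m * ‖ch12 H M R m‖ ^ 2 ≤
      ∫ y in R, ∫ y' in R, Ph12 H k (y, y') := by
  have h0 := double_h12 H M R k
  have h1 : ∑ m ∈ k.support, k m * ‖ch12 H M R m‖ ^ 2 ≤
      ‖((∑ m ∈ k.support, k m * ‖ch12 H M R m‖ ^ 2 : ℝ) : ℂ)‖ := by
    rw [Complex.norm_real]
    exact le_abs_self _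
  refine h1.trans ?_
  rw [h0]
  have hP : Integrable (Ph12 H k) ((volume.restrict R).prod (volume.restrict R)) :=
    (continuous_P_h12 H k).integrable_of_hasCompactSupport
      (HasCompactSupport.of_compactSpace _)
  refine norm_integral_le_of_norm_le hP.integral_prod_left
    (Filter.Eventually.of_forall fun y => ?_)
  have hPy : Integrable (fun y' => Ph12 H k (y, y')) (volume.restrict R) :=
    ((continuous_P_h12 H k).comp (continuous_const.prodMk continuous_id)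
      ).integrable_of_hasCompactSupport (HasCompactSupport.of_compactSpace _)
  refine norm_integral_le_of_norm_le hPy (Filter.Eventually.of_forall fun y' => ?_)
  rw [norm_mul, norm_mul, Complex.norm_conj]
  have h2 : ‖wh12 H M y‖ * ‖wh12 H M y'‖ ≤ 1 :=
    mul_le_one₀ (norm_w_le_h12 H M y) (norm_nonneg _) (norm_w_le_h12 H M y')
  have h3 : ‖∑ h ∈ primesIn H, ∑ h' ∈ primesIn H, Kh12 k (h • y - h' • y')‖ ≤
      Ph12 H k (y, y') := by
    unfold Ph12
    refine (norm_sum_le _ _).trans (Finset.sum_le_sum fun h _ => ?_)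
    exact norm_sum_le _ _
  calc ‖wh12 H M y‖ * ‖wh12 H M y'‖ *
        ‖∑ h ∈ primesIn H, ∑ h' ∈ primesIn H, Kh12 k (h • y - h' • y')‖
      ≤ 1 * Ph12 H k (y, y') := mul_le_mul h2 h3 (norm_nonneg _) zero_le_one
    _ = _ := one_mul _

theorem gram_G (H M : ℕ) (R : Set UnitAddCircle) (hR : MeasurableSet R) (k : ℤ →₀ ℝ)
    (hk0 : ∀ m, 0 ≤ k m) (hk1 : ∀ m : ℤ, 1 ≤ m → m ≤ M → 1 ≤ k m) :
    (∫ y in R, ‖G H M y‖) ^ 2 ≤ M * ∫ y in R, ∫ y' in R,
      ∑ h ∈ primesIn H, ∑ h' ∈ primesIn H,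
        ‖k.sum fun m c => (c : ℂ) * ex m (h • y - h' • y')‖ := by
  have h1 := int_norm_G_h12 H M R
  have h2 : (∫ y in R, ‖G H M y‖) ≤ ∑ m ∈ Finset.Icc 1 M, ‖ch12 H M R (m : ℤ)‖ := by
    have h3 : (∫ y in R, ‖G H M y‖) ≤ ‖((∫ y in R, ‖G H M y‖ : ℝ) : ℂ)‖ := by
      rw [Complex.norm_real]
      exact le_abs_self _
    refine h3.trans ?_
    rw [h1, norm_neg]
    refine (norm_sum_le _ _).trans (Finset.sum_le_sum fun m _ => ?_)
    rw [norm_mul]
    have h4 : ‖((ArithmeticFunction.moebius m : ℤ) : ℂ)‖ ≤ 1 := by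
      rw [Complex.norm_intCast]
      exact_mod_cast ArithmeticFunction.abs_moebius_le_one
    calc ‖((ArithmeticFunction.moebius m : ℤ) : ℂ)‖ * ‖ch12 H M R (m : ℤ)‖
        ≤ 1 * ‖ch12 H M R (m : ℤ)‖ := mul_le_mul_of_nonneg_right h4 (norm_nonneg _)
      _ = _ := one_mul _
  have h5 : (∫ y in R, ‖G H M y‖) ^ 2 ≤ (∑ m ∈ Finset.Icc 1 M, ‖ch12 H M R (m : ℤ)‖) ^ 2 :=
    pow_le_pow_left₀ (integral_nonneg fun _ => norm_nonneg _) h2 2
  refine h5.trans ?_
  have h6 := sq_sum_le_card_mul_sum_sq (s := Finset.Icc 1 M)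
    (f := fun m : ℕ => ‖ch12 H M R (m : ℤ)‖)
  rw [Nat.card_Icc, Nat.add_sub_cancel] at h6
  refine h6.trans ?_
  refine mul_le_mul_of_nonneg_left ?_ (Nat.cast_nonneg M)
  exact (sum_c_le_h12 H M R k hk0 hk1).trans (bound_h12 H M R k)

end Pool.Agent.Helper25.MOB
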