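import Pool.Agent.Helper25.MOB.B1
import Pool.Agent.Helper25.MOB.B2

/-!
Block MOB-B3.  Kernel and duality together.

Take the kernel of `exists_kernel` with `L = 2 M` (so `k m ≥ 1` for `|m| ≤ M`).  For `y, y'`:
`∑_{h,h'} ‖K(h y - h' y')‖ ≤ 4 ^ A M #S(y, y') + |P|² 2 M (2 M δ) ^ (-2 A)`, where
`P = primesIn H` and `S(y,y')` is the set of pairs with `‖h y - h' y'‖ ≤ δ` (sup bound
`2 * 4 ^ (A-1) * 2 M = 4 ^ A M` for the pairs in `S`, and the decay bound, with `δ`, for the others).
Integrate over `R × R` and use `gram_G`.  The function `(y, y') ↦ #S(y, y')` is a finite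
sum of indicators of closed sets, so it is measurable and bounded.
-/

namespace Pool.Agent.Helper25.MOB

open MeasureTheory

private lemma card_S74 (H : ℕ) (δ : ℝ) (y y' : UnitAddCircle) :
    ((S H δ y y').card : ℝ) = ∑ h ∈ primesIn H, ∑ h' ∈ primesIn H,
      if ‖h • y - h' • y'‖ ≤ δ then (1 : ℝ) else 0 := by
  classical
  unfold S
  rw [Finset.card_filter, Finset.sum_product]
  push_cast
  rfl

private lemma meas_S74 (H : ℕ) (δ : ℝ) :
    Measurable fun p : UnitAddCircle × UnitAddCircle => ((S H δ p.1 p.2).card : ℝ) := by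
  simp only [card_S74]
  refine Finset.measurable_sum _ fun h _ => Finset.measurable_sum _ fun h' _ => ?_
  refine Measurable.ite ?_ measurable_const measurable_const
  refine measurableSet_le ?_ measurable_const
  exact (Continuous.norm ((continuous_fst.nsmul h).sub (continuous_snd.nsmul h'))).measurable

private lemma card_S_le74 (H : ℕ) (δ : ℝ) (y y' : UnitAddCircle) :
    ((S H δ y y').card : ℝ) ≤ ((primesIn H).card : ℝ) ^ 2 := by
  classical
  unfold S
  refine (Nat.cast_le.mpr (Finset.card_filter_le _ _)).trans ?_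
  rw [Finset.card_product, sq, Nat.cast_mul]

/-- monotonicity of double integrals of bounded functions -/
private lemma double_mono74 (R : Set UnitAddCircle) {f g : UnitAddCircle → UnitAddCircle → ℝ}
    (hf : Measurable fun p : UnitAddCircle × UnitAddCircle => f p.1 p.2)
    (hg : Measurable fun p : UnitAddCircle × UnitAddCircle => g p.1 p.2)
    {Cf Cg : ℝ} (hCf : ∀ y y', ‖f y y'‖ ≤ Cf) (hCg : ∀ y y', ‖g y y'‖ ≤ Cg)
    (h : ∀ y y', f y y' ≤ g y y') :
    ∫ y in R, ∫ y' in R, f y y' ≤ ∫ y in R, ∫ y' in R, g y y' := by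
  have hint : ∀ {u : UnitAddCircle → UnitAddCircle → ℝ} {C : ℝ},
      (Measurable fun p : UnitAddCircle × UnitAddCircle => u p.1 p.2) → (∀ y y', ‖u y y'‖ ≤ C) →
      Integrable (fun y => ∫ y' in R, u y y') (volume.restrict R) ∧
        ∀ y, Integrable (fun y' => u y y') (volume.restrict R) := by
    intro u C hu hC
    constructor
    · have h1 : Integrable (fun p : UnitAddCircle × UnitAddCircle => u p.1 p.2)
          ((volume.restrict R).prod (volume.restrict R)) :=
        Integrable.of_bound hu.aestronglyMeasurable C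
          (Filter.Eventually.of_forall fun p => hC p.1 p.2)
      exact h1.integral_prod_left
    · intro y
      exact Integrable.of_bound (hu.comp (measurable_const.prodMk measurable_id)).aestronglyMeasurable
        C (Filter.Eventually.of_forall fun p => hC y p)
  exact integral_mono (hint hf hCf).1 (hint hg hCg).1 fun y =>
    integral_mono ((hint hf hCf).2 y) ((hint hg hCg).2 y) fun y' => h y y'

theorem gram_S (H M A : ℕ) (hM : 1 ≤ M) (hA : 1 ≤ A) {δ : ℝ} (hδ : 0 < δ)
    (R : Set UnitAddCircle) (hR : MeasurableSet R) :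
    (∫ y in R, ‖G H M y‖) ^ 2 ≤
      M * (4 ^ A * M * (∫ y in R, ∫ y' in R, ((S H δ y y').card : ℝ)) +
        ((primesIn H).card : ℝ) ^ 2 * (2 * M) / (2 * M * δ) ^ (2 * A) *
          (volume.real R) ^ 2) := by
  classical
  obtain ⟨k, hk0, hk1, hsup, hdec⟩ := exists_kernel A (2 * M) hA (by omega)
  have hM0 : (0 : ℝ) < M := by exact_mod_cast hM
  have h1 := gram_G H M R hR k hk0 (fun m h1 h2 => hk1 m (by
    rw [abs_of_nonneg (by omega)]
    push_cast
    omega))
  refine h1.trans (mul_le_mul_of_nonneg_left ?_ hM0.le)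
  obtain ⟨K, hK⟩ : ∃ K : UnitAddCircle → ℂ, K = fun x => k.sum fun m c => (c : ℂ) * ex m x :=
    ⟨_, rfl⟩
  have hKx : ∀ x, (k.sum fun m c => (c : ℂ) * ex m x) = K x := fun x => by rw [hK]
  simp only [hKx] at hsup hdec ⊢
  have hKc : Continuous K := by
    rw [hK]
    unfold Finsupp.sum
    exact continuous_finsetSum _ fun m _ => continuous_const.mul (continuous_ex m)
  have hpos : (0 : ℝ) < (2 * M * δ) ^ (2 * A) := by positivity
  have e4 : (2 : ℝ) * 4 ^ (A - 1) * ((2 * M : ℕ) : ℝ) = 4 ^ A * M := by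
    obtain ⟨B, rfl⟩ : ∃ B, A = B + 1 := ⟨A - 1, by omega⟩
    rw [Nat.add_sub_cancel, pow_succ]
    push_cast
    ring
  have hsup' : ∀ x, ‖K x‖ ≤ 4 ^ A * M := fun x => (hsup x).trans_eq e4
  have hdec' : ∀ x, δ < ‖x‖ → ‖K x‖ ≤ 2 * M / (2 * M * δ) ^ (2 * A) := by
    intro x hx
    rw [le_div_iff₀ hpos]
    have := hdec x δ hδ hx.le
    push_cast at this
    exact this
  set c : ℝ := 2 * M / (2 * M * δ) ^ (2 * A) with hc
  have hc0 : 0 ≤ c := by positivity
  -- the pointwise bound
  have hpt : ∀ y y' : UnitAddCircle, ∑ h ∈ primesIn H, ∑ h' ∈ primesIn H, ‖K (h • y - h' • y')‖ ≤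
      4 ^ A * M * ((S H δ y y').card : ℝ) + ((primesIn H).card : ℝ) ^ 2 * c := by
    intro y y'
    rw [card_S74, Finset.mul_sum]
    have e5 : ((primesIn H).card : ℝ) ^ 2 * c = ∑ h ∈ primesIn H, ∑ h' ∈ primesIn H, c := by
      simp only [Finset.sum_const, nsmul_eq_mul]
      ring
    rw [e5, ← Finset.sum_add_distrib]
    refine Finset.sum_le_sum fun h _ => ?_
    rw [Finset.mul_sum, ← Finset.sum_add_distrib]
    refine Finset.sum_le_sum fun h' _ => ?_
    by_cases hle : ‖h • y - h' • y'‖ ≤ δ
    · rw [if_pos hle, mul_one]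
      have := hsup' (h • y - h' • y')
      linarith
    · rw [if_neg hle, mul_zero, zero_add]
      exact hdec' _ (lt_of_not_ge hle)
  have hmf : Measurable fun p : UnitAddCircle × UnitAddCircle =>
      ∑ h ∈ primesIn H, ∑ h' ∈ primesIn H, ‖K (h • p.1 - h' • p.2)‖ := by
    refine Finset.measurable_sum _ fun h _ => Finset.measurable_sum _ fun h' _ => ?_
    exact (hKc.comp ((continuous_fst.nsmul h).sub (continuous_snd.nsmul h'))).norm.measurable
  have hmg : Measurable fun p : UnitAddCircle × UnitAddCircle =>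
      4 ^ A * M * ((S H δ p.1 p.2).card : ℝ) + ((primesIn H).card : ℝ) ^ 2 * c :=
    ((meas_S74 H δ).const_mul _).add_const _
  have h2 := double_mono74 R (f := fun y y' => ∑ h ∈ primesIn H, ∑ h' ∈ primesIn H,
      ‖K (h • y - h' • y')‖) (g := fun y y' => 4 ^ A * M * ((S H δ y y').card : ℝ) +
      ((primesIn H).card : ℝ) ^ 2 * c) hmf hmg
    (Cf := ((primesIn H).card : ℝ) ^ 2 * (4 ^ A * M))
    (Cg := 4 ^ A * M * ((primesIn H).card : ℝ) ^ 2 + ((primesIn H).card : ℝ) ^ 2 * c)
    (fun y y' => by
      rw [Real.norm_of_nonneg (Finset.sum_nonneg fun _ _ => Finset.sum_nonneg fun _ _ =>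
        norm_nonneg _)]
      have e5 : ((primesIn H).card : ℝ) ^ 2 * (4 ^ A * M) =
          ∑ h ∈ primesIn H, ∑ h' ∈ primesIn H, (4 ^ A * M : ℝ) := by
        simp only [Finset.sum_const, nsmul_eq_mul]
        ring
      rw [e5]
      exact Finset.sum_le_sum fun _ _ => Finset.sum_le_sum fun _ _ => hsup' _)
    (fun y y' => by
      have h0 : (0 : ℝ) ≤ 4 ^ A * M := by positivity
      rw [Real.norm_of_nonneg (add_nonneg (mul_nonneg h0 (Nat.cast_nonneg _))
        (mul_nonneg (sq_nonneg _) hc0))]
      exact add_le_add (mul_le_mul_of_nonneg_left (card_S_le74 H δ y y') h0) le_rfl) hpt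
  refine h2.trans (le_of_eq ?_)
  -- the integral of the bound
  have hS : ∀ y, Integrable (fun y' => ((S H δ y y').card : ℝ)) (volume.restrict R) := fun y =>
    Integrable.of_bound ((meas_S74 H δ).comp
      (measurable_const.prodMk measurable_id)).aestronglyMeasurable
      (((primesIn H).card : ℝ) ^ 2) (Filter.Eventually.of_forall fun p => by
        rw [Real.norm_of_nonneg (Nat.cast_nonneg _)]
        exact card_S_le74 H δ y p)
  have hS2 : Integrable (fun y => ∫ y' in R, ((S H δ y y').card : ℝ)) (volume.restrict R) := by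
    have h3 : Integrable (fun p : UnitAddCircle × UnitAddCircle => ((S H δ p.1 p.2).card : ℝ))
        ((volume.restrict R).prod (volume.restrict R)) :=
      Integrable.of_bound (meas_S74 H δ).aestronglyMeasurable (((primesIn H).card : ℝ) ^ 2)
        (Filter.Eventually.of_forall fun p => by
          rw [Real.norm_of_nonneg (Nat.cast_nonneg _)]
          exact card_S_le74 H δ p.1 p.2)
    exact h3.integral_prod_left
  have hin : ∀ y, ∫ y' in R, (4 ^ A * M * ((S H δ y y').card : ℝ) +
      ((primesIn H).card : ℝ) ^ 2 * c) = 4 ^ A * M * (∫ y' in R, ((S H δ y y').card : ℝ)) +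
      volume.real R * (((primesIn H).card : ℝ) ^ 2 * c) := by
    intro y
    rw [integral_add ((hS y).const_mul _) (integrable_const _), integral_const_mul,
      setIntegral_const, smul_eq_mul]
  simp only [hin]
  rw [integral_add (hS2.const_mul _) (integrable_const _), integral_const_mul,
    setIntegral_const, smul_eq_mul, hc]
  ring

end Pool.Agent.Helper25.MOB
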