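import Pool.Agent.Helper25.MOB.X0
import Pool.Agent.Helper25.MOB.A2
import Pool.Agent.Helper25.MOB.A3
import Pool.Agent.Helper25.MOB.A4
import Pool.Agent.Helper25.MOB.B3

/-!
Block MOB-X1.  Steps A and B with numbers.

Let `N` be large, `H = HH N`, `M = MM N`, `T = N ^ η`, and suppose `∫ ‖F‖ ≤ N ^ (2/7 - 20 η)`.
* `A₀ = #P (π(M) - 1) ≥ N ^ (1 - η)` (`primesIn_ge`, `primes_le_ge` with `η / 4`, `4 H M ≥ N`), so
  `A₀ ≤ ‖∫ F conj G‖` (`inner_FG_ge`).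
* `level_select` with `V0 = N ^ (5/7)`, `B = N ^ (2/7 - 20 η)`, `k = Nat.log 2 N + 1` (`‖F‖ ≤ N < 2 ^ k`):
  `3 √(N V0 B) = 3 N ^ (1 - 10 η)`, so some level set `R = lev N V`, `V = 2 ^ i V0`, has
  `∫_R ‖F‖ ‖G‖ ≥ N ^ (1 - η) / (2 k) ≥ N ^ (1 - 2η) = A'`.
* `level_facts`: `V² ρ ≤ N`; `A'² ≤ 36 V² ρ N` so `V² ρ ≥ N ^ (1 - 4η) / 36`; `A' ≤ 2 V ∫_R ‖G‖`, so
  `(∫_R ‖G‖)² ≥ A'² / (4 V²) ≥ N ^ (1 - 4η) ρ / 4`.
* `gram_S` with `A = ⌈2 / η⌉₊` and `δ = dd η N`: `(2 M δ) ^ (2A) ≥ (N ^ η) ^ (2A) ≥ N ^ 4` and `M #P ≤ N`, so the second term is at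
  most `2 ρ² / N²`, negligible.  So `4 ^ A M² ∫∫ #S ≥ N ^ (1 - 4η) ρ / 8`, and `M ≤ N / (2H)` gives
  `∫∫ #S ≥ ρ H² N ^ (-1 - 4η) / (2 * 4 ^ A)`.
-/

namespace Pool.Agent.Helper25.MOB

open Filter MeasureTheory

/-- The level set `{V ≤ ‖F‖ < 2 V}`. -/
def lev (N : ℕ) (V : ℝ) : Set UnitAddCircle := {y | V ≤ ‖F N y‖ ∧ ‖F N y‖ < 2 * V}

theorem measurableSet_lev (N : ℕ) (V : ℝ) : MeasurableSet (lev N V) := by
  have hc : Continuous fun y => ‖F N y‖ := (continuous_F N).norm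
  exact (measurableSet_le measurable_const hc.measurable).inter
    (measurableSet_lt hc.measurable measurable_const)

private theorem HH_tendsto38 : Tendsto HH atTop atTop := by
  refine tendsto_atTop.2 fun b => ?_
  filter_upwards [HH_ev, eventually_ge_atTop (b ^ 4)] with N hN hb
  exact (lt_of_pow_lt_pow_left₀ 4 (Nat.zero_le _) (hb.trans_lt hN.2.2.2)).le

private theorem MM_tendsto38 : Tendsto MM atTop atTop := by
  refine tendsto_atTop.2 fun b => ?_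
  filter_upwards [MM_ev, rpow_ev (4 * b) (show (0 : ℝ) < 7 / 10 by norm_num)] with N hN hb
  rw [Real.rpow_zero, mul_one] at hb
  have h1 := hb.trans hN.2.2.2
  have h2 : (b : ℝ) ≤ MM N := by linarith
  exact_mod_cast h2

/-- The scalar product is large. -/
theorem inner_ev {η : ℝ} (hη : 0 < η) (hη1 : η ≤ 1 / 1000) : ∀ᶠ N : ℕ in atTop,
    (N : ℝ) ^ (1 - η) ≤
      ((primesIn (HH N)).card : ℝ) * ((((Finset.Icc 1 (MM N)).filter Nat.Prime).card : ℝ) - 1) := by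
  have h4 : 0 < η / 4 := by positivity
  have e1 := HH_tendsto38.eventually (primesIn_ge h4)
  have e2 := MM_tendsto38.eventually (primes_le_ge h4)
  have e3 := MM_tendsto38.eventually (rpow_ev 2 (show (0 : ℝ) < 1 - η / 4 by linarith))
  have e4 := rpow_ev 8 (show 1 - η < 1 - η / 4 by linarith)
  filter_upwards [e1, e2, e3, e4, MM_ev, HH_ev, eventually_ge_atTop 1] with N h1 h2 h3 h5 h6 h7 h8
  rw [Real.rpow_zero, mul_one] at h3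
  set c : ℝ := 1 - η / 4 with hc
  have hc0 : 0 ≤ c := by rw [hc]; linarith
  have hc1 : c ≤ 1 := by rw [hc]; linarith
  have hM0 : (0 : ℝ) ≤ (MM N : ℝ) := Nat.cast_nonneg _
  have hH0 : (0 : ℝ) ≤ (HH N : ℝ) := Nat.cast_nonneg _
  have k1 : (N : ℝ) ^ c ≤ 4 * ((HH N : ℝ) ^ c * (MM N : ℝ) ^ c) := by
    have k2 : (N : ℝ) ≤ 4 * ((HH N : ℝ) * MM N) := by
      have := h6.2.2.1
      have h9 : (N : ℝ) ≤ 4 * HH N * MM N := by exact_mod_cast this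
      linarith
    refine (Real.rpow_le_rpow (Nat.cast_nonneg _) k2 hc0).trans ?_
    rw [Real.mul_rpow (by norm_num) (mul_nonneg hH0 hM0), Real.mul_rpow hH0 hM0]
    refine mul_le_mul_of_nonneg_right ?_ (mul_nonneg (Real.rpow_nonneg hH0 _) (Real.rpow_nonneg hM0 _))
    calc (4 : ℝ) ^ c ≤ 4 ^ (1 : ℝ) := Real.rpow_le_rpow_of_exponent_le (by norm_num) hc1
      _ = 4 := Real.rpow_one 4
  have k3 : (MM N : ℝ) ^ c / 2 ≤ (((Finset.Icc 1 (MM N)).filter Nat.Prime).card : ℝ) - 1 := by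
    linarith
  have k4 : (HH N : ℝ) ^ c * ((MM N : ℝ) ^ c / 2) ≤ ((primesIn (HH N)).card : ℝ) *
      ((((Finset.Icc 1 (MM N)).filter Nat.Prime).card : ℝ) - 1) :=
    mul_le_mul h1 k3 (div_nonneg (Real.rpow_nonneg hM0 _) (by norm_num)) (Nat.cast_nonneg _)
  linarith

theorem step_AB {η : ℝ} (hη : 0 < η) (hη1 : η ≤ 1 / 1000) : ∀ᶠ N : ℕ in atTop,
    ∫ y, ‖F N y‖ ≤ (N : ℝ) ^ (2 / 7 - 20 * η) →
    ∃ V : ℝ, (N : ℝ) ^ (5 / 7 : ℝ) ≤ V ∧ V ^ 2 * volume.real (lev N V) ≤ N ∧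
      (N : ℝ) ^ (1 - 7 * η) ≤ V ^ 2 * volume.real (lev N V) ∧
      volume.real (lev N V) * (HH N : ℝ) ^ 2 * (N : ℝ) ^ (-1 - 8 * η) ≤
        ∫ y in lev N V, ∫ y' in lev N V, ((S (HH N) (dd η N) y y').card : ℝ) := by
  obtain ⟨A, hA⟩ : ∃ A : ℕ, A = ⌈2 / η⌉₊ := ⟨_, rfl⟩
  have hA2 : 2 / η ≤ A := by rw [hA]; exact Nat.le_ceil _
  have hAη : 2 ≤ A * η := (div_le_iff₀ hη).1 hA2
  have hA1 : 1 ≤ A := by
    rw [hA]
    exact Nat.one_le_iff_ne_zero.2 (Nat.ceil_pos.2 (by positivity)).ne'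
  filter_upwards [inner_ev hη hη1, MM_ev, HH_ev, dd_ev hη hη1, eventually_ge_atTop 1,
    rpow_ev 12 (show 1 - 10 * η < 1 - η by linarith), natlog_ev 4 hη,
    rpow_ev 36 (show 1 - 7 * η < 1 - 4 * η by linarith),
    rpow_ev 16 (show (-2 : ℝ) < 1 - 4 * η by linarith),
    rpow_ev (2 * 4 ^ A) (show -1 - 8 * η < -1 - 4 * η by linarith)]
    with N h1 hM hH hd hN1 h2 h3 h4 h5 h6 hB
  have hN1' : (1 : ℝ) ≤ N := by exact_mod_cast hN1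
  have hN0 : (0 : ℝ) < N := by linarith
  have hp : ∀ x : ℝ, 0 < (N : ℝ) ^ x := fun x => Real.rpow_pos_of_pos hN0 x
  have hHM : 2 * HH N * MM N ≤ N := hM.2.1
  have hH1 : 1 ≤ HH N := by have := hH.1; omega
  have hV0 : (1 : ℝ) ≤ (N : ℝ) ^ (5 / 7 : ℝ) := Real.one_le_rpow hN1' (by norm_num)
  have hinner := h1.trans (inner_FG_ge hH1 hHM)
  have hG2 : ∫ y, ‖G (HH N) (MM N) y‖ ^ 2 ≤ 9 * (N : ℝ) := integral_G_sq_le hH1 hHM hH.2.2.2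
  have hsup : ∀ y, ‖F N y‖ < 2 ^ (Nat.log 2 N + 1) * (N : ℝ) ^ (5 / 7 : ℝ) := by
    intro y
    have k1 : (N : ℝ) < 2 ^ (Nat.log 2 N + 1) := by
      exact_mod_cast Nat.lt_pow_succ_log_self (by norm_num) N
    calc ‖F N y‖ ≤ N := norm_F_le N y
      _ < 2 ^ (Nat.log 2 N + 1) := k1
      _ = 2 ^ (Nat.log 2 N + 1) * 1 := (mul_one _).symm
      _ ≤ 2 ^ (Nat.log 2 N + 1) * (N : ℝ) ^ (5 / 7 : ℝ) :=
        mul_le_mul_of_nonneg_left hV0 (by positivity)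
  obtain ⟨i, -, hi⟩ := level_select (F N) (G (HH N) (MM N)) (continuous_F N) (continuous_G _ _)
    (N := N) (V0 := (N : ℝ) ^ (5 / 7 : ℝ)) (A := (N : ℝ) ^ (1 - η))
    (B := (N : ℝ) ^ (2 / 7 - 20 * η)) hN0.le (hp _) (hp _).le (Nat.succ_pos _) hsup hG2 hB hinner
  obtain ⟨V, hVdef⟩ : ∃ V : ℝ, V = 2 ^ i * (N : ℝ) ^ (5 / 7 : ℝ) := ⟨_, rfl⟩
  have hset : {y | 2 ^ i * (N : ℝ) ^ (5 / 7 : ℝ) ≤ ‖F N y‖ ∧
      ‖F N y‖ < 2 ^ (i + 1) * (N : ℝ) ^ (5 / 7 : ℝ)} = {y | V ≤ ‖F N y‖ ∧ ‖F N y‖ < 2 * V} := by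
    have : 2 ^ (i + 1) * (N : ℝ) ^ (5 / 7 : ℝ) = 2 * V := by rw [hVdef]; ring
    rw [this, ← hVdef]
  rw [hset] at hi
  have hVpos : 0 < V := by rw [hVdef]; exact mul_pos (by positivity) (hp _)
  have hVge : (N : ℝ) ^ (5 / 7 : ℝ) ≤ V := by
    rw [hVdef]
    exact le_mul_of_one_le_left (hp _).le (one_le_pow₀ (by norm_num))
  -- the square root
  have hsq : √((N : ℝ) * (N : ℝ) ^ (5 / 7 : ℝ) * (N : ℝ) ^ (2 / 7 - 20 * η)) =
      (N : ℝ) ^ (1 - 10 * η) := by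
    have k1 : (N : ℝ) * (N : ℝ) ^ (5 / 7 : ℝ) * (N : ℝ) ^ (2 / 7 - 20 * η) =
        ((N : ℝ) ^ (1 - 10 * η)) ^ 2 := by
      nth_rewrite 1 [← Real.rpow_one (N : ℝ)]
      rw [← Real.rpow_add hN0, ← Real.rpow_add hN0, ← Real.rpow_natCast, ← Real.rpow_mul hN0.le]
      congr 1
      push_cast
      ring
    rw [k1, Real.sqrt_sq (hp _).le]
  rw [hsq] at hi
  -- the lower bound of the level integral
  obtain ⟨J, hJ⟩ : ∃ J : ℝ, J = ∫ y in {y | V ≤ ‖F N y‖ ∧ ‖F N y‖ < 2 * V},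
      ‖F N y‖ * ‖G (HH N) (MM N) y‖ := ⟨_, rfl⟩
  have hJA : (N : ℝ) ^ (1 - 2 * η) ≤ J := by
    rw [← hJ] at hi
    have hk0 : (0 : ℝ) < ((Nat.log 2 N + 1 : ℕ) : ℝ) := Nat.cast_pos.2 (Nat.succ_pos _)
    have hspl : (N : ℝ) ^ (1 - η) = (N : ℝ) ^ η * (N : ℝ) ^ (1 - 2 * η) := by
      rw [← Real.rpow_add hN0]
      congr 1
      ring
    have k2 : 2 * ((Nat.log 2 N + 1 : ℕ) : ℝ) * (N : ℝ) ^ (1 - 2 * η) ≤ (N : ℝ) ^ (1 - η) := by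
      rw [hspl]
      refine mul_le_mul_of_nonneg_right ?_ (hp _).le
      push_cast at hk0 ⊢
      linarith
    have k3 : ((Nat.log 2 N + 1 : ℕ) : ℝ) * (N : ℝ) ^ (1 - 2 * η) ≤
        ((Nat.log 2 N + 1 : ℕ) : ℝ) * J := by
      refine le_trans ?_ hi
      have := hp (1 - η)
      linarith
    exact le_of_mul_le_mul_left k3 hk0
  rw [hJ] at hJA
  obtain ⟨f1, f2, f3⟩ := level_facts (F N) (G (HH N) (MM N)) (continuous_F N) (continuous_G _ _)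
    hN0.le hVpos (hp (1 - 2 * η)).le (integral_F_sq_le N) hG2 hJA
  have hgs := gram_S (HH N) (MM N) A hM.1 hA1 hd.1 (lev N V) (measurableSet_lev N V)
  change V ^ 2 * volume.real (lev N V) ≤ N at f1
  change (N : ℝ) ^ (1 - 2 * η) ≤ 2 * V * ∫ y in lev N V, ‖G (HH N) (MM N) y‖ at f2
  change ((N : ℝ) ^ (1 - 2 * η)) ^ 2 ≤ 36 * V ^ 2 * volume.real (lev N V) * N at f3
  refine ⟨V, hVge, f1, ?_⟩
  have hI0 : 0 ≤ ∫ y in lev N V, ∫ y' in lev N V, ((S (HH N) (dd η N) y y').card : ℝ) :=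
    integral_nonneg fun y => integral_nonneg fun y' => Nat.cast_nonneg _
  generalize (∫ y in lev N V, ∫ y' in lev N V, ((S (HH N) (dd η N) y y').card : ℝ)) = I at *
  have hρ0 : 0 ≤ volume.real (lev N V) := measureReal_nonneg
  have hρ1 : volume.real (lev N V) ≤ 1 := measureReal_le_one
  have hGint0 : 0 ≤ ∫ y in lev N V, ‖G (HH N) (MM N) y‖ := integral_nonneg fun y => norm_nonneg _
  generalize (∫ y in lev N V, ‖G (HH N) (MM N) y‖) = g at *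
  generalize volume.real (lev N V) = ρ at *
  have hsq2 : ((N : ℝ) ^ (1 - 2 * η)) ^ 2 = (N : ℝ) ^ (1 - 4 * η) * N := by
    nth_rewrite 3 [← Real.rpow_one (N : ℝ)]
    rw [← Real.rpow_add hN0, ← Real.rpow_natCast, ← Real.rpow_mul hN0.le]
    congr 1
    push_cast
    ring
  have hV2 : 0 < V ^ 2 := by positivity
  refine ⟨?_, ?_⟩
  · rw [hsq2] at f3
    have k1 : (N : ℝ) ^ (1 - 4 * η) ≤ 36 * V ^ 2 * ρ := le_of_mul_le_mul_right f3 hN0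
    linarith
  · -- lower bound for the square of the integral of the norm of G
    have k1 : (N : ℝ) ^ (1 - 4 * η) * ρ / 4 ≤ g ^ 2 := by
      have k2 : ((N : ℝ) ^ (1 - 2 * η)) ^ 2 ≤ (2 * V * g) ^ 2 :=
        pow_le_pow_left₀ (hp _).le f2 2
      rw [hsq2] at k2
      have k3 : (N : ℝ) ^ (1 - 4 * η) * (V ^ 2 * ρ) ≤ 4 * V ^ 2 * g ^ 2 := by
        calc (N : ℝ) ^ (1 - 4 * η) * (V ^ 2 * ρ) ≤ (N : ℝ) ^ (1 - 4 * η) * N :=
              mul_le_mul_of_nonneg_left f1 (hp _).le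
          _ ≤ (2 * V * g) ^ 2 := k2
          _ = 4 * V ^ 2 * g ^ 2 := by ring
      have k4 : V ^ 2 * ((N : ℝ) ^ (1 - 4 * η) * ρ / 4) ≤ V ^ 2 * g ^ 2 := by
        have e1 : V ^ 2 * ((N : ℝ) ^ (1 - 4 * η) * ρ / 4) =
            ((N : ℝ) ^ (1 - 4 * η) * (V ^ 2 * ρ)) / 4 := by ring
        rw [e1]
        linarith
      exact le_of_mul_le_mul_left k4 hV2
    -- the second term
    have hM0 : (0 : ℝ) ≤ (MM N : ℝ) := Nat.cast_nonneg _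
    have hHM' : 2 * (HH N : ℝ) * MM N ≤ N := by exact_mod_cast hHM
    have hHpos : (0 : ℝ) < (HH N : ℝ) := by exact_mod_cast hH1
    have hP : ((primesIn (HH N)).card : ℝ) ≤ HH N := by
      have : (primesIn (HH N)).card ≤ HH N := by
        refine (Finset.card_filter_le _ _).trans ?_
        rw [Nat.card_Ico]
        omega
      exact_mod_cast this
    have hPM : (MM N : ℝ) * (primesIn (HH N)).card ≤ N := by
      have k2 : (MM N : ℝ) * (primesIn (HH N)).card ≤ MM N * HH N :=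
        mul_le_mul_of_nonneg_left hP hM0
      have k3 : 0 ≤ (MM N : ℝ) * HH N := mul_nonneg hM0 hHpos.le
      linarith
    have hden : (N : ℝ) ^ 4 ≤ (2 * MM N * dd η N) ^ (2 * A) := by
      have k2 : 2 * (MM N : ℝ) * dd η N = 2 * (N : ℝ) ^ η := by
        rw [← hd.2.2.2]
        ring
      rw [k2]
      have k3 : (N : ℝ) ^ η ≤ 2 * (N : ℝ) ^ η := by
        have := hp η
        linarith
      calc (N : ℝ) ^ 4 = (N : ℝ) ^ (4 : ℝ) := by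
            rw [← Real.rpow_natCast]
            norm_num
        _ ≤ (N : ℝ) ^ (η * ((2 * A : ℕ) : ℝ)) := by
            refine Real.rpow_le_rpow_of_exponent_le hN1' ?_
            push_cast
            linarith
        _ = ((N : ℝ) ^ η) ^ (2 * A) := by rw [Real.rpow_mul hN0.le, Real.rpow_natCast]
        _ ≤ (2 * (N : ℝ) ^ η) ^ (2 * A) := pow_le_pow_left₀ (hp _).le k3 _
    have hterm : (MM N : ℝ) * (((primesIn (HH N)).card : ℝ) ^ 2 * (2 * MM N) /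
        (2 * MM N * dd η N) ^ (2 * A) * ρ ^ 2) ≤ 2 * (N : ℝ) ^ (-2 : ℝ) * ρ := by
      have hden0 : 0 < (2 * (MM N : ℝ) * dd η N) ^ (2 * A) := lt_of_lt_of_le (by positivity) hden
      have e1 : (MM N : ℝ) * (((primesIn (HH N)).card : ℝ) ^ 2 * (2 * MM N) /
        (2 * MM N * dd η N) ^ (2 * A) * ρ ^ 2) =
          2 * (((MM N : ℝ) * (primesIn (HH N)).card) ^ 2 / (2 * MM N * dd η N) ^ (2 * A)) * ρ ^ 2 := by
        ring
      rw [e1]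
      have k2 : ((MM N : ℝ) * (primesIn (HH N)).card) ^ 2 / (2 * MM N * dd η N) ^ (2 * A) ≤
          (N : ℝ) ^ (-2 : ℝ) := by
        rw [div_le_iff₀ hden0]
        calc ((MM N : ℝ) * (primesIn (HH N)).card) ^ 2 ≤ (N : ℝ) ^ 2 :=
              pow_le_pow_left₀ (mul_nonneg hM0 (Nat.cast_nonneg _)) hPM 2
          _ = (N : ℝ) ^ (-2 : ℝ) * (N : ℝ) ^ 4 := by
              rw [← Real.rpow_natCast, ← Real.rpow_natCast, ← Real.rpow_add hN0]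
              congr 1
              norm_num
          _ ≤ (N : ℝ) ^ (-2 : ℝ) * (2 * MM N * dd η N) ^ (2 * A) :=
              mul_le_mul_of_nonneg_left hden (hp _).le
      have k3 : ρ ^ 2 ≤ ρ := by nlinarith
      have k4 : 2 * (((MM N : ℝ) * (primesIn (HH N)).card) ^ 2 / (2 * MM N * dd η N) ^ (2 * A)) ≤
          2 * (N : ℝ) ^ (-2 : ℝ) := by linarith
      exact mul_le_mul k4 k3 (sq_nonneg _) (mul_nonneg (by norm_num) (hp _).le)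
    have hsmall : 2 * (N : ℝ) ^ (-2 : ℝ) * ρ ≤ (N : ℝ) ^ (1 - 4 * η) * ρ / 8 := by
      have := mul_le_mul_of_nonneg_right h5 hρ0
      linarith
    have k5 : (N : ℝ) ^ (1 - 4 * η) * ρ / 8 ≤ 4 ^ A * (MM N : ℝ) ^ 2 * I := by
      have e1 : (MM N : ℝ) * (4 ^ A * MM N * I + ((primesIn (HH N)).card : ℝ) ^ 2 * (2 * MM N) /
          (2 * MM N * dd η N) ^ (2 * A) * ρ ^ 2) = 4 ^ A * (MM N : ℝ) ^ 2 * I +
          (MM N : ℝ) * (((primesIn (HH N)).card : ℝ) ^ 2 * (2 * MM N) /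
          (2 * MM N * dd η N) ^ (2 * A) * ρ ^ 2) := by ring
      rw [e1] at hgs
      linarith
    -- insert the bound of M
    have k6 : 4 * ((HH N : ℝ) ^ 2 * (MM N : ℝ) ^ 2) ≤ (N : ℝ) ^ 2 := by
      calc 4 * ((HH N : ℝ) ^ 2 * (MM N : ℝ) ^ 2) = (2 * (HH N : ℝ) * MM N) ^ 2 := by ring
        _ ≤ (N : ℝ) ^ 2 := pow_le_pow_left₀ (by positivity) hHM' 2
    have k7 : (HH N : ℝ) ^ 2 * ((N : ℝ) ^ (1 - 4 * η) * ρ / 8) ≤ 4 ^ A * ((N : ℝ) ^ 2 / 4) * I := by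
      have c1 : (HH N : ℝ) ^ 2 * ((N : ℝ) ^ (1 - 4 * η) * ρ / 8) ≤
          (HH N : ℝ) ^ 2 * (4 ^ A * (MM N : ℝ) ^ 2 * I) :=
        mul_le_mul_of_nonneg_left k5 (sq_nonneg _)
      have c2 : (HH N : ℝ) ^ 2 * (4 ^ A * (MM N : ℝ) ^ 2 * I) =
          ((HH N : ℝ) ^ 2 * (MM N : ℝ) ^ 2) * (4 ^ A * I) := by ring
      have c3 : ((HH N : ℝ) ^ 2 * (MM N : ℝ) ^ 2) * (4 ^ A * I) ≤ ((N : ℝ) ^ 2 / 4) * (4 ^ A * I) :=
        mul_le_mul_of_nonneg_right (by linarith) (by positivity)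
      have c4 : ((N : ℝ) ^ 2 / 4) * (4 ^ A * I) = 4 ^ A * ((N : ℝ) ^ 2 / 4) * I := by ring
      rw [c2] at c1
      rw [c4] at c3
      exact c1.trans c3
    have hN2 : (0 : ℝ) < (N : ℝ) ^ 2 := by positivity
    have e2 : (N : ℝ) ^ (1 - 4 * η) = (N : ℝ) ^ (-1 - 4 * η) * (N : ℝ) ^ 2 := by
      rw [← Real.rpow_natCast, ← Real.rpow_add hN0]
      congr 1
      push_cast
      ring
    rw [e2] at k7
    have k8 : (N : ℝ) ^ 2 * ((HH N : ℝ) ^ 2 * (N : ℝ) ^ (-1 - 4 * η) * ρ) ≤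
        (N : ℝ) ^ 2 * (2 * 4 ^ A * I) := by
      have c1 : (HH N : ℝ) ^ 2 * ((N : ℝ) ^ (-1 - 4 * η) * (N : ℝ) ^ 2 * ρ / 8) =
          (N : ℝ) ^ 2 * ((HH N : ℝ) ^ 2 * (N : ℝ) ^ (-1 - 4 * η) * ρ) / 8 := by ring
      have c2 : 4 ^ A * ((N : ℝ) ^ 2 / 4) * I = (N : ℝ) ^ 2 * (2 * 4 ^ A * I) / 8 := by ring
      rw [c1, c2] at k7
      linarith
    have k9 := le_of_mul_le_mul_left k8 hN2
    have k10 : 2 * 4 ^ A * (ρ * (HH N : ℝ) ^ 2 * (N : ℝ) ^ (-1 - 8 * η)) ≤ 2 * 4 ^ A * I := by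
      refine le_trans ?_ k9
      have c1 : 2 * 4 ^ A * (ρ * (HH N : ℝ) ^ 2 * (N : ℝ) ^ (-1 - 8 * η)) =
          (ρ * (HH N : ℝ) ^ 2) * (2 * 4 ^ A * (N : ℝ) ^ (-1 - 8 * η)) := by ring
      have c2 : (HH N : ℝ) ^ 2 * (N : ℝ) ^ (-1 - 4 * η) * ρ =
          (ρ * (HH N : ℝ) ^ 2) * (N : ℝ) ^ (-1 - 4 * η) := by ring
      rw [c1, c2]
      exact mul_le_mul_of_nonneg_left h6 (mul_nonneg hρ0 (sq_nonneg _))
    exact le_of_mul_le_mul_left k10 (by positivity)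

end Pool.Agent.Helper25.MOB
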