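import Pool.Agent.Helper25.MOB.Defs

/-!
Block MOB-BAS.  Basic facts on the characters and on trigonometric polynomials.
All are short: unfold `ex`, use `fourier_add`, `fourier_coe_apply`, `fourier_neg`,
`AddCircle.toCircle`, and for `integral_ex` the orthogonality `orthonormal_fourier` /
`fourierCoeff_fourier` (the volume of `UnitAddCircle` is `haarAddCircle`:
`AddCircle.volume_eq_smul_haarAddCircle`, `integral_haarAddCircle`).
-/

namespace Pool.Agent.Helper25.MOB

open MeasureTheory
open scoped ComplexConjugate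

theorem continuous_ex (n : ℤ) : Continuous (ex n) := by
  unfold ex
  exact (fourier n).continuous

theorem norm_ex (n : ℤ) (y : UnitAddCircle) : ‖ex n y‖ = 1 := by
  unfold ex
  rw [fourier_apply]
  exact Circle.norm_coe _

theorem ex_add (m n : ℤ) (y : UnitAddCircle) : ex (m + n) y = ex m y * ex n y := by
  unfold ex
  exact fourier_add

theorem ex_add_arg (n : ℤ) (y z : UnitAddCircle) : ex n (y + z) = ex n y * ex n z := by
  unfold ex
  rw [fourier_apply, fourier_apply, fourier_apply, zsmul_add, AddCircle.toCircle_add,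
    Circle.coe_mul]

theorem ex_zero (y : UnitAddCircle) : ex 0 y = 1 := by
  unfold ex
  exact fourier_zero

theorem conj_ex (n : ℤ) (y : UnitAddCircle) : conj (ex n y) = ex (-n) y := by
  unfold ex
  exact fourier_neg.symm

theorem ex_nsmul (n : ℤ) (h : ℕ) (y : UnitAddCircle) : ex n (h • y) = ex (n * h) y := by
  unfold ex
  rw [fourier_apply, fourier_apply, mul_zsmul, natCast_zsmul]

theorem ex_coe (n : ℤ) (x : ℝ) :
    ex n (x : UnitAddCircle) = Complex.exp (2 * Real.pi * Complex.I * n * x) := by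
  unfold ex
  rw [fourier_coe_apply]
  congr 1
  push_cast
  ring

theorem integral_ex (n : ℤ) :
    ∫ y : UnitAddCircle, ex n y = if n = 0 then 1 else 0 := by
  have h := congrFun (fourierCoeff_fourier (T := (1 : ℝ)) n) 0
  unfold fourierCoeff at h
  simp only [neg_zero, fourier_zero, one_smul] at h
  rw [AddCircle.integral_haarAddCircle] at h
  unfold ex
  rw [Pi.single_apply] at h
  simp only [inv_one, one_smul, eq_comm (a := (0 : ℤ))] at h
  exact h

private theorem integrable88 {f : UnitAddCircle → ℂ} (hf : Continuous f) : Integrable f volume :=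
  hf.integrable_of_hasCompactSupport (HasCompactSupport.of_compactSpace f)

/-- Orthogonality of trigonometric polynomials. -/
theorem integral_mul_conj (s t : Finset ℕ) (a b : ℕ → ℂ) :
    ∫ y : UnitAddCircle, (∑ n ∈ s, a n * ex n y) * conj (∑ n ∈ t, b n * ex n y) =
      ∑ n ∈ s ∩ t, a n * conj (b n) := by
  have h1 : ∀ y : UnitAddCircle, (∑ n ∈ s, a n * ex n y) * conj (∑ n ∈ t, b n * ex n y) =
      ∑ n ∈ s, ∑ m ∈ t, (a n * conj (b m)) * ex ((n : ℤ) - m) y := by
    intro y
    rw [map_sum, Finset.sum_mul_sum]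
    refine Finset.sum_congr rfl fun n _ => Finset.sum_congr rfl fun m _ => ?_
    rw [map_mul, conj_ex, sub_eq_add_neg, ex_add]
    ring
  simp_rw [h1]
  have hc : ∀ n m : ℕ, Continuous fun y : UnitAddCircle =>
      (a n * conj (b m)) * ex ((n : ℤ) - m) y := fun n m =>
    continuous_const.mul (continuous_ex _)
  rw [integral_finsetSum _ fun n _ => integrable88 (continuous_finsetSum _ fun m _ => hc n m)]
  have h2 : ∀ n ∈ s, (∫ y : UnitAddCircle, ∑ m ∈ t, (a n * conj (b m)) * ex ((n : ℤ) - m) y) =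
      if n ∈ t then a n * conj (b n) else 0 := by
    intro n _
    rw [integral_finsetSum _ fun m _ => integrable88 (hc n m)]
    have h3 : ∀ m ∈ t, (∫ y : UnitAddCircle, (a n * conj (b m)) * ex ((n : ℤ) - m) y) =
        if m = n then a n * conj (b n) else 0 := by
      intro m _
      rw [integral_const_mul, integral_ex]
      by_cases h : m = n
      · subst h
        simp
      · rw [if_neg h, if_neg (by omega), mul_zero]
    rw [Finset.sum_congr rfl h3, Finset.sum_ite_eq']
  rw [Finset.sum_congr rfl h2, Finset.sum_ite_mem]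

/-- Parseval. -/
theorem integral_norm_sq (s : Finset ℕ) (a : ℕ → ℂ) :
    ∫ y : UnitAddCircle, ‖∑ n ∈ s, a n * ex n y‖ ^ 2 = ∑ n ∈ s, ‖a n‖ ^ 2 := by
  have h := integral_mul_conj s s a a
  have h1 : ∀ y : UnitAddCircle, (∑ n ∈ s, a n * ex n y) * conj (∑ n ∈ s, a n * ex n y) =
      ((‖∑ n ∈ s, a n * ex n y‖ ^ 2 : ℝ) : ℂ) := by
    intro y
    rw [RCLike.mul_conj]
    push_cast
    rfl
  simp_rw [h1] at h
  rw [integral_complex_ofReal, Finset.inter_self] at h
  have h2 : ∀ n ∈ s, a n * conj (a n) = ((‖a n‖ ^ 2 : ℝ) : ℂ) := by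
    intro n _
    rw [RCLike.mul_conj]
    push_cast
    rfl
  rw [Finset.sum_congr rfl h2, ← Complex.ofReal_sum] at h
  exact_mod_cast h

theorem continuous_F (N : ℕ) : Continuous (F N) := by
  unfold F
  exact continuous_finsetSum _ fun n _ => continuous_const.mul (continuous_ex _)

theorem continuous_G (H M : ℕ) : Continuous (G H M) := by
  unfold G
  exact (continuous_finsetSum _ fun m _ => continuous_finsetSum _ fun n _ =>
    continuous_const.mul (continuous_ex _)).neg

private theorem norm_mu88 (n : ℕ) : ‖((ArithmeticFunction.moebius n : ℤ) : ℂ)‖ ≤ 1 := by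
  rw [Complex.norm_intCast]
  exact_mod_cast ArithmeticFunction.abs_moebius_le_one

theorem norm_F_le (N : ℕ) (y : UnitAddCircle) : ‖F N y‖ ≤ N := by
  unfold F
  refine (norm_sum_le _ _).trans ?_
  have : ∀ n ∈ Finset.Icc 1 N, ‖((ArithmeticFunction.moebius n : ℤ) : ℂ) * ex n y‖ ≤ 1 := by
    intro n _
    rw [norm_mul, norm_ex, mul_one]
    exact norm_mu88 n
  refine (Finset.sum_le_sum this).trans ?_
  simp

theorem norm_G_le (H M : ℕ) (y : UnitAddCircle) : ‖G H M y‖ ≤ M * (primesIn H).card := by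
  unfold G
  rw [norm_neg]
  refine (norm_sum_le _ _).trans ?_
  have : ∀ m ∈ Finset.Icc 1 M, ‖∑ h ∈ primesIn H,
      ((ArithmeticFunction.moebius m : ℤ) : ℂ) * ex ((h * m : ℕ) : ℤ) y‖ ≤
        ((primesIn H).card : ℝ) := by
    intro m _
    refine (norm_sum_le _ _).trans ?_
    have h2 : ∀ h ∈ primesIn H, ‖((ArithmeticFunction.moebius m : ℤ) : ℂ) *
        ex ((h * m : ℕ) : ℤ) y‖ ≤ 1 := by
      intro h _
      rw [norm_mul, norm_ex, mul_one]
      exact norm_mu88 m
    refine (Finset.sum_le_sum h2).trans ?_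
    simp
  refine (Finset.sum_le_sum this).trans ?_
  simp

/-- `∫ ‖F‖² ≤ N`. -/
theorem integral_F_sq_le (N : ℕ) : ∫ y, ‖F N y‖ ^ 2 ≤ (N : ℝ) := by
  unfold F
  rw [integral_norm_sq]
  have : ∀ n ∈ Finset.Icc 1 N, ‖((ArithmeticFunction.moebius n : ℤ) : ℂ)‖ ^ 2 ≤ 1 := by
    intro n _
    exact pow_le_one₀ (norm_nonneg _) (norm_mu88 n)
  refine (Finset.sum_le_sum this).trans ?_
  simp

end Pool.Agent.Helper25.MOB
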