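import Pool.Agent.Helper25.MOB.Bas

/-!
Block MOB-B1.  A kernel with nonnegative coefficients (powers of the Fejer kernel).

Let `D x = ∑_{0 ≤ j < L} e(j x)`, `fej x = |D x|² / L = ∑_{|m| < L} (1 - |m| / L) e(m x)`.
* `0 ≤ fej x ≤ L` and `fej x ≤ 1 / (4 L ‖x‖²)` (as `|D x| ≤ 2 / |1 - e(x)| = 1 / |sin π x| ≤ 1 / (2 ‖x‖)`).
* Coefficients of `fej ^ A`: `c_1 m = (1 - |m| / L)_+` and `c_{A+1} m = ∑_j c_1 j c_A (m - j)`.  They are `≥ 0`
  and, by induction on `A ≥ 1`, `c_A m ≥ (1/2) (L / 4) ^ (A - 1)` for `2 |m| ≤ L`: for such an `m`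
  (say `m ≥ 0`, the other case is symmetric) there are at least `L / 2` integers `j` with `2 |j| ≤ L` and
  `2 |m - j| ≤ L`, (e.g. `m - L/2 ≤ j ≤ L/2` contains `[0, L/2]`), and `c_1 j ≥ 1/2` for them.
* Put `k = 2 (4 / L) ^ (A - 1) c_A`.  Then `k m ≥ 1` for `2 |m| ≤ L`, the sup of the kernel is at most
  `2 (4 / L) ^ (A - 1) L ^ A = 2 * 4 ^ (A - 1) L`, and for `‖x‖ ≥ δ` it is at most
  `2 (4 / L) ^ (A - 1) (4 L δ²) ^ (-A) ≤ L (L δ) ^ (-2A)`.
(A convenient way to organise this: `AddMonoidAlgebra ℝ ℤ` / `LaurentPolynomial`, evaluation at `e(x)` is a ring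
homomorphism, and coefficients of products are `AddMonoidAlgebra.mul_apply`; or carry
the statement: there is a finitely supported `k ≥ 0` with `K x = ∑ k m e(m x)` and the lower bound, through
the induction on `A`.)
-/

namespace Pool.Agent.Helper25.MOB

open scoped ComplexConjugate

/-- One more factor of the Fejer kernel. -/
private noncomputable def step50 (L : ℕ) (k : ℤ →₀ ℝ) : ℤ →₀ ℝ :=
  ∑ p ∈ Finset.range L ×ˢ Finset.range L,
    ((L : ℝ)⁻¹) • k.mapDomain (fun m => m + ((p.1 : ℤ) - p.2))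

private noncomputable def cA50 (L : ℕ) : ℕ → ℤ →₀ ℝ
  | 0 => Finsupp.single 0 1
  | A + 1 => step50 L (cA50 L A)

private theorem shift_apply50 (k : ℤ →₀ ℝ) (c m : ℤ) :
    k.mapDomain (fun n => n + c) m = k (m - c) := by
  have h := Finsupp.mapDomain_apply (f := fun n : ℤ => n + c) (add_left_injective c) k (m - c)
  simpa using h

private theorem step_apply50 (L : ℕ) (k : ℤ →₀ ℝ) (m : ℤ) :
    step50 L k m = (L : ℝ)⁻¹ * ∑ p ∈ Finset.range L ×ˢ Finset.range L, k (m - ((p.1 : ℤ) - p.2)) := by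
  unfold step50
  rw [Finsupp.finsetSum_apply, Finset.mul_sum]
  refine Finset.sum_congr rfl fun p _ => ?_
  rw [Finsupp.smul_apply, shift_apply50, smul_eq_mul]

private theorem step_nonneg50 (L : ℕ) (k : ℤ →₀ ℝ) (hk : ∀ m, 0 ≤ k m) (m : ℤ) :
    0 ≤ step50 L k m := by
  rw [step_apply50]
  exact mul_nonneg (by positivity) (Finset.sum_nonneg fun p _ => hk _)

private theorem cA_nonneg50 (L A : ℕ) (m : ℤ) : 0 ≤ cA50 L A m := by
  induction A generalizing m with
  | zero =>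
    unfold cA50
    rw [Finsupp.single_apply]
    split <;> norm_num
  | succ A ih => exact step_nonneg50 L _ ih m

private theorem sum_ge50 (L : ℕ) (k : ℤ →₀ ℝ) (hk : ∀ m, 0 ≤ k m) (m : ℤ) (c : ℝ)
    (a b : ℕ) (f : ℕ × ℕ → ℕ × ℕ) (hf : Function.Injective f)
    (h1 : ∀ q ∈ Finset.range a ×ˢ Finset.range b, f q ∈ Finset.range L ×ˢ Finset.range L)
    (h2 : ∀ q ∈ Finset.range a ×ˢ Finset.range b, c ≤ k (m - (((f q).1 : ℤ) - (f q).2))) :
    (a * b : ℕ) * c ≤ ∑ p ∈ Finset.range L ×ˢ Finset.range L, k (m - ((p.1 : ℤ) - p.2)) := by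
  classical
  have h3 : (Finset.range a ×ˢ Finset.range b).image f ⊆ Finset.range L ×ˢ Finset.range L := by
    intro p hp
    obtain ⟨q, hq, rfl⟩ := Finset.mem_image.1 hp
    exact h1 q hq
  refine le_trans ?_ (Finset.sum_le_sum_of_subset_of_nonneg h3 fun p _ _ => hk _)
  rw [Finset.sum_image (fun x _ y _ h => hf h)]
  have h4 := Finset.card_nsmul_le_sum (Finset.range a ×ˢ Finset.range b)
    (fun q => k (m - (((f q).1 : ℤ) - (f q).2))) c h2
  rw [Finset.card_product, Finset.card_range, Finset.card_range, nsmul_eq_mul] at h4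
  exact h4

private theorem step_ge50 (L : ℕ) (hL : 1 ≤ L) (k : ℤ →₀ ℝ) (hk : ∀ m, 0 ≤ k m) (c : ℝ)
    (hc : 0 ≤ c) (h : ∀ m : ℤ, 2 * |m| ≤ L → c ≤ k m) (m : ℤ) (hm : 2 * |m| ≤ L) :
    (L : ℝ) / 4 * c ≤ step50 L k m := by
  rw [step_apply50]
  have hL0 : (0 : ℝ) < L := by exact_mod_cast hL
  have hkey : ((L / 2 + 1) * (L - L / 2) : ℕ) * c ≤
      ∑ p ∈ Finset.range L ×ˢ Finset.range L, k (m - ((p.1 : ℤ) - p.2)) := by
    rcases le_total 0 m with h0 | h0
    · rw [abs_of_nonneg h0] at hm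
      refine sum_ge50 L k hk m c (L / 2 + 1) (L - L / 2) (fun q => (q.1 + q.2, q.2)) ?_ ?_ ?_
      · intro q q' hq
        simp only [Prod.mk.injEq] at hq
        ext
        · omega
        · exact hq.2
      · intro q hq
        simp only [Finset.mem_product, Finset.mem_range] at hq ⊢
        omega
      · intro q hq
        simp only [Finset.mem_product, Finset.mem_range] at hq
        apply h
        rw [abs_sub_comm]
        push_cast
        rcases abs_cases ((q.1 : ℤ) + q.2 - q.2 - m) with ⟨h5, _⟩ | ⟨h5, _⟩ <;> rw [h5] <;> omega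
    · rw [abs_of_nonpos h0] at hm
      refine sum_ge50 L k hk m c (L / 2 + 1) (L - L / 2) (fun q => (q.2, q.1 + q.2)) ?_ ?_ ?_
      · intro q q' hq
        simp only [Prod.mk.injEq] at hq
        ext
        · omega
        · exact hq.1
      · intro q hq
        simp only [Finset.mem_product, Finset.mem_range] at hq ⊢
        omega
      · intro q hq
        simp only [Finset.mem_product, Finset.mem_range] at hq
        apply h
        push_cast
        rcases abs_cases (m - ((q.2 : ℤ) - (q.1 + q.2))) with ⟨h5, _⟩ | ⟨h5, _⟩ <;> rw [h5] <;> omega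
  have hcount : (L : ℝ) * L / 4 ≤ ((L / 2 + 1) * (L - L / 2) : ℕ) := by
    have : L * L ≤ 4 * ((L / 2 + 1) * (L - L / 2)) := by
      obtain ⟨h6, h6'⟩ | ⟨h6, h6'⟩ : (L = 2 * (L / 2) ∧ L - L / 2 = L / 2) ∨
          (L = 2 * (L / 2) + 1 ∧ L - L / 2 = L / 2 + 1) := by omega
      · rw [h6']
        generalize L / 2 = t at *
        subst h6
        nlinarith
      · rw [h6']
        generalize L / 2 = t at *
        subst h6
        nlinarith
    have h7 : ((L * L : ℕ) : ℝ) ≤ ((4 * ((L / 2 + 1) * (L - L / 2)) : ℕ) : ℝ) := by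
      exact_mod_cast this
    push_cast at h7 ⊢
    linarith
  have h8 : (L : ℝ) * L / 4 * c ≤
      ∑ p ∈ Finset.range L ×ˢ Finset.range L, k (m - ((p.1 : ℤ) - p.2)) :=
    (mul_le_mul_of_nonneg_right hcount hc).trans hkey
  calc (L : ℝ) / 4 * c = (L : ℝ)⁻¹ * (L * L / 4 * c) := by
        field_simp
    _ ≤ _ := mul_le_mul_of_nonneg_left h8 (by positivity)

private theorem base_ge50 (L : ℕ) (hL : 1 ≤ L) (m : ℤ) (hm : 2 * |m| ≤ L) :
    (1 : ℝ) / 2 ≤ step50 L (Finsupp.single 0 1) m := by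
  rw [step_apply50]
  have hL0 : (0 : ℝ) < L := by exact_mod_cast hL
  have hk : ∀ m : ℤ, (0 : ℝ) ≤ (Finsupp.single 0 1 : ℤ →₀ ℝ) m := by
    intro m
    rw [Finsupp.single_apply]
    split <;> norm_num
  have hab : |m| = (m.natAbs : ℤ) := Int.abs_eq_natAbs m
  have hkey : ((1 * (L - m.natAbs)) : ℕ) * (1 : ℝ) ≤
      ∑ p ∈ Finset.range L ×ˢ Finset.range L, (Finsupp.single 0 1 : ℤ →₀ ℝ) (m - ((p.1 : ℤ) - p.2)) := by
    rcases le_total 0 m with h0 | h0
    · refine sum_ge50 L _ hk m 1 1 (L - m.natAbs) (fun q => (m.natAbs + q.2, q.1 + q.2)) ?_ ?_ ?_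
      · intro q q' hq
        simp only [Prod.mk.injEq] at hq
        ext <;> omega
      · intro q hq
        simp only [Finset.mem_product, Finset.mem_range] at hq ⊢
        omega
      · intro q hq
        simp only [Finset.mem_product, Finset.mem_range] at hq
        rw [Finsupp.single_apply, if_pos]
        push_cast
        omega
    · refine sum_ge50 L _ hk m 1 1 (L - m.natAbs) (fun q => (q.1 + q.2, m.natAbs + q.2)) ?_ ?_ ?_
      · intro q q' hq
        simp only [Prod.mk.injEq] at hq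
        ext <;> omega
      · intro q hq
        simp only [Finset.mem_product, Finset.mem_range] at hq ⊢
        omega
      · intro q hq
        simp only [Finset.mem_product, Finset.mem_range] at hq
        rw [Finsupp.single_apply, if_pos]
        push_cast
        omega
  have h9 : (L : ℝ) / 2 ≤ ((1 * (L - m.natAbs)) : ℕ) := by
    have h10 : L ≤ 2 * (1 * (L - m.natAbs)) := by
      have : |m| = (m.natAbs : ℤ) := Int.abs_eq_natAbs m
      omega
    have h11 : (L : ℝ) ≤ ((2 * (1 * (L - m.natAbs)) : ℕ) : ℝ) := by exact_mod_cast h10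
    rw [Nat.cast_mul] at h11
    push_cast at h11 ⊢
    linarith
  have h12 : (L : ℝ) / 2 ≤
      ∑ p ∈ Finset.range L ×ˢ Finset.range L, (Finsupp.single 0 1 : ℤ →₀ ℝ) (m - ((p.1 : ℤ) - p.2)) := by
    linarith
  calc (1 : ℝ) / 2 = (L : ℝ)⁻¹ * (L / 2) := by field_simp
    _ ≤ _ := mul_le_mul_of_nonneg_left h12 (by positivity)

private theorem cA_ge50 (L : ℕ) (hL : 1 ≤ L) (A : ℕ) (m : ℤ) (hm : 2 * |m| ≤ L) :
    (1 : ℝ) / 2 * ((L : ℝ) / 4) ^ A ≤ cA50 L (A + 1) m := by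
  induction A generalizing m with
  | zero =>
    have := base_ge50 L hL m hm
    simpa [cA50] using this
  | succ A ih =>
    have := step_ge50 L hL (cA50 L (A + 1)) (cA_nonneg50 L (A + 1))
      ((1 : ℝ) / 2 * ((L : ℝ) / 4) ^ A) (by positivity) (fun m hm => ih m hm) m hm
    refine le_trans (le_of_eq ?_) this
    rw [pow_succ]
    ring

/-- The value of a trigonometric polynomial. -/
private noncomputable def ev50 (x : UnitAddCircle) : (ℤ →₀ ℝ) →ₗ[ℝ] ℂ :=
  Finsupp.linearCombination ℝ (fun m => ex m x)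

private theorem ev_eq50 (x : UnitAddCircle) (k : ℤ →₀ ℝ) :
    (k.sum fun m c => (c : ℂ) * ex m x) = ev50 x k := by
  unfold ev50
  rw [Finsupp.linearCombination_apply]
  refine Finsupp.sum_congr fun m _ => ?_
  rw [Complex.real_smul]

private noncomputable def Dir50 (L : ℕ) (x : UnitAddCircle) : ℂ :=
  ∑ j ∈ Finset.range L, ex j x

private theorem ev_shift50 (x : UnitAddCircle) (k : ℤ →₀ ℝ) (c : ℤ) :
    ev50 x (k.mapDomain (fun n => n + c)) = ex c x * ev50 x k := by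
  unfold ev50
  rw [Finsupp.linearCombination_mapDomain, Finsupp.linearCombination_apply,
    Finsupp.linearCombination_apply, Finsupp.sum, Finsupp.sum, Finset.mul_sum]
  refine Finset.sum_congr rfl fun m _ => ?_
  simp only [Function.comp, ex_add, Complex.real_smul]
  ring

private theorem ev_step50 (L : ℕ) (x : UnitAddCircle) (k : ℤ →₀ ℝ) :
    ev50 x (step50 L k) = ((‖Dir50 L x‖ ^ 2 / L : ℝ) : ℂ) * ev50 x k := by
  unfold step50
  rw [map_sum]
  have h1 : ∀ p ∈ Finset.range L ×ˢ Finset.range L,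
      ev50 x (((L : ℝ)⁻¹) • k.mapDomain (fun m => m + ((p.1 : ℤ) - p.2))) =
        ((L : ℂ)⁻¹ * ev50 x k) * (ex p.1 x * conj (ex p.2 x)) := by
    intro p _
    rw [map_smul, ev_shift50, conj_ex, sub_eq_add_neg, ex_add, Complex.real_smul]
    push_cast
    ring
  rw [Finset.sum_congr rfl h1, ← Finset.mul_sum, Finset.sum_product]
  have h2 : ∑ i ∈ Finset.range L, ∑ j ∈ Finset.range L, ex (i : ℤ) x * conj (ex (j : ℤ) x) =
      ((‖Dir50 L x‖ ^ 2 : ℝ) : ℂ) := by
    have h3 : (((‖Dir50 L x‖ ^ 2 : ℝ)) : ℂ) = Dir50 L x * conj (Dir50 L x) := by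
      rw [RCLike.mul_conj]
      push_cast
      rfl
    rw [h3]
    unfold Dir50
    rw [map_sum, Finset.sum_mul_sum]
  rw [h2]
  push_cast
  ring

private theorem norm_ev_cA50 (L A : ℕ) (x : UnitAddCircle) :
    ‖ev50 x (cA50 L A)‖ = (‖Dir50 L x‖ ^ 2 / L) ^ A := by
  induction A with
  | zero =>
    unfold cA50 ev50
    rw [Finsupp.linearCombination_single, ex_zero]
    simp
  | succ A ih =>
    rw [cA50, ev_step50, norm_mul, ih, Complex.norm_real, Real.norm_of_nonneg (by positivity),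
      pow_succ]
    ring

private theorem norm_Dir_le50 (L : ℕ) (x : UnitAddCircle) : ‖Dir50 L x‖ ≤ L := by
  unfold Dir50
  refine (norm_sum_le _ _).trans ?_
  simp [norm_ex]

private theorem Dir_mul50 (L : ℕ) (x : UnitAddCircle) :
    Dir50 L x * (ex 1 x - 1) = ex L x - 1 := by
  induction L with
  | zero => simp [Dir50, ex_zero]
  | succ L ih =>
    have h1 : Dir50 (L + 1) x = Dir50 L x + ex L x := by
      unfold Dir50
      rw [Finset.sum_range_succ]
    rw [h1, add_mul, ih]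
    push_cast
    rw [ex_add]
    ring

private theorem norm_sub_one50 (x : UnitAddCircle) : 4 * ‖x‖ ≤ ‖ex 1 x - 1‖ := by
  obtain ⟨z, rfl⟩ := QuotientAddGroup.mk_surjective x
  change 4 * ‖(z : UnitAddCircle)‖ ≤ ‖ex 1 (z : UnitAddCircle) - 1‖
  have hz : ((z - round z : ℝ) : UnitAddCircle) = (z : UnitAddCircle) := by
    rw [AddCircle.coe_sub]
    have : ((round z : ℝ) : UnitAddCircle) = 0 := by
      have h := AddCircle.coe_eq_zero_iff (p := (1 : ℝ)) (x := (round z : ℝ))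
      exact h.2 ⟨round z, by simp⟩
    rw [this, sub_zero]
  rw [UnitAddCircle.norm_eq, ← hz, ex_coe]
  set y : ℝ := z - round z with hy
  have hy2 : |y| ≤ 1 / 2 := by
    rw [hy]
    exact abs_sub_round z
  have h1 : Complex.exp (2 * Real.pi * Complex.I * ((1 : ℤ) : ℂ) * y) =
      Complex.exp (Complex.I * ((2 * Real.pi * y : ℝ) : ℂ)) := by
    congr 1
    push_cast
    ring
  rw [h1, Complex.norm_exp_I_mul_ofReal_sub_one]
  rw [Real.norm_eq_abs, abs_mul, abs_of_pos (by norm_num : (0 : ℝ) < 2)]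
  have h2 : |Real.sin (2 * Real.pi * y / 2)| = Real.sin (Real.pi * |y|) := by
    have h3 : 2 * Real.pi * y / 2 = Real.pi * y := by ring
    rw [h3]
    have h4 : 0 ≤ Real.sin (Real.pi * |y|) := by
      apply Real.sin_nonneg_of_nonneg_of_le_pi
      · have := Real.pi_pos
        positivity
      · have := Real.pi_pos
        nlinarith [abs_nonneg y]
    rcases abs_cases y with ⟨h5, _⟩ | ⟨h5, _⟩
    · rw [h5] at h4 ⊢
      exact abs_of_nonneg h4
    · rw [h5] at h4 ⊢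
      rw [mul_neg, Real.sin_neg] at h4 ⊢
      exact abs_of_nonpos (by linarith)
  rw [h2]
  have h6 := Real.mul_le_sin (x := Real.pi * |y|) (by have := Real.pi_pos; positivity)
    (by have := Real.pi_pos; nlinarith)
  have h7 : 2 / Real.pi * (Real.pi * |y|) = 2 * |y| := by
    have := Real.pi_ne_zero
    field_simp
  rw [h7] at h6
  linarith

private theorem norm_Dir_far50 (L : ℕ) (x : UnitAddCircle) (δ : ℝ) (hx : δ ≤ ‖x‖) :
    ‖Dir50 L x‖ * (2 * δ) ≤ 1 := by
  have h1 : ‖Dir50 L x‖ * ‖ex 1 x - 1‖ = ‖ex L x - 1‖ := by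
    rw [← norm_mul, Dir_mul50]
  have h2 : ‖ex (L : ℤ) x - 1‖ ≤ 2 := by
    refine (norm_sub_le _ _).trans ?_
    rw [norm_ex, norm_one]
    norm_num
  have h3 := norm_sub_one50 x
  have h4 : ‖Dir50 L x‖ * (4 * δ) ≤ ‖Dir50 L x‖ * ‖ex 1 x - 1‖ :=
    mul_le_mul_of_nonneg_left (by linarith) (norm_nonneg _)
  linarith

theorem exists_kernel (A L : ℕ) (hA : 1 ≤ A) (hL : 1 ≤ L) :
    ∃ k : ℤ →₀ ℝ, (∀ m, 0 ≤ k m) ∧ (∀ m : ℤ, 2 * |m| ≤ L → 1 ≤ k m) ∧
      (∀ x : UnitAddCircle, ‖k.sum fun m c => (c : ℂ) * ex m x‖ ≤ 2 * 4 ^ (A - 1) * L) ∧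
      (∀ (x : UnitAddCircle) (δ : ℝ), 0 < δ → δ ≤ ‖x‖ →
        ‖k.sum fun m c => (c : ℂ) * ex m x‖ * (L * δ) ^ (2 * A) ≤ L) := by
  obtain ⟨B, rfl⟩ : ∃ B, A = B + 1 := ⟨A - 1, by omega⟩
  have hL0 : (0 : ℝ) < L := by exact_mod_cast hL
  have hB : B + 1 - 1 = B := rfl
  rw [hB]
  refine ⟨(2 * (4 / (L : ℝ)) ^ B) • cA50 L (B + 1), ?_, ?_, ?_, ?_⟩
  · intro m
    rw [Finsupp.smul_apply, smul_eq_mul]
    exact mul_nonneg (by positivity) (cA_nonneg50 _ _ _)
  · intro m hm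
    rw [Finsupp.smul_apply, smul_eq_mul]
    have h1 := cA_ge50 L hL B m hm
    calc (1 : ℝ) = (2 * (4 / (L : ℝ)) ^ B) * ((1 : ℝ) / 2 * ((L : ℝ) / 4) ^ B) := by
          have h2 : (4 / (L : ℝ)) ^ B * ((L : ℝ) / 4) ^ B = 1 := by
            rw [← mul_pow]
            have : 4 / (L : ℝ) * (L / 4) = 1 := by field_simp
            rw [this, one_pow]
          linear_combination - h2
      _ ≤ _ := mul_le_mul_of_nonneg_left h1 (by positivity)
  · intro x
    rw [ev_eq50, map_smul, norm_smul, norm_ev_cA50, Real.norm_of_nonneg (by positivity)]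
    have h1 : ‖Dir50 L x‖ ^ 2 / L ≤ L := by
      rw [div_le_iff₀ hL0]
      have := norm_Dir_le50 L x
      nlinarith [norm_nonneg (Dir50 L x)]
    have h2 : (‖Dir50 L x‖ ^ 2 / L) ^ (B + 1) ≤ (L : ℝ) ^ (B + 1) :=
      pow_le_pow_left₀ (by positivity) h1 _
    calc 2 * (4 / (L : ℝ)) ^ B * (‖Dir50 L x‖ ^ 2 / L) ^ (B + 1)
        ≤ 2 * (4 / (L : ℝ)) ^ B * (L : ℝ) ^ (B + 1) :=
          mul_le_mul_of_nonneg_left h2 (by positivity)
      _ = 2 * 4 ^ B * L := by
          rw [div_pow, pow_succ]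
          field_simp
  · intro x δ hδ hx
    rw [ev_eq50, map_smul, norm_smul, norm_ev_cA50, Real.norm_of_nonneg (by positivity)]
    have h1 := norm_Dir_far50 L x δ hx
    have h2 : ‖Dir50 L x‖ ^ 2 / L * (L * δ) ^ 2 ≤ L / 4 := by
      have h3 : (‖Dir50 L x‖ * (2 * δ)) ^ 2 ≤ 1 := by
        have h0 : 0 ≤ ‖Dir50 L x‖ * (2 * δ) := by positivity
        nlinarith
      have h4 : ‖Dir50 L x‖ ^ 2 / L * (L * δ) ^ 2 = L / 4 * (‖Dir50 L x‖ * (2 * δ)) ^ 2 := by
        field_simp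
        ring
      rw [h4]
      have : (0 : ℝ) ≤ L / 4 := by positivity
      nlinarith
    have h5 : (‖Dir50 L x‖ ^ 2 / L) ^ (B + 1) * (L * δ) ^ (2 * (B + 1)) ≤ ((L : ℝ) / 4) ^ (B + 1) := by
      rw [pow_mul, ← mul_pow]
      exact pow_le_pow_left₀ (by positivity) h2 _
    calc 2 * (4 / (L : ℝ)) ^ B * (‖Dir50 L x‖ ^ 2 / L) ^ (B + 1) * (L * δ) ^ (2 * (B + 1))
        = 2 * (4 / (L : ℝ)) ^ B * ((‖Dir50 L x‖ ^ 2 / L) ^ (B + 1) * (L * δ) ^ (2 * (B + 1))) := by
          ring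
      _ ≤ 2 * (4 / (L : ℝ)) ^ B * ((L : ℝ) / 4) ^ (B + 1) :=
          mul_le_mul_of_nonneg_left h5 (by positivity)
      _ = L / 2 := by
          have h6 : (4 / (L : ℝ)) ^ B * ((L : ℝ) / 4) ^ B = 1 := by
            rw [← mul_pow]
            have : 4 / (L : ℝ) * (L / 4) = 1 := by field_simp
            rw [this, one_pow]
          rw [pow_succ]
          linear_combination (L : ℝ) / 2 * h6
      _ ≤ L := by linarith

end Pool.Agent.Helper25.MOB
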