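import Pool.Agent.Helper25.MOB.Pair

/-!
Block MOB-F3.  The second and the third moment of the counting function `Mc D t`.

`Mc D t z` is the number of `r ∈ pts D` with `‖z - r‖ ≤ t`, so `Mc (Mc - 1)` is the number of
pairs of distinct such points and `Mc (Mc - 1)(Mc - 2)` the number of triples of distinct such
points.  Points close to the same `z` are within `2 t` of each other, and the `z` within `t` of
a given point have volume `≤ 2 t` (`volume_ball_le`).  So
`∫ Mc (Mc - 1) ≤ 2 t #{(r, r') : r ≠ r', ‖r - r'‖ ≤ 2 t} ≤ 2 t ∑_{s,s' ∈ D} 2 (2t) s s'` (`pair_count`), and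
`∫ Mc (Mc - 1)(Mc - 2) ≤ 2 t #{triples of distinct points pairwise within 2 t}`.
-/

namespace Pool.Agent.Helper25.MOB

open MeasureTheory

/-- The indicator function of the arc around `r`. -/
private noncomputable def xi14 (t : ℝ) (z r : UnitAddCircle) : ℝ := if ‖z - r‖ ≤ t then 1 else 0

private theorem xi_sq14 (t : ℝ) (z r : UnitAddCircle) : xi14 t z r * xi14 t z r = xi14 t z r := by
  unfold xi14
  split_ifs <;> norm_num

private theorem xi_nonneg14 (t : ℝ) (z r : UnitAddCircle) : 0 ≤ xi14 t z r := by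
  unfold xi14
  split_ifs <;> norm_num

private theorem xi_le_one14 (t : ℝ) (z r : UnitAddCircle) : xi14 t z r ≤ 1 := by
  unfold xi14
  split_ifs <;> norm_num

private theorem Mc_eq14 (D : Finset ℕ) (t : ℝ) (z : UnitAddCircle) :
    (Mc D t z : ℝ) = ∑ r ∈ pts D, xi14 t z r := by
  unfold Mc xi14
  rw [Finset.card_filter, Nat.cast_sum]
  refine Finset.sum_congr rfl fun r _ => ?_
  split_ifs <;> simp

private theorem measurable_xi14 (t : ℝ) (r : UnitAddCircle) : Measurable fun z => xi14 t z r := by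
  unfold xi14
  exact Measurable.ite (measurableSet_ball' t r) measurable_const measurable_const

private theorem integrable_xi14 (t : ℝ) (r : UnitAddCircle) :
    Integrable (fun z => xi14 t z r) (volume : Measure UnitAddCircle) := by
  refine Integrable.of_bound (measurable_xi14 t r).aestronglyMeasurable 1 (Filter.Eventually.of_forall fun z => ?_)
  rw [Real.norm_of_nonneg (xi_nonneg14 t z r)]
  exact xi_le_one14 t z r

private theorem integral_xi14 {t : ℝ} (ht : 0 ≤ t) (r : UnitAddCircle) : ∫ z, xi14 t z r ≤ 2 * t := by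
  have h1 : (fun z => xi14 t z r) = Set.indicator {z : UnitAddCircle | ‖z - r‖ ≤ t} (fun _ => (1 : ℝ)) := by
    funext z
    unfold xi14 Set.indicator
    rfl
  rw [h1, integral_indicator (measurableSet_ball' t r), setIntegral_const, smul_eq_mul, mul_one]
  exact volume_ball_le ht r

private theorem id2_14 {α : Type*} [DecidableEq α] (P : Finset α) (x : α → ℝ) (hx : ∀ a, x a * x a = x a) :
    (∑ a ∈ P, x a) * ((∑ a ∈ P, x a) - 1) = ∑ a ∈ P, ∑ b ∈ P, if a ≠ b then x a * x b else 0 := by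
  have h1 : ∀ a ∈ P, (∑ b ∈ P, if a ≠ b then x a * x b else 0) = x a * ((∑ b ∈ P, x b) - 1) := by
    intro a ha
    have h2 : ∀ b ∈ P, (if a ≠ b then x a * x b else 0) = x a * x b - if a = b then x a * x b else 0 := by
      intro b _
      by_cases h : a = b <;> simp [h]
    rw [Finset.sum_congr rfl h2, Finset.sum_sub_distrib, Finset.sum_ite_eq, if_pos ha, hx, ← Finset.mul_sum]
    ring
  rw [Finset.sum_congr rfl h1, ← Finset.sum_mul]

private theorem id3_14 {α : Type*} [DecidableEq α] (P : Finset α) (x : α → ℝ) (hx : ∀ a, x a * x a = x a) :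
    (∑ a ∈ P, x a) * ((∑ a ∈ P, x a) - 1) * ((∑ a ∈ P, x a) - 2) =
      ∑ a ∈ P, ∑ b ∈ P, ∑ c ∈ P, if a ≠ b ∧ a ≠ c ∧ b ≠ c then x a * x b * x c else 0 := by
  rw [id2_14 P x hx, Finset.sum_mul]
  refine Finset.sum_congr rfl fun a ha => ?_
  rw [Finset.sum_mul]
  refine Finset.sum_congr rfl fun b hb => ?_
  by_cases hab : a = b
  · subst hab
    simp
  · have h2 : ∀ c ∈ P, (if a ≠ b ∧ a ≠ c ∧ b ≠ c then x a * x b * x c else 0) =
        x a * x b * x c - (if a = c then x a * x b * x c else 0) - if b = c then x a * x b * x c else 0 := by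
      intro c _
      by_cases h : a = c
      · subst h
        have h3 : ¬ b = a := fun h => hab h.symm
        simp [h3]
      · by_cases h3 : b = c <;> simp [h, h3, hab]
    rw [Finset.sum_congr rfl h2, Finset.sum_sub_distrib, Finset.sum_sub_distrib, Finset.sum_ite_eq, if_pos ha,
      Finset.sum_ite_eq, if_pos hb, ← Finset.mul_sum, if_pos hab]
    have h4 := hx a
    have h5 := hx b
    linear_combination (x b) * h4 + (x a) * h5

private theorem close14 {t : ℝ} {z a b : UnitAddCircle} (ha : ‖z - a‖ ≤ t) (hb : ‖z - b‖ ≤ t) : ‖a - b‖ ≤ 2 * t := by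
  have h1 : a - b = (z - b) - (z - a) := by abel
  rw [h1]
  refine (norm_sub_le _ _).trans ?_
  linarith

theorem measurable_Mc (D : Finset ℕ) (t : ℝ) : Measurable fun z => (Mc D t z : ℝ) := by
  have h : (fun z => (Mc D t z : ℝ)) = fun z => ∑ r ∈ pts D, xi14 t z r := funext fun z => Mc_eq14 D t z
  rw [h]
  exact Finset.measurable_sum _ fun r _ => measurable_xi14 t r

theorem Mc_le (D : Finset ℕ) (t : ℝ) (z : UnitAddCircle) : Mc D t z ≤ (pts D).card := by
  classical
  unfold Mc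
  exact Finset.card_filter_le _ _

private theorem Mc_bdd14 (D : Finset ℕ) (t : ℝ) (z : UnitAddCircle) :
    0 ≤ (Mc D t z : ℝ) ∧ (Mc D t z : ℝ) ≤ (pts D).card := by
  refine ⟨Nat.cast_nonneg _, ?_⟩
  exact_mod_cast Mc_le D t z

theorem second_moment (D : Finset ℕ) {t : ℝ} (ht : 0 ≤ t) :
    ∫ z, (Mc D t z : ℝ) * ((Mc D t z : ℝ) - 1) ≤ 8 * t ^ 2 * (∑ s ∈ D, (s : ℝ)) ^ 2 := by
  classical
  let Pr : Finset (UnitAddCircle × UnitAddCircle) :=
    (pts D ×ˢ pts D).filter fun v => v.1 ≠ v.2 ∧ ‖v.1 - v.2‖ ≤ 2 * t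
  have hpt : ∀ z, (Mc D t z : ℝ) * ((Mc D t z : ℝ) - 1) ≤ ∑ v ∈ Pr, xi14 t z v.1 := by
    intro z
    rw [Mc_eq14, id2_14 _ _ (xi_sq14 t z)]
    change _ ≤ ∑ v ∈ (pts D ×ˢ pts D).filter _, xi14 t z v.1
    rw [Finset.sum_filter, Finset.sum_product]
    refine Finset.sum_le_sum fun a _ => Finset.sum_le_sum fun b _ => ?_
    dsimp only
    by_cases hab : a ≠ b
    · rw [if_pos hab]
      by_cases ha : ‖z - a‖ ≤ t
      · by_cases hb : ‖z - b‖ ≤ t
        · rw [if_pos ⟨hab, close14 ha hb⟩]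
          exact mul_le_of_le_one_right (xi_nonneg14 t z a) (xi_le_one14 t z b)
        · have h1 : xi14 t z b = 0 := if_neg hb
          rw [h1, mul_zero]
          split_ifs
          · exact xi_nonneg14 t z a
          · exact le_rfl
      · have h1 : xi14 t z a = 0 := if_neg ha
        rw [h1, zero_mul]
        split_ifs <;> exact le_rfl
    · rw [if_neg hab]
      split_ifs
      · exact xi_nonneg14 t z a
      · exact le_rfl
  have hint : Integrable (fun z => (Mc D t z : ℝ) * ((Mc D t z : ℝ) - 1)) (volume : Measure UnitAddCircle) := by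
    refine Integrable.of_bound ((measurable_Mc D t).mul ((measurable_Mc D t).sub_const 1)).aestronglyMeasurable
      ((pts D).card * ((pts D).card + 1)) (Filter.Eventually.of_forall fun z => ?_)
    obtain ⟨h0, h1⟩ := Mc_bdd14 D t z
    rw [norm_mul, Real.norm_of_nonneg h0]
    refine mul_le_mul h1 ?_ (norm_nonneg _) (h0.trans h1)
    rw [Real.norm_eq_abs, abs_le]
    constructor <;> linarith
  have hcard : (Pr.card : ℝ) ≤ 2 * (2 * t) * (∑ s ∈ D, (s : ℝ)) ^ 2 := by
    have hsub : Pr ⊆ (D ×ˢ D).biUnion fun w => (pt w.1 ×ˢ pt w.2).filter fun v => v.1 ≠ v.2 ∧ ‖v.1 - v.2‖ ≤ 2 * t := by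
      intro v hv
      obtain ⟨h1, h2⟩ := Finset.mem_filter.1 hv
      obtain ⟨h3, h4⟩ := Finset.mem_product.1 h1
      obtain ⟨s, hs, h5⟩ := (mem_pts' v.1).1 h3
      obtain ⟨s', hs', h6⟩ := (mem_pts' v.2).1 h4
      rw [Finset.mem_biUnion]
      exact ⟨(s, s'), Finset.mem_product.2 ⟨hs, hs'⟩, Finset.mem_filter.2 ⟨Finset.mem_product.2 ⟨h5, h6⟩, h2⟩⟩
    have h1 : (Pr.card : ℝ) ≤ ∑ w ∈ D ×ˢ D,
        (((pt w.1 ×ˢ pt w.2).filter fun v => v.1 ≠ v.2 ∧ ‖v.1 - v.2‖ ≤ 2 * t).card : ℝ) := by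
      exact_mod_cast (Finset.card_le_card hsub).trans Finset.card_biUnion_le
    refine h1.trans ?_
    have h2 : ∀ w ∈ D ×ˢ D, (((pt w.1 ×ˢ pt w.2).filter fun v => v.1 ≠ v.2 ∧ ‖v.1 - v.2‖ ≤ 2 * t).card : ℝ) ≤
        2 * (2 * t) * ((w.1 : ℝ) * w.2) := by
      intro w _
      have h3 := pair_count w.1 w.2 (τ := 2 * t) (by linarith)
      rw [← mul_assoc]
      convert h3 using 3
    refine (Finset.sum_le_sum h2).trans (le_of_eq ?_)
    rw [← Finset.mul_sum, Finset.sum_product, pow_two, Finset.sum_mul_sum]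
  calc ∫ z, (Mc D t z : ℝ) * ((Mc D t z : ℝ) - 1) ≤ ∫ z, ∑ v ∈ Pr, xi14 t z v.1 :=
        integral_mono hint (integrable_finset_sum _ fun v _ => integrable_xi14 t v.1) hpt
    _ = ∑ v ∈ Pr, ∫ z, xi14 t z v.1 := integral_finset_sum _ fun v _ => integrable_xi14 t v.1
    _ ≤ ∑ v ∈ Pr, 2 * t := Finset.sum_le_sum fun v _ => integral_xi14 ht v.1
    _ = Pr.card * (2 * t) := by rw [Finset.sum_const, nsmul_eq_mul]
    _ ≤ 2 * (2 * t) * (∑ s ∈ D, (s : ℝ)) ^ 2 * (2 * t) := mul_le_mul_of_nonneg_right hcard (by linarith)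
    _ = 8 * t ^ 2 * (∑ s ∈ D, (s : ℝ)) ^ 2 := by ring

open scoped Classical in
/-- The triples of distinct points of `pts D`, pairwise within `τ`. -/
noncomputable def triples (D : Finset ℕ) (τ : ℝ) :
    Finset (UnitAddCircle × UnitAddCircle × UnitAddCircle) :=
  (pts D ×ˢ pts D ×ˢ pts D).filter fun r =>
    (r.1 ≠ r.2.1 ∧ r.1 ≠ r.2.2 ∧ r.2.1 ≠ r.2.2) ∧
      ‖r.1 - r.2.1‖ ≤ τ ∧ ‖r.1 - r.2.2‖ ≤ τ ∧ ‖r.2.1 - r.2.2‖ ≤ τ

theorem third_moment (D : Finset ℕ) {t : ℝ} (ht : 0 ≤ t) :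
    ∫ z, (Mc D t z : ℝ) * ((Mc D t z : ℝ) - 1) * ((Mc D t z : ℝ) - 2) ≤
      2 * t * (triples D (2 * t)).card := by
  classical
  have hpt : ∀ z, (Mc D t z : ℝ) * ((Mc D t z : ℝ) - 1) * ((Mc D t z : ℝ) - 2) ≤
      ∑ v ∈ triples D (2 * t), xi14 t z v.1 := by
    intro z
    rw [Mc_eq14, id3_14 _ _ (xi_sq14 t z)]
    unfold triples
    rw [Finset.sum_filter, Finset.sum_product]
    refine Finset.sum_le_sum fun a _ => ?_
    rw [Finset.sum_product]
    refine Finset.sum_le_sum fun b _ => Finset.sum_le_sum fun c _ => ?_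
    dsimp only
    have hxa := xi_nonneg14 t z a
    have hr : 0 ≤ (if (a ≠ b ∧ a ≠ c ∧ b ≠ c) ∧ ‖a - b‖ ≤ 2 * t ∧ ‖a - c‖ ≤ 2 * t ∧ ‖b - c‖ ≤ 2 * t then
        xi14 t z a else 0) := by
      split_ifs
      · exact hxa
      · exact le_rfl
    by_cases hd : a ≠ b ∧ a ≠ c ∧ b ≠ c
    · rw [if_pos hd]
      by_cases ha : ‖z - a‖ ≤ t
      · by_cases hb : ‖z - b‖ ≤ t
        · by_cases hc : ‖z - c‖ ≤ t
          · rw [if_pos ⟨hd, close14 ha hb, close14 ha hc, close14 hb hc⟩, mul_assoc]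
            exact mul_le_of_le_one_right hxa
              (mul_le_one₀ (xi_le_one14 t z b) (xi_nonneg14 t z c) (xi_le_one14 t z c))
          · have h1 : xi14 t z c = 0 := if_neg hc
            rw [h1, mul_zero]
            exact hr
        · have h1 : xi14 t z b = 0 := if_neg hb
          rw [h1, mul_zero, zero_mul]
          exact hr
      · have h1 : xi14 t z a * xi14 t z b * xi14 t z c = 0 := by
          have h2 : xi14 t z a = 0 := if_neg ha
          rw [h2, zero_mul, zero_mul]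
        rw [h1]
        exact hr
    · rw [if_neg hd]
      exact hr
  have hint : Integrable (fun z => (Mc D t z : ℝ) * ((Mc D t z : ℝ) - 1) * ((Mc D t z : ℝ) - 2))
      (volume : Measure UnitAddCircle) := by
    refine Integrable.of_bound (((measurable_Mc D t).mul ((measurable_Mc D t).sub_const 1)).mul
      ((measurable_Mc D t).sub_const 2)).aestronglyMeasurable
      ((pts D).card * ((pts D).card + 1) * ((pts D).card + 2)) (Filter.Eventually.of_forall fun z => ?_)
    obtain ⟨h0, h1⟩ := Mc_bdd14 D t z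
    rw [norm_mul, norm_mul, Real.norm_of_nonneg h0]
    have hP : (0 : ℝ) ≤ (pts D).card := Nat.cast_nonneg _
    refine mul_le_mul (mul_le_mul h1 ?_ (norm_nonneg _) hP) ?_ (norm_nonneg _) (by positivity)
    · rw [Real.norm_eq_abs, abs_le]
      constructor <;> linarith
    · rw [Real.norm_eq_abs, abs_le]
      constructor <;> linarith
  calc ∫ z, (Mc D t z : ℝ) * ((Mc D t z : ℝ) - 1) * ((Mc D t z : ℝ) - 2) ≤
        ∫ z, ∑ v ∈ triples D (2 * t), xi14 t z v.1 :=
        integral_mono hint (integrable_finset_sum _ fun v _ => integrable_xi14 t v.1) hpt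
    _ = ∑ v ∈ triples D (2 * t), ∫ z, xi14 t z v.1 := integral_finset_sum _ fun v _ => integrable_xi14 t v.1
    _ ≤ ∑ v ∈ triples D (2 * t), 2 * t := Finset.sum_le_sum fun v _ => integral_xi14 ht v.1
    _ = 2 * t * (triples D (2 * t)).card := by rw [Finset.sum_const, nsmul_eq_mul]; ring

end Pool.Agent.Helper25.MOB
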