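import Pool.Agent.Helper25.MOB.T3
import Pool.Agent.Helper25.MOB.F3

/-!
Block MOB-T4.  The number of close triples of points with denominators `q p²`.

Let `Qs ⊆ [Q0, 2 Q0)`, `2 Q0 < Z`, `32 t Q0² Z² < 1`.  Let `(r₁, r₂, r₃)` be a triple of distinct points of
`pts (D2 Qs (primesIn Z))`, pairwise within `2 t`, of orders `sᵢ = qᵢ pᵢ²`.
* The primes `pᵢ` are distinct: if `pᵢ = pⱼ = p` then `qᵢ qⱼ p²` kills `rᵢ - rⱼ ≠ 0`, so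
  `2 t ≥ ‖rᵢ - rⱼ‖ ≥ 1 / (qᵢ qⱼ p²) > 1 / (16 Q0² Z²)` (`one_le_norm_of_torsion`), a contradiction.
* `gcd s₁ s₂ = gcd q₁ q₂` (`p₁ ≠ p₂`, and `pᵢ ≥ Z > qⱼ`).
* `2 t sᵢ sⱼ ≤ 2 t (8 Q0 Z²)² = 128 t Q0² Z⁴ = X`.
So the number of triples is at most the sum over `q₁, q₂, q₃ ∈ Qs`, `p₁`, `(p₂, p₃)` (distinct) of the bound of
`fixed_orders` (with `τ = 2 t`; enlarge the ranges of `b, c` to `nz X`; `s₁ ∣ s₂ c - s₃ b` implies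
`p₁² ∣ q₂ p₂² c - q₃ p₃² b`), and `inner_count` bounds the inner sum by `60 X²`.
-/

namespace Pool.Agent.Helper25.MOB

private theorem kill56 {s : ℕ} {r : UnitAddCircle} (h : r ∈ pt s) : s • r = 0 := by
  rw [← (addOrderOf_of_mem_pt h).1]
  exact addOrderOf_nsmul_eq_zero r

private theorem far56 {Q0 Z : ℕ} {t : ℝ}
    (hsmall : 32 * t * (Q0 : ℝ) ^ 2 * (Z : ℝ) ^ 2 < 1) {q₁ q₂ p : ℕ} (hq₁ : 0 < q₁)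
    (hq₂ : 0 < q₂) (hq₁' : q₁ < 2 * Q0) (hq₂' : q₂ < 2 * Q0) (hp : 0 < p) (hp' : p < 2 * Z)
    {r₁ r₂ : UnitAddCircle} (h₁ : r₁ ∈ pt (q₁ * p ^ 2)) (h₂ : r₂ ∈ pt (q₂ * p ^ 2))
    (hne : r₁ ≠ r₂) : ¬ ‖r₁ - r₂‖ ≤ 2 * t := by
  intro hle
  have hD : 0 < q₁ * q₂ * p ^ 2 := by positivity
  have h3 : (q₁ * q₂ * p ^ 2) • (r₁ - r₂) = 0 := by
    rw [smul_sub]
    have e1 : (q₁ * q₂ * p ^ 2) • r₁ = 0 := by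
      rw [show q₁ * q₂ * p ^ 2 = q₂ * (q₁ * p ^ 2) by ring, mul_nsmul', kill56 h₁, smul_zero]
    have e2 : (q₁ * q₂ * p ^ 2) • r₂ = 0 := by
      rw [show q₁ * q₂ * p ^ 2 = q₁ * (q₂ * p ^ 2) by ring, mul_nsmul', kill56 h₂, smul_zero]
    rw [e1, e2, sub_zero]
  have h4 := one_le_norm_of_torsion hD h3 (sub_ne_zero.mpr hne)
  have hD' : (0 : ℝ) < ((q₁ * q₂ * p ^ 2 : ℕ) : ℝ) := by exact_mod_cast hD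
  rw [div_le_iff₀ hD'] at h4
  have h5 : (((q₁ * q₂ * p ^ 2 : ℕ) : ℝ)) ≤ 16 * (Q0 : ℝ) ^ 2 * (Z : ℝ) ^ 2 := by
    have h6 : q₁ * q₂ * p ^ 2 ≤ (2 * Q0) * (2 * Q0) * (2 * Z) ^ 2 :=
      Nat.mul_le_mul (Nat.mul_le_mul hq₁'.le hq₂'.le) (Nat.pow_le_pow_left hp'.le 2)
    have h7 : (((q₁ * q₂ * p ^ 2 : ℕ) : ℝ)) ≤ (((2 * Q0) * (2 * Q0) * (2 * Z) ^ 2 : ℕ) : ℝ) := by
      exact_mod_cast h6
    refine h7.trans (le_of_eq ?_)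
    push_cast
    ring
  have ht0 : 0 ≤ 2 * t := (norm_nonneg _).trans hle
  have h8 : ‖r₁ - r₂‖ * ((q₁ * q₂ * p ^ 2 : ℕ) : ℝ) ≤ 2 * t * (16 * (Q0 : ℝ) ^ 2 * (Z : ℝ) ^ 2) :=
    mul_le_mul hle h5 hD'.le ht0
  have h9 : 2 * t * (16 * (Q0 : ℝ) ^ 2 * (Z : ℝ) ^ 2) = 32 * t * (Q0 : ℝ) ^ 2 * (Z : ℝ) ^ 2 := by
    ring
  linarith

private theorem gcd56 {q₁ q₂ p p' : ℕ} (hp : p.Prime) (hp' : p'.Prime) (hne : p ≠ p')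
    (h1 : 0 < q₁) (h1' : q₁ < p') (h2 : 0 < q₂) (h2' : q₂ < p) :
    (q₁ * p ^ 2).gcd (q₂ * p' ^ 2) = q₁.gcd q₂ := by
  have c1 : Nat.Coprime (p ^ 2) (q₂ * p' ^ 2) :=
    Nat.Coprime.pow_left 2 (Nat.Coprime.mul_right
      ((Nat.Prime.coprime_iff_not_dvd hp).2 fun h => absurd (Nat.le_of_dvd h2 h) (by omega))
      (Nat.Coprime.pow_right 2 ((Nat.coprime_primes hp hp').2 hne)))
  have c2 : Nat.Coprime (p' ^ 2) q₁ :=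
    Nat.Coprime.pow_left 2
      ((Nat.Prime.coprime_iff_not_dvd hp').2 fun h => absurd (Nat.le_of_dvd h1 h) (by omega))
  rw [Nat.Coprime.gcd_mul_right_cancel _ c1, Nat.Coprime.gcd_mul_right_cancel_right _ c2]

open scoped Classical in
private theorem T56 {Q0 Z : ℕ} {t : ℝ} (ht : 0 ≤ t) (hZ : 2 * Q0 < Z) {q₁ q₂ q₃ p p₂ p₃ : ℕ}
    (hq₁ : 0 < q₁) (hq₁' : q₁ < 2 * Q0) (hq₂ : 0 < q₂) (hq₂' : q₂ < 2 * Q0) (hq₃' : q₃ < 2 * Q0)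
    (hp : p.Prime) (hpZ : Z ≤ p) (hpZ' : p < 2 * Z) (hp₂ : p₂.Prime) (hp₂Z : Z ≤ p₂)
    (hp₂Z' : p₂ < 2 * Z) (hp₃Z' : p₃ < 2 * Z) (hne : p₂ ≠ p) :
    (((pt (q₁ * p ^ 2) ×ˢ pt (q₂ * p₂ ^ 2) ×ˢ pt (q₃ * p₃ ^ 2)).filter fun r =>
      (r.1 ≠ r.2.1 ∧ r.1 ≠ r.2.2) ∧ ‖r.1 - r.2.1‖ ≤ 2 * t ∧ ‖r.1 - r.2.2‖ ≤ 2 * t).card : ℝ) ≤
    ∑ b ∈ nz (128 * t * (Q0 : ℝ) ^ 2 * (Z : ℝ) ^ 4), ∑ c ∈ nz (128 * t * (Q0 : ℝ) ^ 2 * (Z : ℝ) ^ 4),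
      (if ((q₁.gcd q₂ : ℕ) : ℤ) ∣ b ∧
          (p : ℤ) ^ 2 ∣ (q₂ : ℤ) * (p₂ : ℤ) ^ 2 * c - (q₃ : ℤ) * (p₃ : ℤ) ^ 2 * b
          then ((q₁.gcd q₂ : ℕ) : ℝ) else 0) := by
  have hs : ∀ q x : ℕ, q < 2 * Q0 → x < 2 * Z → ((q * x ^ 2 : ℕ) : ℝ) ≤ 8 * Q0 * (Z : ℝ) ^ 2 := by
    intro q x hq hx
    have h6 : q * x ^ 2 ≤ (2 * Q0) * (2 * Z) ^ 2 :=
      Nat.mul_le_mul hq.le (Nat.pow_le_pow_left hx.le 2)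
    have h7 : ((q * x ^ 2 : ℕ) : ℝ) ≤ (((2 * Q0) * (2 * Z) ^ 2 : ℕ) : ℝ) := by exact_mod_cast h6
    refine h7.trans (le_of_eq ?_)
    push_cast
    ring
  have hX : ∀ q x : ℕ, q < 2 * Q0 → x < 2 * Z →
      2 * t * ((q₁ * p ^ 2 : ℕ) : ℝ) * ((q * x ^ 2 : ℕ) : ℝ) ≤
        128 * t * (Q0 : ℝ) ^ 2 * (Z : ℝ) ^ 4 := by
    intro q x hq hx
    have h1 := hs q₁ p hq₁' hpZ'
    have h2 := hs q x hq hx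
    have h3 : 2 * t * ((q₁ * p ^ 2 : ℕ) : ℝ) ≤ 2 * t * (8 * Q0 * (Z : ℝ) ^ 2) :=
      mul_le_mul_of_nonneg_left h1 (by positivity)
    calc _ ≤ 2 * t * (8 * Q0 * (Z : ℝ) ^ 2) * (8 * Q0 * (Z : ℝ) ^ 2) :=
          mul_le_mul h3 h2 (by positivity) (by positivity)
      _ = _ := by ring
  have h0 := fixed_orders (q₁ * p ^ 2) (q₂ * p₂ ^ 2) (q₃ * p₃ ^ 2) (2 * t)
  have h1 : (((pt (q₁ * p ^ 2) ×ˢ pt (q₂ * p₂ ^ 2) ×ˢ pt (q₃ * p₃ ^ 2)).filter fun r =>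
      (r.1 ≠ r.2.1 ∧ r.1 ≠ r.2.2) ∧ ‖r.1 - r.2.1‖ ≤ 2 * t ∧ ‖r.1 - r.2.2‖ ≤ 2 * t).card : ℝ) ≤
      ((∑ b ∈ nz (2 * t * ((q₁ * p ^ 2 : ℕ) : ℝ) * ((q₂ * p₂ ^ 2 : ℕ) : ℝ)),
        ∑ c ∈ nz (2 * t * ((q₁ * p ^ 2 : ℕ) : ℝ) * ((q₃ * p₃ ^ 2 : ℕ) : ℝ)),
      if (((q₁ * p ^ 2).gcd (q₂ * p₂ ^ 2) : ℕ) : ℤ) ∣ b ∧ ((q₁ * p ^ 2 : ℕ) : ℤ) ∣
        ((q₂ * p₂ ^ 2 : ℕ) : ℤ) * c - ((q₃ * p₃ ^ 2 : ℕ) : ℤ) * b then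
          (q₁ * p ^ 2).gcd (q₂ * p₂ ^ 2) else 0 : ℕ) : ℝ) := by
    exact_mod_cast h0
  refine h1.trans ?_
  rw [gcd56 hp hp₂ hne.symm hq₁ (by omega) hq₂ (by omega)]
  push_cast
  have hsub : ∀ A B : ℝ, A ≤ B → nz A ⊆ nz B := by
    intro A B hAB b hb
    obtain ⟨h2, h3⟩ := mem_nz.mp hb
    exact mem_nz.mpr ⟨h2, h3.trans hAB⟩
  have hX2 := hX q₂ p₂ hq₂' hp₂Z'
  have hX3 := hX q₃ p₃ hq₃' hp₃Z'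
  push_cast at hX2 hX3
  refine (Finset.sum_le_sum_of_subset_of_nonneg (hsub _ _ hX2) fun b _ _ =>
    Finset.sum_nonneg fun c _ => by split_ifs <;> positivity).trans ?_
  refine Finset.sum_le_sum fun b _ => ?_
  refine (Finset.sum_le_sum_of_subset_of_nonneg (hsub _ _ hX3) fun c _ _ => by
    split_ifs <;> positivity).trans ?_
  refine Finset.sum_le_sum fun c _ => ?_
  split_ifs with h2 h3 h3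
  · exact le_rfl
  · exfalso
    refine h3 ⟨h2.1, ?_⟩
    exact (Dvd.intro_left _ rfl : (p : ℤ) ^ 2 ∣ (q₁ : ℤ) * (p : ℤ) ^ 2).trans h2.2
  · positivity
  · exact le_rfl

theorem card_triples_le {Qs : Finset ℕ} {Q0 Z : ℕ} (hQ0 : 1 ≤ Q0)
    (hQs : Qs ⊆ Finset.Ico Q0 (2 * Q0)) (hZ : 2 * Q0 < Z) {t : ℝ} (ht : 0 ≤ t)
    (hsmall : 32 * t * (Q0 : ℝ) ^ 2 * (Z : ℝ) ^ 2 < 1) :
    ((triples (D2 Qs (primesIn Z)) (2 * t)).card : ℝ) ≤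
      60 * (Qs.card : ℝ) ^ 3 * (primesIn Z).card *
        (128 * t * (Q0 : ℝ) ^ 2 * (Z : ℝ) ^ 4) ^ 2 := by
  classical
  obtain ⟨X, hX⟩ : ∃ X, X = 128 * t * (Q0 : ℝ) ^ 2 * (Z : ℝ) ^ 4 := ⟨_, rfl⟩
  have hX0 : 0 ≤ X := by rw [hX]; positivity
  obtain ⟨P, hP⟩ : ∃ P : ℕ → Finset (ℕ × ℕ), P = fun p => (primesIn Z ×ˢ primesIn Z).filter
    (fun v => v.1 ≠ p ∧ v.2 ≠ p ∧ v.1 ≠ v.2) := ⟨_, rfl⟩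
  obtain ⟨T, hT⟩ : ∃ T : ℕ × ℕ × ℕ × ℕ → ℕ × ℕ →
      Finset (UnitAddCircle × UnitAddCircle × UnitAddCircle), T = fun i v =>
    ((pt (i.1 * i.2.2.2 ^ 2) ×ˢ pt (i.2.1 * v.1 ^ 2) ×ˢ pt (i.2.2.1 * v.2 ^ 2)).filter fun r =>
      (r.1 ≠ r.2.1 ∧ r.1 ≠ r.2.2) ∧ ‖r.1 - r.2.1‖ ≤ 2 * t ∧ ‖r.1 - r.2.2‖ ≤ 2 * t) := ⟨_, rfl⟩
  have hQ : ∀ q ∈ Qs, 0 < q ∧ q < 2 * Q0 := by
    intro q hq
    have := Finset.mem_Ico.mp (hQs hq)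
    omega
  have hpr : ∀ p ∈ primesIn Z, p.Prime ∧ Z ≤ p ∧ p < 2 * Z := by
    intro p hp
    obtain ⟨h1, h2⟩ := Finset.mem_filter.mp hp
    have := Finset.mem_Ico.mp h1
    exact ⟨h2, this.1, this.2⟩
  have hD : ∀ a ∈ pts (D2 Qs (primesIn Z)), ∃ q ∈ Qs, ∃ p ∈ primesIn Z, a ∈ pt (q * p ^ 2) := by
    intro a ha
    obtain ⟨s, hs, has⟩ := (mem_pts' a).mp ha
    obtain ⟨⟨q, p⟩, hqp, rfl⟩ := Finset.mem_image.mp hs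
    obtain ⟨h1, h2⟩ := Finset.mem_filter.mp hqp
    obtain ⟨h3, h4⟩ := Finset.mem_product.mp h1
    exact ⟨q, h3, p, h4, has⟩
  have hsub : triples (D2 Qs (primesIn Z)) (2 * t) ⊆
      (Qs ×ˢ Qs ×ˢ Qs ×ˢ primesIn Z).biUnion fun i => (P i.2.2.2).biUnion fun v => T i v := by
    rintro ⟨r₁, r₂, r₃⟩ hr
    unfold triples at hr
    obtain ⟨hr1, ⟨hn12, hn13, hn23⟩, hd12, hd13, hd23⟩ := Finset.mem_filter.mp hr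
    rw [Finset.mem_product, Finset.mem_product] at hr1
    dsimp only at hr1 hn12 hn13 hn23 hd12 hd13 hd23
    obtain ⟨q₁, hq₁, p₁, hp₁, ha₁⟩ := hD _ hr1.1
    obtain ⟨q₂, hq₂, p₂, hp₂, ha₂⟩ := hD _ hr1.2.1
    obtain ⟨q₃, hq₃, p₃, hp₃, ha₃⟩ := hD _ hr1.2.2
    have key : ∀ {q q' p p' : ℕ} {r r' : UnitAddCircle}, q ∈ Qs → q' ∈ Qs → p ∈ primesIn Z →
        p' ∈ primesIn Z → r ∈ pt (q * p ^ 2) → r' ∈ pt (q' * p' ^ 2) → r ≠ r' →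
        ‖r - r'‖ ≤ 2 * t → p ≠ p' := by
      intro q q' p p' r r' hq hq' hp hp' hr hr' hne hd hpp
      subst hpp
      exact far56 hsmall (hQ q hq).1 (hQ q' hq').1 (hQ q hq).2 (hQ q' hq').2 (hpr p hp).1.pos
        (hpr p hp).2.2 hr hr' hne hd
    have k12 := key hq₁ hq₂ hp₁ hp₂ ha₁ ha₂ hn12 hd12
    have k13 := key hq₁ hq₃ hp₁ hp₃ ha₁ ha₃ hn13 hd13
    have k23 := key hq₂ hq₃ hp₂ hp₃ ha₂ ha₃ hn23 hd23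
    rw [Finset.mem_biUnion]
    refine ⟨(q₁, q₂, q₃, p₁), Finset.mem_product.mpr ⟨hq₁, Finset.mem_product.mpr ⟨hq₂,
      Finset.mem_product.mpr ⟨hq₃, hp₁⟩⟩⟩, ?_⟩
    rw [Finset.mem_biUnion]
    refine ⟨(p₂, p₃), ?_, ?_⟩
    · rw [hP]
      exact Finset.mem_filter.mpr ⟨Finset.mem_product.mpr ⟨hp₂, hp₃⟩, k12.symm, k13.symm, k23⟩
    · rw [hT]
      exact Finset.mem_filter.mpr ⟨Finset.mem_product.mpr ⟨ha₁, Finset.mem_product.mpr ⟨ha₂, ha₃⟩⟩,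
        ⟨hn12, hn13⟩, hd12, hd13⟩
  have h1 : (triples (D2 Qs (primesIn Z)) (2 * t)).card ≤
      ∑ i ∈ Qs ×ˢ Qs ×ˢ Qs ×ˢ primesIn Z, ∑ v ∈ P i.2.2.2, (T i v).card :=
    (Finset.card_le_card hsub).trans (Finset.card_biUnion_le.trans
      (Finset.sum_le_sum fun i _ => Finset.card_biUnion_le))
  have h2 : ((triples (D2 Qs (primesIn Z)) (2 * t)).card : ℝ) ≤
      ∑ i ∈ Qs ×ˢ Qs ×ˢ Qs ×ˢ primesIn Z, ∑ v ∈ P i.2.2.2, ((T i v).card : ℝ) := by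
    exact_mod_cast h1
  have h3 : ∀ i ∈ Qs ×ˢ Qs ×ˢ Qs ×ˢ primesIn Z, ∑ v ∈ P i.2.2.2, ((T i v).card : ℝ) ≤
      60 * X ^ 2 := by
    rintro ⟨q₁, q₂, q₃, p⟩ hi
    rw [Finset.mem_product, Finset.mem_product, Finset.mem_product] at hi
    obtain ⟨hq₁, hq₂, hq₃, hp⟩ := hi
    dsimp only at hq₁ hq₂ hq₃ hp ⊢
    have h4 := inner_count (by omega) hp (hQ q₁ hq₁).1 (hQ q₂ hq₂).1 (hQ q₃ hq₃).1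
      (by have := (hQ q₁ hq₁).2; omega) (by have := (hQ q₂ hq₂).2; omega)
      (by have := (hQ q₃ hq₃).2; omega) hX0
    refine le_trans ?_ h4
    rw [hP, hT]
    refine Finset.sum_le_sum fun v hv => ?_
    obtain ⟨hv1, hv2⟩ := Finset.mem_filter.mp hv
    obtain ⟨hv3, hv4⟩ := Finset.mem_product.mp hv1
    rw [hX]
    exact T56 ht hZ (hQ q₁ hq₁).1 (hQ q₁ hq₁).2 (hQ q₂ hq₂).1 (hQ q₂ hq₂).2 (hQ q₃ hq₃).2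
      (hpr p hp).1 (hpr p hp).2.1 (hpr p hp).2.2 (hpr _ hv3).1 (hpr _ hv3).2.1 (hpr _ hv3).2.2
      (hpr _ hv4).2.2 hv2.1
  refine h2.trans ((Finset.sum_le_sum h3).trans (le_of_eq ?_))
  rw [Finset.sum_const, Finset.card_product, Finset.card_product, Finset.card_product,
    nsmul_eq_mul, hX]
  push_cast
  ring

end Pool.Agent.Helper25.MOB
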