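import Pool.Agent.Helper25.MOB.K1
import Pool.Agent.Helper25.MOB.T4

/-!
Block MOB-K2.  The inequality of squares with the third moment.

`2 Q0 < Z`: `L = 1` (`card_prime_dvd_le_one`) and `c₀ = 0` (no prime `≥ Z` divides a `q ∈ Qs`).  For `D1` use `int_D_le` and
`sum_D1_le`; for `D2` use `trunc_two`, `third_moment`, `card_triples_le`, `#primesIn Z ≤ Z` and `∫ ‖F‖² ≤ N`:
`3/2 * 2 t * 60 = 180 t`.
-/

namespace Pool.Agent.Helper25.MOB

open MeasureTheory

/-- Truncated Cauchy-Schwarz inequality (with the first integral alone). -/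
private theorem trunc75 (f : UnitAddCircle → ℂ) (hf : Continuous f) (m : UnitAddCircle → ℕ)
    (hm : Measurable fun z => (m z : ℝ)) {K : ℕ} (hK : ∀ z, m z ≤ K) :
    ∫ z, ‖f z‖ * (m z : ℝ) ≤ 2 * (∫ z, ‖f z‖) +
      √(∫ z, ‖f z‖ ^ 2) *
        √(3 / 2 * ∫ z, (m z : ℝ) * ((m z : ℝ) - 1) * ((m z : ℝ) - 2)) := by
  obtain ⟨C, hC⟩ := isCompact_univ.exists_bound_of_continuousOn hf.continuousOn
  have hC' : ∀ z, ‖f z‖ ≤ C := fun z => hC z (Set.mem_univ z)
  have hC0 : 0 ≤ C := (norm_nonneg _).trans (hC' 0)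
  have hK' : ∀ z, (m z : ℝ) ≤ K := fun z => by exact_mod_cast hK z
  let w : UnitAddCircle → ℝ := fun z =>
    √(3 / 2 * ((m z : ℝ) * ((m z : ℝ) - 1) * ((m z : ℝ) - 2)))
  have hpos : ∀ z, 0 ≤ (m z : ℝ) * ((m z : ℝ) - 1) * ((m z : ℝ) - 2) := by
    intro z
    rcases hz : m z with _ | _ | n
    · simp
    · simp
    · push_cast
      have hn : (0 : ℝ) ≤ n := Nat.cast_nonneg n
      have e : ((n : ℝ) + 1 + 1) * ((n : ℝ) + 1 + 1 - 1) * ((n : ℝ) + 1 + 1 - 2) =
          (n + 2) * (n + 1) * n := by ring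
      rw [e]
      positivity
  have hw0 : ∀ z, 0 ≤ w z := fun z => Real.sqrt_nonneg _
  have hw2 : ∀ z, w z ^ 2 = 3 / 2 * ((m z : ℝ) * ((m z : ℝ) - 1) * ((m z : ℝ) - 2)) := by
    intro z
    exact Real.sq_sqrt (mul_nonneg (by norm_num) (hpos z))
  have hmw : ∀ z, (m z : ℝ) ≤ 2 + w z := by
    intro z
    have h0 := hw0 z
    rcases hz : m z with _ | _ | n
    · push_cast
      linarith
    · push_cast
      linarith
    · have hn : (0 : ℝ) ≤ n := Nat.cast_nonneg n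
      have h1 : (n : ℝ) ≤ w z := by
        refine Real.le_sqrt_of_sq_le ?_
        rw [hz]
        push_cast
        have e : 3 / 2 * (((n : ℝ) + 1 + 1) * ((n : ℝ) + 1 + 1 - 1) * ((n : ℝ) + 1 + 1 - 2)) =
            (n : ℝ) ^ 2 + (3 / 2 * n ^ 3 + 7 / 2 * n ^ 2 + 3 * n) := by ring
        rw [e]
        have : (0 : ℝ) ≤ 3 / 2 * n ^ 3 + 7 / 2 * n ^ 2 + 3 * n := by positivity
        linarith
      push_cast
      linarith
  have hwK : ∀ z, w z ≤ √(3 / 2 * (K : ℝ) ^ 3) := by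
    intro z
    refine Real.sqrt_le_sqrt (mul_le_mul_of_nonneg_left ?_ (by norm_num))
    have h0 : (0 : ℝ) ≤ m z := Nat.cast_nonneg _
    have h1 : (m z : ℝ) ^ 3 ≤ (K : ℝ) ^ 3 := pow_le_pow_left₀ h0 (hK' z) 3
    refine le_trans ?_ h1
    rcases hz : m z with _ | n
    · simp
    · push_cast
      have hn : (0 : ℝ) ≤ n := Nat.cast_nonneg n
      nlinarith [mul_nonneg hn hn, mul_nonneg hn (mul_nonneg hn hn)]
  have hwm : Measurable w := ((((hm.mul (hm.sub_const 1)).mul (hm.sub_const 2)).const_mul _)).sqrt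
  have hfm : AEStronglyMeasurable (fun z => ‖f z‖) (volume : Measure UnitAddCircle) :=
    hf.norm.aestronglyMeasurable
  have i1 : Integrable (fun z => ‖f z‖) (volume : Measure UnitAddCircle) :=
    Integrable.of_bound hfm C (Filter.Eventually.of_forall fun z => by
      rw [norm_norm]
      exact hC' z)
  have i2 : Integrable (fun z => ‖f z‖ * w z) (volume : Measure UnitAddCircle) := by
    refine Integrable.of_bound (hfm.mul hwm.aestronglyMeasurable) (C * √(3 / 2 * (K : ℝ) ^ 3))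
      (Filter.Eventually.of_forall fun z => ?_)
    rw [norm_mul, norm_norm, Real.norm_of_nonneg (hw0 z)]
    exact mul_le_mul (hC' z) (hwK z) (hw0 z) hC0
  have i3 : Integrable (fun z => ‖f z‖ * (m z : ℝ)) (volume : Measure UnitAddCircle) := by
    refine Integrable.of_bound (hfm.mul hm.aestronglyMeasurable) (C * K)
      (Filter.Eventually.of_forall fun z => ?_)
    rw [norm_mul, norm_norm, Real.norm_of_nonneg (Nat.cast_nonneg _)]
    exact mul_le_mul (hC' z) (hK' z) (Nat.cast_nonneg _) hC0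
  have h1 : ∫ z, ‖f z‖ * (m z : ℝ) ≤ ∫ z, (2 * ‖f z‖ + ‖f z‖ * w z) := by
    refine integral_mono i3 ((i1.const_mul 2).add i2) fun z => ?_
    have h2 := mul_le_mul_of_nonneg_left (hmw z) (norm_nonneg (f z))
    simp only
    linarith
  rw [integral_add (i1.const_mul 2) i2, integral_const_mul] at h1
  refine h1.trans (add_le_add_right ?_ _)
  have h3 := integral_mul_le_Lp_mul_Lq_of_nonneg (μ := (volume : Measure UnitAddCircle))
    (p := 2) (q := 2) (f := fun z => ‖f z‖) (g := w) Real.HolderConjugate.two_two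
    (Filter.Eventually.of_forall fun z => norm_nonneg _)
    (Filter.Eventually.of_forall hw0)
    (MemLp.of_bound hfm C (Filter.Eventually.of_forall fun z => by
      rw [norm_norm]
      exact hC' z))
    (MemLp.of_bound hwm.aestronglyMeasurable _ (Filter.Eventually.of_forall fun z => by
      rw [Real.norm_of_nonneg (hw0 z)]
      exact hwK z))
  refine h3.trans (le_of_eq ?_)
  rw [Real.sqrt_eq_rpow, Real.sqrt_eq_rpow]
  congr 2
  · refine integral_congr_ae (Filter.Eventually.of_forall fun z => ?_)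
    exact Real.rpow_two _
  · rw [← integral_const_mul]
    refine integral_congr_ae (Filter.Eventually.of_forall fun z => ?_)
    simp only
    rw [Real.rpow_two, hw2]

theorem squares_three (N : ℕ) {Qs : Finset ℕ} {Q0 Z : ℕ} (hQ0 : 1 ≤ Q0)
    (hQs : Qs ⊆ Finset.Ico Q0 (2 * Q0)) (hZ : 2 * Q0 < Z) {t : ℝ} (ht : 0 ≤ t)
    (hsmall : 32 * t * (Q0 : ℝ) ^ 2 * (Z : ℝ) ^ 2 < 1) (R : Set UnitAddCircle)
    (hR : MeasurableSet R) (hRc : R ⊆ ⋃ q ∈ Qs, cl t q) :
    ((primesIn Z).card : ℝ) * ∫ y in R, ‖F N y‖ ≤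
      3 * (∫ z, ‖F N z‖) + 16 * t * √N * Qs.card * Q0 * (Z : ℝ) ^ 2 +
      √N * √(180 * t * ((Qs.card : ℝ) ^ 3 * Z * (128 * t * (Q0 : ℝ) ^ 2 * (Z : ℝ) ^ 4) ^ 2)) := by
  have hQ : 0 ∉ Qs := by
    intro h0
    have h1 := Finset.mem_Ico.1 (hQs h0)
    omega
  have hprime : ∀ p ∈ primesIn Z, p.Prime := fun p hp => (Finset.mem_filter.1 hp).2
  have hge : ∀ p ∈ primesIn Z, Z ≤ p := fun p hp =>
    (Finset.mem_Ico.1 (Finset.mem_filter.1 hp).1).1
  have hc : ∀ q ∈ Qs, ((primesIn Z).filter fun p => p ∣ q).card ≤ 0 := by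
    intro q hq
    rw [Nat.le_zero, Finset.card_eq_zero, Finset.filter_eq_empty_iff]
    intro p hp hpq
    have h1 := Finset.mem_Ico.1 (hQs hq)
    have h2 := Nat.le_of_dvd (by omega) hpq
    have h3 := hge p hp
    omega
  have hcard : (((primesIn Z).card : ℕ) : ℝ) ≤ Z := by
    have h1 : (primesIn Z).card ≤ (Finset.Ico Z (2 * Z)).card := Finset.card_filter_le _ _
    rw [Nat.card_Ico] at h1
    have h2 : (primesIn Z).card ≤ Z := by omega
    exact_mod_cast h2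
  have hb := squares_basic N Qs (primesIn Z) hQ hprime ht (card_prime_dvd_le_one hQ0 hQs hZ) hc
    R hR hRc
  have hN : 0 ≤ √(N : ℝ) := Real.sqrt_nonneg _
  -- the first family
  have h1 : ∫ z, ‖F N z‖ * (Mc (D1 Qs (primesIn Z)) t z : ℝ) ≤
      (∫ z, ‖F N z‖) + 4 * t * √N * ∑ s ∈ D1 Qs (primesIn Z), (s : ℝ) := by
    refine (int_D_le N (D1 Qs (primesIn Z)) ht).trans (le_of_eq ?_)
    rw [integral_add ?_ (integrable_const _), integral_const, probReal_univ, one_smul]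
    obtain ⟨C, hC⟩ := isCompact_univ.exists_bound_of_continuousOn (continuous_F N).continuousOn
    exact Integrable.of_bound (continuous_F N).norm.aestronglyMeasurable C
      (Filter.Eventually.of_forall fun z => by
        rw [norm_norm]
        exact hC z (Set.mem_univ z))
  have h2 : 4 * t * √N * ∑ s ∈ D1 Qs (primesIn Z), (s : ℝ) ≤
      4 * t * √N * (4 * Qs.card * Q0 * (Z : ℝ) ^ 2) :=
    mul_le_mul_of_nonneg_left (sum_D1_le hQs Z) (by positivity)
  -- the second family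
  have h3 := trunc75 (F N) (continuous_F N) (fun z => Mc (D2 Qs (primesIn Z)) t z)
    (measurable_Mc _ t) (Mc_le _ t)
  have h4 := third_moment (D2 Qs (primesIn Z)) ht
  have h5 := card_triples_le hQ0 hQs hZ ht hsmall
  have h6 : 3 / 2 * ∫ z, (Mc (D2 Qs (primesIn Z)) t z : ℝ) *
      ((Mc (D2 Qs (primesIn Z)) t z : ℝ) - 1) * ((Mc (D2 Qs (primesIn Z)) t z : ℝ) - 2) ≤
      180 * t * ((Qs.card : ℝ) ^ 3 * Z * (128 * t * (Q0 : ℝ) ^ 2 * (Z : ℝ) ^ 4) ^ 2) := by
    have h7 : ((triples (D2 Qs (primesIn Z)) (2 * t)).card : ℝ) ≤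
        60 * (Qs.card : ℝ) ^ 3 * Z * (128 * t * (Q0 : ℝ) ^ 2 * (Z : ℝ) ^ 4) ^ 2 := by
      refine h5.trans (mul_le_mul_of_nonneg_right ?_ (by positivity))
      exact mul_le_mul_of_nonneg_left hcard (by positivity)
    have h8 := h4.trans (mul_le_mul_of_nonneg_left h7 (by positivity : 0 ≤ 2 * t))
    calc _ ≤ 3 / 2 * (2 * t * (60 * (Qs.card : ℝ) ^ 3 * Z *
          (128 * t * (Q0 : ℝ) ^ 2 * (Z : ℝ) ^ 4) ^ 2)) :=
          mul_le_mul_of_nonneg_left h8 (by norm_num)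
      _ = _ := by ring
  have h9 : √(∫ z, ‖F N z‖ ^ 2) * √(3 / 2 * ∫ z, (Mc (D2 Qs (primesIn Z)) t z : ℝ) *
      ((Mc (D2 Qs (primesIn Z)) t z : ℝ) - 1) * ((Mc (D2 Qs (primesIn Z)) t z : ℝ) - 2)) ≤
      √N * √(180 * t * ((Qs.card : ℝ) ^ 3 * Z * (128 * t * (Q0 : ℝ) ^ 2 * (Z : ℝ) ^ 4) ^ 2)) :=
    mul_le_mul (Real.sqrt_le_sqrt (integral_F_sq_le N)) (Real.sqrt_le_sqrt h6)
      (Real.sqrt_nonneg _) hN
  push_cast at hb
  rw [sub_zero, one_mul] at hb
  linarith

end Pool.Agent.Helper25.MOB
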