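import Pool.Agent.Helper25.MOB.Defs

/-!
Block MOB-X0.  Parameters and elementary asymptotic facts.

`HH N = ⌊N ^ (3/10)⌋`, `MM N = N / (2 HH N)` (natural division), `dd η N = N ^ η / MM N`.
Everything is elementary: `N ^ a → ∞` for `a > 0` (`tendsto_rpow_atTop`), logarithms are `o(N ^ a)`
(`isLittleO_log_rpow_atTop`), floors.
-/

namespace Pool.Agent.Helper25.MOB

open Filter

/-- `⌊N ^ (3/10)⌋`. -/
noncomputable def HH (N : ℕ) : ℕ := ⌊(N : ℝ) ^ (3 / 10 : ℝ)⌋₊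

/-- `N / (2 HH N)`. -/
noncomputable def MM (N : ℕ) : ℕ := N / (2 * HH N)

/-- `N ^ η / MM N`. -/
noncomputable def dd (η : ℝ) (N : ℕ) : ℝ := (N : ℝ) ^ η / MM N

private theorem tend88 {a : ℝ} (h : 0 < a) :
    Tendsto (fun N : ℕ => (N : ℝ) ^ a) atTop atTop :=
  (tendsto_rpow_atTop h).comp tendsto_natCast_atTop_atTop

/-- The strict version with a positive constant on the right. -/
theorem rpow_ev_lt (C : ℝ) {c a b : ℝ} (hc : 0 < c) (h : a < b) :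
    ∀ᶠ N : ℕ in atTop, C * (N : ℝ) ^ a < c * (N : ℝ) ^ b := by
  filter_upwards [(tend88 (sub_pos.mpr h)).eventually_gt_atTop (C / c), eventually_ge_atTop 1]
    with N h1 h2
  have hN : (0 : ℝ) < N := by exact_mod_cast h2
  have h3 : (N : ℝ) ^ b = (N : ℝ) ^ (b - a) * (N : ℝ) ^ a := by
    rw [← Real.rpow_add hN]
    congr 1
    ring
  rw [h3, ← mul_assoc]
  refine mul_lt_mul_of_pos_right ?_ (Real.rpow_pos_of_pos hN a)
  rw [div_lt_iff₀ hc] at h1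
  linarith

theorem rpow_ev (C : ℝ) {a b : ℝ} (h : a < b) :
    ∀ᶠ N : ℕ in atTop, C * (N : ℝ) ^ a ≤ (N : ℝ) ^ b := by
  filter_upwards [rpow_ev_lt C one_pos h] with N hN
  rw [one_mul] at hN
  exact hN.le

theorem log_ev (C : ℝ) {a : ℝ} (h : 0 < a) :
    ∀ᶠ N : ℕ in atTop, C * (1 + Real.log N) ≤ (N : ℝ) ^ a := by
  filter_upwards [rpow_ev (|C| * (1 + 1 / (a / 2))) (a := a / 2) (b := a) (by linarith),
    eventually_ge_atTop 1] with N h1 h2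
  have hN : (1 : ℝ) ≤ N := by exact_mod_cast h2
  have h3 : Real.log N ≤ (N : ℝ) ^ (a / 2) / (a / 2) :=
    Real.log_le_rpow_div (by positivity) (by positivity)
  have h4 : (1 : ℝ) ≤ (N : ℝ) ^ (a / 2) := Real.one_le_rpow hN (by positivity)
  have h5 : 0 ≤ Real.log N := Real.log_nonneg hN
  calc C * (1 + Real.log N) ≤ |C| * (1 + Real.log N) :=
        mul_le_mul_of_nonneg_right (le_abs_self C) (by positivity)
    _ ≤ |C| * ((N : ℝ) ^ (a / 2) + (N : ℝ) ^ (a / 2) / (a / 2)) :=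
        mul_le_mul_of_nonneg_left (add_le_add h4 h3) (abs_nonneg C)
    _ = |C| * (1 + 1 / (a / 2)) * (N : ℝ) ^ (a / 2) := by ring
    _ ≤ (N : ℝ) ^ a := h1

theorem natlog_ev (C : ℝ) {a : ℝ} (h : 0 < a) :
    ∀ᶠ N : ℕ in atTop, C * ((Nat.log 2 N : ℝ) + 2) ≤ (N : ℝ) ^ a := by
  filter_upwards [log_ev (2 * |C|) h, eventually_ge_atTop 1] with N h1 h2
  have hN : (1 : ℝ) ≤ N := by exact_mod_cast h2
  have h5 : 0 ≤ Real.log N := Real.log_nonneg hN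
  have h3 : (Nat.log 2 N : ℝ) ≤ 2 * Real.log N := by
    refine (Real.natLog_le_logb N 2).trans ?_
    have h6 : (1 : ℝ) / 2 ≤ Real.log 2 := by
      have := Real.log_two_gt_d9
      linarith
    rw [Nat.cast_ofNat, Real.logb, div_le_iff₀ (Real.log_pos (by norm_num))]
    have h7 := mul_le_mul_of_nonneg_left h6 h5
    linarith
  calc C * ((Nat.log 2 N : ℝ) + 2) ≤ |C| * ((Nat.log 2 N : ℝ) + 2) :=
        mul_le_mul_of_nonneg_right (le_abs_self C) (by positivity)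
    _ ≤ |C| * (2 * Real.log N + 2) :=
        mul_le_mul_of_nonneg_left (by linarith) (abs_nonneg C)
    _ = 2 * |C| * (1 + Real.log N) := by ring
    _ ≤ (N : ℝ) ^ a := h1

/-- Bounds for `HH`. -/
theorem HH_ev : ∀ᶠ N : ℕ in atTop, 4 ≤ HH N ∧ (HH N : ℝ) ≤ (N : ℝ) ^ (3 / 10 : ℝ) ∧
    (N : ℝ) ^ (3 / 10 : ℝ) ≤ 2 * HH N ∧ N < HH N ^ 4 := by
  filter_upwards [(tend88 (a := 3 / 10) (by norm_num)).eventually_ge_atTop 4,
    rpow_ev_lt 16 (c := 1) (a := 1) (b := 12 / 10) one_pos (by norm_num),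
    eventually_ge_atTop 1] with N h1 h2 h3
  have hN : (0 : ℝ) < N := by exact_mod_cast h3
  have h4 : (HH N : ℝ) ≤ (N : ℝ) ^ (3 / 10 : ℝ) := Nat.floor_le (by positivity)
  have h5 : (N : ℝ) ^ (3 / 10 : ℝ) < HH N + 1 := Nat.lt_floor_add_one _
  have h6 : (N : ℝ) ^ (3 / 10 : ℝ) ≤ 2 * HH N := by linarith
  refine ⟨Nat.le_floor (by exact_mod_cast h1), h4, h6, ?_⟩
  have h7 : ((N : ℝ) ^ (3 / 10 : ℝ)) ^ 4 ≤ (2 * HH N) ^ 4 :=
    pow_le_pow_left₀ (by positivity) h6 4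
  have h8 : ((N : ℝ) ^ (3 / 10 : ℝ)) ^ 4 = (N : ℝ) ^ (12 / 10 : ℝ) := by
    rw [← Real.rpow_natCast, ← Real.rpow_mul hN.le]
    norm_num
  rw [h8] at h7
  rw [one_mul, Real.rpow_one] at h2
  have h9 : (N : ℝ) < (HH N : ℝ) ^ 4 := by nlinarith
  exact_mod_cast h9

/-- Bounds for `MM`. -/
theorem MM_ev : ∀ᶠ N : ℕ in atTop, 1 ≤ MM N ∧ 2 * HH N * MM N ≤ N ∧ N ≤ 4 * HH N * MM N ∧
    (N : ℝ) ^ (7 / 10 : ℝ) ≤ 4 * MM N := by
  filter_upwards [HH_ev, rpow_ev 2 (a := 3 / 10) (b := 1) (by norm_num),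
    eventually_ge_atTop 1] with N h1 h2 h3
  obtain ⟨h4, h5, h6, h7⟩ := h1
  have hN : (0 : ℝ) < N := by exact_mod_cast h3
  rw [Real.rpow_one] at h2
  have h8 : 2 * HH N ≤ N := by
    have : (2 * HH N : ℝ) ≤ N := by linarith
    exact_mod_cast this
  have h9 : 1 ≤ MM N := (Nat.one_le_div_iff (by omega)).mpr h8
  have h10 : 2 * HH N * MM N ≤ N := Nat.mul_div_le N (2 * HH N)
  have h11 : N < 2 * HH N * (MM N + 1) := by
    rw [mul_comm]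
    exact Nat.lt_mul_of_div_lt (Nat.lt_succ_self _) (by omega)
  have h12 : N ≤ 4 * HH N * MM N := by nlinarith
  refine ⟨h9, h10, h12, ?_⟩
  have h13 : (N : ℝ) ≤ 4 * HH N * MM N := by exact_mod_cast h12
  have h14 : (N : ℝ) = (N : ℝ) ^ (7 / 10 : ℝ) * (N : ℝ) ^ (3 / 10 : ℝ) := by
    rw [← Real.rpow_add hN]
    norm_num
  have h15 : (N : ℝ) ^ (7 / 10 : ℝ) * (N : ℝ) ^ (3 / 10 : ℝ) ≤
      4 * MM N * (N : ℝ) ^ (3 / 10 : ℝ) := by
    rw [← h14]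
    have : (0 : ℝ) ≤ MM N := Nat.cast_nonneg _
    nlinarith
  exact le_of_mul_le_mul_right h15 (Real.rpow_pos_of_pos hN _)

/-- Bounds for `dd`. -/
theorem dd_ev {η : ℝ} (hη : 0 < η) (hη1 : η ≤ 1 / 1000) : ∀ᶠ N : ℕ in atTop,
    0 < dd η N ∧ dd η N ≤ 4 * (N : ℝ) ^ (η - 7 / 10) ∧ 20 * (HH N : ℝ) ^ 2 * dd η N < 1 ∧
      dd η N * MM N = (N : ℝ) ^ η := by
  filter_upwards [HH_ev, MM_ev, rpow_ev_lt 80 (c := 1) (a := η - 1 / 10) (b := 0) one_pos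
    (by linarith), eventually_ge_atTop 1] with N h1 h2 h3 h4
  obtain ⟨-, h5, -, -⟩ := h1
  obtain ⟨h6, -, -, h7⟩ := h2
  have hN : (0 : ℝ) < N := by exact_mod_cast h4
  have hM : (0 : ℝ) < MM N := by exact_mod_cast h6
  have h8 : (0 : ℝ) < (N : ℝ) ^ η := Real.rpow_pos_of_pos hN _
  have h9 : dd η N ≤ 4 * (N : ℝ) ^ (η - 7 / 10) := by
    unfold dd
    rw [div_le_iff₀ hM]
    have h10 : (N : ℝ) ^ η = (N : ℝ) ^ (η - 7 / 10) * (N : ℝ) ^ (7 / 10 : ℝ) := by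
      rw [← Real.rpow_add hN]
      congr 1
      ring
    rw [h10]
    have := mul_le_mul_of_nonneg_left h7 (Real.rpow_pos_of_pos hN (η - 7 / 10)).le
    linarith
  refine ⟨div_pos h8 hM, h9, ?_, div_mul_cancel₀ _ hM.ne'⟩
  rw [one_mul, Real.rpow_zero] at h3
  have h11 : (HH N : ℝ) ^ 2 ≤ (N : ℝ) ^ (6 / 10 : ℝ) := by
    calc (HH N : ℝ) ^ 2 ≤ ((N : ℝ) ^ (3 / 10 : ℝ)) ^ 2 :=
          pow_le_pow_left₀ (Nat.cast_nonneg _) h5 2
      _ = (N : ℝ) ^ (6 / 10 : ℝ) := by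
          rw [← Real.rpow_natCast, ← Real.rpow_mul hN.le]
          norm_num
  calc 20 * (HH N : ℝ) ^ 2 * dd η N
      ≤ 20 * (N : ℝ) ^ (6 / 10 : ℝ) * (4 * (N : ℝ) ^ (η - 7 / 10)) :=
        mul_le_mul (by linarith) h9 (div_pos h8 hM).le (by positivity)
    _ = 80 * ((N : ℝ) ^ (6 / 10 : ℝ) * (N : ℝ) ^ (η - 7 / 10)) := by ring
    _ = 80 * (N : ℝ) ^ (η - 1 / 10) := by
        rw [← Real.rpow_add hN]
        congr 2
        ring
    _ < 1 := h3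

end Pool.Agent.Helper25.MOB
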