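import Pool.Agent.Helper25.MOB.Pt

/-!
Block MOB-C1.  The diagonal pairs, determinants, extreme slopes.

`det v w = v.1 w.2 - w.1 v.2`.
-/

namespace Pool.Agent.Helper25.MOB

open MeasureTheory

/-- The determinant of two pairs. -/
def det2 (v w : ℕ × ℕ) : ℤ := (v.1 : ℤ) * w.2 - (w.1 : ℤ) * v.2

theorem mem_primesIn {H h : ℕ} : h ∈ primesIn H ↔ (H ≤ h ∧ h < 2 * H) ∧ h.Prime := by
  simp [primesIn]

theorem mem_S {H : ℕ} {δ : ℝ} {y y' : UnitAddCircle} {v : ℕ × ℕ} :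
    v ∈ S H δ y y' ↔ (v.1 ∈ primesIn H ∧ v.2 ∈ primesIn H) ∧ ‖v.1 • y - v.2 • y'‖ ≤ δ := by
  classical
  unfold S
  rw [Finset.mem_filter, Finset.mem_product]

theorem mem_So {H : ℕ} {δ : ℝ} {y y' : UnitAddCircle} {v : ℕ × ℕ} :
    v ∈ So H δ y y' ↔ ((v.1 ∈ primesIn H ∧ v.2 ∈ primesIn H) ∧ ‖v.1 • y - v.2 • y'‖ ≤ δ) ∧
      v.1 ≠ v.2 := by
  classical
  unfold So
  rw [Finset.mem_filter, mem_S]

open scoped Classical in
/-- Diagonal.  If two distinct primes `h₁, h₂` of `[H, 2H)` satisfy `‖h y - h y'‖ ≤ δ` then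
`‖y - y'‖ ≤ δ / H`.  Proof: `x = y - y'`; let `h₁ • a = 0`, `‖x - a‖ ≤ ‖h₁ x‖ / h₁ ≤ δ / H`
(`exists_torsion_near`).  `‖h₂ a‖ ≤ ‖h₂ x‖ + h₂ ‖x - a‖ ≤ 3 δ`, and `h₁ • (h₂ a) = 0`, so if
`h₂ a ≠ 0` then `1 / (2H) ≤ 3 δ`, impossible.  So `h₂ a = 0 = h₁ a`, hence `a = 0` (coprime). -/
theorem diag_close {H : ℕ} (hH : 1 ≤ H) {δ : ℝ} (hδ : 0 ≤ δ) (h : 20 * (H : ℝ) ^ 2 * δ < 1)
    (y y' : UnitAddCircle)
    (h2 : 2 ≤ ((primesIn H).filter fun p => ‖p • y - p • y'‖ ≤ δ).card) :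
    ‖y - y'‖ ≤ δ / H := by
  obtain ⟨h₁, hh₁, h₂, hh₂, hne⟩ := Finset.one_lt_card.1 (by omega : 1 < ((primesIn H).filter
    fun p => ‖p • y - p • y'‖ ≤ δ).card)
  rw [Finset.mem_filter, mem_primesIn] at hh₁ hh₂
  obtain ⟨⟨⟨a1, a2⟩, a3⟩, a4⟩ := hh₁
  obtain ⟨⟨⟨b1, b2⟩, b3⟩, b4⟩ := hh₂
  rw [← smul_sub] at a4 b4
  have hHr : (1 : ℝ) ≤ H := by exact_mod_cast hH
  have hH0 : (0 : ℝ) < H := by linarith
  have h1H : (H : ℝ) ≤ h₁ := by exact_mod_cast a1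
  have h1H' : (h₁ : ℝ) ≤ 2 * H := by exact_mod_cast a2.le
  have h2H' : (h₂ : ℝ) ≤ 2 * H := by exact_mod_cast b2.le
  have h10 : (0 : ℝ) < h₁ := by linarith
  obtain ⟨a, ha0, ha⟩ := exists_torsion_near a3.pos (y - y')
  have hxa : ‖y - y' - a‖ ≤ δ / H := by
    refine ha.trans ?_
    calc ‖h₁ • (y - y')‖ / h₁ ≤ δ / h₁ := div_le_div_of_nonneg_right a4 h10.le
      _ ≤ δ / H := div_le_div_of_nonneg_left hδ hH0 h1H
  have h2a : ‖h₂ • a‖ ≤ 3 * δ := by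
    have e : h₂ • a = h₂ • (y - y') - h₂ • (y - y' - a) := by
      rw [← smul_sub, sub_sub_cancel]
    rw [e]
    refine (norm_sub_le _ _).trans ?_
    have h5 : ‖h₂ • (y - y' - a)‖ ≤ 2 * H * (δ / H) := by
      refine (norm_nsmul_le' h₂ _).trans ?_
      exact mul_le_mul h2H' hxa (norm_nonneg _) (by positivity)
    have h6 : 2 * (H : ℝ) * (δ / H) = 2 * δ := by
      field_simp
    linarith
  have h2a0 : h₂ • a = 0 := by
    by_contra hcon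
    have h7 : h₁ • (h₂ • a) = 0 := by
      rw [smul_smul, mul_comm, ← smul_smul, ha0, smul_zero]
    have h8 := one_le_norm_of_torsion a3.pos h7 hcon
    have h9 : 1 / (h₁ : ℝ) ≤ 3 * δ := h8.trans h2a
    rw [div_le_iff₀ h10] at h9
    have h11 : 3 * δ * h₁ ≤ 3 * δ * (2 * H) := mul_le_mul_of_nonneg_left h1H' (by positivity)
    have h12 : δ * H ≤ δ * (H : ℝ) ^ 2 := by
      refine mul_le_mul_of_nonneg_left ?_ hδ
      nlinarith
    nlinarith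
  have hcop : Nat.Coprime h₁ h₂ := (Nat.coprime_primes a3 b3).2 hne
  have ha00 : a = 0 := by
    have e1 : addOrderOf a ∣ h₁ := addOrderOf_dvd_of_nsmul_eq_zero ha0
    have e2 : addOrderOf a ∣ h₂ := addOrderOf_dvd_of_nsmul_eq_zero h2a0
    have e3 : addOrderOf a ∣ 1 := by
      rw [← hcop.gcd_eq_one]
      exact Nat.dvd_gcd e1 e2
    exact AddMonoid.addOrderOf_eq_one_iff.1 (Nat.dvd_one.1 e3)
  rw [ha00, sub_zero] at hxa
  exact hxa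

/-- The determinant of two distinct off-diagonal pairs of primes is not zero (unique
factorisation: `a b' = b a'` with `a ≠ a'` forces `a = b`, `a' = b'`). -/
theorem det2_ne_zero {v w : ℕ × ℕ} (hv1 : v.1.Prime) (hv2 : v.2.Prime) (hw1 : w.1.Prime)
    (hw2 : w.2.Prime) (hv : v.1 ≠ v.2) (hvw : v ≠ w) : det2 v w ≠ 0 := by
  intro h
  have h1 : v.1 * w.2 = w.1 * v.2 := by
    have : (v.1 : ℤ) * w.2 = (w.1 : ℤ) * v.2 := by
      unfold det2 at h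
      linarith
    exact_mod_cast this
  have h2 : v.1 ∣ w.1 * v.2 := ⟨w.2, h1.symm⟩
  rcases (hv1.dvd_mul).1 h2 with h3 | h3
  · have h4 : v.1 = w.1 := (Nat.prime_dvd_prime_iff_eq hv1 hw1).1 h3
    have h5 : w.2 = v.2 := by
      rw [← h4] at h1
      exact Nat.eq_of_mul_eq_mul_left hv1.pos h1
    exact hvw (Prod.ext h4 h5.symm)
  · exact hv ((Nat.prime_dvd_prime_iff_eq hv1 hv2).1 h3)

/-- The determinants are smaller than `3 H ^ 2`. -/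
theorem det2_lt {H : ℕ} {v w : ℕ × ℕ} (hv1 : v.1 ∈ primesIn H) (hv2 : v.2 ∈ primesIn H)
    (hw1 : w.1 ∈ primesIn H) (hw2 : w.2 ∈ primesIn H) : |det2 v w| < 3 * (H : ℤ) ^ 2 := by
  rw [mem_primesIn] at hv1 hv2 hw1 hw2
  obtain ⟨⟨a1, a2⟩, -⟩ := hv1
  obtain ⟨⟨b1, b2⟩, -⟩ := hv2
  obtain ⟨⟨c1, c2⟩, -⟩ := hw1
  obtain ⟨⟨d1, d2⟩, -⟩ := hw2
  have key : ∀ p q r t : ℕ, H ≤ p → p < 2 * H → H ≤ q → q < 2 * H → H ≤ r → r < 2 * H →
      H ≤ t → t < 2 * H → (p : ℤ) * q - (r : ℤ) * t < 3 * (H : ℤ) ^ 2 := by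
    intro p q r t p1 p2 q1 q2 r1 r2 t1 t2
    have e1 : (p : ℤ) < 2 * H := by exact_mod_cast p2
    have e2 : (q : ℤ) < 2 * H := by exact_mod_cast q2
    have e3 : (H : ℤ) ≤ r := by exact_mod_cast r1
    have e4 : (H : ℤ) ≤ t := by exact_mod_cast t1
    have e5 : (H : ℤ) ≤ q := by exact_mod_cast q1
    have e0 : (0 : ℤ) < H := by
      have : 0 < H := by omega
      exact_mod_cast this
    have e6 : (p : ℤ) * q < 2 * H * (2 * H) := by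
      calc (p : ℤ) * q < 2 * H * q := by
            exact mul_lt_mul_of_pos_right e1 (by linarith)
        _ ≤ 2 * H * (2 * H) := mul_le_mul_of_nonneg_left e2.le (by linarith)
    have e7 : (H : ℤ) * H ≤ r * t := mul_le_mul e3 e4 e0.le (by linarith)
    nlinarith
  unfold det2
  rw [abs_lt]
  constructor
  · have := key w.1 v.2 v.1 w.2 c1 c2 b1 b2 a1 a2 d1 d2
    linarith
  · exact key v.1 w.2 w.1 v.2 a1 a2 d1 d2 c1 c2 b1 b2

/-- Extreme slopes: a nonempty set of pairs with positive entries has an element `a` of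
smallest slope `a.2 / a.1` and an element `b` of largest slope. -/
theorem exists_extreme (s : Finset (ℕ × ℕ)) (hs : s.Nonempty)
    (hpos : ∀ v ∈ s, 0 < v.1) :
    ∃ a ∈ s, ∃ b ∈ s, ∀ v ∈ s, 0 ≤ det2 a v ∧ 0 ≤ det2 v b := by
  obtain ⟨a, ha, ha'⟩ := Finset.exists_min_image s (fun v => (v.2 : ℚ) / v.1) hs
  obtain ⟨b, hb, hb'⟩ := Finset.exists_max_image s (fun v => (v.2 : ℚ) / v.1) hs
  have key : ∀ v w : ℕ × ℕ, 0 < v.1 → 0 < w.1 → (v.2 : ℚ) / v.1 ≤ (w.2 : ℚ) / w.1 →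
      0 ≤ det2 v w := by
    intro v w hv hw h
    have hv' : (0 : ℚ) < v.1 := by exact_mod_cast hv
    have hw' : (0 : ℚ) < w.1 := by exact_mod_cast hw
    rw [div_le_div_iff₀ hv' hw'] at h
    have h1 : v.2 * w.1 ≤ w.2 * v.1 := by exact_mod_cast h
    have h2 : (v.2 : ℤ) * w.1 ≤ (w.2 : ℤ) * v.1 := by exact_mod_cast h1
    unfold det2
    linarith
  exact ⟨a, ha, b, hb, fun v hv => ⟨key a v (hpos a ha) (hpos v hv) (ha' v hv),
    key v b (hpos v hv) (hpos b hb) (hb' v hv)⟩⟩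

end Pool.Agent.Helper25.MOB
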