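import Pool.Agent.Helper25.MOB.C1

/-!
Block MOB-C2.  Two off-diagonal pairs force rational approximations.

Let `a ≠ b` be in `So H δ y y'`, `D = det2 a b > 0`.  Then
`D y = b.2 (a.1 y - a.2 y') - a.2 (b.1 y - b.2 y')` and
`D y' = b.1 (a.1 y - a.2 y') - a.1 (b.1 y - b.2 y')`,
so `‖D y‖, ‖D y'‖ ≤ 4 H δ` and there are `α, α'` killed by `D` with `‖y - α‖, ‖y' - α'‖ ≤ 4 H δ / D`
(`exists_torsion_near`).  For every `v` in `S H δ y y'`, `u = v.1 α - v.2 α'` is killed by `D` and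
`‖u‖ ≤ δ + 2H (4Hδ/D) + 2H (4Hδ/D)`, so `D ‖u‖ ≤ D δ + 16 H² δ ≤ 19 H² δ < 1` and `u = 0` by
`one_le_norm_of_torsion`.
-/

namespace Pool.Agent.Helper25.MOB

private theorem cram67 (a b : ℕ × ℕ) {D : ℕ} (hab : det2 a b = D) (y y' : UnitAddCircle) :
    D • y = b.2 • (a.1 • y - a.2 • y') - a.2 • (b.1 • y - b.2 • y') ∧
      D • y' = b.1 • (a.1 • y - a.2 • y') - a.1 • (b.1 • y - b.2 • y') := by
  unfold det2 at hab
  simp only [← natCast_zsmul]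
  rw [← hab]
  constructor <;> module

private theorem prim67 {H h : ℕ} (hh : h ∈ primesIn H) : (h : ℝ) ≤ 2 * H := by
  have h1 := (mem_primesIn.1 hh).1.2
  exact_mod_cast h1.le

private theorem two67 {H m n : ℕ} {δ : ℝ} (u v : UnitAddCircle) (hm : (m : ℝ) ≤ 2 * H)
    (hn : (n : ℝ) ≤ 2 * H) (hu : ‖u‖ ≤ δ) (hv : ‖v‖ ≤ δ) : ‖m • u - n • v‖ ≤ 4 * H * δ := by
  have h0 : 0 ≤ δ := (norm_nonneg u).trans hu
  have h1 := norm_nsmul_le' m u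
  have h2 := norm_nsmul_le' n v
  have h3 := norm_sub_le (m • u) (n • v)
  have h4 : (m : ℝ) * ‖u‖ ≤ 2 * H * δ := mul_le_mul hm hu (norm_nonneg _) (by positivity)
  have h5 : (n : ℝ) * ‖v‖ ≤ 2 * H * δ := mul_le_mul hn hv (norm_nonneg _) (by positivity)
  linarith

theorem two_pairs {H : ℕ} (hH : 1 ≤ H) {δ : ℝ} (hδ : 0 ≤ δ) (h : 20 * (H : ℝ) ^ 2 * δ < 1)
    (y y' : UnitAddCircle) {a b : ℕ × ℕ} (ha : a ∈ So H δ y y') (hb : b ∈ So H δ y y')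
    {D : ℕ} (hD : 0 < D) (hab : det2 a b = D) :
    ∃ α α' : UnitAddCircle, D • α = 0 ∧ D • α' = 0 ∧ ‖y - α‖ ≤ 4 * H * δ / D ∧
      ‖y' - α'‖ ≤ 4 * H * δ / D ∧ ∀ v ∈ S H δ y y', v.1 • α = v.2 • α' := by
  have ha' := mem_So.1 ha
  have hb' := mem_So.1 hb
  obtain ⟨⟨⟨ha1, ha2⟩, ha3⟩, -⟩ := ha'
  obtain ⟨⟨⟨hb1, hb2⟩, hb3⟩, -⟩ := hb'
  obtain ⟨e1, e2⟩ := cram67 a b hab y y'
  have hDr : (0 : ℝ) < D := by exact_mod_cast hD
  have hHr : (1 : ℝ) ≤ H := by exact_mod_cast hH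
  have n1 : ‖D • y‖ ≤ 4 * H * δ := by
    rw [e1]
    exact two67 _ _ (prim67 hb2) (prim67 ha2) ha3 hb3
  have n2 : ‖D • y'‖ ≤ 4 * H * δ := by
    rw [e2]
    exact two67 _ _ (prim67 hb1) (prim67 ha1) ha3 hb3
  obtain ⟨α, hα, hα2⟩ := exists_torsion_near hD y
  obtain ⟨α', hα', hα2'⟩ := exists_torsion_near hD y'
  have m1 : ‖y - α‖ ≤ 4 * H * δ / D :=
    hα2.trans (div_le_div_of_nonneg_right n1 hDr.le)
  have m2 : ‖y' - α'‖ ≤ 4 * H * δ / D :=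
    hα2'.trans (div_le_div_of_nonneg_right n2 hDr.le)
  refine ⟨α, α', hα, hα', m1, m2, fun v hv => ?_⟩
  obtain ⟨⟨hv1, hv2⟩, hv3⟩ := mem_S.1 hv
  have hu0 : D • (v.1 • α - v.2 • α') = 0 := by
    rw [smul_sub, smul_comm D v.1 α, smul_comm D v.2 α', hα, hα', smul_zero, smul_zero, sub_zero]
  have hu : v.1 • α - v.2 • α' = (v.1 • y - v.2 • y') - (v.1 • (y - α) - v.2 • (y' - α')) := by
    rw [smul_sub, smul_sub]
    abel
  have hn : ‖v.1 • α - v.2 • α'‖ ≤ δ + 4 * H * (4 * H * δ / D) := by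
    rw [hu]
    exact (norm_sub_le _ _).trans (add_le_add hv3 (two67 _ _ (prim67 hv1) (prim67 hv2) m1 m2))
  have hDlt : (D : ℝ) < 3 * (H : ℝ) ^ 2 := by
    have h1 := det2_lt ha1 ha2 hb1 hb2
    rw [hab, Nat.abs_cast] at h1
    exact_mod_cast h1
  by_contra hne
  have hne' : v.1 • α - v.2 • α' ≠ 0 := fun h => hne (sub_eq_zero.1 h)
  have h1 := one_le_norm_of_torsion hD hu0 hne'
  have h2 : 1 / (D : ℝ) ≤ δ + 4 * H * (4 * H * δ / D) := h1.trans hn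
  have h3 : (1 : ℝ) ≤ D * δ + 16 * (H : ℝ) ^ 2 * δ := by
    have h4 := mul_le_mul_of_nonneg_left h2 hDr.le
    have h5 : (D : ℝ) * (1 / (D : ℝ)) = 1 := by
      field_simp
    have h6 : (D : ℝ) * (δ + 4 * H * (4 * H * δ / D)) = D * δ + 16 * (H : ℝ) ^ 2 * δ := by
      field_simp
      ring
    rw [h5, h6] at h4
    exact h4
  have h7 : (D : ℝ) * δ ≤ 3 * (H : ℝ) ^ 2 * δ := mul_le_mul_of_nonneg_right hDlt.le hδ
  have h8 : 0 ≤ (H : ℝ) ^ 2 * δ := by positivity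
  nlinarith

end Pool.Agent.Helper25.MOB
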