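import Pool.Agent.Helper25.MOB.C1

/-!
Block MOB-C3.  Counting pairs whose determinants are divisible by `q`.

The slopes `v.2 / v.1` of the elements of `s` are pairwise distinct (`det2_ne_zero`), and
two of them differ by `|det2 v w| / (v.1 w.1) ≥ q / (4 H²)`.  They all lie in the interval
`[slope a, slope b]`, of length `det2 a b / (a.1 b.1) ≤ det2 a b / H²`.  So
`(#s - 1) q / (4 H²) ≤ det2 a b / H²`.
-/

namespace Pool.Agent.Helper25.MOB

/-- `n` real numbers pairwise at distance `≥ g` in an interval of length `ℓ`: `(n - 1) g ≤ ℓ`. -/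
theorem separated_real (A : Finset ℝ) {g x ℓ : ℝ} (hg : 0 < g) (hne : A.Nonempty)
    (hsep : ∀ a ∈ A, ∀ b ∈ A, a ≠ b → g ≤ |a - b|) (hA : ∀ a ∈ A, x ≤ a ∧ a ≤ x + ℓ) :
    ((A.card : ℝ) - 1) * g ≤ ℓ := by
  obtain ⟨a0, ha0⟩ := hne
  have hl : 0 ≤ ℓ := by linarith [(hA a0 ha0).1, (hA a0 ha0).2]
  have hcard : A.card ≤ (Finset.range (⌊ℓ / g⌋₊ + 1)).card := by
    apply Finset.card_le_card_of_injOn (fun a => ⌊(a - x) / g⌋₊)
    · intro a ha
      rw [Finset.mem_coe] at ha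
      rw [Finset.mem_coe, Finset.mem_range, Nat.lt_succ_iff]
      apply Nat.floor_le_floor
      exact div_le_div_of_nonneg_right (by linarith [(hA a ha).2]) hg.le
    · intro a ha b hb hab
      rw [Finset.mem_coe] at ha hb
      by_contra hne
      have h1 := hsep a ha b hb hne
      have hab' : ⌊(a - x) / g⌋₊ = ⌊(b - x) / g⌋₊ := hab
      have ha1 : 0 ≤ (a - x) / g := div_nonneg (by linarith [(hA a ha).1]) hg.le
      have hb1 : 0 ≤ (b - x) / g := div_nonneg (by linarith [(hA b hb).1]) hg.le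
      have h2 := Nat.floor_le ha1
      have h3 := Nat.lt_floor_add_one ((a - x) / g)
      have h4 := Nat.floor_le hb1
      have h5 := Nat.lt_floor_add_one ((b - x) / g)
      rw [hab'] at h2 h3
      have h6 : (a - x) / g - (b - x) / g = (a - b) / g := by
        field_simp
        ring
      have h7 : |(a - b) / g| < 1 := by
        rw [← h6, abs_lt]
        constructor <;> linarith
      rw [abs_div, abs_of_pos hg, div_lt_one hg] at h7
      linarith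
  rw [Finset.card_range] at hcard
  have h8 : (A.card : ℝ) - 1 ≤ ℓ / g := by
    have h9 : (A.card : ℝ) ≤ (⌊ℓ / g⌋₊ : ℝ) + 1 := by exact_mod_cast hcard
    have h10 := Nat.floor_le (div_nonneg hl hg.le)
    linarith
  calc ((A.card : ℝ) - 1) * g ≤ ℓ / g * g := mul_le_mul_of_nonneg_right h8 hg.le
    _ = ℓ := div_mul_cancel₀ _ hg.ne'

theorem slope_count {H : ℕ} (hH : 1 ≤ H) (s : Finset (ℕ × ℕ))
    (hs : ∀ v ∈ s, v.1 ∈ primesIn H ∧ v.2 ∈ primesIn H ∧ v.1 ≠ v.2) {q : ℕ} (hq : 0 < q)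
    (hdet : ∀ v ∈ s, ∀ w ∈ s, (q : ℤ) ∣ det2 v w) {a b : ℕ × ℕ} (ha : a ∈ s) (hb : b ∈ s)
    (hext : ∀ v ∈ s, 0 ≤ det2 a v ∧ 0 ≤ det2 v b) :
    ((s.card : ℤ) - 1) * q ≤ 4 * det2 a b := by
  classical
  have hHr : (1 : ℝ) ≤ (H : ℝ) := by exact_mod_cast hH
  have hqr : (0 : ℝ) < (q : ℝ) := by exact_mod_cast hq
  have hb1 : ∀ v ∈ s, (H : ℝ) ≤ (v.1 : ℝ) ∧ (v.1 : ℝ) < 2 * (H : ℝ) := by
    intro v hv
    have h1 := (mem_primesIn.mp (hs v hv).1).1
    exact ⟨by exact_mod_cast h1.1, by exact_mod_cast h1.2⟩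
  have hslope : ∀ v ∈ s, ∀ w ∈ s, (w.2 : ℝ) / w.1 - (v.2 : ℝ) / v.1 =
      ((det2 v w : ℤ) : ℝ) / ((v.1 : ℝ) * w.1) := by
    intro v hv w hw
    have h1 := (hb1 v hv).1
    have h2 := (hb1 w hw).1
    have h3 : (v.1 : ℝ) ≠ 0 := by linarith
    have h4 : (w.1 : ℝ) ≠ 0 := by linarith
    unfold det2
    push_cast
    field_simp
  have hsep : ∀ v ∈ s, ∀ w ∈ s, v ≠ w →
      (q : ℝ) / (4 * (H : ℝ) ^ 2) ≤ |(v.2 : ℝ) / v.1 - (w.2 : ℝ) / w.1| := by
    intro v hv w hw hvw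
    obtain ⟨hv1, hv2, hv3⟩ := hs v hv
    obtain ⟨hw1, hw2, -⟩ := hs w hw
    have hne := det2_ne_zero (mem_primesIn.mp hv1).2 (mem_primesIn.mp hv2).2
      (mem_primesIn.mp hw1).2 (mem_primesIn.mp hw2).2 hv3 hvw
    have hge : (q : ℤ) ≤ |det2 v w| :=
      Int.le_of_dvd (abs_pos.mpr hne) ((dvd_abs _ _).mpr (hdet v hv w hw))
    have hge' : (q : ℝ) ≤ |((det2 v w : ℤ) : ℝ)| := by
      have : ((q : ℤ) : ℝ) ≤ ((|det2 v w| : ℤ) : ℝ) := by exact_mod_cast hge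
      rwa [Int.cast_abs, Int.cast_natCast] at this
    rw [abs_sub_comm, hslope v hv w hw, abs_div]
    have h1 := hb1 v hv
    have h2 := hb1 w hw
    have h3 : 0 < (v.1 : ℝ) * w.1 := by
      apply mul_pos <;> linarith
    rw [abs_of_pos h3]
    apply div_le_div₀ (abs_nonneg _) hge' h3
    nlinarith
  have hinj : Set.InjOn (fun v : ℕ × ℕ => (v.2 : ℝ) / v.1) (s : Set (ℕ × ℕ)) := by
    intro v hv w hw hvw
    by_contra hne
    have h1 := hsep v hv w hw hne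
    have hvw' : (v.2 : ℝ) / v.1 = (w.2 : ℝ) / w.1 := hvw
    rw [hvw', sub_self, abs_zero] at h1
    have h2 : 0 < (q : ℝ) / (4 * (H : ℝ) ^ 2) := by positivity
    linarith
  have hdab : (0 : ℝ) ≤ ((det2 a b : ℤ) : ℝ) := by exact_mod_cast (hext a ha).2
  have key := separated_real (s.image fun v : ℕ × ℕ => (v.2 : ℝ) / v.1)
    (g := (q : ℝ) / (4 * (H : ℝ) ^ 2)) (x := (a.2 : ℝ) / a.1)
    (ℓ := ((det2 a b : ℤ) : ℝ) / ((a.1 : ℝ) * b.1)) (by positivity)
    (Finset.Nonempty.image ⟨a, ha⟩ _) (by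
      intro u hu v hv huv
      obtain ⟨u', hu', rfl⟩ := Finset.mem_image.mp hu
      obtain ⟨v', hv', rfl⟩ := Finset.mem_image.mp hv
      exact hsep u' hu' v' hv' (fun h => huv (by rw [h]))) (by
      intro u hu
      obtain ⟨v, hv, rfl⟩ := Finset.mem_image.mp hu
      have h1 : (0 : ℝ) ≤ ((det2 a v : ℤ) : ℝ) := by exact_mod_cast (hext v hv).1
      have h2 : (0 : ℝ) ≤ ((det2 v b : ℤ) : ℝ) := by exact_mod_cast (hext v hv).2
      have h3 := hslope a ha v hv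
      have h4 := hslope v hv b hb
      have h5 := hslope a ha b hb
      have ha1 := (hb1 a ha).1
      have hb1' := (hb1 b hb).1
      have hv1 := (hb1 v hv).1
      have h6 : 0 ≤ ((det2 a v : ℤ) : ℝ) / ((a.1 : ℝ) * v.1) := by positivity
      have h7 : 0 ≤ ((det2 v b : ℤ) : ℝ) / ((v.1 : ℝ) * b.1) := by positivity
      constructor
      · linarith
      · linarith)
  rw [Finset.card_image_of_injOn hinj] at key
  have ha1 := (hb1 a ha).1
  have hb1' := (hb1 b hb).1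
  have h8 : ((det2 a b : ℤ) : ℝ) / ((a.1 : ℝ) * b.1) ≤ ((det2 a b : ℤ) : ℝ) / (H : ℝ) ^ 2 := by
    apply div_le_div_of_nonneg_left hdab (by positivity)
    nlinarith
  have h9 := key.trans h8
  have hH2 : (0 : ℝ) < (H : ℝ) ^ 2 := by positivity
  have h10 : ((s.card : ℝ) - 1) * q ≤ 4 * ((det2 a b : ℤ) : ℝ) := by
    have h11 := mul_le_mul_of_nonneg_right h9 (by positivity : (0 : ℝ) ≤ 4 * (H : ℝ) ^ 2)
    have e1 : ((s.card : ℝ) - 1) * ((q : ℝ) / (4 * (H : ℝ) ^ 2)) * (4 * (H : ℝ) ^ 2) =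
        ((s.card : ℝ) - 1) * q := by
      field_simp
    have e2 : ((det2 a b : ℤ) : ℝ) / (H : ℝ) ^ 2 * (4 * (H : ℝ) ^ 2) =
        4 * ((det2 a b : ℤ) : ℝ) := by
      field_simp
    rw [e1, e2] at h11
    exact h11
  exact_mod_cast h10

end Pool.Agent.Helper25.MOB
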