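import Pool.Agent.Helper25.MOB.C1

/-!
Block MOB-C4.  The two cases: equal or different orders.

Let `α, α'` be killed by `D`, `0 < D < 3 H²`, and `v.1 α = v.2 α'` for all `v` in `So H δ y y'`.

* `same_order`: if `α` and `α'` have the same order `q` and `v.1 α = v.2 α'`, `w.1 α = w.2 α'`,
  then `q ∣ det2 v w`.  (`α = m / q`, `α' = m' / q` with `m`, `m'` prime to `q`
  (`AddCircle.addOrderOf_eq_pos_iff`), so `α' = c α` for an integer `c` with `c m ≡ m'`; then
  `v.1 ≡ c v.2`, `w.1 ≡ c w.2` mod `q`, so `det2 v w = v.1 w.2 - w.1 v.2 ≡ 0`.)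
* `diff_order`: if the orders `q`, `q'` differ, then for every `v` in `So`, `v.1 ∣ q` or `v.2 ∣ q'` (otherwise
  the orders of `v.1 α` and `v.2 α'` are `q` and `q'`, as `v.1`, `v.2` are primes).  `q, q' ≤ D < 3 H²`, so
  at most two primes `≥ H` divide `q` (three would give `H³ ≤ q`, and `4 ≤ H`), the same for `q'`.
  For a fixed `h` the `h'` with `(h, h') ∈ S` satisfy: if `h'₀` is the smallest, then
  `d = h' - h'₀ ∈ [0, H)` has `‖d y'‖ ≤ 2 δ`, so there are at most `1 + om H δ y'` of them; similarly for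
  a fixed `h'` at most `1 + om H δ y`.  Total: `≤ 2 (1 + om y') + 2 (1 + om y)`.
-/

namespace Pool.Agent.Helper25.MOB

theorem same_order {α α' : UnitAddCircle} {q : ℕ} (hq : 0 < q) (hα : addOrderOf α = q)
    (hα' : addOrderOf α' = q) {v w : ℕ × ℕ} (hv : v.1 • α = v.2 • α')
    (hw : w.1 • α = w.2 • α') : (q : ℤ) ∣ det2 v w := by
  have h1 : det2 v w • α = 0 := by
    have e : det2 v w • α = w.2 • (v.1 • α) - v.2 • (w.1 • α) := by
      unfold det2
      rw [sub_smul, mul_comm (v.1 : ℤ), mul_comm (w.1 : ℤ), mul_smul, mul_smul, natCast_zsmul, natCast_zsmul,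
        natCast_zsmul, natCast_zsmul]
    rw [e, hv, hw, smul_comm, sub_self]
  rw [← hα]
  exact addOrderOf_dvd_iff_zsmul_eq_zero.2 h1

open scoped Classical in
theorem fibre_left {H : ℕ} {δ : ℝ} (hδ : 0 ≤ δ) (y y' : UnitAddCircle) (h : ℕ) :
    ((So H δ y y').filter fun v => v.1 = h).card ≤ 1 + om H δ y' := by
  rcases Finset.eq_empty_or_nonempty ((So H δ y y').filter fun v => v.1 = h) with he | hne
  · rw [he]
    simp
  obtain ⟨v0, hv0, hmin⟩ := Finset.exists_min_image _ (fun v : ℕ × ℕ => v.2) hne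
  have key : ((So H δ y y').filter fun v => v.1 = h).card ≤
      (insert 0 ((Finset.Icc 1 H).filter fun d => ‖d • y'‖ ≤ 2 * δ)).card := by
    refine Finset.card_le_card_of_injOn (fun v => v.2 - v0.2) ?_ ?_
    · intro v hv
      have hv' := Finset.mem_filter.1 (Finset.mem_coe.1 hv)
      have hle := hmin v (Finset.mem_coe.1 hv)
      obtain ⟨⟨⟨_, h2⟩, h3⟩, _⟩ := mem_So.1 hv'.1
      obtain ⟨⟨⟨_, k2⟩, k3⟩, _⟩ := mem_So.1 (Finset.mem_filter.1 hv0).1
      have e1 := (mem_primesIn.1 h2).1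
      have e2 := (mem_primesIn.1 k2).1
      rw [Finset.mem_coe, Finset.mem_insert]
      by_cases hz : v.2 - v0.2 = 0
      · exact Or.inl hz
      · right
        rw [Finset.mem_filter, Finset.mem_Icc]
        refine ⟨⟨show 1 ≤ v.2 - v0.2 by omega, show v.2 - v0.2 ≤ H by omega⟩, ?_⟩
        change ‖(v.2 - v0.2) • y'‖ ≤ 2 * δ
        have e3 : (v.2 - v0.2) • y' = (v0.1 • y - v0.2 • y') - (v.1 • y - v.2 • y') := by
          have e4 : v.2 = (v.2 - v0.2) + v0.2 := by omega
          have e5 : v.2 • y' = (v.2 - v0.2) • y' + v0.2 • y' := by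
            rw [← add_smul, ← e4]
          rw [e5, hv'.2, (Finset.mem_filter.1 hv0).2]
          abel
        rw [e3]
        refine (norm_sub_le _ _).trans ?_
        linarith
    · intro v hv w hw hvw
      have hv' := Finset.mem_filter.1 (Finset.mem_coe.1 hv)
      have hw' := Finset.mem_filter.1 (Finset.mem_coe.1 hw)
      have l1 := hmin v (Finset.mem_coe.1 hv)
      have l2 := hmin w (Finset.mem_coe.1 hw)
      simp only at hvw l1 l2
      refine Prod.ext (hv'.2.trans hw'.2.symm) ?_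
      omega
  refine key.trans ((Finset.card_insert_le _ _).trans ?_)
  unfold om
  rw [add_comm]

open scoped Classical in
theorem fibre_right {H : ℕ} {δ : ℝ} (hδ : 0 ≤ δ) (y y' : UnitAddCircle) (h : ℕ) :
    ((So H δ y y').filter fun v => v.2 = h).card ≤ 1 + om H δ y := by
  rcases Finset.eq_empty_or_nonempty ((So H δ y y').filter fun v => v.2 = h) with he | hne
  · rw [he]
    simp
  obtain ⟨v0, hv0, hmin⟩ := Finset.exists_min_image _ (fun v : ℕ × ℕ => v.1) hne
  have key : ((So H δ y y').filter fun v => v.2 = h).card ≤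
      (insert 0 ((Finset.Icc 1 H).filter fun d => ‖d • y‖ ≤ 2 * δ)).card := by
    refine Finset.card_le_card_of_injOn (fun v => v.1 - v0.1) ?_ ?_
    · intro v hv
      have hv' := Finset.mem_filter.1 (Finset.mem_coe.1 hv)
      have hle := hmin v (Finset.mem_coe.1 hv)
      obtain ⟨⟨⟨h2, _⟩, h3⟩, _⟩ := mem_So.1 hv'.1
      obtain ⟨⟨⟨k2, _⟩, k3⟩, _⟩ := mem_So.1 (Finset.mem_filter.1 hv0).1
      have e1 := (mem_primesIn.1 h2).1
      have e2 := (mem_primesIn.1 k2).1
      rw [Finset.mem_coe, Finset.mem_insert]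
      by_cases hz : v.1 - v0.1 = 0
      · exact Or.inl hz
      · right
        rw [Finset.mem_filter, Finset.mem_Icc]
        refine ⟨⟨show 1 ≤ v.1 - v0.1 by omega, show v.1 - v0.1 ≤ H by omega⟩, ?_⟩
        change ‖(v.1 - v0.1) • y‖ ≤ 2 * δ
        have e3 : (v.1 - v0.1) • y = (v.1 • y - v.2 • y') - (v0.1 • y - v0.2 • y') := by
          have e4 : v.1 = (v.1 - v0.1) + v0.1 := by omega
          have e5 : v.1 • y = (v.1 - v0.1) • y + v0.1 • y := by
            rw [← add_smul, ← e4]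
          rw [e5, hv'.2, (Finset.mem_filter.1 hv0).2]
          abel
        rw [e3]
        refine (norm_sub_le _ _).trans ?_
        linarith
    · intro v hv w hw hvw
      have hv' := Finset.mem_filter.1 (Finset.mem_coe.1 hv)
      have hw' := Finset.mem_filter.1 (Finset.mem_coe.1 hw)
      have l1 := hmin v (Finset.mem_coe.1 hv)
      have l2 := hmin w (Finset.mem_coe.1 hw)
      simp only at hvw l1 l2
      refine Prod.ext ?_ (hv'.2.trans hw'.2.symm)
      omega
  refine key.trans ((Finset.card_insert_le _ _).trans ?_)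
  unfold om
  rw [add_comm]

theorem card_large_prime_factors {H q : ℕ} (hH : 4 ≤ H) (hq : 0 < q) (hq3 : q < 3 * H ^ 2) :
    ((primesIn H).filter fun h => h ∣ q).card ≤ 2 := by
  by_contra hcon
  push Not at hcon
  obtain ⟨a, ha, b, hb, c, hc, hab, hac, hbc⟩ := Finset.two_lt_card.1 hcon
  rw [Finset.mem_filter, mem_primesIn] at ha hb hc
  have hcop1 : Nat.Coprime a b := (Nat.coprime_primes ha.1.2 hb.1.2).2 hab
  have hcop2 : Nat.Coprime a c := (Nat.coprime_primes ha.1.2 hc.1.2).2 hac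
  have hcop3 : Nat.Coprime b c := (Nat.coprime_primes hb.1.2 hc.1.2).2 hbc
  have hd1 : a * b ∣ q := hcop1.mul_dvd_of_dvd_of_dvd ha.2 hb.2
  have hd2 : a * b * c ∣ q := (Nat.Coprime.mul_left hcop2 hcop3).mul_dvd_of_dvd_of_dvd hd1 hc.2
  have hle := Nat.le_of_dvd hq hd2
  have h3 : H * H * H ≤ a * b * c := Nat.mul_le_mul (Nat.mul_le_mul ha.1.1.1 hb.1.1.1) hc.1.1.1
  have h4 : H * H * 4 ≤ H * H * H := Nat.mul_le_mul_left _ hH
  have h5 : H ^ 2 = H * H := sq H
  have h6 : 0 < H * H := by positivity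
  omega

theorem diff_order {H : ℕ} (hH : 4 ≤ H) {δ : ℝ} (hδ : 0 ≤ δ) (y y' : UnitAddCircle)
    {α α' : UnitAddCircle} {D : ℕ} (hD : 0 < D) (hD3 : D < 3 * H ^ 2) (hα : D • α = 0)
    (hα' : D • α' = 0) (hv : ∀ v ∈ So H δ y y', v.1 • α = v.2 • α')
    (hne : addOrderOf α ≠ addOrderOf α') :
    (So H δ y y').card ≤ 4 + 2 * om H δ y + 2 * om H δ y' := by
  classical
  obtain ⟨q, hq⟩ : ∃ q, q = addOrderOf α := ⟨_, rfl⟩
  obtain ⟨q', hq'⟩ : ∃ q', q' = addOrderOf α' := ⟨_, rfl⟩
  have hqD : q ∣ D := by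
    rw [hq]
    exact addOrderOf_dvd_of_nsmul_eq_zero hα
  have hqD' : q' ∣ D := by
    rw [hq']
    exact addOrderOf_dvd_of_nsmul_eq_zero hα'
  have hq0 : 0 < q := Nat.pos_of_dvd_of_pos hqD hD
  have hq0' : 0 < q' := Nat.pos_of_dvd_of_pos hqD' hD
  have hq3 : q < 3 * H ^ 2 := lt_of_le_of_lt (Nat.le_of_dvd hD hqD) hD3
  have hq3' : q' < 3 * H ^ 2 := lt_of_le_of_lt (Nat.le_of_dvd hD hqD') hD3
  have hor : ∀ v ∈ So H δ y y', v.1 ∣ q ∨ v.2 ∣ q' := by
    intro v hvS
    by_contra hcon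
    push Not at hcon
    obtain ⟨⟨⟨h1, h2⟩, _⟩, _⟩ := mem_So.1 hvS
    have p1 := (mem_primesIn.1 h1).2
    have p2 := (mem_primesIn.1 h2).2
    have c1 : (addOrderOf α).Coprime v.1 := by
      rw [← hq]
      exact ((Nat.Prime.coprime_iff_not_dvd p1).2 hcon.1).symm
    have c2 : (addOrderOf α').Coprime v.2 := by
      rw [← hq']
      exact ((Nat.Prime.coprime_iff_not_dvd p2).2 hcon.2).symm
    have e1 := c1.addOrderOf_nsmul
    have e2 := c2.addOrderOf_nsmul
    rw [hv v hvS] at e1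
    exact hne (e1.symm.trans e2)
  have hsub : So H δ y y' ⊆
      (((primesIn H).filter fun h => h ∣ q).biUnion fun h => (So H δ y y').filter fun v => v.1 = h) ∪
      (((primesIn H).filter fun h => h ∣ q').biUnion fun h => (So H δ y y').filter fun v => v.2 = h) := by
    intro v hvS
    obtain ⟨⟨⟨h1, h2⟩, _⟩, _⟩ := mem_So.1 hvS
    rw [Finset.mem_union]
    rcases hor v hvS with hd | hd
    · left
      exact Finset.mem_biUnion.2 ⟨v.1, Finset.mem_filter.2 ⟨h1, hd⟩, Finset.mem_filter.2 ⟨hvS, rfl⟩⟩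
    · right
      exact Finset.mem_biUnion.2 ⟨v.2, Finset.mem_filter.2 ⟨h2, hd⟩, Finset.mem_filter.2 ⟨hvS, rfl⟩⟩
  have c1 : (((primesIn H).filter fun h => h ∣ q).biUnion fun h => (So H δ y y').filter fun v => v.1 = h).card ≤
      2 * (1 + om H δ y') := by
    refine Finset.card_biUnion_le.trans ?_
    refine (Finset.sum_le_sum fun h _ => fibre_left hδ y y' h).trans ?_
    rw [Finset.sum_const, smul_eq_mul]
    exact Nat.mul_le_mul_right _ (card_large_prime_factors hH hq0 hq3)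
  have c2 : (((primesIn H).filter fun h => h ∣ q').biUnion fun h => (So H δ y y').filter fun v => v.2 = h).card ≤
      2 * (1 + om H δ y) := by
    refine Finset.card_biUnion_le.trans ?_
    refine (Finset.sum_le_sum fun h _ => fibre_right hδ y y' h).trans ?_
    rw [Finset.sum_const, smul_eq_mul]
    exact Nat.mul_le_mul_right _ (card_large_prime_factors hH hq0' hq3')
  have c3 := (Finset.card_le_card hsub).trans (Finset.card_union_le _ _)
  omega

end Pool.Agent.Helper25.MOB
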