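import Pool.Agent.Helper25.MOB.C2
import Pool.Agent.Helper25.MOB.C3
import Pool.Agent.Helper25.MOB.C4

/-!
Block MOB-C5.  The pair lemma.

`pair_lemma`: if `So` has at least two elements take extreme `a, b` (`exists_extreme`), so
`D = det2 a b > 0` (it is `≥ 0`, and `a ≠ b` since otherwise all `det2 a v = 0` and all elements equal `a`
by `det2_ne_zero`), `D < 3 H²`; `two_pairs` gives `α, α'`.  If the orders differ: `diff_order`.  If both
orders are `q`: `q ∣ D`, all determinants are divisible by `q` (`same_order`) and `slope_count` gives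
`(#So - 1) q ≤ 4 D`; `y, y'` are in `cl (4 H δ / D) q` (`mem_pt`).

`card_S_le`: let `N > 0`, `B ≥ 30 H²`, `B ≥ 40 H N δ`, `B < 2 ^ k`.  `#S = #diagonal + #So`; the diagonal part is at
most `1`, or at most `#P` if `‖y - y'‖ ≤ δ / H` (`diag_close`).  `#So ≤ 1`, or the first case, or the second case of
`pair_lemma`; in the second case `#So ≤ 1 + 4 D / q ≤ 5 D / q`.  Let `J₀ = 4 H N δ / D` and let `j` be the least natural
number with `max 1 J₀ ≤ 2 ^ j`, so `2 ^ j ≤ 2 max 1 J₀`.  Then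
`#So q 2^j ≤ 5 D * 2 max 1 J₀ = 10 max D (4 H N δ) ≤ B`, in particular `q 2 ^ j ≤ B`, `q ≤ B`, `2 ^ j ≤ B < 2 ^ k`, `j < k`, and
`4 H δ / D = J₀ / N ≤ 2 ^ j / N`, so `y, y' ∈ cl (2 ^ j / N) q` and the `(q, j)` term of the sum is at least `#So`.
-/

namespace Pool.Agent.Helper25.MOB

theorem pair_lemma {H : ℕ} (hH : 4 ≤ H) {δ : ℝ} (hδ : 0 ≤ δ) (h : 20 * (H : ℝ) ^ 2 * δ < 1)
    (y y' : UnitAddCircle) (h2 : 2 ≤ (So H δ y y').card) :
    (So H δ y y').card ≤ 4 + 2 * om H δ y + 2 * om H δ y' ∨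
    ∃ D q : ℕ, 0 < q ∧ q ∣ D ∧ 0 < D ∧ D < 3 * H ^ 2 ∧ y ∈ cl (4 * H * δ / D) q ∧
      y' ∈ cl (4 * H * δ / D) q ∧ (((So H δ y y').card : ℝ) - 1) * q ≤ 4 * D := by
  have hH1 : 1 ≤ H := by omega
  have hne : (So H δ y y').Nonempty := by
    rw [← Finset.card_pos]
    omega
  have hpos : ∀ v ∈ So H δ y y', 0 < v.1 := by
    intro v hv
    rw [mem_So] at hv
    exact (mem_primesIn.1 hv.1.1.1).2.pos
  obtain ⟨a, ha, b, hb, hext⟩ := exists_extreme _ hne hpos
  have ha' := mem_So.1 ha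
  have hb' := mem_So.1 hb
  have pa1 := (mem_primesIn.1 ha'.1.1.1).2
  have pa2 := (mem_primesIn.1 ha'.1.1.2).2
  have hD0 : 0 ≤ det2 a b := (hext b hb).1
  have hDne : det2 a b ≠ 0 := by
    by_cases hab : a = b
    · exfalso
      obtain ⟨v, hv, hva⟩ := Finset.exists_mem_ne (by omega : 1 < (So H δ y y').card) a
      have hv' := mem_So.1 hv
      have pv1 := (mem_primesIn.1 hv'.1.1.1).2
      have pv2 := (mem_primesIn.1 hv'.1.1.2).2
      have h1 := (hext v hv).1
      have h2 := (hext v hv).2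
      rw [← hab] at h2
      have h3 : det2 v a = -det2 a v := by
        unfold det2
        ring
      have h4 : det2 a v = 0 := by omega
      exact det2_ne_zero pa1 pa2 pv1 pv2 ha'.2 (Ne.symm hva) h4
    · exact det2_ne_zero pa1 pa2 (mem_primesIn.1 hb'.1.1.1).2 (mem_primesIn.1 hb'.1.1.2).2 ha'.2 hab
  obtain ⟨D, hD⟩ : ∃ D : ℕ, det2 a b = D := ⟨(det2 a b).toNat, (Int.toNat_of_nonneg hD0).symm⟩
  have hDpos : 0 < D := by omega
  have hD3 : D < 3 * H ^ 2 := by
    have h1 := det2_lt ha'.1.1.1 ha'.1.1.2 hb'.1.1.1 hb'.1.1.2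
    rw [hD, Nat.abs_cast] at h1
    exact_mod_cast h1
  obtain ⟨α, α', hα, hα', hyα, hyα', hall⟩ := two_pairs hH1 hδ h y y' ha hb hDpos hD
  have hallo : ∀ v ∈ So H δ y y', v.1 • α = v.2 • α' := by
    intro v hv
    exact hall v (Finset.mem_filter.1 hv).1
  by_cases hord : addOrderOf α = addOrderOf α'
  · right
    have hq : 0 < addOrderOf α := addOrderOf_pos_iff.2 (isOfFinAddOrder_iff_nsmul_eq_zero.2 ⟨D, hDpos, hα⟩)
    refine ⟨D, addOrderOf α, hq, addOrderOf_dvd_of_nsmul_eq_zero hα, hDpos, hD3,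
      ⟨α, (mem_pt hq α).2 rfl, hyα⟩, ⟨α', (mem_pt hq α').2 hord.symm, hyα'⟩, ?_⟩
    have h1 := slope_count hH1 (So H δ y y') (fun v hv => by
      have := mem_So.1 hv
      exact ⟨this.1.1.1, this.1.1.2, this.2⟩) hq
      (fun v hv w hw => same_order hq rfl hord.symm (hallo v hv) (hallo w hw)) ha hb hext
    rw [hD] at h1
    exact_mod_cast h1
  · left
    exact diff_order hH hδ y y' hDpos hD3 hα hα' hallo hord

open scoped Classical in
theorem card_S_le {H : ℕ} (hH : 4 ≤ H) {δ : ℝ} (hδ : 0 ≤ δ) (h : 20 * (H : ℝ) ^ 2 * δ < 1)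
    {N : ℝ} (hN : 0 < N) {B k : ℕ} (hB1 : 30 * (H : ℝ) ^ 2 ≤ B) (hB2 : 40 * H * N * δ ≤ B)
    (hk : B < 2 ^ k) (y y' : UnitAddCircle) :
    ((S H δ y y').card : ℝ) ≤ 6 + (if ‖y - y'‖ ≤ δ / H then ((primesIn H).card : ℝ) else 0) +
      2 * om H δ y + 2 * om H δ y' +
      ∑ v ∈ (Finset.Icc 1 B ×ˢ Finset.range k).filter (fun v => v.1 * 2 ^ v.2 ≤ B),
        (B : ℝ) / (v.1 * 2 ^ v.2) * ((if y ∈ cl (2 ^ v.2 / N) v.1 then 1 else 0) *
          (if y' ∈ cl (2 ^ v.2 / N) v.1 then 1 else 0)) := by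
  have hH1 : 1 ≤ H := by omega
  have hHr : (0 : ℝ) < H := by exact_mod_cast (by omega : 0 < H)
  -- the sum is nonnegative
  have hterm : ∀ v : ℕ × ℕ, (0 : ℝ) ≤ (B : ℝ) / (v.1 * 2 ^ v.2) * ((if y ∈ cl (2 ^ v.2 / N) v.1 then 1 else 0) *
          (if y' ∈ cl (2 ^ v.2 / N) v.1 then 1 else 0)) := by
    intro v
    refine mul_nonneg (by positivity) (mul_nonneg ?_ ?_)
    · split_ifs <;> norm_num
    · split_ifs <;> norm_num
  set TT₀ : ℝ := ∑ v ∈ (Finset.Icc 1 B ×ˢ Finset.range k).filter (fun v => v.1 * 2 ^ v.2 ≤ B),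
        (B : ℝ) / (v.1 * 2 ^ v.2) * ((if y ∈ cl (2 ^ v.2 / N) v.1 then 1 else 0) *
          (if y' ∈ cl (2 ^ v.2 / N) v.1 then 1 else 0)) with hTT
  have hTT0 : 0 ≤ TT₀ := Finset.sum_nonneg fun v _ => hterm v
  set I₀ : ℝ := (if ‖y - y'‖ ≤ δ / H then ((primesIn H).card : ℝ) else 0) with hI
  have hI0 : 0 ≤ I₀ := by
    rw [hI]
    split_ifs
    · exact Nat.cast_nonneg _
    · exact le_rfl
  -- the diagonal
  have hsplit : (S H δ y y').card = ((S H δ y y').filter fun v => v.1 = v.2).card + (So H δ y y').card := by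
    unfold So
    exact (Finset.card_filter_add_card_filter_not (s := S H δ y y') (fun v => v.1 = v.2)).symm
  have hdiag : (((S H δ y y').filter fun v => v.1 = v.2).card : ℝ) ≤ 1 + I₀ := by
    have h1 : ((S H δ y y').filter fun v => v.1 = v.2).card ≤
        ((primesIn H).filter fun p => ‖p • y - p • y'‖ ≤ δ).card := by
      refine Finset.card_le_card_of_injOn (fun v => v.1) ?_ ?_
      · intro v hv
        rw [Finset.mem_coe, Finset.mem_filter, mem_S] at hv
        rw [Finset.mem_coe, Finset.mem_filter]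
        refine ⟨hv.1.1.1, ?_⟩
        have h2 := hv.1.2
        rw [← hv.2] at h2
        exact h2
      · intro v hv w hw hvw
        rw [Finset.mem_coe, Finset.mem_filter] at hv hw
        refine Prod.ext hvw ?_
        rw [← hv.2, ← hw.2]
        exact hvw
    by_cases hc : 2 ≤ ((primesIn H).filter fun p => ‖p • y - p • y'‖ ≤ δ).card
    · have h2 := diag_close hH1 hδ h y y' hc
      have h3 : I₀ = ((primesIn H).card : ℝ) := by
        rw [hI, if_pos h2]
      have h4 : ((primesIn H).filter fun p => ‖p • y - p • y'‖ ≤ δ).card ≤ (primesIn H).card :=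
        Finset.card_filter_le _ _
      have h5 : (((S H δ y y').filter fun v => v.1 = v.2).card : ℝ) ≤ ((primesIn H).card : ℝ) := by
        exact_mod_cast h1.trans h4
      rw [h3]
      linarith
    · have h5 : (((S H δ y y').filter fun v => v.1 = v.2).card : ℝ) ≤ 1 := by
        have : ((S H δ y y').filter fun v => v.1 = v.2).card ≤ 1 := by omega
        exact_mod_cast this
      linarith
  have hcard : ((S H δ y y').card : ℝ) = (((S H δ y y').filter fun v => v.1 = v.2).card : ℝ) +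
      ((So H δ y y').card : ℝ) := by
    rw [hsplit]
    push_cast
    rfl
  have ho1 : (0 : ℝ) ≤ om H δ y := Nat.cast_nonneg _
  have ho2 : (0 : ℝ) ≤ om H δ y' := Nat.cast_nonneg _
  rw [hcard]
  by_cases hc : 2 ≤ (So H δ y y').card
  · rcases pair_lemma hH hδ h y y' hc with h1 | ⟨D, q, hq, hqD, hD, hD3, hy, hy', hcount⟩
    · have h2 : ((So H δ y y').card : ℝ) ≤ 4 + 2 * om H δ y + 2 * om H δ y' := by exact_mod_cast h1
      linarith
    · have hDr : (0 : ℝ) < D := by exact_mod_cast hD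
      have hqr : (0 : ℝ) < q := by exact_mod_cast hq
      have hqDr : (q : ℝ) ≤ D := by exact_mod_cast Nat.le_of_dvd hD hqD
      set M : ℝ := max 1 (4 * H * N * δ / D) with hM
      have hM1 : 1 ≤ M := le_max_left _ _
      have hex : ∃ j : ℕ, M ≤ 2 ^ j := pow_unbounded_of_one_lt M (by norm_num : (1 : ℝ) < 2) |>.imp fun _ => le_of_lt
      obtain ⟨j, hj1, hj2⟩ : ∃ j : ℕ, M ≤ 2 ^ j ∧ (2 : ℝ) ^ j ≤ 2 * M := by
        refine ⟨Nat.find hex, Nat.find_spec hex, ?_⟩
        rcases Nat.eq_zero_or_pos (Nat.find hex) with h0 | h0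
        · rw [h0, pow_zero]
          linarith
        · obtain ⟨i, hi⟩ : ∃ i, Nat.find hex = i + 1 := ⟨Nat.find hex - 1, by omega⟩
          have h1 := Nat.find_min hex (by omega : i < Nat.find hex)
          push Not at h1
          rw [hi, pow_succ]
          linarith
      have hcr : (2 : ℝ) ≤ (So H δ y y').card := by exact_mod_cast hc
      have h5 : ((So H δ y y').card : ℝ) * q ≤ 5 * D := by linarith
      have hDM : 10 * (D * M) ≤ B := by
        rcases le_total 1 (4 * H * N * δ / D) with h1 | h1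
        · have h2 : M = 4 * H * N * δ / D := max_eq_right h1
          rw [h2, mul_div_cancel₀ _ hDr.ne']
          linarith
        · have h2 : M = 1 := max_eq_left h1
          have h3 : (D : ℝ) < 3 * (H : ℝ) ^ 2 := by exact_mod_cast hD3
          rw [h2]
          linarith
      have hbig : ((So H δ y y').card : ℝ) * (q * 2 ^ j) ≤ B := by
        calc ((So H δ y y').card : ℝ) * (q * 2 ^ j) = ((So H δ y y').card : ℝ) * q * 2 ^ j := by ring
          _ ≤ 5 * D * (2 * M) := mul_le_mul h5 hj2 (by positivity) (by positivity)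
          _ = 10 * (D * M) := by ring
          _ ≤ B := hDM
      have hqj : (q : ℝ) * 2 ^ j ≤ B := by
        have h6 : 0 ≤ (q : ℝ) * 2 ^ j := by positivity
        nlinarith
      have hqjn : q * 2 ^ j ≤ B := by exact_mod_cast hqj
      have hqB : q ≤ B := le_trans (Nat.le_mul_of_pos_right q (by positivity)) hqjn
      have hjk : j < k := by
        have h6 : 2 ^ j ≤ B := le_trans (Nat.le_mul_of_pos_left _ hq) hqjn
        exact (Nat.pow_lt_pow_iff_right (by norm_num : 1 < 2)).1 (lt_of_le_of_lt h6 hk)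
      have hcl : 4 * H * δ / D ≤ 2 ^ j / N := by
        rw [le_div_iff₀ hN]
        calc 4 * H * δ / D * N = 4 * H * N * δ / D := by ring
          _ ≤ M := le_max_right _ _
          _ ≤ 2 ^ j := hj1
      have hyj : y ∈ cl (2 ^ j / N) q := by
        obtain ⟨a, ha1, ha2⟩ := hy
        exact ⟨a, ha1, ha2.trans hcl⟩
      have hyj' : y' ∈ cl (2 ^ j / N) q := by
        obtain ⟨a, ha1, ha2⟩ := hy'
        exact ⟨a, ha1, ha2.trans hcl⟩
      have hmem : (q, j) ∈ (Finset.Icc 1 B ×ˢ Finset.range k).filter (fun v => v.1 * 2 ^ v.2 ≤ B) := by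
        rw [Finset.mem_filter, Finset.mem_product, Finset.mem_Icc, Finset.mem_range]
        exact ⟨⟨⟨hq, hqB⟩, hjk⟩, hqjn⟩
      have hsingle := Finset.single_le_sum (f := fun v : ℕ × ℕ => (B : ℝ) / (v.1 * 2 ^ v.2) *
        ((if y ∈ cl (2 ^ v.2 / N) v.1 then 1 else 0) * (if y' ∈ cl (2 ^ v.2 / N) v.1 then 1 else 0)))
        (fun v _ => hterm v) hmem
      have h7 : ((So H δ y y').card : ℝ) ≤ (B : ℝ) / (q * 2 ^ j) *
        ((if y ∈ cl (2 ^ j / N) q then 1 else 0) * (if y' ∈ cl (2 ^ j / N) q then 1 else 0)) := by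
        rw [if_pos hyj, if_pos hyj', mul_one, mul_one, le_div_iff₀ (by positivity)]
        exact hbig
      have h8 : ((So H δ y y').card : ℝ) ≤ TT₀ := h7.trans hsingle
      linarith
  · have h1 : ((So H δ y y').card : ℝ) ≤ 1 := by
      have : (So H δ y y').card ≤ 1 := by omega
      exact_mod_cast this
    linarith

end Pool.Agent.Helper25.MOB
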