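import Mathlib

/-!
Project MOB: the L1 norm of the Moebius exponential sum.

Basic definitions.  Everything lives on the unit circle `UnitAddCircle = ℝ/ℤ` with its
probability measure `volume`; `‖x‖` is the distance of `x` to `0`.
-/

namespace Pool.Agent.Helper25.MOB

open MeasureTheory

instance instProbCircle : IsProbabilityMeasure (volume : Measure UnitAddCircle) :=
  ⟨UnitAddCircle.measure_univ⟩

/-- `ex n y = e(n y)`, the character of frequency `n`. -/
noncomputable def ex (n : ℤ) (y : UnitAddCircle) : ℂ := fourier n y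

/-- `F N y = ∑_{n = 1}^N μ(n) e(n y)`. -/
noncomputable def F (N : ℕ) (y : UnitAddCircle) : ℂ :=
  ∑ n ∈ Finset.Icc 1 N, ((ArithmeticFunction.moebius n : ℤ) : ℂ) * ex n y

/-- The primes in `[H, 2H)`. -/
def primesIn (H : ℕ) : Finset ℕ := (Finset.Ico H (2 * H)).filter Nat.Prime

/-- `G H M y = - ∑_{m ≤ M} ∑_{h ∈ primesIn H} μ(m) e(h m y)`. -/
noncomputable def G (H M : ℕ) (y : UnitAddCircle) : ℂ :=
  -∑ m ∈ Finset.Icc 1 M, ∑ h ∈ primesIn H,
    ((ArithmeticFunction.moebius m : ℤ) : ℂ) * ex ((h * m : ℕ) : ℤ) y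

/-- The pairs `(h, h')` of primes in `[H, 2H)` with `‖h y - h' y'‖ ≤ δ`. -/
noncomputable def S (H : ℕ) (δ : ℝ) (y y' : UnitAddCircle) : Finset (ℕ × ℕ) :=
  open scoped Classical in
  (primesIn H ×ˢ primesIn H).filter fun v => ‖v.1 • y - v.2 • y'‖ ≤ δ

/-- The off-diagonal pairs of `S`. -/
noncomputable def So (H : ℕ) (δ : ℝ) (y y' : UnitAddCircle) : Finset (ℕ × ℕ) :=
  (S H δ y y').filter fun v => v.1 ≠ v.2

/-- The points of exact (additive) order `s`, that is the reduced fractions `m / s`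
(empty if `s = 0`). -/
noncomputable def pt (s : ℕ) : Finset UnitAddCircle :=
  open scoped Classical in
  ((Finset.range s).filter fun m => m.gcd s = 1).image
    fun m => (((m : ℝ) / (s : ℝ) : ℝ) : UnitAddCircle)

/-- The points within `t` of a point of exact order `q` (the arcs of denominator `q`). -/
def cl (t : ℝ) (q : ℕ) : Set UnitAddCircle := {z | ∃ a ∈ pt q, ‖z - a‖ ≤ t}

/-- The number of `1 ≤ d ≤ H` with `‖d y‖ ≤ 2 δ`. -/
noncomputable def om (H : ℕ) (δ : ℝ) (y : UnitAddCircle) : ℕ :=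
  open scoped Classical in
  ((Finset.Icc 1 H).filter fun d => ‖d • y‖ ≤ 2 * δ).card

/-- The points whose order lies in the finite set `D`. -/
noncomputable def pts (D : Finset ℕ) : Finset UnitAddCircle :=
  open scoped Classical in D.biUnion pt

/-- The number of points `r` whose order lies in `D`, with `‖z - r‖ ≤ t`. -/
noncomputable def Mc (D : Finset ℕ) (t : ℝ) (z : UnitAddCircle) : ℕ :=
  open scoped Classical in ((pts D).filter fun r => ‖z - r‖ ≤ t).card

/-- The denominators `q p`, `q ∈ Qs`, `p ∈ Zs`, `p ∤ q`. -/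
def D1 (Qs Zs : Finset ℕ) : Finset ℕ :=
  ((Qs ×ˢ Zs).filter fun v => ¬ v.2 ∣ v.1).image fun v => v.1 * v.2

/-- The denominators `q p ^ 2`, `q ∈ Qs`, `p ∈ Zs`, `p ∤ q`. -/
def D2 (Qs Zs : Finset ℕ) : Finset ℕ :=
  ((Qs ×ˢ Zs).filter fun v => ¬ v.2 ∣ v.1).image fun v => v.1 * v.2 ^ 2

end Pool.Agent.Helper25.MOB
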