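import Pool.Agent.Helper25.MOB.Defs

/-!
Block MOB-E1.  The rich classes (abstract).

Let `ρ = volume.real R > 0`, `ν q = volume.real (R ∩ C q)`.
Hypotheses: `ν q ≤ 4 x`, overlaps `volume (C q ∩ C q') ≤ 32 x²` for `q ≠ q'`, every point is in at
most `Δ` of the sets, `κ ρ x ≤ ∑ ν q ²`, `16 √ρ Δ ≤ κ ≤ 1`.

Proof.
1. Poor `q`: `ν q ≤ 8 √ρ x`.  `∑_poor ν² ≤ 8 √ρ x ∑_q ν q ≤ 8 √ρ x Δ ρ ≤ κ ρ x / 2` (as `∑_q ν q = ∫_R #{q : y ∈ C q} ≤ Δ ρ`).
   So `∑_rich ν² ≥ κ ρ x / 2`.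
2. For any set `T` of indices, `(∑_T ν)² ≤ vol(R ∩ ⋃_T C q) (∑_T ν + (#T)² 32 x²)`: Cauchy-Schwarz for
   `∑_T ν = ∫_{R ∩ ⋃ C q} ∑_T 1_{C q}` and expansion of the square.
3. `s = ∑_rich ν ≤ 2 ρ`: `#rich 8 √ρ x ≤ s`, so `(#rich)² 32 x² ≤ s² / (2 ρ)` and, by 2,
   `s² ≤ ρ (s + s² / (2ρ))`, so `s ≤ 2 ρ`.
4. `Qs = {q rich : ν q ≥ κ x / 16}`.  The rich `q` not in `Qs` contribute at most `(κ x / 16) s ≤ κ ρ x / 8`
   to `∑ ν²`, so `∑_Qs ν² ≥ (3/8) κ ρ x` and `∑_Qs ν ≥ (3/32) κ ρ`.  `#Qs κ x / 16 ≤ s ≤ 2 ρ`.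
5. By 2, `(3/32)² κ² ρ² ≤ ρ₃ (s + s² / (2 ρ)) ≤ 4 ρ ρ₃`, `ρ₃ = vol(R ∩ ⋃_Qs C q)`; so `ρ₃ ≥ (9/4096) κ² ρ`.
-/

namespace Pool.Agent.Helper25.MOB

open MeasureTheory

/-- The square of the integral of a bounded nonnegative function supported in `E`. -/
private theorem sqint24 (E : Set UnitAddCircle) (hE : MeasurableSet E) {g : UnitAddCircle → ℝ}
    (hg : Measurable g) {B : ℝ} (hgB : ∀ z, g z ≤ B) (hg0 : ∀ z, 0 ≤ g z)
    (hgE : ∀ z, z ∉ E → g z = 0) :
    (∫ z, g z) ^ 2 ≤ volume.real E * ∫ z, g z ^ 2 := by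
  have hB0 : 0 ≤ B := (hg0 0).trans (hgB 0)
  have i1 : Integrable g := by
    refine Integrable.of_bound hg.aestronglyMeasurable B (Filter.Eventually.of_forall fun z => ?_)
    rw [Real.norm_eq_abs, abs_of_nonneg (hg0 z)]
    exact hgB z
  have i2 : Integrable fun z => g z ^ 2 := by
    refine Integrable.of_bound (hg.pow_const 2).aestronglyMeasurable (B ^ 2)
      (Filter.Eventually.of_forall fun z => ?_)
    rw [Real.norm_eq_abs, abs_of_nonneg (sq_nonneg _)]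
    exact pow_le_pow_left₀ (hg0 z) (hgB z) 2
  have i3 : Integrable (E.indicator (fun _ => (1 : ℝ)) : UnitAddCircle → ℝ) :=
    (integrable_const 1).indicator hE
  have e3 : ∫ z, E.indicator (fun _ => (1 : ℝ)) z = volume.real E := by
    rw [integral_indicator hE]
    simp
  -- for every `t`, `0 ≤ ∫ (g - t 1_E)^2`
  have key : ∀ t : ℝ, 0 ≤ (∫ z, g z ^ 2) - 2 * t * (∫ z, g z) + t ^ 2 * volume.real E := by
    intro t
    have h0 : 0 ≤ ∫ z, (g z - t * E.indicator (fun _ => (1 : ℝ)) z) ^ 2 :=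
      integral_nonneg fun z => sq_nonneg _
    have h1 : ∀ z, (g z - t * E.indicator (fun _ => (1 : ℝ)) z) ^ 2 =
        g z ^ 2 - 2 * t * g z + t ^ 2 * E.indicator (fun _ => (1 : ℝ)) z := by
      intro z
      by_cases hz : z ∈ E
      · rw [Set.indicator_of_mem hz]
        ring
      · rw [Set.indicator_of_notMem hz, hgE z hz]
        ring
    rw [integral_congr_ae (Filter.Eventually.of_forall h1)] at h0
    have i5 : Integrable fun z => g z ^ 2 - 2 * t * g z := i2.sub (i1.const_mul (2 * t))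
    rw [integral_add i5 (i3.const_mul (t ^ 2)),
      integral_sub i2 (i1.const_mul (2 * t)), integral_const_mul, integral_const_mul, e3] at h0
    exact h0
  have hE0 : 0 ≤ volume.real E := measureReal_nonneg
  have hg2 : 0 ≤ ∫ z, g z ^ 2 := integral_nonneg fun z => sq_nonneg _
  have hgi : 0 ≤ ∫ z, g z := integral_nonneg hg0
  rcases hE0.eq_or_lt with h | h
  · -- volume zero
    have hk : ∀ t : ℝ, 2 * t * (∫ z, g z) ≤ ∫ z, g z ^ 2 := fun t => by
      have := key t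
      rw [← h] at this
      linarith
    have hz : ∫ z, g z = 0 := by
      by_contra hne
      have hpos : 0 < ∫ z, g z := lt_of_le_of_ne hgi (Ne.symm hne)
      have h2 := hk (((∫ z, g z ^ 2) + 1) / (2 * ∫ z, g z))
      have h3 : 2 * (((∫ z, g z ^ 2) + 1) / (2 * ∫ z, g z)) * (∫ z, g z) =
          (∫ z, g z ^ 2) + 1 := by
        field_simp
      rw [h3] at h2
      linarith
    rw [hz, ← h]
    simp
  · have h2 := key ((∫ z, g z) / volume.real E)
    have h3 : (∫ z, g z ^ 2) - 2 * ((∫ z, g z) / volume.real E) * (∫ z, g z) +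
        ((∫ z, g z) / volume.real E) ^ 2 * volume.real E =
        (∫ z, g z ^ 2) - (∫ z, g z) ^ 2 / volume.real E := by
      field_simp
      ring
    rw [h3, sub_nonneg, div_le_iff₀ h] at h2
    linarith

private theorem ind24 (A : Set UnitAddCircle) (hA : MeasurableSet A) :
    Integrable (A.indicator (fun _ => (1 : ℝ)) : UnitAddCircle → ℝ) :=
  (integrable_const 1).indicator hA

private theorem intind24 (A : Set UnitAddCircle) (hA : MeasurableSet A) :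
    ∫ z, A.indicator (fun _ => (1 : ℝ)) z = volume.real A := by
  rw [integral_indicator hA]
  simp

/-- Cauchy-Schwarz for the sum of the masses. -/
private theorem csum24 (R : Set UnitAddCircle) (hR : MeasurableSet R) (T : Finset ℕ)
    (C : ℕ → Set UnitAddCircle) (hC : ∀ q ∈ T, MeasurableSet (C q)) {x : ℝ}
    (hov : ∀ q ∈ T, ∀ q' ∈ T, q ≠ q' → volume.real (C q ∩ C q') ≤ 32 * x ^ 2) :
    (∑ q ∈ T, volume.real (R ∩ C q)) ^ 2 ≤ volume.real (R ∩ ⋃ q ∈ T, C q) *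
      (∑ q ∈ T, volume.real (R ∩ C q) + (T.card : ℝ) ^ 2 * (32 * x ^ 2)) := by
  classical
  have hRC : ∀ q ∈ T, MeasurableSet (R ∩ C q) := fun q hq => hR.inter (hC q hq)
  obtain ⟨g, hg⟩ : ∃ g : UnitAddCircle → ℝ, ∀ z, g z =
      ∑ q ∈ T, (R ∩ C q).indicator (fun _ => (1 : ℝ)) z := ⟨_, fun _ => rfl⟩
  have hge : g = fun z => ∑ q ∈ T, (R ∩ C q).indicator (fun _ => (1 : ℝ)) z := funext hg
  have hEm : MeasurableSet (R ∩ ⋃ q ∈ T, C q) :=
    hR.inter (Finset.measurableSet_biUnion T hC)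
  have hgm : Measurable g := by
    rw [hge]
    exact Finset.measurable_sum _ fun q hq => measurable_const.indicator (hRC q hq)
  have hg0 : ∀ z, 0 ≤ g z := fun z => by
    rw [hg]
    exact Finset.sum_nonneg fun q _ => Set.indicator_nonneg (fun _ _ => zero_le_one) z
  have hgB : ∀ z, g z ≤ T.card := fun z => by
    rw [hg]
    calc ∑ q ∈ T, (R ∩ C q).indicator (fun _ => (1 : ℝ)) z ≤ ∑ _q ∈ T, (1 : ℝ) :=
          Finset.sum_le_sum fun q _ => Set.indicator_le_self' (fun _ _ => zero_le_one) z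
      _ = T.card := by simp
  have hgE : ∀ z, z ∉ R ∩ ⋃ q ∈ T, C q → g z = 0 := fun z hz => by
    rw [hg]
    refine Finset.sum_eq_zero fun q hq => Set.indicator_of_notMem (fun h => hz ?_) _
    exact ⟨h.1, Set.mem_biUnion (show q ∈ (T : Set ℕ) from hq) h.2⟩
  have h := sqint24 _ hEm hgm hgB hg0 hgE
  have e1 : ∫ z, g z = ∑ q ∈ T, volume.real (R ∩ C q) := by
    rw [hge, integral_finsetSum _ fun q hq => ind24 _ (hRC q hq)]
    exact Finset.sum_congr rfl fun q hq => intind24 _ (hRC q hq)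
  have e2 : ∫ z, g z ^ 2 = ∑ q ∈ T, ∑ q' ∈ T, volume.real ((R ∩ C q) ∩ (R ∩ C q')) := by
    have e3 : ∀ z, g z ^ 2 = ∑ q ∈ T, ∑ q' ∈ T,
        ((R ∩ C q) ∩ (R ∩ C q')).indicator (fun _ => (1 : ℝ)) z := by
      intro z
      rw [hg, sq, Finset.sum_mul_sum]
      refine Finset.sum_congr rfl fun q _ => Finset.sum_congr rfl fun q' _ => ?_
      by_cases h1 : z ∈ R ∩ C q
      · by_cases h2 : z ∈ R ∩ C q'
        · rw [Set.indicator_of_mem h1, Set.indicator_of_mem h2,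
            Set.indicator_of_mem (show z ∈ (R ∩ C q) ∩ (R ∩ C q') from ⟨h1, h2⟩), one_mul]
        · rw [Set.indicator_of_notMem h2,
            Set.indicator_of_notMem (show z ∉ (R ∩ C q) ∩ (R ∩ C q') from fun h3 => h2 h3.2),
            mul_zero]
      · rw [Set.indicator_of_notMem h1,
          Set.indicator_of_notMem (show z ∉ (R ∩ C q) ∩ (R ∩ C q') from fun h3 => h1 h3.1),
          zero_mul]
    rw [integral_congr_ae (Filter.Eventually.of_forall e3),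
      integral_finsetSum _ fun q hq => integrable_finsetSum _ fun q' hq' =>
        ind24 _ ((hRC q hq).inter (hRC q' hq'))]
    refine Finset.sum_congr rfl fun q hq => ?_
    rw [integral_finsetSum _ fun q' hq' => ind24 _ ((hRC q hq).inter (hRC q' hq'))]
    exact Finset.sum_congr rfl fun q' hq' => intind24 _ ((hRC q hq).inter (hRC q' hq'))
  have e4 : ∀ q ∈ T, ∀ q' ∈ T, volume.real ((R ∩ C q) ∩ (R ∩ C q')) ≤
      (if q = q' then volume.real (R ∩ C q) else 0) + 32 * x ^ 2 := by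
    intro q hq q' hq'
    have hx : 0 ≤ 32 * x ^ 2 := by positivity
    by_cases hqq : q = q'
    · rw [if_pos hqq]
      have : volume.real ((R ∩ C q) ∩ (R ∩ C q')) ≤ volume.real (R ∩ C q) :=
        measureReal_mono Set.inter_subset_left
      linarith
    · rw [if_neg hqq, zero_add]
      refine (measureReal_mono ?_).trans (hov q hq q' hq' hqq)
      exact fun z hz => ⟨hz.1.2, hz.2.2⟩
  have e5 : ∫ z, g z ^ 2 ≤ ∑ q ∈ T, volume.real (R ∩ C q) + (T.card : ℝ) ^ 2 * (32 * x ^ 2) := by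
    rw [e2]
    calc ∑ q ∈ T, ∑ q' ∈ T, volume.real ((R ∩ C q) ∩ (R ∩ C q')) ≤
          ∑ q ∈ T, ∑ q' ∈ T, ((if q = q' then volume.real (R ∩ C q) else 0) + 32 * x ^ 2) :=
          Finset.sum_le_sum fun q hq => Finset.sum_le_sum fun q' hq' => e4 q hq q' hq'
      _ = ∑ q ∈ T, (volume.real (R ∩ C q) + T.card * (32 * x ^ 2)) := by
          refine Finset.sum_congr rfl fun q hq => ?_
          rw [Finset.sum_add_distrib, Finset.sum_ite_eq, if_pos hq, Finset.sum_const,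
            nsmul_eq_mul]
      _ = ∑ q ∈ T, volume.real (R ∩ C q) + (T.card : ℝ) ^ 2 * (32 * x ^ 2) := by
          rw [Finset.sum_add_distrib, Finset.sum_const, nsmul_eq_mul]
          ring
  rw [e1] at h
  exact h.trans (mul_le_mul_of_nonneg_left e5 measureReal_nonneg)

private theorem mass24 (R : Set UnitAddCircle) (hR : MeasurableSet R) (I : Finset ℕ)
    (C : ℕ → Set UnitAddCircle) (hC : ∀ q ∈ I, MeasurableSet (C q)) {Δ : ℝ}
    (hmult : ∀ y, (∑ q ∈ I, (C q).indicator (fun _ => (1 : ℝ)) y) ≤ Δ) :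
    ∑ q ∈ I, volume.real (R ∩ C q) ≤ Δ * volume.real R := by
  have hRC : ∀ q ∈ I, MeasurableSet (R ∩ C q) := fun q hq => hR.inter (hC q hq)
  have e1 : ∑ q ∈ I, volume.real (R ∩ C q) =
      ∫ z, ∑ q ∈ I, (R ∩ C q).indicator (fun _ => (1 : ℝ)) z := by
    rw [integral_finsetSum _ fun q hq => ind24 _ (hRC q hq)]
    exact Finset.sum_congr rfl fun q hq => (intind24 _ (hRC q hq)).symm
  have e2 : Δ * volume.real R = ∫ z, Δ * R.indicator (fun _ => (1 : ℝ)) z := by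
    rw [integral_const_mul, intind24 R hR]
  rw [e1, e2]
  refine integral_mono (integrable_finsetSum _ fun q hq => ind24 _ (hRC q hq))
    ((ind24 R hR).const_mul Δ) fun z => ?_
  show ∑ q ∈ I, (R ∩ C q).indicator (fun _ => (1 : ℝ)) z ≤ Δ * R.indicator (fun _ => (1 : ℝ)) z
  by_cases hz : z ∈ R
  · rw [Set.indicator_of_mem hz, mul_one]
    refine le_trans (le_of_eq (Finset.sum_congr rfl fun q _ => ?_)) (hmult z)
    by_cases hq : z ∈ C q
    · rw [Set.indicator_of_mem hq, Set.indicator_of_mem (show z ∈ R ∩ C q from ⟨hz, hq⟩)]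
    · rw [Set.indicator_of_notMem hq,
        Set.indicator_of_notMem (show z ∉ R ∩ C q from fun h => hq h.2)]
  · rw [Set.indicator_of_notMem hz, mul_zero]
    refine le_of_eq (Finset.sum_eq_zero fun q _ => ?_)
    exact Set.indicator_of_notMem (fun h => hz h.1) _

open scoped Classical in
theorem exists_rich (R : Set UnitAddCircle) (hR : MeasurableSet R) (I : Finset ℕ)
    (C : ℕ → Set UnitAddCircle) (hC : ∀ q ∈ I, MeasurableSet (C q)) {x κ Δ : ℝ} (hx : 0 < x)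
    (hκ : 0 < κ) (hκ1 : κ ≤ 1) (hρ : 0 < volume.real R)
    (hvol : ∀ q ∈ I, volume.real (C q) ≤ 4 * x)
    (hov : ∀ q ∈ I, ∀ q' ∈ I, q ≠ q' → volume.real (C q ∩ C q') ≤ 32 * x ^ 2)
    (hmult : ∀ y, ((I.filter fun q => y ∈ C q).card : ℝ) ≤ Δ)
    (hsum : κ * volume.real R * x ≤ ∑ q ∈ I, (volume.real (R ∩ C q)) ^ 2)
    (hΔ : 16 * √(volume.real R) * Δ ≤ κ) :
    ∃ Qs ⊆ I, (Qs.card : ℝ) * x ≤ 32 / κ * volume.real R ∧
      κ ^ 2 * volume.real R / 1000 ≤ volume.real (R ∩ ⋃ q ∈ Qs, C q) := by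
  obtain ⟨ρ, hρd⟩ : ∃ ρ, ρ = volume.real R := ⟨_, rfl⟩
  rw [← hρd] at hρ hsum hΔ
  rw [← hρd]
  obtain ⟨ν, hν⟩ : ∃ ν : ℕ → ℝ, ∀ q, ν q = volume.real (R ∩ C q) := ⟨_, fun _ => rfl⟩
  have hν0 : ∀ q, 0 ≤ ν q := fun q => by
    rw [hν]
    exact measureReal_nonneg
  have hν4 : ∀ q ∈ I, ν q ≤ 4 * x := fun q hq => by
    rw [hν]
    exact (measureReal_mono Set.inter_subset_right).trans (hvol q hq)
  have hsq : √ρ ^ 2 = ρ := Real.sq_sqrt hρ.le
  have hsq0 : 0 < √ρ := Real.sqrt_pos.2 hρ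
  have hsum' : κ * ρ * x ≤ ∑ q ∈ I, ν q ^ 2 := by
    refine hsum.trans (le_of_eq (Finset.sum_congr rfl fun q _ => ?_))
    rw [hν]
  have hmass : ∑ q ∈ I, ν q ≤ Δ * ρ := by
    have h := mass24 R hR I C hC (Δ := Δ) (fun y => by
      refine le_trans (le_of_eq ?_) (hmult y)
      rw [Finset.card_filter]
      push_cast
      refine Finset.sum_congr rfl fun q _ => ?_
      by_cases hq : y ∈ C q
      · rw [Set.indicator_of_mem hq, if_pos hq]
      · rw [Set.indicator_of_notMem hq, if_neg hq])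
    rw [← hρd] at h
    refine le_trans (le_of_eq (Finset.sum_congr rfl fun q _ => ?_)) h
    rw [hν]
  -- the rich classes
  obtain ⟨Ri, hRi⟩ : ∃ Ri : Finset ℕ, Ri = I.filter fun q => 8 * √ρ * x < ν q := ⟨_, rfl⟩
  obtain ⟨Qs, hQs⟩ : ∃ Qs : Finset ℕ, Qs = Ri.filter fun q => κ * x / 16 ≤ ν q := ⟨_, rfl⟩
  have hRiI : Ri ⊆ I := by
    rw [hRi]
    exact Finset.filter_subset _ _
  have hQsR : Qs ⊆ Ri := by
    rw [hQs]
    exact Finset.filter_subset _ _
  have hcs : ∀ T ⊆ I, (∑ q ∈ T, ν q) ^ 2 ≤ volume.real (R ∩ ⋃ q ∈ T, C q) *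
      (∑ q ∈ T, ν q + (T.card : ℝ) ^ 2 * (32 * x ^ 2)) := by
    intro T hT
    have h := csum24 R hR T C (fun q hq => hC q (hT hq)) (x := x)
      (fun q hq q' hq' => hov q (hT hq) q' (hT hq'))
    simpa only [hν] using h
  -- the poor classes
  have hpoor : ∑ q ∈ I.filter (fun q => ¬ 8 * √ρ * x < ν q), ν q ^ 2 ≤ κ * ρ * x / 2 := by
    calc ∑ q ∈ I.filter (fun q => ¬ 8 * √ρ * x < ν q), ν q ^ 2 ≤
          ∑ q ∈ I.filter (fun q => ¬ 8 * √ρ * x < ν q), 8 * √ρ * x * ν q := by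
          refine Finset.sum_le_sum fun q hq => ?_
          have h1 := not_lt.1 (Finset.mem_filter.1 hq).2
          rw [sq]
          exact mul_le_mul_of_nonneg_right h1 (hν0 q)
      _ = 8 * √ρ * x * ∑ q ∈ I.filter (fun q => ¬ 8 * √ρ * x < ν q), ν q := by
          rw [Finset.mul_sum]
      _ ≤ 8 * √ρ * x * (Δ * ρ) := by
          refine mul_le_mul_of_nonneg_left ?_ (by positivity)
          exact (Finset.sum_le_sum_of_subset_of_nonneg (Finset.filter_subset _ _)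
            fun q _ _ => hν0 q).trans hmass
      _ = (16 * √ρ * Δ) * (ρ * x) / 2 := by ring
      _ ≤ κ * (ρ * x) / 2 := by
          have := mul_le_mul_of_nonneg_right hΔ (mul_pos hρ hx).le
          linarith
      _ = κ * ρ * x / 2 := by ring
  have hrich : κ * ρ * x / 2 ≤ ∑ q ∈ Ri, ν q ^ 2 := by
    have h := Finset.sum_filter_add_sum_filter_not I (fun q => 8 * √ρ * x < ν q)
      (fun q => ν q ^ 2)
    rw [← hRi] at h
    linarith
  -- the total mass of the rich classes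
  obtain ⟨s, hs⟩ : ∃ s, s = ∑ q ∈ Ri, ν q := ⟨_, rfl⟩
  have hs0 : 0 ≤ s := by
    rw [hs]
    exact Finset.sum_nonneg fun q _ => hν0 q
  have hcard : (Ri.card : ℝ) * (8 * √ρ * x) ≤ s := by
    rw [hs, ← nsmul_eq_mul, ← Finset.sum_const]
    refine Finset.sum_le_sum fun q hq => ?_
    rw [hRi] at hq
    exact (Finset.mem_filter.1 hq).2.le
  have hcard2 : (Ri.card : ℝ) ^ 2 * (32 * x ^ 2) ≤ s ^ 2 / (2 * ρ) := by
    rw [le_div_iff₀ (by positivity)]
    have h1 : ((Ri.card : ℝ) * (8 * √ρ * x)) ^ 2 ≤ s ^ 2 :=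
      pow_le_pow_left₀ (by positivity) hcard 2
    have h2 : ((Ri.card : ℝ) * (8 * √ρ * x)) ^ 2 =
        (Ri.card : ℝ) ^ 2 * (64 * √ρ ^ 2 * x ^ 2) := by ring
    rw [h2, hsq] at h1
    nlinarith
  have hs2 : s ≤ 2 * ρ := by
    have h1 := hcs Ri hRiI
    rw [← hs] at h1
    have h2 : volume.real (R ∩ ⋃ q ∈ Ri, C q) ≤ ρ := by
      rw [hρd]
      exact measureReal_mono Set.inter_subset_left
    have h3 : s ^ 2 ≤ ρ * (s + s ^ 2 / (2 * ρ)) := by
      refine h1.trans ?_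
      refine mul_le_mul h2 (by linarith) ?_ hρ.le
      positivity
    have h4 : ρ * (s + s ^ 2 / (2 * ρ)) = ρ * s + s ^ 2 / 2 := by
      field_simp
    rw [h4] at h3
    by_contra hcon
    have h5 : 2 * ρ < s := not_le.1 hcon
    nlinarith
  have hss : s ^ 2 / (2 * ρ) ≤ 2 * ρ := by
    rw [div_le_iff₀ (by positivity)]
    nlinarith
  -- the classes in `Qs`
  have hnot : ∑ q ∈ Ri.filter (fun q => ¬ κ * x / 16 ≤ ν q), ν q ^ 2 ≤ κ * ρ * x / 8 := by
    calc ∑ q ∈ Ri.filter (fun q => ¬ κ * x / 16 ≤ ν q), ν q ^ 2 ≤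
          ∑ q ∈ Ri.filter (fun q => ¬ κ * x / 16 ≤ ν q), κ * x / 16 * ν q := by
          refine Finset.sum_le_sum fun q hq => ?_
          have h1 := not_le.1 (Finset.mem_filter.1 hq).2
          rw [sq]
          exact mul_le_mul_of_nonneg_right h1.le (hν0 q)
      _ = κ * x / 16 * ∑ q ∈ Ri.filter (fun q => ¬ κ * x / 16 ≤ ν q), ν q := by
          rw [Finset.mul_sum]
      _ ≤ κ * x / 16 * s := by
          refine mul_le_mul_of_nonneg_left ?_ (by positivity)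
          rw [hs]
          exact Finset.sum_le_sum_of_subset_of_nonneg (Finset.filter_subset _ _)
            fun q _ _ => hν0 q
      _ ≤ κ * x / 16 * (2 * ρ) := mul_le_mul_of_nonneg_left hs2 (by positivity)
      _ = κ * ρ * x / 8 := by ring
  have hQ2 : 3 / 8 * (κ * ρ * x) ≤ ∑ q ∈ Qs, ν q ^ 2 := by
    have h := Finset.sum_filter_add_sum_filter_not Ri (fun q => κ * x / 16 ≤ ν q)
      (fun q => ν q ^ 2)
    rw [← hQs] at h
    linarith
  obtain ⟨t, ht⟩ : ∃ t, t = ∑ q ∈ Qs, ν q := ⟨_, rfl⟩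
  have hts : t ≤ s := by
    rw [ht, hs]
    exact Finset.sum_le_sum_of_subset_of_nonneg hQsR fun q _ _ => hν0 q
  have ht0 : 0 ≤ t := by
    rw [ht]
    exact Finset.sum_nonneg fun q _ => hν0 q
  have htlow : 3 / 32 * (κ * ρ) ≤ t := by
    have h1 : ∑ q ∈ Qs, ν q ^ 2 ≤ 4 * x * t := by
      rw [ht, Finset.mul_sum]
      refine Finset.sum_le_sum fun q hq => ?_
      rw [sq]
      exact mul_le_mul_of_nonneg_right (hν4 q (hRiI (hQsR hq))) (hν0 q)
    have h2 : 3 / 8 * (κ * ρ * x) ≤ 4 * x * t := hQ2.trans h1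
    have h3 : x * (3 / 32 * (κ * ρ)) ≤ x * t := by linarith
    exact le_of_mul_le_mul_left h3 hx
  refine ⟨Qs, hQsR.trans hRiI, ?_, ?_⟩
  · have h1 : (Qs.card : ℝ) * (κ * x / 16) ≤ t := by
      rw [ht, ← nsmul_eq_mul, ← Finset.sum_const]
      refine Finset.sum_le_sum fun q hq => ?_
      rw [hQs] at hq
      exact (Finset.mem_filter.1 hq).2
    have h2 : (Qs.card : ℝ) * (κ * x / 16) ≤ 2 * ρ := h1.trans (hts.trans hs2)
    have h3 : 32 / κ * ρ = (2 * ρ) * (16 / κ) := by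
      field_simp
      ring
    have h4 : (Qs.card : ℝ) * x = (Qs.card : ℝ) * (κ * x / 16) * (16 / κ) := by
      field_simp
    rw [h3, h4]
    exact mul_le_mul_of_nonneg_right h2 (by positivity)
  · have h1 := hcs Qs (hQsR.trans hRiI)
    rw [← ht] at h1
    have h2 : (Qs.card : ℝ) ^ 2 * (32 * x ^ 2) ≤ 2 * ρ := by
      refine le_trans ?_ (hcard2.trans hss)
      refine mul_le_mul_of_nonneg_right ?_ (by positivity)
      refine pow_le_pow_left₀ (by positivity) ?_ 2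
      exact_mod_cast Finset.card_le_card hQsR
    have h3 : t + (Qs.card : ℝ) ^ 2 * (32 * x ^ 2) ≤ 4 * ρ := by linarith
    obtain ⟨r, hr⟩ : ∃ r, r = volume.real (R ∩ ⋃ q ∈ Qs, C q) := ⟨_, rfl⟩
    have hr0 : 0 ≤ r := by
      rw [hr]
      exact measureReal_nonneg
    rw [← hr] at h1
    rw [← hr]
    have h4 : t ^ 2 ≤ r * (4 * ρ) := h1.trans (mul_le_mul_of_nonneg_left h3 hr0)
    have h5 : (3 / 32 * (κ * ρ)) ^ 2 ≤ t ^ 2 := pow_le_pow_left₀ (by positivity) htlow 2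
    have h6 : ρ * (9 / 4096 * (κ ^ 2 * ρ)) ≤ ρ * r := by nlinarith
    have h7 : 9 / 4096 * (κ ^ 2 * ρ) ≤ r := le_of_mul_le_mul_left h6 hρ
    have h8 : 0 ≤ κ ^ 2 * ρ := by positivity
    linarith

end Pool.Agent.Helper25.MOB
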