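import Pool.Agent.Helper25.MOB.Bas
import Pool.Agent.Helper25.MOB.Pt

/-!
Block MOB-F1.  Vanishing of `μ` on the multiples of `p²`.

The points killed by `p²` are `k / p²`, `0 ≤ k < p²`: the point `0`, the points of order `p`, and
the points of order `p²`.  `∑_{k < p²} e(n (y + k / p²)) = e(n y) ∑_k e(n k / p²)` is `p² e(n y)` if
`p² ∣ n` and `0` otherwise (geometric sum).  As `μ(n) = 0` if `p² ∣ n`, the sum of
`F N (y + k / p²)` over `k` is `0`.
-/

namespace Pool.Agent.Helper25.MOB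

open MeasureTheory

open scoped Classical in
theorem mem_tors85 {p : ℕ} (hp : p.Prime) (a : UnitAddCircle) :
    a ∈ insert 0 (pt p ∪ pt (p ^ 2)) ↔ p ^ 2 • a = 0 := by
  rw [← addOrderOf_dvd_iff_nsmul_eq_zero, Nat.dvd_prime_pow hp, Finset.mem_insert,
    Finset.mem_union, mem_pt hp.pos, mem_pt (pow_pos hp.pos 2)]
  constructor
  · rintro (h | h | h)
    · exact ⟨0, by norm_num, by rw [h]; simp⟩
    · exact ⟨1, by norm_num, by rw [h]; simp⟩
    · exact ⟨2, le_rfl, h⟩
  · rintro ⟨k, hk, h⟩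
    interval_cases k
    · left
      rw [pow_zero, AddMonoid.addOrderOf_eq_one_iff] at h
      exact h
    · right; left
      rw [h, pow_one]
    · right; right
      exact h

open scoped Classical in
theorem zero_notMem85 {p : ℕ} (hp : p.Prime) :
    (0 : UnitAddCircle) ∉ pt p ∪ pt (p ^ 2) := by
  rw [Finset.mem_union, mem_pt hp.pos, mem_pt (pow_pos hp.pos 2), addOrderOf_zero]
  rintro (h | h)
  · exact hp.one_lt.ne h
  · have := hp.one_lt
    nlinarith [h]

open scoped Classical in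
theorem sum_ex85 {p : ℕ} (hp : p.Prime) (n : ℕ) (hn : ¬ p ^ 2 ∣ n) :
    ∑ a ∈ insert (0 : UnitAddCircle) (pt p ∪ pt (p ^ 2)), ex n a = 0 := by
  have hp0 : (p : ℝ) ≠ 0 := by exact_mod_cast hp.pos.ne'
  set b : UnitAddCircle := ((1 / (p : ℝ) ^ 2 : ℝ) : UnitAddCircle) with hb
  have hb0 : p ^ 2 • b = 0 := by
    have h1 : p ^ 2 • b = ((p ^ 2 • (1 / (p : ℝ) ^ 2) : ℝ) : UnitAddCircle) := by
      rw [hb]
      rfl
    have h2 : (p ^ 2 • (1 / (p : ℝ) ^ 2) : ℝ) = 1 := by
      rw [nsmul_eq_mul]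
      push_cast
      field_simp
    rw [h1, h2]
    exact AddCircle.coe_period 1
  have hne : ex n b ≠ 1 := by
    rw [hb, ex_coe]
    intro h
    rw [Complex.exp_eq_one_iff] at h
    obtain ⟨m, hm⟩ := h
    have hpC : (p : ℂ) ≠ 0 := by exact_mod_cast hp.pos.ne'
    have h2 : (2 * Real.pi * Complex.I : ℂ) ≠ 0 := Complex.two_pi_I_ne_zero
    have h3 : (n : ℂ) = m * (p : ℂ) ^ 2 := by
      push_cast at hm
      have h4 : (2 * Real.pi * Complex.I : ℂ) * ((n : ℂ) * (1 / (p : ℂ) ^ 2)) =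
          (2 * Real.pi * Complex.I : ℂ) * m := by
        linear_combination hm
      have h5 := mul_left_cancel₀ h2 h4
      field_simp at h5
      linear_combination h5
    have h6 : (n : ℤ) = m * (p : ℤ) ^ 2 := by exact_mod_cast h3
    apply hn
    have h7 : ((p ^ 2 : ℕ) : ℤ) ∣ (n : ℤ) := ⟨m, by rw [h6]; push_cast; ring⟩
    exact_mod_cast h7
  have hS : ex n b * ∑ a ∈ insert (0 : UnitAddCircle) (pt p ∪ pt (p ^ 2)), ex n a =
      ∑ a ∈ insert (0 : UnitAddCircle) (pt p ∪ pt (p ^ 2)), ex n a := by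
    rw [Finset.mul_sum]
    refine Finset.sum_bij (fun a _ => a + b) ?_ ?_ ?_ ?_
    · intro a ha
      rw [mem_tors85 hp] at ha ⊢
      rw [smul_add, ha, hb0, add_zero]
    · intro a _ c _ h
      exact add_right_cancel h
    · intro c hc
      refine ⟨c - b, ?_, by simp⟩
      rw [mem_tors85 hp] at hc ⊢
      rw [smul_sub, hc, hb0, sub_zero]
    · intro a _
      rw [ex_add_arg, mul_comm]
  have h1 : (ex n b - 1) * ∑ a ∈ insert (0 : UnitAddCircle) (pt p ∪ pt (p ^ 2)), ex n a = 0 := by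
    rw [sub_mul, hS, one_mul, sub_self]
  rcases mul_eq_zero.1 h1 with h | h
  · exact absurd (sub_eq_zero.1 h) hne
  · exact h

open scoped Classical in
theorem sum_translates_F (N p : ℕ) (hp : p.Prime) (y : UnitAddCircle) :
    F N y + ∑ a ∈ pt p ∪ pt (p ^ 2), F N (y + a) = 0 := by
  have h0 : F N y + ∑ a ∈ pt p ∪ pt (p ^ 2), F N (y + a) =
      ∑ a ∈ insert (0 : UnitAddCircle) (pt p ∪ pt (p ^ 2)), F N (y + a) := by
    rw [Finset.sum_insert (zero_notMem85 hp), add_zero]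
  rw [h0]
  simp only [F]
  rw [Finset.sum_comm]
  refine Finset.sum_eq_zero fun n _ => ?_
  by_cases hn : p ^ 2 ∣ n
  · have hμ : ArithmeticFunction.moebius n = 0 := by
      apply ArithmeticFunction.moebius_eq_zero_of_not_squarefree
      intro hsq
      have h2 : p * p ∣ n := by rwa [← pow_two]
      exact hp.not_isUnit (hsq p h2)
    simp [hμ]
  · have h1 : ∑ a ∈ insert (0 : UnitAddCircle) (pt p ∪ pt (p ^ 2)),
        ((ArithmeticFunction.moebius n : ℤ) : ℂ) * ex n (y + a) =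
        ((ArithmeticFunction.moebius n : ℤ) : ℂ) * ex n y *
          ∑ a ∈ insert (0 : UnitAddCircle) (pt p ∪ pt (p ^ 2)), ex n a := by
      rw [Finset.mul_sum]
      refine Finset.sum_congr rfl fun a _ => ?_
      rw [ex_add_arg]
      ring
    rw [h1, sum_ex85 hp n hn, mul_zero]

open scoped Classical in
/-- Consequence: `‖F y‖ ≤ ∑_a ‖F (y + a)‖`; integrate over `y ∈ Rp p` and translate
(`∫_{Rp} ‖F (y + a)‖ dy = ∫ ‖F z‖ 1[z - a ∈ Rp] dz`), then sum over `p ∈ Zs`. -/
theorem duality (N : ℕ) (Zs : Finset ℕ) (hZ : ∀ p ∈ Zs, p.Prime) (Rp : ℕ → Set UnitAddCircle)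
    (hR : ∀ p ∈ Zs, MeasurableSet (Rp p)) :
    ∑ p ∈ Zs, ∫ y in Rp p, ‖F N y‖ ≤
      ∫ z, ‖F N z‖ * ∑ p ∈ Zs, ∑ a ∈ pt p ∪ pt (p ^ 2),
        (if z - a ∈ Rp p then (1 : ℝ) else 0) := by
  have hc : Continuous fun z : UnitAddCircle => ‖F N z‖ := (continuous_F N).norm
  have hint : ∀ a : UnitAddCircle, Integrable (fun z => ‖F N (z + a)‖) := fun a =>
    (hc.comp (continuous_add_right a)).integrable_of_hasCompactSupport
      (HasCompactSupport.of_compactSpace _)
  have hint0 : Integrable (fun z : UnitAddCircle => ‖F N z‖) :=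
    hc.integrable_of_hasCompactSupport (HasCompactSupport.of_compactSpace _)
  have hmul : ∀ p ∈ Zs, ∀ a : UnitAddCircle,
      Integrable (fun z => ‖F N z‖ * (if z - a ∈ Rp p then (1 : ℝ) else 0)) := by
    intro p hp a
    have hm : MeasurableSet {z : UnitAddCircle | z - a ∈ Rp p} :=
      (hR p hp).preimage (measurable_id.sub_const a)
    have h1 := hint0.indicator hm
    refine h1.congr (Filter.Eventually.of_forall fun z => ?_)
    by_cases hz : z - a ∈ Rp p
    · simp [Set.indicator, hz]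
    · simp [Set.indicator, hz]
  have key : ∀ p ∈ Zs, ∀ a : UnitAddCircle, ∫ y in Rp p, ‖F N (y + a)‖ =
      ∫ z, ‖F N z‖ * (if z - a ∈ Rp p then (1 : ℝ) else 0) := by
    intro p hp a
    rw [← integral_indicator (hR p hp)]
    rw [← integral_add_right_eq_self
      (fun z => ‖F N z‖ * (if z - a ∈ Rp p then (1 : ℝ) else 0)) a]
    refine integral_congr_ae (Filter.Eventually.of_forall fun y => ?_)
    by_cases hy : y ∈ Rp p
    · simp [Set.indicator, hy]
    · simp [Set.indicator, hy]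
  have hR' : ∫ z, ‖F N z‖ * ∑ p ∈ Zs, ∑ a ∈ pt p ∪ pt (p ^ 2),
        (if z - a ∈ Rp p then (1 : ℝ) else 0) =
      ∑ p ∈ Zs, ∑ a ∈ pt p ∪ pt (p ^ 2),
        ∫ z, ‖F N z‖ * (if z - a ∈ Rp p then (1 : ℝ) else 0) := by
    simp only [Finset.mul_sum]
    rw [integral_finset_sum _ fun p hp => integrable_finset_sum _ fun a _ => hmul p hp a]
    refine Finset.sum_congr rfl fun p hp => ?_
    rw [integral_finset_sum _ fun a _ => hmul p hp a]
  rw [hR']
  refine Finset.sum_le_sum fun p hp => ?_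
  calc ∫ y in Rp p, ‖F N y‖ ≤ ∫ y in Rp p, ∑ a ∈ pt p ∪ pt (p ^ 2), ‖F N (y + a)‖ := by
        refine integral_mono hint0.integrableOn
          (integrable_finset_sum _ fun a _ => (hint a).integrableOn) fun y => ?_
        have h1 := sum_translates_F N p (hZ p hp) y
        have h2 : F N y = -∑ a ∈ pt p ∪ pt (p ^ 2), F N (y + a) :=
          eq_neg_of_add_eq_zero_left h1
        change ‖F N y‖ ≤ ∑ a ∈ pt p ∪ pt (p ^ 2), ‖F N (y + a)‖
        rw [h2, norm_neg]
        exact norm_sum_le _ _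
    _ = ∑ a ∈ pt p ∪ pt (p ^ 2), ∫ y in Rp p, ‖F N (y + a)‖ :=
        integral_finset_sum _ fun a _ => (hint a).integrableOn
    _ = _ := Finset.sum_congr rfl fun a _ => key p hp a

end Pool.Agent.Helper25.MOB
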