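import Pool.Agent.Helper25.MOB.Pt

/-!
Block MOB-F2.  The multiplicity of the translates.

Fix `z`.  If `p ∈ Zs`, `a ∈ pt p ∪ pt (p²)` and `z - a ∈ Rp p` then there are `q ∈ Qs`, `p ∤ q`, and
`b ∈ pt q` with `‖z - a - b‖ ≤ t`.  The point `r = a + b` has order `q p` or `q p²` (coprime orders:
`AddCommute.addOrderOf_add_eq_mul_addOrderOf_of_coprime`), so `r` is one of the points counted by
`Mc (D1 Qs Zs) t z` or `Mc (D2 Qs Zs) t z`.  The map `(p, a) ↦ r` (choose `b`) has fibres of size at most `L`: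
`p` divides the order of `r`, so there are at most `L` possible `p`, and `p` and `r` determine `a`: if
`r = a + b = a' + b'` with `a, a'` killed by `p²` and `b, b'` of orders `q, q'` prime to `p`, then `a - a' = b' - b`
is killed by `p²` and by `q q'`, which are coprime, so it is `0`.
-/

namespace Pool.Agent.Helper25.MOB

theorem h41_order {p q : ℕ} (hp : p.Prime) (hpq : ¬ p ∣ q) {a b : UnitAddCircle}
    (ha : addOrderOf a = p ∨ addOrderOf a = p ^ 2) (hb : addOrderOf b = q) :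
    addOrderOf (a + b) = q * p ∧ addOrderOf a = p ∨
      addOrderOf (a + b) = q * p ^ 2 ∧ addOrderOf a = p ^ 2 := by
  have hco : p.Coprime q := (Nat.Prime.coprime_iff_not_dvd hp).2 hpq
  rcases ha with ha | ha
  · left
    refine ⟨?_, ha⟩
    rw [(AddCommute.all a b).addOrderOf_add_eq_mul_addOrderOf_of_coprime
      (by rw [ha, hb]; exact hco), ha, hb, mul_comm]
  · right
    refine ⟨?_, ha⟩
    rw [(AddCommute.all a b).addOrderOf_add_eq_mul_addOrderOf_of_coprime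
      (by rw [ha, hb]; exact Nat.Coprime.pow_left 2 hco), ha, hb, mul_comm]

theorem h41_unique {p q q' : ℕ} (hp : p.Prime) (hpq : ¬ p ∣ q) (hpq' : ¬ p ∣ q')
    {a a' b b' : UnitAddCircle}
    (ha : addOrderOf a = p ∨ addOrderOf a = p ^ 2) (ha' : addOrderOf a' = p ∨ addOrderOf a' = p ^ 2)
    (hb : addOrderOf b = q) (hb' : addOrderOf b' = q') (h : a + b = a' + b') : a = a' := by
  have hka : ∀ x : UnitAddCircle, (addOrderOf x = p ∨ addOrderOf x = p ^ 2) → (p ^ 2) • x = 0 := by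
    intro x hx
    apply addOrderOf_dvd_iff_nsmul_eq_zero.1
    rcases hx with hx | hx
    · rw [hx]; exact Dvd.intro_left p (by ring)
    · rw [hx]
  have e : a - a' = b' - b := by
    have := h
    rw [sub_eq_sub_iff_add_eq_add, this, add_comm]
  have h1 : (p ^ 2) • (a - a') = 0 := by
    rw [nsmul_sub, hka a ha, hka a' ha', sub_zero]
  have h2 : (q * q') • (a - a') = 0 := by
    rw [e, nsmul_sub]
    have k1 : (q * q') • b' = 0 := by
      rw [mul_nsmul', ← hb', addOrderOf_nsmul_eq_zero, nsmul_zero]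
    have k2 : (q * q') • b = 0 := by
      rw [mul_nsmul, ← hb, addOrderOf_nsmul_eq_zero, nsmul_zero]
    rw [k1, k2, sub_zero]
  have hco : (p ^ 2).Coprime (q * q') :=
    Nat.Coprime.pow_left 2 (Nat.Coprime.mul_right ((Nat.Prime.coprime_iff_not_dvd hp).2 hpq)
      ((Nat.Prime.coprime_iff_not_dvd hp).2 hpq'))
  have h3 : addOrderOf (a - a') ∣ 1 := by
    rw [← Nat.Coprime.gcd_eq_one hco]
    exact Nat.dvd_gcd (addOrderOf_dvd_of_nsmul_eq_zero h1) (addOrderOf_dvd_of_nsmul_eq_zero h2)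
  have h4 : a - a' = 0 := AddMonoid.addOrderOf_eq_one_iff.1 (Nat.dvd_one.1 h3)
  exact sub_eq_zero.1 h4

open scoped Classical in
theorem weight_le (Qs Zs : Finset ℕ) (hZ : ∀ p ∈ Zs, p.Prime) (hQ : 0 ∉ Qs) {t : ℝ}
    {L : ℕ} (hL : ∀ s ∈ D1 Qs Zs ∪ D2 Qs Zs, (Zs.filter fun p => p ∣ s).card ≤ L)
    (Rp : ℕ → Set UnitAddCircle)
    (hRp : ∀ p ∈ Zs, ∀ y ∈ Rp p, ∃ q ∈ Qs, ¬ p ∣ q ∧ y ∈ cl t q) (z : UnitAddCircle) :
    (∑ p ∈ Zs, ∑ a ∈ pt p ∪ pt (p ^ 2), (if z - a ∈ Rp p then (1 : ℝ) else 0)) ≤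
      L * ((Mc (D1 Qs Zs) t z : ℝ) + Mc (D2 Qs Zs) t z) := by
  -- the set of pairs
  let X : Finset (Σ _ : ℕ, UnitAddCircle) :=
    (Zs.sigma fun p => pt p ∪ pt (p ^ 2)).filter fun x => z - x.2 ∈ Rp x.1
  let Y : Finset UnitAddCircle :=
    ((pts (D1 Qs Zs)).filter fun r => ‖z - r‖ ≤ t) ∪ ((pts (D2 Qs Zs)).filter fun r => ‖z - r‖ ≤ t)
  have hX : (∑ p ∈ Zs, ∑ a ∈ pt p ∪ pt (p ^ 2), (if z - a ∈ Rp p then (1 : ℝ) else 0)) =
      (X.card : ℝ) := by
    rw [← Finset.sum_sigma (s := Zs) (t := fun p => pt p ∪ pt (p ^ 2))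
      (f := fun x => if z - x.2 ∈ Rp x.1 then (1 : ℝ) else 0)]
    simp only [X, Finset.card_filter, Nat.cast_sum]
    exact Finset.sum_congr rfl fun x _ => by split_ifs <;> simp
  have key : ∀ x : Σ _ : ℕ, UnitAddCircle, x ∈ X → ∃ q ∈ Qs, ¬ x.1 ∣ q ∧
      ∃ b : UnitAddCircle, addOrderOf b = q ∧ ‖z - x.2 - b‖ ≤ t := by
    intro x hx
    obtain ⟨hx1, hx2⟩ := Finset.mem_filter.1 hx
    obtain ⟨hx3, hx4⟩ := Finset.mem_sigma.1 hx1
    obtain ⟨q, hq, hpq, b, hb, hbt⟩ := hRp x.1 hx3 _ hx2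
    exact ⟨q, hq, hpq, b, (addOrderOf_of_mem_pt hb).1, hbt⟩
  have hxa : ∀ x : Σ _ : ℕ, UnitAddCircle, x ∈ X → x.1 ∈ Zs ∧
      (addOrderOf x.2 = x.1 ∨ addOrderOf x.2 = x.1 ^ 2) := by
    intro x hx
    obtain ⟨hx1, hx2⟩ := Finset.mem_filter.1 hx
    obtain ⟨hx3, hx4⟩ := Finset.mem_sigma.1 hx1
    refine ⟨hx3, ?_⟩
    rcases Finset.mem_union.1 hx4 with h | h
    · exact Or.inl (addOrderOf_of_mem_pt h).1
    · exact Or.inr (addOrderOf_of_mem_pt h).1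
  let f : (Σ _ : ℕ, UnitAddCircle) → UnitAddCircle := fun x =>
    if h : x ∈ X then x.2 + (key x h).choose_spec.2.2.choose else 0
  have hf : ∀ x (h : x ∈ X), ∃ q ∈ Qs, ¬ x.1 ∣ q ∧ ∃ b : UnitAddCircle, addOrderOf b = q ∧
      ‖z - x.2 - b‖ ≤ t ∧ f x = x.2 + b := by
    intro x h
    refine ⟨(key x h).choose, (key x h).choose_spec.1, (key x h).choose_spec.2.1,
      (key x h).choose_spec.2.2.choose, (key x h).choose_spec.2.2.choose_spec.1,
      (key x h).choose_spec.2.2.choose_spec.2, ?_⟩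
    simp only [f]
    rw [dif_pos h]
  have hord : ∀ x (h : x ∈ X), addOrderOf (f x) ∈ D1 Qs Zs ∪ D2 Qs Zs ∧
      x.1 ∣ addOrderOf (f x) ∧ f x ∈ Y := by
    intro x h
    obtain ⟨q, hq, hpq, b, hb, hbt, hfx⟩ := hf x h
    obtain ⟨hxZ, hxo⟩ := hxa x h
    have hqpos : 0 < q := Nat.pos_of_ne_zero fun h0 => hQ (h0 ▸ hq)
    have hppos : 0 < x.1 := (hZ _ hxZ).pos
    have hmem : (q, x.1) ∈ (Qs ×ˢ Zs).filter fun v => ¬ v.2 ∣ v.1 :=
      Finset.mem_filter.2 ⟨Finset.mem_product.2 ⟨hq, hxZ⟩, hpq⟩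
    have hnorm : ‖z - f x‖ ≤ t := by
      rw [hfx]
      rwa [← sub_sub]
    rcases h41_order (hZ _ hxZ) hpq hxo hb with ⟨h1, _⟩ | ⟨h1, _⟩
    · rw [← hfx] at h1
      have hm : q * x.1 ∈ D1 Qs Zs := Finset.mem_image.2 ⟨(q, x.1), hmem, rfl⟩
      refine ⟨?_, ?_, ?_⟩
      · rw [h1]; exact Finset.mem_union_left _ hm
      · rw [h1]; exact Dvd.intro_left q rfl
      · refine Finset.mem_union_left _ (Finset.mem_filter.2 ⟨?_, hnorm⟩)
        exact (mem_pts' _).2 ⟨_, hm, (mem_pt (Nat.mul_pos hqpos hppos) _).2 h1⟩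
    · rw [← hfx] at h1
      have hm : q * x.1 ^ 2 ∈ D2 Qs Zs := Finset.mem_image.2 ⟨(q, x.1), hmem, rfl⟩
      refine ⟨?_, ?_, ?_⟩
      · rw [h1]; exact Finset.mem_union_right _ hm
      · rw [h1]; exact Dvd.intro_left (q * x.1) (by ring)
      · refine Finset.mem_union_right _ (Finset.mem_filter.2 ⟨?_, hnorm⟩)
        exact (mem_pts' _).2 ⟨_, hm, (mem_pt (Nat.mul_pos hqpos (pow_pos hppos 2)) _).2 h1⟩
  have hcard : X.card ≤ L * Y.card := by
    refine Finset.card_le_mul_card_image_of_maps_to (f := f) (fun x hx => (hord x hx).2.2) L ?_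
    intro r _
    by_cases hne : (X.filter fun x => f x = r).Nonempty
    · obtain ⟨x0, hx0⟩ := hne
      obtain ⟨hx0X, hx0r⟩ := Finset.mem_filter.1 hx0
      have hs := (hord x0 hx0X).1
      rw [hx0r] at hs
      refine le_trans ?_ (hL _ hs)
      refine Finset.card_le_card_of_injOn (fun x => x.1) ?_ ?_
      · intro x hx
        obtain ⟨hxX, hxr⟩ := Finset.mem_filter.1 (Finset.mem_coe.1 hx)
        refine Finset.mem_coe.2 (Finset.mem_filter.2 ⟨(hxa x hxX).1, ?_⟩)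
        have := (hord x hxX).2.1
        rwa [hxr] at this
      · rintro ⟨p, a⟩ hx ⟨p', a'⟩ hx' hpp
        obtain ⟨hxX, hxr⟩ := Finset.mem_filter.1 (Finset.mem_coe.1 hx)
        obtain ⟨hxX', hxr'⟩ := Finset.mem_filter.1 (Finset.mem_coe.1 hx')
        have hpp' : p = p' := hpp
        subst hpp'
        obtain ⟨q, hq, hpq, b, hb, hbt, hfx⟩ := hf _ hxX
        obtain ⟨q', hq', hpq', b', hb', hbt', hfx'⟩ := hf _ hxX'
        obtain ⟨hxZ, hxo⟩ := hxa _ hxX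
        obtain ⟨_, hxo'⟩ := hxa _ hxX'
        have : a = a' := by
          refine h41_unique (hZ _ hxZ) hpq hpq' hxo hxo' hb hb' ?_
          rw [← hfx, ← hfx', hxr, hxr']
        rw [this]
    · rw [Finset.not_nonempty_iff_eq_empty.1 hne]
      exact Nat.zero_le _
  have hY : Y.card ≤ Mc (D1 Qs Zs) t z + Mc (D2 Qs Zs) t z := by
    unfold Mc
    refine (Finset.card_union_le _ _).trans (le_of_eq ?_)
    congr!
  rw [hX]
  calc (X.card : ℝ) ≤ ((L * Y.card : ℕ) : ℝ) := by exact_mod_cast hcard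
    _ ≤ ((L * (Mc (D1 Qs Zs) t z + Mc (D2 Qs Zs) t z) : ℕ) : ℝ) := by
        exact_mod_cast Nat.mul_le_mul_left L hY
    _ = L * ((Mc (D1 Qs Zs) t z : ℝ) + Mc (D2 Qs Zs) t z) := by push_cast; ring

/-- A positive integer `s` has at most `log₂ s` prime divisors. -/
theorem card_prime_dvd_le (Zs : Finset ℕ) (hZ : ∀ p ∈ Zs, p.Prime) {s : ℕ} (hs : 0 < s) :
    (Zs.filter fun p => p ∣ s).card ≤ Nat.log 2 s := by
  have h1 : (Zs.filter fun p => p ∣ s) ⊆ s.primeFactors := by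
    intro p hp
    obtain ⟨h1, h2⟩ := Finset.mem_filter.1 hp
    exact Nat.mem_primeFactors.2 ⟨hZ p h1, h2, hs.ne'⟩
  refine (Finset.card_le_card h1).trans ?_
  apply Nat.le_log_of_pow_le (by norm_num)
  calc 2 ^ s.primeFactors.card ≤ ∏ p ∈ s.primeFactors, p :=
        Finset.pow_card_le_prod _ _ _ fun p hp => (Nat.prime_of_mem_primeFactors hp).two_le
    _ ≤ s := Nat.le_of_dvd hs (Nat.prod_primeFactors_dvd s)

/-- If `q < 2 Q0 < Z` then the only prime of `[Z, 2Z)` dividing `q p` or `q p²` is `p`. -/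
theorem card_prime_dvd_le_one {Qs : Finset ℕ} {Q0 Z : ℕ} (hQ0 : 1 ≤ Q0)
    (hQs : Qs ⊆ Finset.Ico Q0 (2 * Q0)) (hZ : 2 * Q0 < Z) :
    ∀ s ∈ D1 Qs (primesIn Z) ∪ D2 Qs (primesIn Z),
      ((primesIn Z).filter fun p => p ∣ s).card ≤ 1 := by
  intro s hs
  have key : ∃ p, ∀ p' ∈ primesIn Z, p' ∣ s → p' = p := by
    have aux : ∀ q p : ℕ, q ∈ Qs → p ∈ primesIn Z → ∀ p' ∈ primesIn Z, p' ∣ q * p ^ 2 → p' = p := by
      intro q p hq hp p' hp' hd
      obtain ⟨hpI, hpp⟩ := Finset.mem_filter.1 hp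
      obtain ⟨hpI', hpp'⟩ := Finset.mem_filter.1 hp'
      have hqI := Finset.mem_Ico.1 (hQs hq)
      rw [Finset.mem_Ico] at hpI'
      rcases (Nat.Prime.dvd_mul hpp').1 hd with h | h
      · have := Nat.le_of_dvd (by omega) h
        omega
      · exact (Nat.prime_dvd_prime_iff_eq hpp' hpp).1 (hpp'.dvd_of_dvd_pow h)
    rcases Finset.mem_union.1 hs with h | h
    · obtain ⟨v, hv, rfl⟩ := Finset.mem_image.1 h
      obtain ⟨hv1, _⟩ := Finset.mem_filter.1 hv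
      obtain ⟨hq, hp⟩ := Finset.mem_product.1 hv1
      refine ⟨v.2, fun p' hp' hd => aux v.1 v.2 hq hp p' hp' ?_⟩
      exact hd.trans (Dvd.intro v.2 (by ring))
    · obtain ⟨v, hv, rfl⟩ := Finset.mem_image.1 h
      obtain ⟨hv1, _⟩ := Finset.mem_filter.1 hv
      obtain ⟨hq, hp⟩ := Finset.mem_product.1 hv1
      exact ⟨v.2, fun p' hp' hd => aux v.1 v.2 hq hp p' hp' hd⟩
  obtain ⟨p, hp⟩ := key
  refine Finset.card_le_one.2 fun a ha b hb => ?_
  obtain ⟨ha1, ha2⟩ := Finset.mem_filter.1 ha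
  obtain ⟨hb1, hb2⟩ := Finset.mem_filter.1 hb
  rw [hp a ha1 ha2, hp b hb1 hb2]

end Pool.Agent.Helper25.MOB
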