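import Pool.Agent.Helper25.MOB.Defs

/-!
Block MOB-F4.  Truncated Cauchy-Schwarz.

Let `m : UnitAddCircle → ℕ` be measurable and bounded, `f` continuous.
* `∫ ‖f‖ m ≤ ∫ ‖f‖ + √(∫ ‖f‖²) √(2 ∫ m (m - 1))`: where `m ≤ 1` use `‖f‖ m ≤ ‖f‖`; where `m ≥ 2`,
  `m² ≤ 2 m (m - 1)` and Cauchy-Schwarz.
* `∫ ‖f‖ m ≤ 2 ∫ ‖f‖ + √(∫ ‖f‖²) √(3/2 ∫ m (m - 1)(m - 2))`: where `m ≤ 2` use `‖f‖ m ≤ 2 ‖f‖`; where
  `m ≥ 3`, `m² ≤ (3/2) m (m - 1)(m - 2)`.
(`m (m - 1) ≥ 0` and `m (m - 1)(m - 2) ≥ 0` for natural numbers `m`.)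
-/

namespace Pool.Agent.Helper25.MOB

open MeasureTheory

/-- Cauchy-Schwarz for bounded nonnegative measurable functions on the circle. -/
private theorem cs24 {f g : UnitAddCircle → ℝ} (hf : Measurable f) (hg : Measurable g) {A B : ℝ}
    (hfA : ∀ z, f z ≤ A) (hgB : ∀ z, g z ≤ B) (hf0 : ∀ z, 0 ≤ f z) (hg0 : ∀ z, 0 ≤ g z) :
    ∫ z, f z * g z ≤ √(∫ z, f z ^ 2) * √(∫ z, g z ^ 2) := by
  have hpq : (2 : ℝ).HolderConjugate 2 := Real.HolderConjugate.two_two
  have mf : MemLp f (ENNReal.ofReal 2) volume :=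
    MemLp.of_bound hf.aestronglyMeasurable A (Filter.Eventually.of_forall fun z => by
      rw [Real.norm_eq_abs, abs_of_nonneg (hf0 z)]
      exact hfA z)
  have mg : MemLp g (ENNReal.ofReal 2) volume :=
    MemLp.of_bound hg.aestronglyMeasurable B (Filter.Eventually.of_forall fun z => by
      rw [Real.norm_eq_abs, abs_of_nonneg (hg0 z)]
      exact hgB z)
  have h := integral_mul_le_Lp_mul_Lq_of_nonneg hpq (Filter.Eventually.of_forall hf0)
    (Filter.Eventually.of_forall hg0) mf mg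
  have e1 : ∀ z, f z ^ (2 : ℝ) = f z ^ 2 := fun z => by
    rw [← Real.rpow_natCast]
    norm_num
  have e2 : ∀ z, g z ^ (2 : ℝ) = g z ^ 2 := fun z => by
    rw [← Real.rpow_natCast]
    norm_num
  simp only [e1, e2] at h
  rw [Real.sqrt_eq_rpow, Real.sqrt_eq_rpow]
  exact h

private theorem trunc24 (f : UnitAddCircle → ℂ) (hf : Continuous f) (m w : UnitAddCircle → ℝ)
    (hm : Measurable m) (hw : Measurable w) {K a : ℝ} (hm0 : ∀ z, 0 ≤ m z) (hmK : ∀ z, m z ≤ K)
    (hw0 : ∀ z, 0 ≤ w z) (hwK : ∀ z, w z ≤ K) (hmw : ∀ z, m z ≤ a + w z) (P : UnitAddCircle → ℝ)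
    (hP : ∀ z, w z ^ 2 ≤ P z) (hPi : Integrable P) :
    ∫ z, ‖f z‖ * m z ≤ a * (∫ z, ‖f z‖) + √(∫ z, ‖f z‖ ^ 2) * √(∫ z, P z) := by
  have hfn : Continuous fun z => ‖f z‖ := hf.norm
  obtain ⟨A, hA⟩ : ∃ A, ∀ z, ‖f z‖ ≤ A := by
    obtain ⟨z0, hz0⟩ := IsCompact.exists_isMaxOn (isCompact_univ (X := UnitAddCircle))
      ⟨0, Set.mem_univ _⟩ hfn.continuousOn
    exact ⟨‖f z0‖, fun z => hz0.2 (Set.mem_univ z)⟩
  have hA0 : 0 ≤ A := (norm_nonneg _).trans (hA 0)
  have hK0 : 0 ≤ K := (hw0 0).trans (hwK 0)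
  have i1 : Integrable fun z => ‖f z‖ := by
    refine Integrable.of_bound hfn.measurable.aestronglyMeasurable A
      (Filter.Eventually.of_forall fun z => ?_)
    rw [norm_norm]
    exact hA z
  have i2 : Integrable fun z => ‖f z‖ * w z := by
    refine Integrable.of_bound (hfn.measurable.mul hw).aestronglyMeasurable (A * K)
      (Filter.Eventually.of_forall fun z => ?_)
    rw [Real.norm_eq_abs, abs_of_nonneg (mul_nonneg (norm_nonneg _) (hw0 z))]
    exact mul_le_mul (hA z) (hwK z) (hw0 z) hA0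
  have i3 : Integrable fun z => ‖f z‖ * m z := by
    refine Integrable.of_bound (hfn.measurable.mul hm).aestronglyMeasurable (A * K)
      (Filter.Eventually.of_forall fun z => ?_)
    rw [Real.norm_eq_abs, abs_of_nonneg (mul_nonneg (norm_nonneg _) (hm0 z))]
    exact mul_le_mul (hA z) (hmK z) (hm0 z) hA0
  have i4 : Integrable fun z => w z ^ 2 := by
    refine Integrable.of_bound (hw.pow_const 2).aestronglyMeasurable (K ^ 2)
      (Filter.Eventually.of_forall fun z => ?_)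
    rw [Real.norm_eq_abs, abs_of_nonneg (sq_nonneg _)]
    exact pow_le_pow_left₀ (hw0 z) (hwK z) 2
  have h1 : ∫ z, ‖f z‖ * m z ≤ ∫ z, (a * ‖f z‖ + ‖f z‖ * w z) := by
    refine integral_mono i3 ((i1.const_mul a).add i2) fun z => ?_
    have := mul_le_mul_of_nonneg_left (hmw z) (norm_nonneg (f z))
    show ‖f z‖ * m z ≤ a * ‖f z‖ + ‖f z‖ * w z
    linarith
  have h2 : ∫ z, (a * ‖f z‖ + ‖f z‖ * w z) = a * (∫ z, ‖f z‖) + ∫ z, ‖f z‖ * w z := by
    rw [integral_add (i1.const_mul a) i2, integral_const_mul]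
  have h3 : ∫ z, ‖f z‖ * w z ≤ √(∫ z, ‖f z‖ ^ 2) * √(∫ z, w z ^ 2) :=
    cs24 hfn.measurable hw hA hwK (fun z => norm_nonneg _) hw0
  have h4 : √(∫ z, w z ^ 2) ≤ √(∫ z, P z) :=
    Real.sqrt_le_sqrt (integral_mono i4 hPi hP)
  have h5 : √(∫ z, ‖f z‖ ^ 2) * √(∫ z, w z ^ 2) ≤ √(∫ z, ‖f z‖ ^ 2) * √(∫ z, P z) :=
    mul_le_mul_of_nonneg_left h4 (Real.sqrt_nonneg _)
  linarith

theorem trunc_one (f : UnitAddCircle → ℂ) (hf : Continuous f) (m : UnitAddCircle → ℕ)
    (hm : Measurable fun z => (m z : ℝ)) {K : ℕ} (hK : ∀ z, m z ≤ K) :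
    ∫ z, ‖f z‖ * (m z : ℝ) ≤ ∫ z, ‖f z‖ +
      √(∫ z, ‖f z‖ ^ 2) * √(2 * ∫ z, (m z : ℝ) * ((m z : ℝ) - 1)) := by
  have hc : Integrable fun z : UnitAddCircle => ‖f z‖ := hf.norm.integrable_of_hasCompactSupport
    (HasCompactSupport.of_compactSpace _)
  have hmb : ∀ z, (m z : ℝ) ≤ K := fun z => by exact_mod_cast hK z
  have hPi : Integrable fun z => 2 * ((m z : ℝ) * ((m z : ℝ) - 1)) := by
    refine Integrable.of_bound (by fun_prop) (2 * (K * (K + 1)))
      (Filter.Eventually.of_forall fun z => ?_)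
    have h0 : (0 : ℝ) ≤ m z := Nat.cast_nonneg _
    rw [Real.norm_eq_abs, abs_le]
    constructor <;> nlinarith [hmb z]
  have hmeas : Measurable fun z => if (2 : ℝ) ≤ (m z : ℝ) then (m z : ℝ) else 0 :=
    Measurable.ite (measurableSet_le measurable_const hm) hm measurable_const
  have h := trunc24 f hf (fun z => (m z : ℝ)) (fun z => if (2 : ℝ) ≤ (m z : ℝ) then (m z : ℝ) else 0)
    hm hmeas (K := K) (a := 1) (fun z => Nat.cast_nonneg _) hmb
    (fun z => by
      split_ifs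
      · exact Nat.cast_nonneg _
      · exact le_rfl)
    (fun z => by
      split_ifs
      · exact hmb z
      · exact Nat.cast_nonneg _)
    (fun z => by
      split_ifs with h2
      · linarith
      · have h3 : m z < 2 := by
          have : (m z : ℝ) < 2 := not_le.1 h2
          exact_mod_cast this
        have h4 : m z ≤ 1 := by omega
        have : (m z : ℝ) ≤ 1 := by exact_mod_cast h4
        linarith)
    (fun z => 2 * ((m z : ℝ) * ((m z : ℝ) - 1)))
    (fun z => by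
      split_ifs with h2
      · nlinarith
      · rcases Nat.eq_zero_or_pos (m z) with h0 | h0
        · rw [h0]
          norm_num
        · have : (1 : ℝ) ≤ m z := by exact_mod_cast h0
          have := mul_nonneg (Nat.cast_nonneg (α := ℝ) (m z)) (sub_nonneg.2 this)
          simpa using this)
    hPi
  rw [integral_add hc (integrable_const _), integral_const]
  rw [integral_const_mul] at h
  simpa using h

theorem trunc_two (f : UnitAddCircle → ℂ) (hf : Continuous f) (m : UnitAddCircle → ℕ)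
    (hm : Measurable fun z => (m z : ℝ)) {K : ℕ} (hK : ∀ z, m z ≤ K) :
    ∫ z, ‖f z‖ * (m z : ℝ) ≤ 2 * ∫ z, ‖f z‖ +
      √(∫ z, ‖f z‖ ^ 2) *
        √(3 / 2 * ∫ z, (m z : ℝ) * ((m z : ℝ) - 1) * ((m z : ℝ) - 2)) := by
  have hc : Integrable fun z : UnitAddCircle => ‖f z‖ := hf.norm.integrable_of_hasCompactSupport
    (HasCompactSupport.of_compactSpace _)
  have hmb : ∀ z, (m z : ℝ) ≤ K := fun z => by exact_mod_cast hK z
  have hPi : Integrable fun z => 3 / 2 * ((m z : ℝ) * ((m z : ℝ) - 1) * ((m z : ℝ) - 2)) := by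
    refine Integrable.of_bound (by fun_prop) (3 / 2 * (K * (K + 1) * (K + 2)))
      (Filter.Eventually.of_forall fun z => ?_)
    have h0 : (0 : ℝ) ≤ m z := Nat.cast_nonneg _
    have hK0 : (0 : ℝ) ≤ K := Nat.cast_nonneg _
    have e1 : |(m z : ℝ)| ≤ K := by
      rw [abs_of_nonneg h0]
      exact hmb z
    have e2 : |(m z : ℝ) - 1| ≤ K + 1 := by
      rw [abs_le]
      constructor <;> linarith [hmb z]
    have e3 : |(m z : ℝ) - 2| ≤ K + 2 := by
      rw [abs_le]
      constructor <;> linarith [hmb z]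
    rw [Real.norm_eq_abs, abs_mul, abs_mul, abs_mul, abs_of_pos (by norm_num : (0 : ℝ) < 3 / 2)]
    have e4 : |(m z : ℝ)| * |(m z : ℝ) - 1| ≤ K * (K + 1) :=
      mul_le_mul e1 e2 (abs_nonneg _) hK0
    have e5 : |(m z : ℝ)| * |(m z : ℝ) - 1| * |(m z : ℝ) - 2| ≤ K * (K + 1) * (K + 2) :=
      mul_le_mul e4 e3 (abs_nonneg _) (by positivity)
    linarith
  have hmeas : Measurable fun z => if (3 : ℝ) ≤ (m z : ℝ) then (m z : ℝ) else 0 :=
    Measurable.ite (measurableSet_le measurable_const hm) hm measurable_const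
  have h := trunc24 f hf (fun z => (m z : ℝ)) (fun z => if (3 : ℝ) ≤ (m z : ℝ) then (m z : ℝ) else 0)
    hm hmeas (K := K) (a := 2) (fun z => Nat.cast_nonneg _) hmb
    (fun z => by
      split_ifs
      · exact Nat.cast_nonneg _
      · exact le_rfl)
    (fun z => by
      split_ifs
      · exact hmb z
      · exact Nat.cast_nonneg _)
    (fun z => by
      split_ifs with h2
      · linarith
      · have h3 : m z < 3 := by
          have : (m z : ℝ) < 3 := not_le.1 h2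
          exact_mod_cast this
        have h4 : m z ≤ 2 := by omega
        have : (m z : ℝ) ≤ 2 := by exact_mod_cast h4
        linarith)
    (fun z => 3 / 2 * ((m z : ℝ) * ((m z : ℝ) - 1) * ((m z : ℝ) - 2)))
    (fun z => by
      split_ifs with h2
      · have e1 : (2 : ℝ) / 3 * m z ≤ ((m z : ℝ) - 1) := by linarith
        have e2 : (1 : ℝ) ≤ (m z : ℝ) - 2 := by linarith
        have e3 : (2 : ℝ) / 3 * m z * 1 ≤ ((m z : ℝ) - 1) * ((m z : ℝ) - 2) :=
          mul_le_mul e1 e2 (by norm_num) (by linarith)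
        nlinarith
      · have h3 : m z < 3 := by
          have : (m z : ℝ) < 3 := not_le.1 h2
          exact_mod_cast this
        have h4 : m z = 0 ∨ m z = 1 ∨ m z = 2 := by omega
        rcases h4 with h4 | h4 | h4 <;> rw [h4] <;> norm_num)
    hPi
  have hs : 0 ≤ √(∫ z, ‖f z‖ ^ 2) *
      √(3 / 2 * ∫ z, (m z : ℝ) * ((m z : ℝ) - 1) * ((m z : ℝ) - 2)) := by positivity
  rw [integral_add hc (integrable_const _), integral_const]
  rw [integral_const_mul] at h
  simp only [probReal_univ, smul_eq_mul, one_mul]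
  linarith

end Pool.Agent.Helper25.MOB
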