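import Pool.Agent.Helper25.MOB.F1
import Pool.Agent.Helper25.MOB.F2
import Pool.Agent.Helper25.MOB.F3
import Pool.Agent.Helper25.MOB.F4

/-!
Block MOB-K1.  The inequality of squares.

`squares_basic`.  `Rp p = R ∩ ⋃_{q ∈ Qs, p ∤ q} cl t q`.  For `y ∈ R` choose `q ∈ Qs` with `y ∈ cl t q`: `y ∈ Rp p` for all
`p ∈ Zs` not dividing `q`, so for at least `#Zs - c₀` of them, and
`(#Zs - c₀) ∫_R ‖F‖ ≤ ∑_p ∫_{Rp p} ‖F‖`.  Use `duality` and `weight_le`.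
`sum_D1_le`, `sum_D2_le`: `q p < 2 Q0 * 2 Z`, `q p² < 2 Q0 * 4 Z²`, and there are at most `#Qs * Z` pairs.
`squares_two`: `trunc_one`, `second_moment` for `D1` and `D2`, `∫ ‖F‖² ≤ N`:
`√N √(2 * 8 t² (∑ s)²) = 4 t √N ∑ s`.
-/

namespace Pool.Agent.Helper25.MOB

open MeasureTheory

private theorem intF81 (N : ℕ) : Integrable (fun y => ‖F N y‖) (volume : Measure UnitAddCircle) :=
  Integrable.of_bound (continuous_F N).norm.aestronglyMeasurable (N : ℝ)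
    (Filter.Eventually.of_forall fun y => by rw [norm_norm]; exact norm_F_le N y)

private theorem intFM81 (N : ℕ) (D : Finset ℕ) (t : ℝ) :
    Integrable (fun z => ‖F N z‖ * (Mc D t z : ℝ)) (volume : Measure UnitAddCircle) := by
  refine Integrable.of_bound
    ((continuous_F N).norm.measurable.mul (measurable_Mc D t)).aestronglyMeasurable
    ((N : ℝ) * ((pts D).card : ℝ)) (Filter.Eventually.of_forall fun z => ?_)
  rw [Real.norm_of_nonneg (by positivity)]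
  exact mul_le_mul (norm_F_le N z) (by exact_mod_cast Mc_le D t z) (by positivity) (by positivity)

theorem squares_basic (N : ℕ) (Qs Zs : Finset ℕ) (hQ : 0 ∉ Qs) (hZ : ∀ p ∈ Zs, p.Prime) {t : ℝ}
    (ht : 0 ≤ t) {L c₀ : ℕ}
    (hL : ∀ s ∈ D1 Qs Zs ∪ D2 Qs Zs, (Zs.filter fun p => p ∣ s).card ≤ L)
    (hc : ∀ q ∈ Qs, (Zs.filter fun p => p ∣ q).card ≤ c₀) (R : Set UnitAddCircle)
    (hR : MeasurableSet R) (hRc : R ⊆ ⋃ q ∈ Qs, cl t q) :
    ((Zs.card : ℝ) - c₀) * ∫ y in R, ‖F N y‖ ≤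
      L * ((∫ z, ‖F N z‖ * (Mc (D1 Qs Zs) t z : ℝ)) +
        ∫ z, ‖F N z‖ * (Mc (D2 Qs Zs) t z : ℝ)) := by
  classical
  set Rp : ℕ → Set UnitAddCircle :=
    fun p => R ∩ ⋃ q ∈ Qs.filter (fun q => ¬ p ∣ q), cl t q with hRp
  have hRm : ∀ p ∈ Zs, MeasurableSet (Rp p) := fun p _ =>
    hR.inter (Finset.measurableSet_biUnion _ fun q _ => measurableSet_cl t q)
  have hFi := intF81 N
  have h1 : ((Zs.card : ℝ) - c₀) * ∫ y in R, ‖F N y‖ ≤ ∑ p ∈ Zs, ∫ y in Rp p, ‖F N y‖ := by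
    have e1 : ∀ p ∈ Zs, ∫ y in Rp p, ‖F N y‖ =
        ∫ y in R, (Rp p).indicator (fun y => ‖F N y‖) y := by
      intro p hp
      rw [setIntegral_indicator (hRm p hp), Set.inter_eq_right.2 Set.inter_subset_left]
    rw [Finset.sum_congr rfl e1, ← integral_finsetSum _
      (fun p hp => (hFi.indicator (hRm p hp)).integrableOn), ← integral_const_mul]
    refine setIntegral_mono_on (hFi.const_mul _).integrableOn
      (integrable_finsetSum _ fun p hp => (hFi.indicator (hRm p hp)).integrableOn) hR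
      fun y hy => ?_
    obtain ⟨q, hq, hyq⟩ := Set.mem_iUnion₂.1 (hRc hy)
    have e2 : ∀ p ∈ Zs.filter (fun p => ¬ p ∣ q),
        (Rp p).indicator (fun y => ‖F N y‖) y = ‖F N y‖ := by
      intro p hp
      refine Set.indicator_of_mem ?_ _
      exact ⟨hy, Set.mem_iUnion₂.2
        ⟨q, Finset.mem_filter.2 ⟨hq, (Finset.mem_filter.1 hp).2⟩, hyq⟩⟩
    have e3 : ∑ p ∈ Zs.filter (fun p => ¬ p ∣ q), (Rp p).indicator (fun y => ‖F N y‖) y ≤
        ∑ p ∈ Zs, (Rp p).indicator (fun y => ‖F N y‖) y :=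
      Finset.sum_le_sum_of_subset_of_nonneg (Finset.filter_subset _ _) fun p _ _ =>
        Set.indicator_nonneg (fun _ _ => norm_nonneg _) _
    rw [Finset.sum_congr rfl e2, Finset.sum_const, nsmul_eq_mul] at e3
    refine le_trans ?_ e3
    have e4 : (Zs.filter (fun p => p ∣ q)).card + (Zs.filter (fun p => ¬ p ∣ q)).card = Zs.card :=
      Finset.card_filter_add_card_filter_not _
    have e5 := hc q hq
    refine mul_le_mul_of_nonneg_right ?_ (norm_nonneg _)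
    have e6 : (Zs.card : ℝ) = ((Zs.filter (fun p => p ∣ q)).card : ℝ) +
        ((Zs.filter (fun p => ¬ p ∣ q)).card : ℝ) := by exact_mod_cast e4.symm
    have e7 : ((Zs.filter (fun p => p ∣ q)).card : ℝ) ≤ c₀ := by exact_mod_cast e5
    linarith
  refine (h1.trans (duality N Zs hZ Rp hRm)).trans ?_
  have hi1 := intFM81 N (D1 Qs Zs) t
  have hi2 := intFM81 N (D2 Qs Zs) t
  have hi : Integrable (fun z => ‖F N z‖ * (L * ((Mc (D1 Qs Zs) t z : ℝ) + Mc (D2 Qs Zs) t z)))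
      (volume : Measure UnitAddCircle) := by
    refine ((hi1.add hi2).const_mul (L : ℝ)).congr (Filter.Eventually.of_forall fun z => ?_)
    simp only [Pi.add_apply]
    ring
  have h4 : ∫ z, ‖F N z‖ * (L * ((Mc (D1 Qs Zs) t z : ℝ) + Mc (D2 Qs Zs) t z)) =
      L * ((∫ z, ‖F N z‖ * (Mc (D1 Qs Zs) t z : ℝ)) +
        ∫ z, ‖F N z‖ * (Mc (D2 Qs Zs) t z : ℝ)) := by
    rw [← integral_add hi1 hi2, ← integral_const_mul]
    refine integral_congr_ae (Filter.Eventually.of_forall fun z => ?_)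
    simp only
    ring
  rw [← h4]
  refine integral_mono_of_nonneg (Filter.Eventually.of_forall fun z => ?_) hi
    (Filter.Eventually.of_forall fun z => ?_)
  · exact mul_nonneg (norm_nonneg _) (Finset.sum_nonneg fun _ _ => Finset.sum_nonneg fun _ _ => by
      split_ifs <;> norm_num)
  · refine mul_le_mul_of_nonneg_left (weight_le Qs Zs hZ hQ hL Rp (fun p _ y hy => ?_) z)
      (norm_nonneg _)
    obtain ⟨q, hq, hyq⟩ := Set.mem_iUnion₂.1 hy.2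
    rw [Finset.mem_filter] at hq
    exact ⟨q, hq.1, hq.2, hyq⟩

private theorem card_primesIn_le81 (Z : ℕ) : (primesIn Z).card ≤ Z := by
  refine (Finset.card_filter_le _ _).trans ?_
  rw [Nat.card_Ico]
  omega

theorem sum_D1_le {Qs : Finset ℕ} {Q0 : ℕ} (hQs : Qs ⊆ Finset.Ico Q0 (2 * Q0)) (Z : ℕ) :
    ∑ s ∈ D1 Qs (primesIn Z), (s : ℝ) ≤ 4 * Qs.card * Q0 * (Z : ℝ) ^ 2 := by
  have h1 : ∀ s ∈ D1 Qs (primesIn Z), (s : ℝ) ≤ 4 * Q0 * Z := by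
    intro s hs
    obtain ⟨v, hv, rfl⟩ := Finset.mem_image.1 hs
    rw [Finset.mem_filter, Finset.mem_product, primesIn, Finset.mem_filter, Finset.mem_Ico] at hv
    have h2 := Finset.mem_Ico.1 (hQs hv.1.1)
    have h3 : v.1 * v.2 ≤ (2 * Q0) * (2 * Z) := Nat.mul_le_mul h2.2.le hv.1.2.1.2.le
    have h4 : ((v.1 * v.2 : ℕ) : ℝ) ≤ (((2 * Q0) * (2 * Z) : ℕ) : ℝ) := by exact_mod_cast h3
    refine h4.trans_eq ?_
    push_cast
    ring
  have h2 : (D1 Qs (primesIn Z)).card ≤ Qs.card * Z :=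
    (Finset.card_image_le).trans ((Finset.card_filter_le _ _).trans (by
      rw [Finset.card_product]
      exact Nat.mul_le_mul_left _ (card_primesIn_le81 Z)))
  have h3 : ((D1 Qs (primesIn Z)).card : ℝ) ≤ (Qs.card : ℝ) * Z := by exact_mod_cast h2
  calc ∑ s ∈ D1 Qs (primesIn Z), (s : ℝ) ≤ ∑ _s ∈ D1 Qs (primesIn Z), (4 * Q0 * Z : ℝ) :=
        Finset.sum_le_sum h1
    _ = ((D1 Qs (primesIn Z)).card : ℝ) * (4 * Q0 * Z) := by rw [Finset.sum_const, nsmul_eq_mul]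
    _ ≤ ((Qs.card : ℝ) * Z) * (4 * Q0 * Z) := mul_le_mul_of_nonneg_right h3 (by positivity)
    _ = 4 * Qs.card * Q0 * (Z : ℝ) ^ 2 := by ring

theorem sum_D2_le {Qs : Finset ℕ} {Q0 : ℕ} (hQs : Qs ⊆ Finset.Ico Q0 (2 * Q0)) (Z : ℕ) :
    ∑ s ∈ D2 Qs (primesIn Z), (s : ℝ) ≤ 8 * Qs.card * Q0 * (Z : ℝ) ^ 3 := by
  have h1 : ∀ s ∈ D2 Qs (primesIn Z), (s : ℝ) ≤ 8 * Q0 * (Z : ℝ) ^ 2 := by
    intro s hs
    obtain ⟨v, hv, rfl⟩ := Finset.mem_image.1 hs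
    rw [Finset.mem_filter, Finset.mem_product, primesIn, Finset.mem_filter, Finset.mem_Ico] at hv
    have h2 := Finset.mem_Ico.1 (hQs hv.1.1)
    have h3 : v.1 * v.2 ^ 2 ≤ (2 * Q0) * (2 * Z) ^ 2 :=
      Nat.mul_le_mul h2.2.le (Nat.pow_le_pow_left hv.1.2.1.2.le 2)
    have h4 : ((v.1 * v.2 ^ 2 : ℕ) : ℝ) ≤ (((2 * Q0) * (2 * Z) ^ 2 : ℕ) : ℝ) := by
      exact_mod_cast h3
    refine h4.trans_eq ?_
    push_cast
    ring
  have h2 : (D2 Qs (primesIn Z)).card ≤ Qs.card * Z :=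
    (Finset.card_image_le).trans ((Finset.card_filter_le _ _).trans (by
      rw [Finset.card_product]
      exact Nat.mul_le_mul_left _ (card_primesIn_le81 Z)))
  have h3 : ((D2 Qs (primesIn Z)).card : ℝ) ≤ (Qs.card : ℝ) * Z := by exact_mod_cast h2
  calc ∑ s ∈ D2 Qs (primesIn Z), (s : ℝ) ≤ ∑ _s ∈ D2 Qs (primesIn Z), (8 * Q0 * (Z : ℝ) ^ 2) :=
        Finset.sum_le_sum h1
    _ = ((D2 Qs (primesIn Z)).card : ℝ) * (8 * Q0 * (Z : ℝ) ^ 2) := by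
        rw [Finset.sum_const, nsmul_eq_mul]
    _ ≤ ((Qs.card : ℝ) * Z) * (8 * Q0 * (Z : ℝ) ^ 2) :=
        mul_le_mul_of_nonneg_right h3 (by positivity)
    _ = 8 * Qs.card * Q0 * (Z : ℝ) ^ 3 := by ring

theorem int_D_le (N : ℕ) (D : Finset ℕ) {t : ℝ} (ht : 0 ≤ t) :
    ∫ z, ‖F N z‖ * (Mc D t z : ℝ) ≤ ∫ z, ‖F N z‖ + 4 * t * √N * ∑ s ∈ D, (s : ℝ) := by
  have hs : (0 : ℝ) ≤ ∑ s ∈ D, (s : ℝ) := Finset.sum_nonneg fun _ _ => Nat.cast_nonneg _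
  refine (trunc_one (F N) (continuous_F N) (Mc D t) (measurable_Mc D t)
    (K := (pts D).card) (Mc_le D t)).trans ?_
  have h1 : √(∫ z, ‖F N z‖ ^ 2) ≤ √N := Real.sqrt_le_sqrt (integral_F_sq_le N)
  have h2 : √(2 * ∫ z, (Mc D t z : ℝ) * ((Mc D t z : ℝ) - 1)) ≤ 4 * t * ∑ s ∈ D, (s : ℝ) := by
    refine Real.sqrt_le_iff.2 ⟨by positivity, ?_⟩
    have h3 := second_moment D ht
    calc 2 * ∫ z, (Mc D t z : ℝ) * ((Mc D t z : ℝ) - 1) ≤
        2 * (8 * t ^ 2 * (∑ s ∈ D, (s : ℝ)) ^ 2) := by linarith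
      _ = (4 * t * ∑ s ∈ D, (s : ℝ)) ^ 2 := by ring
  have h4 := mul_le_mul h1 h2 (Real.sqrt_nonneg _) (Real.sqrt_nonneg _)
  refine integral_mono ((intF81 N).add (integrable_const _)) ((intF81 N).add (integrable_const _))
    fun z => ?_
  have h5 : √(N : ℝ) * (4 * t * ∑ s ∈ D, (s : ℝ)) = 4 * t * √N * ∑ s ∈ D, (s : ℝ) := by ring
  simp only
  linarith

theorem squares_two (N : ℕ) {Qs : Finset ℕ} {Q0 Z : ℕ} (hQ0 : 1 ≤ Q0) (hZ1 : 1 ≤ Z)
    (hQs : Qs ⊆ Finset.Ico Q0 (2 * Q0)) {t : ℝ} (ht : 0 ≤ t) {L c₀ : ℕ}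
    (hL : ∀ s ∈ D1 Qs (primesIn Z) ∪ D2 Qs (primesIn Z),
      ((primesIn Z).filter fun p => p ∣ s).card ≤ L)
    (hc : ∀ q ∈ Qs, ((primesIn Z).filter fun p => p ∣ q).card ≤ c₀) (R : Set UnitAddCircle)
    (hR : MeasurableSet R) (hRc : R ⊆ ⋃ q ∈ Qs, cl t q) :
    (((primesIn Z).card : ℝ) - c₀) * ∫ y in R, ‖F N y‖ ≤
      L * (2 * (∫ z, ‖F N z‖) + 48 * t * √N * Qs.card * Q0 * (Z : ℝ) ^ 3) := by
  have hQ : 0 ∉ Qs := by
    intro h
    have := Finset.mem_Ico.1 (hQs h)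
    omega
  have hZp : ∀ p ∈ primesIn Z, p.Prime := fun p hp => (Finset.mem_filter.1 hp).2
  refine (squares_basic N Qs (primesIn Z) hQ hZp ht hL hc R hR hRc).trans ?_
  refine mul_le_mul_of_nonneg_left ?_ (Nat.cast_nonneg L)
  have h1 := int_D_le N (D1 Qs (primesIn Z)) ht
  have h2 := int_D_le N (D2 Qs (primesIn Z)) ht
  have h3 := sum_D1_le hQs Z
  have h4 := sum_D2_le hQs Z
  have h5 : (1 : ℝ) ≤ Z := by exact_mod_cast hZ1
  have h6 : (0 : ℝ) ≤ 4 * t * √N := by positivity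
  have h7 := mul_le_mul_of_nonneg_left h3 h6
  have h8 := mul_le_mul_of_nonneg_left h4 h6
  have h9 : (Z : ℝ) ^ 2 ≤ (Z : ℝ) ^ 3 := pow_le_pow_right₀ h5 (by norm_num)
  have h10 : (0 : ℝ) ≤ 16 * t * √N * Qs.card * Q0 := by positivity
  have h11 := mul_le_mul_of_nonneg_left h9 h10
  have h12 : ∀ c : ℝ, ∫ z, (‖F N z‖ + c) = (∫ z, ‖F N z‖) + c := by
    intro c
    rw [integral_add (intF81 N) (integrable_const c), integral_const, probReal_univ, one_smul]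
  rw [h12] at h1 h2
  have h13 : 4 * t * √N * (4 * Qs.card * Q0 * (Z : ℝ) ^ 2) =
      16 * t * √N * Qs.card * Q0 * (Z : ℝ) ^ 2 := by ring
  have h14 : 4 * t * √N * (8 * Qs.card * Q0 * (Z : ℝ) ^ 3) =
      32 * t * √N * Qs.card * Q0 * (Z : ℝ) ^ 3 := by ring
  have h15 : 48 * t * √N * Qs.card * Q0 * (Z : ℝ) ^ 3 =
      16 * t * √N * Qs.card * Q0 * (Z : ℝ) ^ 3 + 32 * t * √N * Qs.card * Q0 * (Z : ℝ) ^ 3 := by
    ring
  linarith

end Pool.Agent.Helper25.MOB
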