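import Pool.Agent.Helper25.MOB.Pt

/-!
Block MOB-MULT.  Separated points in an arc, multiplicity of the arcs `cl t q`,
`Q0 ≤ q < 2 Q0`.
-/

namespace Pool.Agent.Helper25.MOB

open MeasureTheory

/-- A set of points of the circle which are pairwise at distance `≥ s` and all within `t` of `y`
has at most `1 + 2 t / s` elements.  Proof: if the set has at most one element this is clear.
Otherwise `s ≤ 1/2`.  The open balls of radius `s / 2` around the points are disjoint, of
volume `s`, and lie in the ball of radius `t + s / 2` around `y`, of volume at most `2 t + s`. -/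
theorem card_separated_le (A : Finset UnitAddCircle) (y : UnitAddCircle) {s t : ℝ} (hs : 0 < s)
    (ht : 0 ≤ t) (hsep : ∀ a ∈ A, ∀ b ∈ A, a ≠ b → s ≤ ‖a - b‖) (hA : ∀ a ∈ A, ‖y - a‖ ≤ t) :
    (A.card : ℝ) ≤ 1 + 2 * t / s := by
  by_cases hc : A.card ≤ 1
  · have h1 : (A.card : ℝ) ≤ 1 := by exact_mod_cast hc
    have h2 : 0 ≤ 2 * t / s := by positivity
    linarith
  push Not at hc
  obtain ⟨a, ha, b, hb, hab⟩ := Finset.one_lt_card.mp hc
  have hs2 : s ≤ 1 / 2 := by
    have h1 := hsep a ha b hb hab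
    have h2 : ‖a - b‖ ≤ |(1 : ℝ)| / 2 := AddCircle.norm_le_half_period 1 one_ne_zero
    rw [abs_one] at h2
    linarith
  have hvol : ∀ x : UnitAddCircle, volume (Metric.ball x (s / 2)) = ENNReal.ofReal s := by
    intro x
    rw [← measure_congr (AddCircle.closedBall_ae_eq_ball (T := 1) (x := x) (ε := s / 2)),
      AddCircle.volume_closedBall]
    congr 1
    rw [min_eq_right (by linarith)]
    ring
  have hdisj : (A : Set UnitAddCircle).PairwiseDisjoint fun a => Metric.ball a (s / 2) := by
    intro u hu v hv huv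
    refine Set.disjoint_left.mpr fun z hz hz' => ?_
    have h1 := hsep u hu v hv huv
    rw [Metric.mem_ball] at hz hz'
    have h2 : dist u v ≤ dist z u + dist z v := dist_triangle_left u v z
    rw [dist_eq_norm u v] at h2
    linarith
  have key : ∑ a ∈ A, volume (Metric.ball a (s / 2)) ≤ volume (Metric.closedBall y (t + s / 2)) := by
    rw [← measure_biUnion_finset hdisj fun _ _ => Metric.isOpen_ball.measurableSet]
    refine measure_mono fun z hz => ?_
    rw [Set.mem_iUnion₂] at hz
    obtain ⟨a, ha, hz⟩ := hz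
    rw [Metric.mem_ball] at hz
    rw [Metric.mem_closedBall]
    have h1 := hA a ha
    rw [← dist_eq_norm, dist_comm] at h1
    have h2 := dist_triangle z a y
    linarith
  rw [Finset.sum_congr rfl fun a _ => hvol a, Finset.sum_const, nsmul_eq_mul,
    AddCircle.volume_closedBall] at key
  have h3 : ENNReal.ofReal (min 1 (2 * (t + s / 2))) ≤ ENNReal.ofReal (2 * t + s) :=
    ENNReal.ofReal_le_ofReal (by rw [min_le_iff]; right; linarith)
  have h4 := key.trans h3
  rw [← ENNReal.ofReal_natCast, ← ENNReal.ofReal_mul (Nat.cast_nonneg _),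
    ENNReal.ofReal_le_ofReal_iff (by positivity)] at h4
  have h5 : 1 + 2 * t / s = (2 * t + s) / s := by field_simp; ring
  rw [h5, le_div_iff₀ hs]
  exact h4

open scoped Classical in
/-- For each `q` of the set choose `a_q ∈ pt q` with `‖y - a_q‖ ≤ t`.  These are distinct
points (different orders) and `a_q - a_q'` is killed by `q q' ≤ 4 Q0 ^ 2`, so
`‖a_q - a_q'‖ ≥ 1 / (4 Q0 ^ 2)` (`one_le_norm_of_torsion`).  Apply `card_separated_le`. -/
theorem card_cl_le {t : ℝ} (ht : 0 ≤ t) {Q0 : ℕ} (hQ : 0 < Q0) (y : UnitAddCircle) :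
    (((Finset.Ico Q0 (2 * Q0)).filter fun q => y ∈ cl t q).card : ℝ) ≤ 1 + 8 * t * Q0 ^ 2 := by
  set B := (Finset.Ico Q0 (2 * Q0)).filter fun q => y ∈ cl t q with hB
  have hex : ∀ q ∈ B, ∃ a ∈ pt q, ‖y - a‖ ≤ t := fun q hq => (Finset.mem_filter.mp hq).2
  choose! f hf1 hf2 using hex
  have hord : ∀ q ∈ B, addOrderOf (f q) = q := fun q hq => (addOrderOf_of_mem_pt (hf1 q hq)).1
  have hinj : Set.InjOn f (B : Set ℕ) := by
    intro q hq r hr hqr
    rw [← hord q hq, hqr, hord r hr]
  have hcard : B.card = (B.image f).card := (Finset.card_image_of_injOn hinj).symm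
  have hQ' : (0 : ℝ) < Q0 := by exact_mod_cast hQ
  have hmain := card_separated_le (B.image f) y (s := 1 / (4 * (Q0 : ℝ) ^ 2)) (t := t)
    (by positivity) ht ?_ ?_
  · rw [hcard]
    refine hmain.trans (le_of_eq ?_)
    field_simp
    ring
  · intro a ha b hb hab
    obtain ⟨q, hq, rfl⟩ := Finset.mem_image.mp ha
    obtain ⟨r, hr, rfl⟩ := Finset.mem_image.mp hb
    have hq' := Finset.mem_Ico.mp (Finset.mem_filter.mp hq).1
    have hr' := Finset.mem_Ico.mp (Finset.mem_filter.mp hr).1
    have hq0 : 0 < q := lt_of_lt_of_le hQ hq'.1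
    have hr0 : 0 < r := lt_of_lt_of_le hQ hr'.1
    have h1 : (q * r) • (f q - f r) = 0 := by
      have e1 : q • f q = 0 := by
        have := addOrderOf_nsmul_eq_zero (f q)
        rwa [hord q hq] at this
      have e2 : r • f r = 0 := by
        have := addOrderOf_nsmul_eq_zero (f r)
        rwa [hord r hr] at this
      have e3 : (q * r) • f q = 0 := by rw [mul_comm, mul_smul, e1, smul_zero]
      have e4 : (q * r) • f r = 0 := by rw [mul_smul, e2, smul_zero]
      rw [smul_sub, e3, e4, sub_zero]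
    have h2 := one_le_norm_of_torsion (Nat.mul_pos hq0 hr0) h1 (sub_ne_zero.mpr hab)
    refine le_trans ?_ h2
    apply one_div_le_one_div_of_le
    · have : 0 < q * r := Nat.mul_pos hq0 hr0
      exact_mod_cast this
    · have h3 : q * r ≤ 4 * Q0 ^ 2 := by
        have := Nat.mul_le_mul hq'.2.le hr'.2.le
        nlinarith
      exact_mod_cast h3
  · intro a ha
    obtain ⟨q, hq, rfl⟩ := Finset.mem_image.mp ha
    exact hf2 q hq

end Pool.Agent.Helper25.MOB
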