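import Pool.Agent.Helper25.MOB.Pt

/-!
Block MOB-PAIR.  Close pairs of reduced fractions, overlaps of arcs.

`pair_count`: the number of pairs `(a, a')`, `a` of exact order `s`, `a'` of exact order `s'`,
`a ≠ a'`, with `‖a - a'‖ ≤ τ` is at most `2 τ s s'`.
Proof.  If `s = 0` or `s' = 0` the set is empty (`pt_zero`).  If `τ ≥ 1/2` use `card_pt_le`.
Let `l = lcm s s'`, `g = gcd s s'`, `l g = s s'`.  `l • (a - a') = 0`, so `a - a' = b / l` for an
integer `b` with `|b| ≤ l / 2` and `‖a - a'‖ = |b| / l`; `b ≠ 0` and `|b| ≤ τ l`: at most `2 τ l`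
values of `a - a'`.  For a given value `c` of `a - a'` there are at most `g` pairs: if
`(a, a')` and `(a₁, a₁')` are two such pairs then `a - a₁ = a' - a₁'` is killed by `s` and by
`s'`, hence by `g`, and there are `g` such points (`a` determines `a' = a - c`).
-/

namespace Pool.Agent.Helper25.MOB

open MeasureTheory

/-- number of points killed by `l` in a punctured ball -/
private theorem small63 {l : ℕ} (hl : 0 < l) {τ : ℝ} (hτ : 0 ≤ τ) (T : Finset UnitAddCircle)
    (hT : ∀ c ∈ T, l • c = 0 ∧ c ≠ 0 ∧ ‖c‖ ≤ τ) : (T.card : ℝ) ≤ 2 * τ * l := by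
  classical
  have hlR : (0 : ℝ) < l := by exact_mod_cast hl
  set m : ℕ := ⌊τ * l⌋₊ with hm
  have hml : (m : ℝ) ≤ τ * l := Nat.floor_le (by positivity)
  set J : Finset ℤ := (Finset.Icc (-(m : ℤ)) m).erase 0 with hJ
  have hJc : J.card = 2 * m := by
    rw [hJ, Finset.card_erase_of_mem (by simp), Int.card_Icc]
    omega
  have hsub : T ⊆ J.image (fun b : ℤ => (((b : ℝ) / (l : ℝ) : ℝ) : UnitAddCircle)) := by
    intro c hc
    obtain ⟨h1, h2, h3⟩ := hT c hc
    induction c using QuotientAddGroup.induction_on with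
    | H x =>
      change (((x : ℝ) : UnitAddCircle)) ≠ 0 at h2
      change l • ((x : ℝ) : UnitAddCircle) = 0 at h1
      change ‖((x : ℝ) : UnitAddCircle)‖ ≤ τ at h3
      rw [UnitAddCircle.norm_eq] at h3
      set y : ℝ := x - round x with hy
      have hxy : ((y : ℝ) : UnitAddCircle) = ((x : ℝ) : UnitAddCircle) := by
        rw [hy, AddCircle.coe_sub]
        have : ((round x : ℝ) : UnitAddCircle) = 0 := by
          rw [AddCircle.coe_eq_zero_iff]
          exact ⟨round x, by simp⟩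
        rw [this, sub_zero]
      have h4 : (((l : ℝ) * y : ℝ) : UnitAddCircle) = 0 := by
        rw [← h1, ← hxy, ← AddCircle.coe_nsmul, nsmul_eq_mul]
      rw [AddCircle.coe_eq_zero_iff] at h4
      obtain ⟨b, hb⟩ := h4
      have hb' : (b : ℝ) = l * y := by simpa using hb
      have hyb : y = (b : ℝ) / l := by rw [hb']; field_simp
      rw [Finset.mem_image]
      refine ⟨b, ?_, ?_⟩
      · rw [hJ, Finset.mem_erase, Finset.mem_Icc]
        refine ⟨?_, ?_⟩
        · rintro rfl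
          apply h2
          rw [← hxy, hyb]
          simp
        · have h5 : |(b : ℝ)| ≤ τ * l := by
            rw [hb', abs_mul, abs_of_pos hlR, mul_comm]
            exact mul_le_mul_of_nonneg_right h3 hlR.le
          have h6 : b.natAbs ≤ m := by
            apply Nat.le_floor
            rw [Nat.cast_natAbs]
            simpa using h5
          omega
      · show (((b : ℝ) / (l : ℝ) : ℝ) : UnitAddCircle) = ((x : ℝ) : UnitAddCircle)
        rw [← hxy, hyb]
  calc (T.card : ℝ) ≤ ((J.image (fun b : ℤ => (((b : ℝ) / (l : ℝ) : ℝ) : UnitAddCircle))).card : ℝ) := by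
        exact_mod_cast Finset.card_le_card hsub
    _ ≤ (J.card : ℝ) := by exact_mod_cast Finset.card_image_le
    _ = 2 * m := by rw [hJc]; push_cast; ring
    _ ≤ 2 * τ * l := by nlinarith

private theorem tors63 {g : ℕ} (hg : 0 < g) (T : Finset UnitAddCircle)
    (hT : ∀ c ∈ T, g • c = 0) : T.card ≤ g := by
  classical
  have hsub : T ⊆ (Finset.range g).image
      (fun m : ℕ => (((m : ℝ) / (g : ℝ) * 1 : ℝ) : UnitAddCircle)) := by
    intro c hc
    obtain ⟨m, hm, h⟩ := (AddCircle.nsmul_eq_zero_iff hg).mp (hT c hc)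
    rw [Finset.mem_image]
    exact ⟨m, Finset.mem_range.mpr hm, h⟩
  calc T.card ≤ _ := Finset.card_le_card hsub
    _ ≤ (Finset.range g).card := Finset.card_image_le
    _ = g := Finset.card_range g

open scoped Classical in
theorem pair_count (s s' : ℕ) {τ : ℝ} (hτ : 0 ≤ τ) :
    (((pt s ×ˢ pt s').filter fun v => v.1 ≠ v.2 ∧ ‖v.1 - v.2‖ ≤ τ).card : ℝ)
      ≤ 2 * τ * s * s' := by
  rcases Nat.eq_zero_or_pos s with hs | hs
  · subst hs
    rw [pt_zero]
    simp
  rcases Nat.eq_zero_or_pos s' with hs' | hs'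
  · subst hs'
    rw [pt_zero]
    simp
  set P := (pt s ×ˢ pt s').filter fun v => v.1 ≠ v.2 ∧ ‖v.1 - v.2‖ ≤ τ with hP
  set T := P.image fun v => v.1 - v.2 with hT
  have hl : 0 < Nat.lcm s s' := Nat.lcm_pos hs hs'
  have hg : 0 < Nat.gcd s s' := Nat.gcd_pos_of_pos_left _ hs
  have hPm : ∀ v ∈ P, s • v.1 = 0 ∧ s' • v.2 = 0 ∧ v.1 ≠ v.2 ∧ ‖v.1 - v.2‖ ≤ τ := by
    intro v hv
    rw [hP, Finset.mem_filter, Finset.mem_product] at hv
    obtain ⟨⟨h1, h2⟩, h3, h4⟩ := hv
    refine ⟨?_, ?_, h3, h4⟩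
    · have := addOrderOf_nsmul_eq_zero v.1
      rwa [(addOrderOf_of_mem_pt h1).1] at this
    · have := addOrderOf_nsmul_eq_zero v.2
      rwa [(addOrderOf_of_mem_pt h2).1] at this
  have h1 : (T.card : ℝ) ≤ 2 * τ * (Nat.lcm s s' : ℕ) := by
    apply small63 hl hτ
    intro c hc
    rw [hT, Finset.mem_image] at hc
    obtain ⟨v, hv, rfl⟩ := hc
    obtain ⟨a1, a2, a3, a4⟩ := hPm v hv
    refine ⟨?_, sub_ne_zero.mpr a3, a4⟩
    obtain ⟨k, hk⟩ := Nat.dvd_lcm_left s s'
    obtain ⟨k', hk'⟩ := Nat.dvd_lcm_right s s'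
    rw [nsmul_sub]
    have e1 : (Nat.lcm s s') • v.1 = 0 := by
      rw [hk, mul_comm, mul_nsmul', a1, nsmul_zero]
    have e2 : (Nat.lcm s s') • v.2 = 0 := by
      rw [hk', mul_comm, mul_nsmul', a2, nsmul_zero]
    rw [e1, e2, sub_zero]
  have h2 : P.card ≤ Nat.gcd s s' * T.card := by
    apply Finset.card_le_mul_card_image_of_maps_to (f := fun v => v.1 - v.2)
    · intro v hv
      exact Finset.mem_image_of_mem _ hv
    · intro c _
      rcases Finset.eq_empty_or_nonempty (P.filter fun v => v.1 - v.2 = c) with he | ⟨v0, hv0⟩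
      · rw [he]; simp
      rw [Finset.mem_filter] at hv0
      obtain ⟨b1, b2⟩ := hv0
      have hinj : Set.InjOn (fun v : UnitAddCircle × UnitAddCircle => v.1 - v0.1)
          ((P.filter fun v => v.1 - v.2 = c : Finset _) : Set (UnitAddCircle × UnitAddCircle)) := by
        intro v hv w hw hvw
        rw [Finset.mem_coe, Finset.mem_filter] at hv hw
        have e1 : v.1 = w.1 := by simpa using hvw
        have e2 : v.2 = w.2 := by
          have h3 : v.1 - v.2 = w.1 - w.2 := hv.2.trans hw.2.symm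
          rw [e1] at h3
          exact sub_right_inj.mp h3
        exact Prod.ext e1 e2
      rw [← Finset.card_image_of_injOn hinj]
      apply tors63 hg
      intro u hu
      rw [Finset.mem_image] at hu
      obtain ⟨v, hv, rfl⟩ := hu
      rw [Finset.mem_filter] at hv
      obtain ⟨a1, a2, -, -⟩ := hPm v hv.1
      obtain ⟨c1, c2, -, -⟩ := hPm v0 b1
      have e1 : s • (v.1 - v0.1) = 0 := by rw [nsmul_sub, a1, c1, sub_zero]
      have e3 : v.1 - v0.1 = v.2 - v0.2 := by
        have h3 : v.1 - v.2 = v0.1 - v0.2 := hv.2.trans b2.symm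
        have := sub_eq_sub_iff_sub_eq_sub.mp h3
        exact this
      have e2 : s' • (v.1 - v0.1) = 0 := by rw [e3, nsmul_sub, a2, c2, sub_zero]
      have d1 : addOrderOf (v.1 - v0.1) ∣ s := addOrderOf_dvd_iff_nsmul_eq_zero.mpr e1
      have d2 : addOrderOf (v.1 - v0.1) ∣ s' := addOrderOf_dvd_iff_nsmul_eq_zero.mpr e2
      exact addOrderOf_dvd_iff_nsmul_eq_zero.mp (Nat.dvd_gcd d1 d2)
  have h3 : (Nat.gcd s s' : ℝ) * (Nat.lcm s s' : ℝ) = (s : ℝ) * s' := by
    exact_mod_cast Nat.gcd_mul_lcm s s'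
  have h4 : (P.card : ℝ) ≤ (Nat.gcd s s' : ℝ) * T.card := by exact_mod_cast h2
  calc (P.card : ℝ) ≤ (Nat.gcd s s' : ℝ) * T.card := h4
    _ ≤ (Nat.gcd s s' : ℝ) * (2 * τ * (Nat.lcm s s' : ℕ)) :=
        mul_le_mul_of_nonneg_left h1 (Nat.cast_nonneg _)
    _ = 2 * τ * ((Nat.gcd s s' : ℝ) * (Nat.lcm s s' : ℝ)) := by ring
    _ = 2 * τ * s * s' := by rw [h3]; ring

/-- Overlap of two families of arcs: every `z` in the intersection is within `t` of some
`a ∈ pt q` and some `a' ∈ pt q'`; `a ≠ a'` (different orders), `‖a - a'‖ ≤ 2 t`; there are at most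
`4 t q q'` such pairs (`pair_count`), and each contributes a subset of an arc of length `2 t`. -/
theorem volume_cl_inter_le {t : ℝ} (ht : 0 ≤ t) {q q' : ℕ} (h : q ≠ q') :
    volume.real (cl t q ∩ cl t q') ≤ 8 * t ^ 2 * q * q' := by
  classical
  set P := (pt q ×ˢ pt q').filter fun v => v.1 ≠ v.2 ∧ ‖v.1 - v.2‖ ≤ 2 * t with hP
  have hsub : cl t q ∩ cl t q' ⊆ ⋃ v ∈ P, {z : UnitAddCircle | ‖z - v.1‖ ≤ t} := by
    rintro z ⟨⟨a, ha, h1⟩, ⟨a', ha', h2⟩⟩
    rw [Set.mem_iUnion₂]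
    refine ⟨(a, a'), ?_, h1⟩
    rw [hP, Finset.mem_filter, Finset.mem_product]
    refine ⟨⟨ha, ha'⟩, ?_, ?_⟩
    · intro hh
      apply h
      have hh' : a = a' := hh
      rw [← (addOrderOf_of_mem_pt ha).1, ← (addOrderOf_of_mem_pt ha').1, hh']
    · calc ‖a - a'‖ = ‖(z - a') - (z - a)‖ := by congr 1; abel
        _ ≤ ‖z - a'‖ + ‖z - a‖ := norm_sub_le _ _
        _ ≤ 2 * t := by linarith
  have hcount : (P.card : ℝ) ≤ 2 * (2 * t) * q * q' := pair_count q q' (by linarith)
  calc volume.real (cl t q ∩ cl t q')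
      ≤ volume.real (⋃ v ∈ P, {z : UnitAddCircle | ‖z - v.1‖ ≤ t}) :=
        measureReal_mono hsub (measure_ne_top _ _)
    _ ≤ ∑ v ∈ P, volume.real {z : UnitAddCircle | ‖z - v.1‖ ≤ t} :=
        measureReal_biUnion_finset_le _ _
    _ ≤ ∑ _v ∈ P, 2 * t := Finset.sum_le_sum fun v _ => volume_ball_le ht v.1
    _ = P.card * (2 * t) := by rw [Finset.sum_const, nsmul_eq_mul]
    _ ≤ (2 * (2 * t) * q * q') * (2 * t) := mul_le_mul_of_nonneg_right hcount (by linarith)
    _ = 8 * t ^ 2 * q * q' := by ring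

end Pool.Agent.Helper25.MOB
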