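import Pool.Agent.Helper25.MOB.X7

/-!
The final form of the theorem of project MOB.
-/

namespace Pool.Agent.Helper25.MOB

theorem final : ∀ ε : ℝ, 0 < ε → ∃ N₀ : ℕ, ∀ N : ℕ, N₀ ≤ N →
    (N : ℝ) ^ (2 / 7 - ε) ≤ ∫ x in (0 : ℝ)..1, ‖∑ n ∈ Finset.Icc 1 N,
      ((ArithmeticFunction.moebius n : ℤ) : ℂ) *
        Complex.exp (2 * Real.pi * Complex.I * n * x)‖ := by
  intro ε hε
  exact Filter.eventually_atTop.1 (L1_main hε)

end Pool.Agent.Helper25.MOB
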