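import Pool.Agent.Helper25.MOB.C3

/-!
Block MOB-T1.  Ratios of primes modulo `p²`.

Let `Z ≥ 3`, `p` a prime in `[Z, 2Z)`, `A, B` integers, `p ∤ A`.  Count the pairs `v = (v.1, v.2)` of primes
of `[Z, 2Z)`, `v.1, v.2, p` distinct, with `p² ∣ v.2² A - v.1² B`.

Fix one such pair `u`.  For another one `v`: `v.2² A ≡ v.1² B`, `u.2² A ≡ u.1² B`, so
`v.2² u.1² A ≡ v.1² u.1² B ≡ v.1² u.2² A` and `p² ∣ (v.2 u.1 - v.1 u.2)(v.2 u.1 + v.1 u.2)`.  `p` does not divide both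
factors (it would divide `2 v.2 u.1`, but `p ≥ 3` and `p ≠ v.2, u.1`), so `p²` divides one of them.
Class (-): `v.2 u.1 ≡ v.1 u.2`; class (+): `v.2 u.1 ≡ - v.1 u.2`.  For `v, w` in the same class
`v.2 w.1 u.1 ≡ ± v.1 u.2 w.1 ≡ v.1 w.2 u.1`, so `p² ∣ v.2 w.1 - v.1 w.2 = - det2 v w`.  If `v ≠ w` this is not `0`
(`det2_ne_zero`), so the slopes `v.2 / v.1`, `w.2 / w.1` differ by at least `p² / (v.1 w.1) > Z² / (4 Z²) = 1/4`.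
All slopes are in `(1/2, 2)`, so each class has at most `7` elements (`separated_real` with `ℓ = 3/2`).
-/

namespace Pool.Agent.Helper25.MOB

private theorem class_card53 {Z p : ℕ} (hZ : 3 ≤ Z) (hp : p ∈ primesIn Z) (s : Finset (ℕ × ℕ))
    (hs : ∀ v ∈ s, v.1 ∈ primesIn Z ∧ v.2 ∈ primesIn Z ∧ v.1 ≠ v.2)
    (hdet : ∀ v ∈ s, ∀ w ∈ s, (p : ℤ) ^ 2 ∣ det2 v w) : s.card ≤ 7 := by
  classical
  rcases s.eq_empty_or_nonempty with he | hne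
  · rw [he, Finset.card_empty]
    omega
  have hZr : (3 : ℝ) ≤ (Z : ℝ) := by exact_mod_cast hZ
  have hpZ : (Z : ℝ) ≤ (p : ℝ) := by exact_mod_cast (mem_primesIn.mp hp).1.1
  have hb1 : ∀ h ∈ primesIn Z, (Z : ℝ) ≤ (h : ℝ) ∧ (h : ℝ) < 2 * (Z : ℝ) := by
    intro h hh
    have h1 := (mem_primesIn.mp hh).1
    exact ⟨by exact_mod_cast h1.1, by exact_mod_cast h1.2⟩
  have hsep : ∀ v ∈ s, ∀ w ∈ s, v ≠ w →
      (1 / 4 : ℝ) ≤ |(v.2 : ℝ) / v.1 - (w.2 : ℝ) / w.1| := by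
    intro v hv w hw hvw
    obtain ⟨hv1, hv2, hv3⟩ := hs v hv
    obtain ⟨hw1, hw2, -⟩ := hs w hw
    have hne := det2_ne_zero (mem_primesIn.mp hv1).2 (mem_primesIn.mp hv2).2
      (mem_primesIn.mp hw1).2 (mem_primesIn.mp hw2).2 hv3 hvw
    have hge : (p : ℤ) ^ 2 ≤ |det2 v w| :=
      Int.le_of_dvd (abs_pos.mpr hne) ((dvd_abs _ _).mpr (hdet v hv w hw))
    have hge' : (p : ℝ) ^ 2 ≤ |((det2 v w : ℤ) : ℝ)| := by
      have h1 : (((p : ℤ) ^ 2 : ℤ) : ℝ) ≤ ((|det2 v w| : ℤ) : ℝ) := by exact_mod_cast hge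
      rw [Int.cast_abs] at h1
      push_cast at h1
      exact h1
    have h1 := hb1 v.1 hv1
    have h2 := hb1 w.1 hw1
    have h3 : 0 < (v.1 : ℝ) * w.1 := by
      apply mul_pos <;> linarith
    have h4 : (v.1 : ℝ) ≠ 0 := by linarith
    have h5 : (w.1 : ℝ) ≠ 0 := by linarith
    have hslope : (v.2 : ℝ) / v.1 - (w.2 : ℝ) / w.1 =
        -(((det2 v w : ℤ) : ℝ) / ((v.1 : ℝ) * w.1)) := by
      unfold det2
      push_cast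
      field_simp
      ring
    rw [hslope, abs_neg, abs_div, abs_of_pos h3, le_div_iff₀ h3]
    nlinarith
  have hinj : Set.InjOn (fun v : ℕ × ℕ => (v.2 : ℝ) / v.1) (s : Set (ℕ × ℕ)) := by
    intro v hv w hw hvw
    by_contra hne
    have h1 := hsep v hv w hw hne
    have hvw' : (v.2 : ℝ) / v.1 = (w.2 : ℝ) / w.1 := hvw
    rw [hvw', sub_self, abs_zero] at h1
    linarith
  have key := separated_real (s.image fun v : ℕ × ℕ => (v.2 : ℝ) / v.1)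
    (g := (1 / 4 : ℝ)) (x := 1 / 2) (ℓ := 3 / 2) (by norm_num) (hne.image _) (by
      intro u hu v hv huv
      obtain ⟨u', hu', rfl⟩ := Finset.mem_image.mp hu
      obtain ⟨v', hv', rfl⟩ := Finset.mem_image.mp hv
      exact hsep u' hu' v' hv' (fun h => huv (by rw [h]))) (by
      intro u hu
      obtain ⟨v, hv, rfl⟩ := Finset.mem_image.mp hu
      obtain ⟨hv1, hv2, -⟩ := hs v hv
      have h1 := hb1 v.1 hv1
      have h2 := hb1 v.2 hv2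
      have h3 : (0 : ℝ) < (v.1 : ℝ) := by linarith
      constructor
      · show (1 / 2 : ℝ) ≤ (v.2 : ℝ) / v.1
        rw [le_div_iff₀ h3]
        linarith
      · show (v.2 : ℝ) / v.1 ≤ 1 / 2 + 3 / 2
        rw [div_le_iff₀ h3]
        linarith)
  rw [Finset.card_image_of_injOn hinj] at key
  have h1 : (s.card : ℝ) ≤ 7 := by linarith
  exact_mod_cast h1

private theorem split53 {p : ℕ} (hp : p.Prime) {X Y : ℤ} (h : (p : ℤ) ^ 2 ∣ X * Y)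
    (hno : ¬ ((p : ℤ) ∣ X ∧ (p : ℤ) ∣ Y)) : (p : ℤ) ^ 2 ∣ X ∨ (p : ℤ) ^ 2 ∣ Y := by
  have hpi : Prime (p : ℤ) := Nat.prime_iff_prime_int.mp hp
  by_cases hX : (p : ℤ) ∣ X
  · have hY : ¬ (p : ℤ) ∣ Y := fun hY => hno ⟨hX, hY⟩
    left
    have hc : IsCoprime ((p : ℤ) ^ 2) Y := IsCoprime.pow_left ((Prime.coprime_iff_not_dvd hpi).2 hY)
    exact hc.dvd_of_dvd_mul_right h
  · right
    have hc : IsCoprime ((p : ℤ) ^ 2) X := IsCoprime.pow_left ((Prime.coprime_iff_not_dvd hpi).2 hX)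
    exact hc.dvd_of_dvd_mul_left h

theorem count_ratio {Z p : ℕ} (hZ : 3 ≤ Z) (hp : p ∈ primesIn Z) (A B : ℤ) (hA : ¬ (p : ℤ) ∣ A) :
    ((primesIn Z ×ˢ primesIn Z).filter fun v => v.1 ≠ p ∧ v.2 ≠ p ∧ v.1 ≠ v.2 ∧
      (p : ℤ) ^ 2 ∣ (v.2 : ℤ) ^ 2 * A - (v.1 : ℤ) ^ 2 * B).card ≤ 14 := by
  classical
  obtain ⟨S, hS⟩ : ∃ S, S = ((primesIn Z ×ˢ primesIn Z).filter fun v => v.1 ≠ p ∧ v.2 ≠ p ∧ v.1 ≠ v.2 ∧
      (p : ℤ) ^ 2 ∣ (v.2 : ℤ) ^ 2 * A - (v.1 : ℤ) ^ 2 * B) := ⟨_, rfl⟩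
  rw [← hS]
  rcases S.eq_empty_or_nonempty with he | ⟨u, hu⟩
  · rw [he, Finset.card_empty]
    omega
  have hmem : ∀ v ∈ S, v.1 ∈ primesIn Z ∧ v.2 ∈ primesIn Z ∧ v.1 ≠ p ∧ v.2 ≠ p ∧ v.1 ≠ v.2 ∧
      (p : ℤ) ^ 2 ∣ (v.2 : ℤ) ^ 2 * A - (v.1 : ℤ) ^ 2 * B := by
    intro v hv
    rw [hS, Finset.mem_filter, Finset.mem_product] at hv
    exact ⟨hv.1.1, hv.1.2, hv.2.1, hv.2.2.1, hv.2.2.2.1, hv.2.2.2.2⟩
  have hpp : p.Prime := (mem_primesIn.mp hp).2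
  have hpZ : Z ≤ p := (mem_primesIn.mp hp).1.1
  have hpi : Prime (p : ℤ) := Nat.prime_iff_prime_int.mp hpp
  have hndvd : ∀ h ∈ primesIn Z, h ≠ p → ¬ (p : ℤ) ∣ (h : ℤ) := by
    intro h hh hne hd
    have h1 : p ∣ h := by exact_mod_cast hd
    exact hne ((Nat.prime_dvd_prime_iff_eq hpp (mem_primesIn.mp hh).2).1 h1).symm
  obtain ⟨hu1, hu2, hu3, hu4, hu5, hu6⟩ := hmem u hu
  have hcu : IsCoprime ((p : ℤ) ^ 2) (u.1 : ℤ) :=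
    IsCoprime.pow_left ((Prime.coprime_iff_not_dvd hpi).2 (hndvd u.1 hu1 hu3))
  have hcA : IsCoprime ((p : ℤ) ^ 2) A := IsCoprime.pow_left ((Prime.coprime_iff_not_dvd hpi).2 hA)
  obtain ⟨C₁, hC₁⟩ : ∃ C, C = S.filter fun v => (p : ℤ) ^ 2 ∣ (u.1 : ℤ) * v.2 - (v.1 : ℤ) * u.2 := ⟨_, rfl⟩
  obtain ⟨C₂, hC₂⟩ : ∃ C, C = S.filter fun v => (p : ℤ) ^ 2 ∣ (u.1 : ℤ) * v.2 + (v.1 : ℤ) * u.2 := ⟨_, rfl⟩
  have hsub : S ⊆ C₁ ∪ C₂ := by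
    intro v hv
    obtain ⟨hv1, hv2, hv3, hv4, hv5, hv6⟩ := hmem v hv
    have h1 : (p : ℤ) ^ 2 ∣ A * (((u.1 : ℤ) * v.2 - (v.1 : ℤ) * u.2) * ((u.1 : ℤ) * v.2 + (v.1 : ℤ) * u.2)) := by
      have h2 := dvd_sub (hv6.mul_left ((u.1 : ℤ) ^ 2)) (hu6.mul_left ((v.1 : ℤ) ^ 2))
      have e : A * (((u.1 : ℤ) * v.2 - (v.1 : ℤ) * u.2) * ((u.1 : ℤ) * v.2 + (v.1 : ℤ) * u.2)) =
          (u.1 : ℤ) ^ 2 * ((v.2 : ℤ) ^ 2 * A - (v.1 : ℤ) ^ 2 * B) -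
            (v.1 : ℤ) ^ 2 * ((u.2 : ℤ) ^ 2 * A - (u.1 : ℤ) ^ 2 * B) := by ring
      rw [e]
      exact h2
    have h2 := hcA.dvd_of_dvd_mul_left h1
    have h3 := split53 hpp h2 (by
      rintro ⟨h3, h4⟩
      have h5 : (p : ℤ) ∣ 2 * ((u.1 : ℤ) * v.2) := by
        have h6 := dvd_add h3 h4
        have e : ((u.1 : ℤ) * v.2 - (v.1 : ℤ) * u.2) + ((u.1 : ℤ) * v.2 + (v.1 : ℤ) * u.2) =
            2 * ((u.1 : ℤ) * v.2) := by ring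
        rwa [e] at h6
      rcases hpi.dvd_or_dvd h5 with h6 | h6
      · have h7 : p ∣ 2 := by exact_mod_cast h6
        have h8 := Nat.le_of_dvd (by norm_num) h7
        omega
      · rcases hpi.dvd_or_dvd h6 with h7 | h7
        · exact hndvd u.1 hu1 hu3 h7
        · exact hndvd v.2 hv2 hv4 h7)
    rw [Finset.mem_union, hC₁, hC₂, Finset.mem_filter, Finset.mem_filter]
    rcases h3 with h3 | h3
    · exact Or.inl ⟨hv, h3⟩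
    · exact Or.inr ⟨hv, h3⟩
  have hc1 : C₁.card ≤ 7 := by
    refine class_card53 hZ hp C₁ (fun v hv => ?_) (fun v hv w hw => ?_)
    · rw [hC₁, Finset.mem_filter] at hv
      obtain ⟨hv1, hv2, hv3, hv4, hv5, hv6⟩ := hmem v hv.1
      exact ⟨hv1, hv2, hv5⟩
    · rw [hC₁, Finset.mem_filter] at hv hw
      refine hcu.dvd_of_dvd_mul_left ?_
      have h1 := dvd_sub (hw.2.mul_left (v.1 : ℤ)) (hv.2.mul_left (w.1 : ℤ))
      have e : (u.1 : ℤ) * det2 v w = (v.1 : ℤ) * ((u.1 : ℤ) * w.2 - (w.1 : ℤ) * u.2) -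
          (w.1 : ℤ) * ((u.1 : ℤ) * v.2 - (v.1 : ℤ) * u.2) := by
        unfold det2
        ring
      rw [e]
      exact h1
  have hc2 : C₂.card ≤ 7 := by
    refine class_card53 hZ hp C₂ (fun v hv => ?_) (fun v hv w hw => ?_)
    · rw [hC₂, Finset.mem_filter] at hv
      obtain ⟨hv1, hv2, hv3, hv4, hv5, hv6⟩ := hmem v hv.1
      exact ⟨hv1, hv2, hv5⟩
    · rw [hC₂, Finset.mem_filter] at hv hw
      refine hcu.dvd_of_dvd_mul_left ?_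
      have h1 := dvd_sub (hw.2.mul_left (v.1 : ℤ)) (hv.2.mul_left (w.1 : ℤ))
      have e : (u.1 : ℤ) * det2 v w = (v.1 : ℤ) * ((u.1 : ℤ) * w.2 + (w.1 : ℤ) * u.2) -
          (w.1 : ℤ) * ((u.1 : ℤ) * v.2 + (v.1 : ℤ) * u.2) := by
        unfold det2
        ring
      rw [e]
      exact h1
  calc S.card ≤ (C₁ ∪ C₂).card := Finset.card_le_card hsub
    _ ≤ C₁.card + C₂.card := Finset.card_union_le _ _
    _ ≤ 14 := by omega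

end Pool.Agent.Helper25.MOB
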