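import Pool.Agent.Helper25.MOB.Pair

/-!
Block MOB-T2.  Triples of points of given orders, pairwise close.

`close_repr`: if `r₁, r₂` have orders `s₁, s₂`, `r₁ ≠ r₂`, `‖r₁ - r₂‖ ≤ τ`, then `r₁ - r₂ = b / (s₁ s₂)` for an integer
`b ≠ 0` with `|b| ≤ τ s₁ s₂` (`s₁ s₂` kills `r₁ - r₂`; lift `r₁ - r₂` to the real number `x` with `|x| = ‖r₁ - r₂‖`; then
`s₁ s₂ x` is an integer).
`relation`: if `r₁ - r₂ = b₁₂ / (s₁ s₂)` and `r₁ - r₃ = b₁₃ / (s₁ s₃)` then `s₁ ∣ s₂ b₁₃ - s₃ b₁₂`: `s₂ s₃` kills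
`r₂ - r₃ = (s₂ b₁₃ - s₃ b₁₂) / (s₁ s₂ s₃)`, so `(s₂ b₁₃ - s₃ b₁₂) / s₁` is an integer.
`count_first`: for given `b` the set of `r₁ ∈ pt s₁` such that `r₁ - b / (s₁ s₂)` is killed by `s₂` has at most
`gcd s₁ s₂` elements, and `gcd s₁ s₂ ∣ b` if it is nonempty: `s₂ r₁ = b / s₁`; with `g = gcd s₁ s₂` the point
`(s₁ / g) s₂ r₁` is `0` and equals `b / g`, so `g ∣ b`; the difference of two solutions is killed by `s₁` and
`s₂`, hence by `g`.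
`fixed_orders`: the number of triples `(r₁, r₂, r₃)` of orders `s₁, s₂, s₃` with `r₁ ≠ r₂`, `r₁ ≠ r₃` and
`‖r₁ - r₂‖, ‖r₁ - r₃‖ ≤ τ`: the triple is determined by `r₁, b₁₂, b₁₃`.
-/

namespace Pool.Agent.Helper25.MOB

/-- The nonzero integers of absolute value at most `X`. -/
noncomputable def nz (X : ℝ) : Finset ℤ := (Finset.Icc (-⌊X⌋) ⌊X⌋).filter fun b => b ≠ 0

private theorem coe_int68 (k : ℤ) : (((k : ℤ) : ℝ) : UnitAddCircle) = 0 := by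
  rw [AddCircle.coe_eq_zero_iff]
  exact ⟨k, by simp⟩

private theorem coe_zero68 {x : ℝ} (h : ((x : ℝ) : UnitAddCircle) = 0) : ∃ k : ℤ, x = k := by
  rw [AddCircle.coe_eq_zero_iff] at h
  obtain ⟨k, hk⟩ := h
  exact ⟨k, by rw [← hk]; simp⟩

private theorem lift68 {n : ℕ} (hn : 0 < n) {u : UnitAddCircle} (hu : n • u = 0) :
    ∃ b : ℤ, u = (((b : ℝ) / n : ℝ) : UnitAddCircle) ∧ ‖u‖ = |(b : ℝ)| / n := by
  obtain ⟨x0, hx0⟩ := QuotientAddGroup.mk_surjective u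
  have hx : ((x0 : ℝ) : UnitAddCircle) = u := hx0
  have h1 : ((x0 - round x0 : ℝ) : UnitAddCircle) = u := by
    rw [AddCircle.coe_sub, coe_int68, sub_zero, hx]
  have h2 : n • ((x0 - round x0 : ℝ) : UnitAddCircle) = 0 := by rw [h1]; exact hu
  rw [← AddCircle.coe_nsmul] at h2
  obtain ⟨b, hb⟩ := coe_zero68 h2
  have hn' : (0 : ℝ) < n := by exact_mod_cast hn
  have h3 : x0 - round x0 = (b : ℝ) / n := by
    rw [eq_div_iff hn'.ne', mul_comm, ← hb, nsmul_eq_mul]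
  refine ⟨b, ?_, ?_⟩
  · rw [← h3, h1]
  · rw [← hx, UnitAddCircle.norm_eq, h3, abs_div, abs_of_pos hn']

private theorem torsion68 {g : ℕ} (hg : 0 < g) {x : UnitAddCircle} (h : g • x = 0) :
    ∃ m ∈ Finset.range g, (((m : ℝ) / g : ℝ) : UnitAddCircle) = x := by
  obtain ⟨b, hb, -⟩ := lift68 hg h
  have hg' : (0 : ℤ) < g := by exact_mod_cast hg
  have hg'' : (0 : ℝ) < g := by exact_mod_cast hg
  refine ⟨(b % g).toNat, ?_, ?_⟩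
  · rw [Finset.mem_range]
    have h1 := Int.emod_nonneg b hg'.ne'
    have h2 := Int.emod_lt_of_pos b hg'
    omega
  · have h1 : (((b % g).toNat : ℕ) : ℤ) = b % g := Int.toNat_of_nonneg (Int.emod_nonneg b hg'.ne')
    have h2 : ((((b % g).toNat : ℕ) : ℝ)) = ((b % g : ℤ) : ℝ) := by
      rw [← Int.cast_natCast, h1]
    have h3 : (b : ℝ) / g = (((b % g).toNat : ℕ) : ℝ) / g + ((b / g : ℤ) : ℝ) := by
      rw [h2]
      have h4 : (b : ℝ) = ((b % g : ℤ) : ℝ) + (g : ℝ) * ((b / g : ℤ) : ℝ) := by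
        have h5 := Int.emod_add_mul_ediv b g
        exact_mod_cast h5.symm
      rw [div_add' _ _ _ hg''.ne', div_left_inj' hg''.ne']
      rw [h4]
      ring
    rw [hb, h3, AddCircle.coe_add, coe_int68, add_zero]

private theorem smul_pt68 {s : ℕ} {r : UnitAddCircle} (h : r ∈ pt s) : s • r = 0 := by
  obtain ⟨h1, -⟩ := addOrderOf_of_mem_pt h
  rw [← h1]
  exact addOrderOf_nsmul_eq_zero r

theorem mem_nz {X : ℝ} {b : ℤ} : b ∈ nz X ↔ b ≠ 0 ∧ |(b : ℝ)| ≤ X := by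
  rw [nz, Finset.mem_filter, Finset.mem_Icc, and_comm, ← abs_le, Int.le_floor, Int.cast_abs]

theorem close_repr {s₁ s₂ : ℕ} {r₁ r₂ : UnitAddCircle} (h₁ : r₁ ∈ pt s₁) (h₂ : r₂ ∈ pt s₂)
    (hne : r₁ ≠ r₂) {τ : ℝ} (h : ‖r₁ - r₂‖ ≤ τ) :
    ∃ b ∈ nz (τ * s₁ * s₂),
      r₁ - r₂ = ((((b : ℝ) / ((s₁ : ℝ) * s₂)) : ℝ) : UnitAddCircle) := by
  have hs₁ := (addOrderOf_of_mem_pt h₁).2
  have hs₂ := (addOrderOf_of_mem_pt h₂).2
  have h3 : (s₁ * s₂) • (r₁ - r₂) = 0 := by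
    rw [nsmul_sub, mul_nsmul, smul_pt68 h₁, nsmul_zero, mul_comm, mul_nsmul, smul_pt68 h₂, nsmul_zero,
      sub_zero]
  obtain ⟨b, hb, hb'⟩ := lift68 (Nat.mul_pos hs₁ hs₂) h3
  rw [Nat.cast_mul] at hb hb'
  refine ⟨b, mem_nz.mpr ⟨?_, ?_⟩, hb⟩
  · rintro rfl
    apply hne
    have h4 : r₁ - r₂ = 0 := by
      rw [hb]
      simp
    exact sub_eq_zero.mp h4
  · have h5 : (0 : ℝ) < (s₁ : ℝ) * s₂ := by
      have h6 : (0 : ℝ) < s₁ := by exact_mod_cast hs₁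
      have h7 : (0 : ℝ) < s₂ := by exact_mod_cast hs₂
      positivity
    rw [hb', div_le_iff₀ h5] at h
    linarith

theorem relation {s₁ s₂ s₃ : ℕ} {r₁ r₂ r₃ : UnitAddCircle} (h₁ : r₁ ∈ pt s₁) (h₂ : r₂ ∈ pt s₂)
    (h₃ : r₃ ∈ pt s₃) {b₁₂ b₁₃ : ℤ}
    (h₁₂ : r₁ - r₂ = ((((b₁₂ : ℝ) / ((s₁ : ℝ) * s₂)) : ℝ) : UnitAddCircle))
    (h₁₃ : r₁ - r₃ = ((((b₁₃ : ℝ) / ((s₁ : ℝ) * s₃)) : ℝ) : UnitAddCircle)) :
    (s₁ : ℤ) ∣ s₂ * b₁₃ - s₃ * b₁₂ := by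
  have hs₁ : (0 : ℝ) < s₁ := by exact_mod_cast (addOrderOf_of_mem_pt h₁).2
  have hs₂ : (0 : ℝ) < s₂ := by exact_mod_cast (addOrderOf_of_mem_pt h₂).2
  have hs₃ : (0 : ℝ) < s₃ := by exact_mod_cast (addOrderOf_of_mem_pt h₃).2
  have h4 : (s₂ * s₃) • (r₂ - r₃) = 0 := by
    rw [nsmul_sub, mul_nsmul, smul_pt68 h₂, nsmul_zero, mul_comm, mul_nsmul, smul_pt68 h₃, nsmul_zero,
      sub_zero]
  have h5 : r₂ - r₃ = (((b₁₃ : ℝ) / ((s₁ : ℝ) * s₃) - (b₁₂ : ℝ) / ((s₁ : ℝ) * s₂) : ℝ) : UnitAddCircle) := by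
    rw [AddCircle.coe_sub, ← h₁₂, ← h₁₃]
    abel
  rw [h5, ← AddCircle.coe_nsmul] at h4
  obtain ⟨k, hk⟩ := coe_zero68 h4
  refine ⟨k, ?_⟩
  have h6 : (s₂ : ℝ) * b₁₃ - s₃ * b₁₂ = s₁ * k := by
    rw [← hk, nsmul_eq_mul, Nat.cast_mul]
    field_simp
  exact_mod_cast h6

open scoped Classical in
theorem count_first {s₁ s₂ : ℕ} (h₁ : 0 < s₁) (h₂ : 0 < s₂) (b : ℤ) :
    ((pt s₁).filter fun r => s₂ • (r - ((((b : ℝ) / ((s₁ : ℝ) * s₂)) : ℝ) : UnitAddCircle)) = 0).card ≤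
      if ((s₁.gcd s₂ : ℕ) : ℤ) ∣ b then s₁.gcd s₂ else 0 := by
  rcases Finset.eq_empty_or_nonempty ((pt s₁).filter fun r =>
    s₂ • (r - ((((b : ℝ) / ((s₁ : ℝ) * s₂)) : ℝ) : UnitAddCircle)) = 0) with h0 | ⟨r₀, hr₀⟩
  · rw [h0, Finset.card_empty]
    exact Nat.zero_le _
  · obtain ⟨hr₀, hr₀'⟩ := Finset.mem_filter.mp hr₀
    have hs₁ : (0 : ℝ) < s₁ := by exact_mod_cast h₁
    have hs₂ : (0 : ℝ) < s₂ := by exact_mod_cast h₂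
    have hg : 0 < s₁.gcd s₂ := Nat.gcd_pos_of_pos_left _ h₁
    have hgR : (0 : ℝ) < (s₁.gcd s₂ : ℕ) := by exact_mod_cast hg
    obtain ⟨u, hu⟩ := Nat.gcd_dvd_left s₁ s₂
    obtain ⟨v, hv⟩ := Nat.gcd_dvd_right s₁ s₂
    have hdvd : ((s₁.gcd s₂ : ℕ) : ℤ) ∣ b := by
      have h3 : s₂ • r₀ = (((b : ℝ) / (s₁ : ℝ) : ℝ) : UnitAddCircle) := by
        rw [nsmul_sub, sub_eq_zero] at hr₀'
        rw [hr₀', ← AddCircle.coe_nsmul, nsmul_eq_mul]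
        congr 1
        field_simp
      have h4 : u • (s₂ • r₀) = 0 := by
        rw [← mul_nsmul]
        have h5 : s₂ * u = s₁ * v := by
          calc s₂ * u = (s₁.gcd s₂ * v) * u := by rw [← hv]
            _ = (s₁.gcd s₂ * u) * v := by ring
            _ = s₁ * v := by rw [← hu]
        rw [h5, mul_nsmul, smul_pt68 hr₀, nsmul_zero]
      rw [h3, ← AddCircle.coe_nsmul] at h4
      obtain ⟨k, hk⟩ := coe_zero68 h4
      refine ⟨k, ?_⟩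
      have h6 : (b : ℝ) = (s₁.gcd s₂ : ℕ) * k := by
        rw [nsmul_eq_mul] at hk
        rw [← hk]
        have h7 : (s₁ : ℝ) = (s₁.gcd s₂ : ℕ) * (u : ℝ) := by exact_mod_cast hu
        have h8 : (u : ℝ) ≠ 0 := by
          intro h9
          rw [h9, mul_zero] at h7
          exact hs₁.ne' h7
        have h10 : (b : ℝ) / s₁ = (b : ℝ) / ((s₁.gcd s₂ : ℕ) * (u : ℝ)) := by rw [← h7]
        rw [h10]
        field_simp
      exact_mod_cast h6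
    rw [if_pos hdvd]
    have hsub : ((pt s₁).filter fun r =>
        s₂ • (r - ((((b : ℝ) / ((s₁ : ℝ) * s₂)) : ℝ) : UnitAddCircle)) = 0) ⊆
        (Finset.range (s₁.gcd s₂)).image fun m : ℕ =>
          r₀ + (((m : ℝ) / (s₁.gcd s₂ : ℕ) : ℝ) : UnitAddCircle) := by
      intro r hr
      obtain ⟨hr, hr'⟩ := Finset.mem_filter.mp hr
      have h3 : s₁ • (r - r₀) = 0 := by
        rw [nsmul_sub, smul_pt68 hr, smul_pt68 hr₀, sub_zero]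
      have h4 : s₂ • (r - r₀) = 0 := by
        have h5 : r - r₀ = (r - ((((b : ℝ) / ((s₁ : ℝ) * s₂)) : ℝ) : UnitAddCircle)) -
            (r₀ - ((((b : ℝ) / ((s₁ : ℝ) * s₂)) : ℝ) : UnitAddCircle)) := by abel
        rw [h5, nsmul_sub, hr', hr₀', sub_zero]
      have h5 : (s₁.gcd s₂) • (r - r₀) = 0 := by
        rw [← addOrderOf_dvd_iff_nsmul_eq_zero] at h3 h4 ⊢
        exact Nat.dvd_gcd h3 h4
      obtain ⟨m, hm, hm'⟩ := torsion68 hg h5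
      rw [Finset.mem_image]
      exact ⟨m, hm, by rw [hm']; abel⟩
    refine (Finset.card_le_card hsub).trans (Finset.card_image_le.trans ?_)
    rw [Finset.card_range]

open scoped Classical in
theorem fixed_orders (s₁ s₂ s₃ : ℕ) (τ : ℝ) :
    ((pt s₁ ×ˢ pt s₂ ×ˢ pt s₃).filter fun r => (r.1 ≠ r.2.1 ∧ r.1 ≠ r.2.2) ∧
      ‖r.1 - r.2.1‖ ≤ τ ∧ ‖r.1 - r.2.2‖ ≤ τ).card ≤
    ∑ b ∈ nz (τ * s₁ * s₂), ∑ c ∈ nz (τ * s₁ * s₃),
      if ((s₁.gcd s₂ : ℕ) : ℤ) ∣ b ∧ (s₁ : ℤ) ∣ s₂ * c - s₃ * b then s₁.gcd s₂ else 0 := by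
  by_cases h₁ : 0 < s₁
  swap
  · have h0 : s₁ = 0 := by omega
    subst h0
    rw [pt_zero, Finset.empty_product, Finset.filter_empty, Finset.card_empty]
    exact Nat.zero_le _
  by_cases h₂ : 0 < s₂
  swap
  · have h0 : s₂ = 0 := by omega
    subst h0
    rw [pt_zero, Finset.empty_product, Finset.product_empty, Finset.filter_empty, Finset.card_empty]
    exact Nat.zero_le _
  have hsub : ((pt s₁ ×ˢ pt s₂ ×ˢ pt s₃).filter fun r => (r.1 ≠ r.2.1 ∧ r.1 ≠ r.2.2) ∧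
      ‖r.1 - r.2.1‖ ≤ τ ∧ ‖r.1 - r.2.2‖ ≤ τ) ⊆
      (nz (τ * s₁ * s₂) ×ˢ nz (τ * s₁ * s₃)).biUnion fun bc =>
        if (s₁ : ℤ) ∣ s₂ * bc.2 - s₃ * bc.1 then
          ((pt s₁).filter fun r => s₂ • (r - ((((bc.1 : ℝ) / ((s₁ : ℝ) * s₂)) : ℝ) : UnitAddCircle)) =
            0).image fun r => (r, r - ((((bc.1 : ℝ) / ((s₁ : ℝ) * s₂)) : ℝ) : UnitAddCircle),
              r - ((((bc.2 : ℝ) / ((s₁ : ℝ) * s₃)) : ℝ) : UnitAddCircle))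
        else ∅ := by
    rintro ⟨r₁, r₂, r₃⟩ hr
    rw [Finset.mem_filter, Finset.mem_product, Finset.mem_product] at hr
    obtain ⟨⟨hr₁, hr₂, hr₃⟩, ⟨hne₂, hne₃⟩, hd₂, hd₃⟩ := hr
    obtain ⟨b, hb, hb'⟩ := close_repr hr₁ hr₂ hne₂ hd₂
    obtain ⟨c, hc, hc'⟩ := close_repr hr₁ hr₃ hne₃ hd₃
    rw [Finset.mem_biUnion]
    refine ⟨(b, c), Finset.mem_product.mpr ⟨hb, hc⟩, ?_⟩
    have h3 := relation hr₁ hr₂ hr₃ hb' hc'
    rw [if_pos h3, Finset.mem_image]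
    dsimp only at hb' hc' hr₁ hr₂ hr₃ ⊢
    have h4 : r₁ - ((((b : ℝ) / ((s₁ : ℝ) * s₂)) : ℝ) : UnitAddCircle) = r₂ := by
      rw [← hb']
      abel
    have h5 : r₁ - ((((c : ℝ) / ((s₁ : ℝ) * s₃)) : ℝ) : UnitAddCircle) = r₃ := by
      rw [← hc']
      abel
    refine ⟨r₁, Finset.mem_filter.mpr ⟨hr₁, ?_⟩, ?_⟩
    · rw [h4]
      exact smul_pt68 hr₂
    · rw [h4, h5]
  refine (Finset.card_le_card hsub).trans (Finset.card_biUnion_le.trans ?_)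
  rw [Finset.sum_product]
  refine Finset.sum_le_sum fun b _ => Finset.sum_le_sum fun c _ => ?_
  dsimp only
  by_cases h3 : (s₁ : ℤ) ∣ s₂ * c - s₃ * b
  · rw [if_pos h3]
    refine Finset.card_image_le.trans ((count_first h₁ h₂ b).trans ?_)
    by_cases h4 : ((s₁.gcd s₂ : ℕ) : ℤ) ∣ b
    · rw [if_pos h4, if_pos ⟨h4, h3⟩]
    · rw [if_neg h4]
      exact Nat.zero_le _
  · rw [if_neg h3, Finset.card_empty]
    exact Nat.zero_le _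

end Pool.Agent.Helper25.MOB
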