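import Pool.Agent.Helper25.MOB.T1
import Pool.Agent.Helper25.MOB.T2

/-!
Block MOB-T3.  The arithmetic count for fixed `q₁, q₂, q₃, p₁`.

`v = (p₂, p₃)`.  Let `g = gcd q₁ q₂`; `p₁` does not divide `q₂, q₃` (they are in `(0, Z)`), nor `g`.
(i) `p₁ ∤ b`: for given `b, c` the number of `v` is at most `14` (`count_ratio` with `A = q₃ b`, `B = q₂ c`; note
`p₁² ∣ q₂ v.1² c - q₃ v.2² b`).  The number of `b ∈ nz X` with `g ∣ b` is at most `2 X / g`, the number of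
`c` is at most `2 X`.  Total `14 g (2 X / g)(2 X) = 56 X²`.
(ii) `p₁ ∣ b`: then `p₁ ∣ q₂ v.1² c`, so `p₁ ∣ c` (`v.1 ≠ p₁` is a prime).  `b` is a multiple of `g p₁` (coprime): at
most `2 X / (g p₁)` values, `c`: at most `2 X / p₁`, `v`: at most `Z²`, and `p₁ ≥ Z`: total at most `4 X²`.
-/

namespace Pool.Agent.Helper25.MOB

theorem card_nz_le (X : ℝ) (hX : 0 ≤ X) : ((nz X).card : ℝ) ≤ 2 * X := by
  have h0 : 0 ≤ ⌊X⌋ := Int.floor_nonneg.mpr hX
  have h1 : nz X = (Finset.Icc (-⌊X⌋) ⌊X⌋).erase 0 := by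
    rw [nz, Finset.filter_ne']
  have h2 : (0 : ℤ) ∈ Finset.Icc (-⌊X⌋) ⌊X⌋ := Finset.mem_Icc.mpr ⟨by omega, h0⟩
  have h3 : ((nz X).card : ℤ) = 2 * ⌊X⌋ := by
    rw [h1, Finset.card_erase_of_mem h2, Int.card_Icc]
    omega
  have h4 : ((nz X).card : ℝ) = 2 * (⌊X⌋ : ℝ) := by exact_mod_cast h3
  rw [h4]
  have := Int.floor_le X
  linarith

theorem card_nz_dvd_le (X : ℝ) (hX : 0 ≤ X) {g : ℕ} (hg : 0 < g) :
    (((nz X).filter fun b => (g : ℤ) ∣ b).card : ℝ) ≤ 2 * X / g := by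
  have hg' : (0 : ℝ) < g := by exact_mod_cast hg
  have hg'' : (g : ℤ) ≠ 0 := by exact_mod_cast hg.ne'
  have h1 : ((nz X).filter fun b => (g : ℤ) ∣ b).card ≤ (nz (X / g)).card := by
    refine Finset.card_le_card_of_injOn (fun b => b / (g : ℤ)) ?_ ?_
    · intro b hb
      obtain ⟨hb1, k, hk⟩ := Finset.mem_filter.mp (Finset.mem_coe.mp hb)
      obtain ⟨h2, h3⟩ := mem_nz.mp hb1
      have h4 : b / (g : ℤ) = k := by rw [hk, Int.mul_ediv_cancel_left _ hg'']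
      refine Finset.mem_coe.mpr (mem_nz.mpr ⟨?_, ?_⟩)
      · show b / (g : ℤ) ≠ 0
        rw [h4]
        rintro rfl
        exact h2 (by rw [hk, mul_zero])
      · show |((b / (g : ℤ) : ℤ) : ℝ)| ≤ X / g
        rw [h4, le_div_iff₀ hg']
        rw [hk, Int.cast_mul, abs_mul, Int.cast_natCast, abs_of_pos hg'] at h3
        linarith
    · intro b hb c hc hbc
      obtain ⟨_, k, hk⟩ := Finset.mem_filter.mp (Finset.mem_coe.mp hb)
      obtain ⟨_, l, hl⟩ := Finset.mem_filter.mp (Finset.mem_coe.mp hc)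
      have h4 : b / (g : ℤ) = c / (g : ℤ) := hbc
      rw [hk, hl, Int.mul_ediv_cancel_left _ hg'', Int.mul_ediv_cancel_left _ hg''] at h4
      rw [hk, hl, h4]
  have h2 : ((nz (X / g)).card : ℝ) ≤ 2 * (X / g) := card_nz_le _ (by positivity)
  have h3 : (((nz X).filter fun b => (g : ℤ) ∣ b).card : ℝ) ≤ ((nz (X / g)).card : ℝ) := by
    exact_mod_cast h1
  calc _ ≤ _ := h3
    _ ≤ _ := h2
    _ = 2 * X / g := by ring

theorem inner_count {Z q₁ q₂ q₃ p : ℕ} (hZ : 3 ≤ Z) (hp : p ∈ primesIn Z) (hq₁ : 0 < q₁)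
    (hq₂ : 0 < q₂) (hq₃ : 0 < q₃) (hq₁Z : q₁ < Z) (hq₂Z : q₂ < Z) (hq₃Z : q₃ < Z) {X : ℝ}
    (hX : 0 ≤ X) :
    (∑ v ∈ (primesIn Z ×ˢ primesIn Z).filter (fun v => v.1 ≠ p ∧ v.2 ≠ p ∧ v.1 ≠ v.2),
      ∑ b ∈ nz X, ∑ c ∈ nz X,
        (if ((q₁.gcd q₂ : ℕ) : ℤ) ∣ b ∧
          (p : ℤ) ^ 2 ∣ (q₂ : ℤ) * (v.1 : ℤ) ^ 2 * c - (q₃ : ℤ) * (v.2 : ℤ) ^ 2 * b
          then ((q₁.gcd q₂ : ℕ) : ℝ) else 0)) ≤ 60 * X ^ 2 := by
  classical
  obtain ⟨hpI, hpp⟩ := Finset.mem_filter.mp hp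
  have hZp : Z ≤ p := (Finset.mem_Ico.mp hpI).1
  have hp' : Prime (p : ℤ) := Nat.prime_iff_prime_int.mp hpp
  obtain ⟨g, hg⟩ : ∃ g, g = q₁.gcd q₂ := ⟨_, rfl⟩
  rw [← hg]
  have hg0 : 0 < g := by
    rw [hg]
    exact Nat.gcd_pos_of_pos_left _ hq₁
  have hgp : g < p := by
    have h1 : g ≤ q₁ := by
      rw [hg]
      exact Nat.gcd_le_left _ hq₁
    omega
  have hndvd : ∀ q : ℕ, 0 < q → q < p → ¬ (p : ℤ) ∣ (q : ℤ) := by
    intro q h0 h1 h2
    have h3 : p ∣ q := by exact_mod_cast h2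
    exact absurd (Nat.le_of_dvd h0 h3) (by omega)
  have hcop : IsCoprime (g : ℤ) (p : ℤ) := by
    rw [isCoprime_comm]
    exact (Prime.coprime_iff_not_dvd hp').mpr (hndvd g hg0 hgp)
  obtain ⟨P, hP⟩ : ∃ P, P = (primesIn Z ×ˢ primesIn Z).filter
    (fun v => v.1 ≠ p ∧ v.2 ≠ p ∧ v.1 ≠ v.2) := ⟨_, rfl⟩
  rw [← hP]
  have hgR : (0 : ℝ) < g := by exact_mod_cast hg0
  have hpR : (0 : ℝ) < p := by exact_mod_cast hpp.pos
  -- the two cases
  have hsplit : ∀ v ∈ P, ∀ b c : ℤ,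
      (if (g : ℤ) ∣ b ∧ (p : ℤ) ^ 2 ∣ (q₂ : ℤ) * (v.1 : ℤ) ^ 2 * c - (q₃ : ℤ) * (v.2 : ℤ) ^ 2 * b
        then (g : ℝ) else 0) ≤
      (if (g : ℤ) ∣ b then (if ¬ (p : ℤ) ∣ b ∧
        (p : ℤ) ^ 2 ∣ (v.2 : ℤ) ^ 2 * ((q₃ : ℤ) * b) - (v.1 : ℤ) ^ 2 * ((q₂ : ℤ) * c)
          then (g : ℝ) else 0) else 0) +
      (if ((g * p : ℕ) : ℤ) ∣ b then (if (p : ℤ) ∣ c then (g : ℝ) else 0) else 0) := by
    intro v hv b c
    have hnn1 : 0 ≤ (if (g : ℤ) ∣ b then (if ¬ (p : ℤ) ∣ b ∧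
        (p : ℤ) ^ 2 ∣ (v.2 : ℤ) ^ 2 * ((q₃ : ℤ) * b) - (v.1 : ℤ) ^ 2 * ((q₂ : ℤ) * c)
          then (g : ℝ) else 0) else 0) := by
      split_ifs <;> positivity
    have hnn2 : 0 ≤ (if ((g * p : ℕ) : ℤ) ∣ b then (if (p : ℤ) ∣ c then (g : ℝ) else 0) else 0) := by
      split_ifs <;> positivity
    by_cases h : (g : ℤ) ∣ b ∧
        (p : ℤ) ^ 2 ∣ (q₂ : ℤ) * (v.1 : ℤ) ^ 2 * c - (q₃ : ℤ) * (v.2 : ℤ) ^ 2 * b
    · rw [if_pos h]
      obtain ⟨h1, h2⟩ := h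
      by_cases h3 : (p : ℤ) ∣ b
      · have h4 : ((g * p : ℕ) : ℤ) ∣ b := by
          rw [Nat.cast_mul]
          exact hcop.mul_dvd h1 h3
        have h5 : (p : ℤ) ∣ (q₂ : ℤ) * (v.1 : ℤ) ^ 2 * c := by
          have h6 : (p : ℤ) ∣ (q₂ : ℤ) * (v.1 : ℤ) ^ 2 * c - (q₃ : ℤ) * (v.2 : ℤ) ^ 2 * b :=
            (Dvd.intro_left _ (by ring : (p : ℤ) * p = (p : ℤ) ^ 2)).trans h2
          have h7 : (p : ℤ) ∣ (q₃ : ℤ) * (v.2 : ℤ) ^ 2 * b := h3.mul_left _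
          exact (dvd_sub_left h7).mp h6
        have h6 : (p : ℤ) ∣ c := by
          rcases hp'.dvd_or_dvd h5 with h6 | h6
          · exfalso
            rcases hp'.dvd_or_dvd h6 with h7 | h7
            · exact hndvd q₂ hq₂ (by omega) h7
            · have h8 : p ∣ v.1 := by exact_mod_cast hp'.dvd_of_dvd_pow h7
              rw [hP] at hv
              obtain ⟨hv1, hv2, _⟩ := Finset.mem_filter.mp hv
              have hv3 := (Finset.mem_filter.mp (Finset.mem_product.mp hv1).1).2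
              exact hv2 ((Nat.prime_dvd_prime_iff_eq hpp hv3).mp h8).symm
          · exact h6
        have h7 : (if ((g * p : ℕ) : ℤ) ∣ b then (if (p : ℤ) ∣ c then (g : ℝ) else 0) else 0) = g := by
          rw [if_pos h4, if_pos h6]
        linarith
      · have h4 : (p : ℤ) ^ 2 ∣ (v.2 : ℤ) ^ 2 * ((q₃ : ℤ) * b) - (v.1 : ℤ) ^ 2 * ((q₂ : ℤ) * c) := by
          have h5 := (dvd_neg).mpr h2
          have h6 : -((q₂ : ℤ) * (v.1 : ℤ) ^ 2 * c - (q₃ : ℤ) * (v.2 : ℤ) ^ 2 * b) =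
              (v.2 : ℤ) ^ 2 * ((q₃ : ℤ) * b) - (v.1 : ℤ) ^ 2 * ((q₂ : ℤ) * c) := by ring
          rwa [h6] at h5
        rw [if_pos h1, if_pos ⟨h3, h4⟩]
        linarith
    · rw [if_neg h]
      linarith
  -- the first sum
  have hsum1 : ∑ v ∈ P, ∑ b ∈ nz X, ∑ c ∈ nz X,
      (if (g : ℤ) ∣ b then (if ¬ (p : ℤ) ∣ b ∧
        (p : ℤ) ^ 2 ∣ (v.2 : ℤ) ^ 2 * ((q₃ : ℤ) * b) - (v.1 : ℤ) ^ 2 * ((q₂ : ℤ) * c)
          then (g : ℝ) else 0) else 0) ≤ 56 * X ^ 2 := by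
    rw [Finset.sum_comm]
    have h1 : ∀ b ∈ nz X, ∑ v ∈ P, ∑ c ∈ nz X, (if (g : ℤ) ∣ b then (if ¬ (p : ℤ) ∣ b ∧
        (p : ℤ) ^ 2 ∣ (v.2 : ℤ) ^ 2 * ((q₃ : ℤ) * b) - (v.1 : ℤ) ^ 2 * ((q₂ : ℤ) * c)
          then (g : ℝ) else 0) else 0) ≤ if (g : ℤ) ∣ b then (2 * X) * (14 * g) else 0 := by
      intro b _
      by_cases hb : (g : ℤ) ∣ b
      · rw [if_pos hb, Finset.sum_comm]
        have h2 : ∀ c ∈ nz X, ∑ v ∈ P, (if (g : ℤ) ∣ b then (if ¬ (p : ℤ) ∣ b ∧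
            (p : ℤ) ^ 2 ∣ (v.2 : ℤ) ^ 2 * ((q₃ : ℤ) * b) - (v.1 : ℤ) ^ 2 * ((q₂ : ℤ) * c)
              then (g : ℝ) else 0) else 0) ≤ 14 * g := by
          intro c _
          simp only [if_pos hb]
          by_cases h3 : (p : ℤ) ∣ b
          · have h4 : ∀ v ∈ P, (if ¬ (p : ℤ) ∣ b ∧
                (p : ℤ) ^ 2 ∣ (v.2 : ℤ) ^ 2 * ((q₃ : ℤ) * b) - (v.1 : ℤ) ^ 2 * ((q₂ : ℤ) * c)
                  then (g : ℝ) else 0) = 0 := fun v _ => if_neg fun h => h.1 h3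
            rw [Finset.sum_congr rfl h4, Finset.sum_const_zero]
            positivity
          · have hA : ¬ (p : ℤ) ∣ (q₃ : ℤ) * b := by
              intro h4
              rcases hp'.dvd_or_dvd h4 with h5 | h5
              · exact hndvd q₃ hq₃ (by omega) h5
              · exact h3 h5
            have h4 := count_ratio hZ hp ((q₃ : ℤ) * b) ((q₂ : ℤ) * c) hA
            rw [← Finset.sum_filter, Finset.sum_const, nsmul_eq_mul]
            refine mul_le_mul_of_nonneg_right ?_ hgR.le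
            have h5 : (P.filter fun v => ¬ (p : ℤ) ∣ b ∧
                (p : ℤ) ^ 2 ∣ (v.2 : ℤ) ^ 2 * ((q₃ : ℤ) * b) - (v.1 : ℤ) ^ 2 * ((q₂ : ℤ) * c)).card ≤
                14 := by
              refine (Finset.card_le_card ?_).trans h4
              intro v hv
              obtain ⟨hv1, _, hv2⟩ := Finset.mem_filter.mp hv
              rw [hP] at hv1
              obtain ⟨hv3, hv4, hv5, hv6⟩ := Finset.mem_filter.mp hv1
              exact Finset.mem_filter.mpr ⟨hv3, hv4, hv5, hv6, hv2⟩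
            exact_mod_cast h5
        refine (Finset.sum_le_sum h2).trans ?_
        rw [Finset.sum_const, nsmul_eq_mul]
        exact mul_le_mul_of_nonneg_right (card_nz_le X hX) (by positivity)
      · simp only [if_neg hb, Finset.sum_const_zero]
        exact le_rfl
    refine (Finset.sum_le_sum h1).trans ?_
    rw [← Finset.sum_filter, Finset.sum_const, nsmul_eq_mul]
    have h2 := card_nz_dvd_le X hX hg0
    calc _ ≤ (2 * X / g) * ((2 * X) * (14 * g)) := by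
          exact mul_le_mul_of_nonneg_right h2 (by positivity)
      _ = 56 * X ^ 2 := by
          field_simp
          ring
  -- the second sum
  have hsum2 : ∑ v ∈ P, ∑ b ∈ nz X, ∑ c ∈ nz X,
      (if ((g * p : ℕ) : ℤ) ∣ b then (if (p : ℤ) ∣ c then (g : ℝ) else 0) else 0) ≤ 4 * X ^ 2 := by
    have h1 : ∑ b ∈ nz X, ∑ c ∈ nz X,
        (if ((g * p : ℕ) : ℤ) ∣ b then (if (p : ℤ) ∣ c then (g : ℝ) else 0) else 0) ≤
        (2 * X / ((g * p : ℕ) : ℝ)) * ((2 * X / p) * g) := by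
      have h2 : ∀ b ∈ nz X, ∑ c ∈ nz X,
          (if ((g * p : ℕ) : ℤ) ∣ b then (if (p : ℤ) ∣ c then (g : ℝ) else 0) else 0) ≤
          if ((g * p : ℕ) : ℤ) ∣ b then (2 * X / p) * g else 0 := by
        intro b _
        by_cases hb : ((g * p : ℕ) : ℤ) ∣ b
        · simp only [if_pos hb]
          rw [← Finset.sum_filter, Finset.sum_const, nsmul_eq_mul]
          exact mul_le_mul_of_nonneg_right (card_nz_dvd_le X hX hpp.pos) hgR.le
        · simp only [if_neg hb, Finset.sum_const_zero]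
          exact le_rfl
      refine (Finset.sum_le_sum h2).trans ?_
      rw [← Finset.sum_filter, Finset.sum_const, nsmul_eq_mul]
      exact mul_le_mul_of_nonneg_right (card_nz_dvd_le X hX (Nat.mul_pos hg0 hpp.pos)) (by positivity)
    rw [Finset.sum_const, nsmul_eq_mul]
    have h3 : P.card ≤ p * p := by
      have h4 : (primesIn Z).card ≤ p := by
        refine (Finset.card_filter_le _ _).trans ?_
        rw [Nat.card_Ico]
        omega
      calc P.card ≤ (primesIn Z ×ˢ primesIn Z).card := by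
            rw [hP]
            exact Finset.card_filter_le _ _
        _ = (primesIn Z).card * (primesIn Z).card := Finset.card_product _ _
        _ ≤ p * p := Nat.mul_le_mul h4 h4
    have h4 : (P.card : ℝ) ≤ (p : ℝ) * p := by exact_mod_cast h3
    calc (P.card : ℝ) * _ ≤ ((p : ℝ) * p) * ((2 * X / ((g * p : ℕ) : ℝ)) * ((2 * X / p) * g)) := by
          refine mul_le_mul h4 h1 ?_ (by positivity)
          refine Finset.sum_nonneg fun b _ => Finset.sum_nonneg fun c _ => ?_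
          split_ifs <;> positivity
      _ = 4 * X ^ 2 := by
          rw [Nat.cast_mul]
          field_simp
          ring
  calc _ ≤ ∑ v ∈ P, ∑ b ∈ nz X, ∑ c ∈ nz X,
        ((if (g : ℤ) ∣ b then (if ¬ (p : ℤ) ∣ b ∧
          (p : ℤ) ^ 2 ∣ (v.2 : ℤ) ^ 2 * ((q₃ : ℤ) * b) - (v.1 : ℤ) ^ 2 * ((q₂ : ℤ) * c)
            then (g : ℝ) else 0) else 0) +
        (if ((g * p : ℕ) : ℤ) ∣ b then (if (p : ℤ) ∣ c then (g : ℝ) else 0) else 0)) :=
        Finset.sum_le_sum fun v hv => Finset.sum_le_sum fun b _ => Finset.sum_le_sum fun c _ =>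
          hsplit v hv b c
    _ ≤ 60 * X ^ 2 := by
        simp only [Finset.sum_add_distrib]
        linarith

end Pool.Agent.Helper25.MOB
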