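import Pool.Agent.Helper25.MOB.X0
import Pool.Agent.Helper25.MOB.I2

/-!
Block MOB-X2.  Step D with numbers.

Apply `integral_S_le` with `H = HH N`, `δ = dd η N`, `B = BB η N = ⌈200 N ^ (3/5 + η)⌉₊`, `k = Nat.log 2 B + 1`.
Checks: `30 H² ≤ 30 N ^ (3/5)`, `40 H N δ ≤ 160 N ^ (3/5 + η)`, `B ≤ 201 N ^ (3/5 + η)`.
The first three terms of the bound are at most `(1/2) ρ H² N ^ (-1 - 8η)` for large `N`
(`H² ≥ N ^ (3/5) / 4`, `ρ ≤ N ^ (-3/7)`, `#P ≤ H`):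
* `6 ρ² ≤ 6 ρ N ^ (-3/7)` and `-3/7 < -2/5 - 8η`;
* `#P ρ 2 δ / H ≤ 2 ρ δ ≤ 8 ρ N ^ (η - 7/10)`;
* `ρ δ H (1 + log H) ≤ 4 N ^ (-3/7 + η - 7/10 + 3/10 + η) = 4 N ^ (-29/35 + 2η)` (`log_ev`), whose square root
  is `2 N ^ (-29/70 + η)`, and `-29/70 + η < -28/70 - 8η`.
So `∑_v (B / (q 2^j)) ν² ≥ (1/2) ρ H² N ^ (-1 - 8η)`; divide by `B`:
`≥ ρ N ^ (-1 - 9η) / 1608 ≥ ρ N ^ (-1 - 10 η)`.
-/

namespace Pool.Agent.Helper25.MOB

open Filter MeasureTheory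

/-- `⌈200 N ^ (3/5 + η)⌉`. -/
noncomputable def BB (η : ℝ) (N : ℕ) : ℕ := ⌈200 * (N : ℝ) ^ (3 / 5 + η)⌉₊

/-- The index set of the pairs `(q, j)` with `1 ≤ q`, `q 2 ^ j ≤ BB η N`. -/
noncomputable def VV (η : ℝ) (N : ℕ) : Finset (ℕ × ℕ) :=
  (Finset.Icc 1 (BB η N) ×ˢ Finset.range (Nat.log 2 (BB η N) + 1)).filter
    fun v => v.1 * 2 ^ v.2 ≤ BB η N

private theorem card_primesIn_le63 (H : ℕ) : (primesIn H).card ≤ H := by
  unfold primesIn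
  refine (Finset.card_filter_le _ _).trans ?_
  rw [Nat.card_Ico]
  omega

private theorem sq_rpow63 {n : ℝ} (hn : 0 < n) (a : ℝ) : (n ^ a) ^ 2 = n ^ (2 * a) := by
  rw [← Real.rpow_natCast, ← Real.rpow_mul hn.le]
  congr 1
  push_cast
  ring

theorem step_CD {η : ℝ} (hη : 0 < η) (hη1 : η ≤ 1 / 1000) : ∀ᶠ N : ℕ in atTop,
    ∀ R : Set UnitAddCircle, MeasurableSet R →
      volume.real R ≤ (N : ℝ) ^ (-(3 / 7) : ℝ) →
      volume.real R * (HH N : ℝ) ^ 2 * (N : ℝ) ^ (-1 - 8 * η) ≤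
        ∫ y in R, ∫ y' in R, ((S (HH N) (dd η N) y y').card : ℝ) →
      volume.real R * (N : ℝ) ^ (-1 - 10 * η) ≤
        ∑ v ∈ VV η N, (volume.real (R ∩ cl (2 ^ v.2 / N) v.1)) ^ 2 / (v.1 * 2 ^ v.2) := by
  filter_upwards [HH_ev, dd_ev hη hη1, log_ev 1 hη,
    rpow_ev 144 (a := -(3 / 7)) (b := -(2 / 5) - 8 * η) (by linarith),
    rpow_ev 192 (a := η - 7 / 10) (b := -(2 / 5) - 8 * η) (by linarith),
    rpow_ev 576 (a := -(29 / 70) + η) (b := -(2 / 5) - 8 * η) (by linarith),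
    rpow_ev 1608 (a := -1 - 10 * η) (b := -1 - 9 * η) (by linarith),
    eventually_ge_atTop 1] with N h1 h2 h3 h4 h5 h6 h7 h8 R hR hρ hI
  obtain ⟨hH4, hHle, hHge, -⟩ := h1
  obtain ⟨hδ0, hδle, hδH, -⟩ := h2
  set n : ℝ := (N : ℝ) with hn
  have hn1 : (1 : ℝ) ≤ n := by rw [hn]; exact_mod_cast h8
  have hn0 : 0 < n := by linarith
  set H : ℕ := HH N with hHdef
  set δ : ℝ := dd η N with hδdef
  set ρ : ℝ := volume.real R with hρdef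
  set B : ℕ := BB η N with hBdef
  have hρ0 : 0 ≤ ρ := measureReal_nonneg
  have hH4R : (4 : ℝ) ≤ (H : ℝ) := by exact_mod_cast hH4
  have hH0 : (0 : ℝ) < (H : ℝ) := by linarith
  have hnpow : ∀ a : ℝ, 0 < n ^ a := fun a => Real.rpow_pos_of_pos hn0 a
  -- bounds for H ^ 2
  have hHsq1 : (H : ℝ) ^ 2 ≤ n ^ (3 / 5 : ℝ) := by
    have : (n ^ (3 / 10 : ℝ)) ^ 2 = n ^ (3 / 5 : ℝ) := by
      rw [sq_rpow63 hn0]; norm_num
    rw [← this]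
    exact pow_le_pow_left₀ hH0.le hHle 2
  have hHsq2 : n ^ (3 / 5 : ℝ) ≤ 4 * (H : ℝ) ^ 2 := by
    have : (n ^ (3 / 10 : ℝ)) ^ 2 = n ^ (3 / 5 : ℝ) := by
      rw [sq_rpow63 hn0]; norm_num
    rw [← this]
    have := pow_le_pow_left₀ (hnpow _).le hHge 2
    nlinarith
  -- bounds for B
  have hBge : 200 * n ^ (3 / 5 + η) ≤ (B : ℝ) := Nat.le_ceil _
  have hone : (1 : ℝ) ≤ n ^ (3 / 5 + η) := Real.one_le_rpow hn1 (by linarith)
  have hBle : (B : ℝ) ≤ 201 * n ^ (3 / 5 + η) := by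
    have h := (Nat.ceil_lt_add_one (a := 200 * n ^ (3 / 5 + η)) (by positivity)).le
    have h' : (B : ℝ) ≤ 200 * n ^ (3 / 5 + η) + 1 := h
    linarith
  have hB0 : (0 : ℝ) < (B : ℝ) := by linarith
  have hmono : n ^ (3 / 5 : ℝ) ≤ n ^ (3 / 5 + η) :=
    Real.rpow_le_rpow_of_exponent_le hn1 (by linarith)
  have hB1 : 30 * (H : ℝ) ^ 2 ≤ B := by linarith [hnpow (3 / 5 + η)]
  have hB2 : 40 * (H : ℝ) * n * δ ≤ B := by
    have e : n ^ (3 / 10 : ℝ) * n * n ^ (η - 7 / 10) = n ^ (3 / 5 + η) := by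
      nth_rewrite 2 [← Real.rpow_one n]
      rw [← Real.rpow_add hn0, ← Real.rpow_add hn0]
      congr 1
      ring
    have h : (H : ℝ) * n * δ ≤ n ^ (3 / 10 : ℝ) * n * (4 * n ^ (η - 7 / 10)) := by
      gcongr
    have h2 : n ^ (3 / 10 : ℝ) * n * (4 * n ^ (η - 7 / 10)) = 4 * n ^ (3 / 5 + η) := by
      rw [← e]; ring
    rw [h2] at h
    have h3 : 40 * (H : ℝ) * n * δ = 40 * ((H : ℝ) * n * δ) := by ring
    rw [h3]
    linarith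
  have hmain := integral_S_le hH4 hδ0.le hδH hn0 hB1 hB2
    (Nat.lt_pow_succ_log_self one_lt_two B) R hR
  have hX := hI.trans hmain
  -- the sum
  have hsum : ∑ v ∈ (Finset.Icc 1 B ×ˢ Finset.range (Nat.log 2 B).succ).filter
        (fun v => v.1 * 2 ^ v.2 ≤ B),
        (B : ℝ) / (v.1 * 2 ^ v.2) * (volume.real (R ∩ cl (2 ^ v.2 / n) v.1)) ^ 2
      = (B : ℝ) * ∑ v ∈ VV η N,
        (volume.real (R ∩ cl (2 ^ v.2 / n) v.1)) ^ 2 / (v.1 * 2 ^ v.2) := by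
    rw [Finset.mul_sum]
    apply Finset.sum_congr rfl
    intro v _
    ring
  set Sg : ℝ := ∑ v ∈ VV η N,
        (volume.real (R ∩ cl (2 ^ v.2 / n) v.1)) ^ 2 / (v.1 * 2 ^ v.2) with hSg
  have hX2 : ρ * (H : ℝ) ^ 2 * n ^ (-1 - 8 * η) ≤
      6 * ρ ^ 2 + ((primesIn H).card : ℝ) * (ρ * (2 * (δ / H))) +
      4 * ρ * √(ρ * (8 * δ * H * (1 + Real.log H))) + (B : ℝ) * Sg := by
    rw [← hsum]
    exact hX
  -- lower bound for the left side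
  have e1 : n ^ (3 / 5 : ℝ) * n ^ (-1 - 8 * η) = n ^ (-(2 / 5) - 8 * η) := by
    rw [← Real.rpow_add hn0]
    congr 1
    ring
  set Y : ℝ := n ^ (-(2 / 5) - 8 * η) with hY
  have hlow : ρ * Y ≤ 4 * (ρ * (H : ℝ) ^ 2 * n ^ (-1 - 8 * η)) := by
    rw [← e1]
    have h := mul_le_mul_of_nonneg_right (mul_le_mul_of_nonneg_left hHsq2 hρ0)
      (hnpow (-1 - 8 * η)).le
    calc ρ * (n ^ (3 / 5 : ℝ) * n ^ (-1 - 8 * η))
        = ρ * n ^ (3 / 5 : ℝ) * n ^ (-1 - 8 * η) := by ring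
      _ ≤ ρ * (4 * (H : ℝ) ^ 2) * n ^ (-1 - 8 * η) := h
      _ = 4 * (ρ * (H : ℝ) ^ 2 * n ^ (-1 - 8 * η)) := by ring
  -- term 1
  have t1 : 24 * (6 * ρ ^ 2) ≤ ρ * Y := by
    have h : ρ * ρ ≤ ρ * n ^ (-(3 / 7) : ℝ) := mul_le_mul_of_nonneg_left hρ hρ0
    have h' : ρ * (144 * n ^ (-(3 / 7) : ℝ)) ≤ ρ * Y := mul_le_mul_of_nonneg_left h4 hρ0
    linarith
  -- term 2
  have t2 : 24 * (((primesIn H).card : ℝ) * (ρ * (2 * (δ / H)))) ≤ ρ * Y := by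
    have hc : ((primesIn H).card : ℝ) ≤ H := by exact_mod_cast card_primesIn_le63 H
    have h : ((primesIn H).card : ℝ) * (ρ * (2 * (δ / H))) ≤ (H : ℝ) * (ρ * (2 * (δ / H))) :=
      mul_le_mul_of_nonneg_right hc (by positivity)
    have h' : (H : ℝ) * (ρ * (2 * (δ / H))) = 2 * ρ * δ := by
      field_simp
    have h'' : ρ * δ ≤ ρ * (4 * n ^ (η - 7 / 10)) := mul_le_mul_of_nonneg_left hδle hρ0
    have h''' : ρ * (192 * n ^ (η - 7 / 10)) ≤ ρ * Y := mul_le_mul_of_nonneg_left h5 hρ0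
    linarith
  -- term 3
  have t3 : 24 * (4 * ρ * √(ρ * (8 * δ * H * (1 + Real.log H)))) ≤ ρ * Y := by
    have hHn : (H : ℝ) ≤ n := by
      refine hHle.trans ?_
      calc n ^ (3 / 10 : ℝ) ≤ n ^ (1 : ℝ) := Real.rpow_le_rpow_of_exponent_le hn1 (by norm_num)
        _ = n := Real.rpow_one n
    have hlog0 : 0 ≤ Real.log H := Real.log_nonneg (by linarith)
    have hlog : 1 + Real.log H ≤ n ^ η := by
      have := Real.log_le_log hH0 hHn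
      linarith
    have e : n ^ (-(3 / 7) : ℝ) * (n ^ (η - 7 / 10) * n ^ (3 / 10 : ℝ) * n ^ η)
        = (n ^ (-(29 / 70) + η)) ^ 2 := by
      rw [sq_rpow63 hn0, ← Real.rpow_add hn0, ← Real.rpow_add hn0, ← Real.rpow_add hn0]
      congr 1
      ring
    have hs : √(ρ * (8 * δ * H * (1 + Real.log H))) ≤ 6 * n ^ (-(29 / 70) + η) := by
      rw [Real.sqrt_le_iff]
      refine ⟨by have := hnpow (-(29 / 70) + η); positivity, ?_⟩
      calc ρ * (8 * δ * H * (1 + Real.log H))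
          ≤ n ^ (-(3 / 7) : ℝ) * (8 * (4 * n ^ (η - 7 / 10)) * n ^ (3 / 10 : ℝ) * n ^ η) := by
            gcongr
        _ = 32 * (n ^ (-(3 / 7) : ℝ) * (n ^ (η - 7 / 10) * n ^ (3 / 10 : ℝ) * n ^ η)) := by ring
        _ = 32 * (n ^ (-(29 / 70) + η)) ^ 2 := by rw [e]
        _ ≤ (6 * n ^ (-(29 / 70) + η)) ^ 2 := by
            have := sq_nonneg (n ^ (-(29 / 70) + η))
            nlinarith
    have h' : ρ * √(ρ * (8 * δ * H * (1 + Real.log H))) ≤ ρ * (6 * n ^ (-(29 / 70) + η)) :=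
      mul_le_mul_of_nonneg_left hs hρ0
    have h'' : ρ * (576 * n ^ (-(29 / 70) + η)) ≤ ρ * Y := mul_le_mul_of_nonneg_left h6 hρ0
    linarith
  have hkey : ρ * Y ≤ 8 * ((B : ℝ) * Sg) := by linarith
  have hSg0 : 0 ≤ Sg := Finset.sum_nonneg fun v _ => by positivity
  have hkey2 : ρ * Y ≤ 1608 * n ^ (3 / 5 + η) * Sg := by
    have : (B : ℝ) * Sg ≤ 201 * n ^ (3 / 5 + η) * Sg := mul_le_mul_of_nonneg_right hBle hSg0
    linarith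
  -- final
  have e2 : n ^ (3 / 5 + η) * n ^ (-1 - 9 * η) = Y := by
    rw [hY, ← Real.rpow_add hn0]
    congr 1
    ring
  have hpos : 0 < n ^ (3 / 5 + η) := hnpow _
  have h9 : n ^ (3 / 5 + η) * (ρ * n ^ (-1 - 9 * η)) ≤ n ^ (3 / 5 + η) * (1608 * Sg) := by
    calc n ^ (3 / 5 + η) * (ρ * n ^ (-1 - 9 * η)) = ρ * (n ^ (3 / 5 + η) * n ^ (-1 - 9 * η)) := by
          ring
      _ = ρ * Y := by rw [e2]
      _ ≤ 1608 * n ^ (3 / 5 + η) * Sg := hkey2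
      _ = n ^ (3 / 5 + η) * (1608 * Sg) := by ring
  have h10 : ρ * n ^ (-1 - 9 * η) ≤ 1608 * Sg := le_of_mul_le_mul_left h9 hpos
  have h11 : ρ * (1608 * n ^ (-1 - 10 * η)) ≤ ρ * n ^ (-1 - 9 * η) :=
    mul_le_mul_of_nonneg_left h7 hρ0
  linarith

end Pool.Agent.Helper25.MOB
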