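import Pool.Agent.Helper25.MOB.X2
import Pool.Agent.Helper25.MOB.E1
import Pool.Agent.Helper25.MOB.Pair
import Pool.Agent.Helper25.MOB.Mult

/-!
Block MOB-X3.  Step E with numbers.

Partition `VV η N` according to `(i, j)` with `2 ^ i ≤ q < 2 ^ (i+1)`: at most `(Nat.log 2 B + 1)² ≤ N ^ η` classes
(`B = BB η N ≤ N`, `natlog_ev`).  So for some `(i, j)`, with `Q0 = 2 ^ i` and `t = 2 ^ j / N`,
`∑_{q ∈ [Q0, 2 Q0), q 2^j ≤ B} ν q ² / (q 2 ^ j) ≥ ρ N ^ (-1 - 11 η)`, so (`q ≥ Q0`)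
`∑ ν q ² ≥ κ ρ x` with `κ = N ^ (-11 η)`, `x = Q0 2 ^ j / N`.  (The class is not empty if `ρ > 0`, so `Q0 2 ^ j ≤ B`.)
Apply `exists_rich` with `I = {q ∈ Ico Q0 (2 Q0) : q 2^j ≤ B}`, `C q = cl t q`:
`volume_cl_le`: `2 t q ≤ 4 x`; `volume_cl_inter_le`: `8 t² q q' ≤ 32 x²`; `card_cl_le`: `Δ = 1 + 8 t Q0²`, and
`t Q0² ≤ (Q0 2^j)² / N ≤ B² / N ≤ 201² N ^ (1/5 + 2η)`; `√ρ ≤ N ^ (-3/14)`; `-3/14 + 1/5 + 2η < -11 η` as `13 η < 1/70`.
Result: `#Qs x ≤ 32 N ^ (11η) ρ` and `ρ₃ ≥ N ^ (-22η) ρ / 1000 ≥ N ^ (-23 η) ρ`, so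
`#Qs Q0 2^j = #Qs x N ≤ 32 N ^ (11η) N ρ ≤ N ^ (35η) N ρ₃`.
-/

namespace Pool.Agent.Helper25.MOB

open Filter MeasureTheory

/-- pigeonhole on the dyadic classes -/
private theorem class26 {N B : ℕ} (VVs : Finset (ℕ × ℕ))
    (hV : ∀ v ∈ VVs, 1 ≤ v.1 ∧ v.1 * 2 ^ v.2 ≤ B) (g : ℕ × ℕ → ℝ) (hg : ∀ v, 0 ≤ g v) {c T : ℝ}
    (hT : T ≤ ∑ v ∈ VVs, g v / (v.1 * 2 ^ v.2)) (hc : ((Nat.log 2 B : ℝ) + 1) ^ 2 * c ≤ T)
    (_hN : 0 < N) :
    ∃ i j : ℕ, c ≤ ∑ q ∈ (Finset.Ico (2 ^ i) (2 * 2 ^ i)).filter (fun q => q * 2 ^ j ≤ B),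
      g (q, j) / (2 ^ i * 2 ^ j) := by
  classical
  obtain ⟨L, hL⟩ : ∃ L, L = Nat.log 2 B := ⟨_, rfl⟩
  rw [← hL] at hc
  have hmaps : ∀ v ∈ VVs, (Nat.log 2 v.1, v.2) ∈ Finset.range (L + 1) ×ˢ Finset.range (L + 1) := by
    intro v hv
    obtain ⟨h1, h2⟩ := hV v hv
    have h3 : v.1 ≤ B := le_trans (Nat.le_mul_of_pos_right _ (by positivity)) h2
    have h4 : 2 ^ v.2 ≤ B := le_trans (Nat.le_mul_of_pos_left _ h1) h2
    have h5 : v.2 ≤ L := by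
      rw [hL]
      exact Nat.le_log_of_pow_le one_lt_two h4
    have h6 : Nat.log 2 v.1 ≤ L := by
      rw [hL]
      exact Nat.log_mono_right h3
    rw [Finset.mem_product, Finset.mem_range, Finset.mem_range]
    exact ⟨by omega, by omega⟩
  have hfib := Finset.sum_fiberwise_of_maps_to hmaps (fun v : ℕ × ℕ => g v / ((v.1 : ℝ) * 2 ^ v.2))
  rw [← hfib] at hT
  have hsumc : ∑ _p ∈ Finset.range (L + 1) ×ˢ Finset.range (L + 1), c = ((L : ℝ) + 1) ^ 2 * c := by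
    rw [Finset.sum_const, Finset.card_product, Finset.card_range, nsmul_eq_mul]
    push_cast
    ring
  obtain ⟨p, hp, hcp⟩ := Finset.exists_le_of_sum_le
    (f := fun _ : ℕ × ℕ => c)
    (g := fun p : ℕ × ℕ => ∑ v ∈ VVs.filter (fun v => (Nat.log 2 v.1, v.2) = p), g v / ((v.1 : ℝ) * 2 ^ v.2))
    (s := Finset.range (L + 1) ×ˢ Finset.range (L + 1))
    ⟨(0, 0), by simp⟩ (by
      rw [hsumc]
      exact hc.trans hT)
  refine ⟨p.1, p.2, hcp.trans ?_⟩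
  have hsub : VVs.filter (fun v => (Nat.log 2 v.1, v.2) = p) ⊆
      ((Finset.Ico (2 ^ p.1) (2 * 2 ^ p.1)).filter (fun q => q * 2 ^ p.2 ≤ B)).image fun q => (q, p.2) := by
    intro v hv
    rw [Finset.mem_filter] at hv
    obtain ⟨hv1, hv2⟩ := hv
    obtain ⟨h1, h2⟩ := hV v hv1
    have e1 : Nat.log 2 v.1 = p.1 := by rw [← hv2]
    have e2 : v.2 = p.2 := by rw [← hv2]
    rw [Finset.mem_image]
    refine ⟨v.1, ?_, ?_⟩
    · rw [Finset.mem_filter, Finset.mem_Ico, ← e1, ← e2]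
      refine ⟨⟨Nat.pow_log_le_self 2 (by omega), ?_⟩, h2⟩
      have h3 := Nat.lt_pow_succ_log_self one_lt_two v.1
      rw [pow_succ] at h3
      omega
    · rw [← e2]
  refine (Finset.sum_le_sum_of_subset_of_nonneg hsub fun v _ _ => ?_).trans ?_
  · exact div_nonneg (hg v) (by positivity)
  rw [Finset.sum_image (fun a _ b _ hab => (Prod.mk.inj hab).1)]
  refine Finset.sum_le_sum fun q hq => ?_
  rw [Finset.mem_filter, Finset.mem_Ico] at hq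
  have h1 : ((2 : ℝ) ^ p.1) ≤ (q : ℝ) := by exact_mod_cast hq.1.1
  refine div_le_div_of_nonneg_left (hg _) (by positivity) ?_
  exact mul_le_mul_of_nonneg_right h1 (by positivity)

theorem step_E {η : ℝ} (hη : 0 < η) (hη1 : η ≤ 1 / 1000) : ∀ᶠ N : ℕ in atTop,
    ∀ R : Set UnitAddCircle, MeasurableSet R → 0 < volume.real R →
      volume.real R ≤ (N : ℝ) ^ (-(3 / 7) : ℝ) →
      volume.real R * (N : ℝ) ^ (-1 - 10 * η) ≤
        ∑ v ∈ VV η N, (volume.real (R ∩ cl (2 ^ v.2 / N) v.1)) ^ 2 / (v.1 * 2 ^ v.2) →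
      ∃ (Q0 j : ℕ) (Qs : Finset ℕ), 1 ≤ Q0 ∧ Qs ⊆ Finset.Ico Q0 (2 * Q0) ∧
        (N : ℝ) ^ (-23 * η) * volume.real R ≤
          volume.real (R ∩ ⋃ q ∈ Qs, cl (2 ^ j / N) q) ∧
        (Qs.card : ℝ) * Q0 * 2 ^ j ≤
          (N : ℝ) ^ (35 * η) * (N * volume.real (R ∩ ⋃ q ∈ Qs, cl (2 ^ j / N) q)) := by
  classical
  have hB1 : (3 / 5 + η : ℝ) < 1 := by linarith
  filter_upwards [Filter.eventually_ge_atTop 1, rpow_ev 201 hB1, natlog_ev 1 (half_pos hη),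
    rpow_ev (16 * 323209) (show (-(1 / 70) + 2 * η : ℝ) < -(11 * η) by linarith),
    rpow_ev 1000 (show (-(23 * η) : ℝ) < -(22 * η) by linarith),
    rpow_ev 32000 (show (33 * η : ℝ) < 35 * η by linarith)] with N hN1 hBN hlog hE1 hE2 hE3
  intro R hR hρ0 hρ hsum
  have hNpos : (0 : ℝ) < N := by exact_mod_cast hN1
  have hN1' : (1 : ℝ) ≤ N := by exact_mod_cast hN1
  obtain ⟨ρ, hρdef⟩ : ∃ ρ, ρ = volume.real R := ⟨_, rfl⟩
  rw [← hρdef] at hρ0 hρ hsum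
  obtain ⟨B, hBdef⟩ : ∃ B, B = BB η N := ⟨_, rfl⟩
  have hB201 : (B : ℝ) ≤ 201 * (N : ℝ) ^ (3 / 5 + η) := by
    have h1 : (1 : ℝ) ≤ (N : ℝ) ^ (3 / 5 + η) := Real.one_le_rpow hN1' (by linarith)
    have h2 : (B : ℝ) < 200 * (N : ℝ) ^ (3 / 5 + η) + 1 := by
      rw [hBdef]
      unfold BB
      exact Nat.ceil_lt_add_one (by positivity)
    linarith
  have hBleN : B ≤ N := by
    have h1 := hB201.trans hBN
    rw [Real.rpow_one] at h1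
    exact_mod_cast h1
  have hL : ((Nat.log 2 B : ℝ) + 1) ^ 2 ≤ (N : ℝ) ^ η := by
    have h1 : (Nat.log 2 B : ℝ) ≤ Nat.log 2 N := by exact_mod_cast Nat.log_mono_right hBleN
    have h2 : (Nat.log 2 B : ℝ) + 1 ≤ (N : ℝ) ^ (η / 2) := by linarith
    have h3 : ((N : ℝ) ^ (η / 2)) ^ 2 = (N : ℝ) ^ η := by
      rw [← Real.rpow_natCast, ← Real.rpow_mul hNpos.le]
      congr 1
      push_cast
      ring
    rw [← h3]
    exact pow_le_pow_left₀ (by positivity) h2 2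
  obtain ⟨c, hcdef⟩ : ∃ c, c = ρ * (N : ℝ) ^ (-1 - 11 * η) := ⟨_, rfl⟩
  have hc0 : 0 < c := by
    rw [hcdef]
    positivity
  have hcT : ((Nat.log 2 B : ℝ) + 1) ^ 2 * c ≤ ρ * (N : ℝ) ^ (-1 - 10 * η) := by
    have h1 : (N : ℝ) ^ (-1 - 10 * η) = (N : ℝ) ^ η * (N : ℝ) ^ (-1 - 11 * η) := by
      rw [← Real.rpow_add hNpos]
      congr 1
      ring
    rw [h1, hcdef]
    calc ((Nat.log 2 B : ℝ) + 1) ^ 2 * (ρ * (N : ℝ) ^ (-1 - 11 * η))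
        ≤ (N : ℝ) ^ η * (ρ * (N : ℝ) ^ (-1 - 11 * η)) := mul_le_mul_of_nonneg_right hL (by positivity)
      _ = ρ * ((N : ℝ) ^ η * (N : ℝ) ^ (-1 - 11 * η)) := by ring
  have hVV : ∀ v ∈ VV η N, 1 ≤ v.1 ∧ v.1 * 2 ^ v.2 ≤ B := by
    intro v hv
    unfold VV at hv
    rw [Finset.mem_filter, Finset.mem_product, Finset.mem_Icc] at hv
    rw [hBdef]
    exact ⟨hv.1.1.1, hv.2⟩
  obtain ⟨i, j, hij⟩ := class26 (N := N) (VV η N) hVV
    (fun v => (volume.real (R ∩ cl (2 ^ v.2 / N) v.1)) ^ 2) (fun v => by positivity) hsum hcT hN1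
  obtain ⟨Q0, hQ0⟩ : ∃ Q0 : ℕ, Q0 = 2 ^ i := ⟨_, rfl⟩
  have hQ1 : 1 ≤ Q0 := by
    rw [hQ0]
    exact Nat.one_le_two_pow
  have hQr : ((2 : ℝ) ^ i) = (Q0 : ℝ) := by
    rw [hQ0]
    push_cast
    ring
  rw [← hQ0] at hij
  simp only [hQr] at hij
  have hQpos : (0 : ℝ) < Q0 := by exact_mod_cast hQ1
  obtain ⟨t, ht⟩ : ∃ t : ℝ, t = 2 ^ j / N := ⟨_, rfl⟩
  have ht0 : 0 ≤ t := by
    rw [ht]
    positivity
  obtain ⟨x, hx⟩ : ∃ x : ℝ, x = Q0 * 2 ^ j / N := ⟨_, rfl⟩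
  have hx0 : 0 < x := by
    rw [hx]
    positivity
  have htx : t * Q0 = x := by
    rw [ht, hx]
    ring
  obtain ⟨I, hI⟩ : ∃ I, I = (Finset.Ico Q0 (2 * Q0)).filter (fun q => q * 2 ^ j ≤ B) := ⟨_, rfl⟩
  rw [← hI] at hij
  obtain ⟨κ, hκ⟩ : ∃ κ : ℝ, κ = (N : ℝ) ^ (-(11 * η)) := ⟨_, rfl⟩
  have hκ0 : 0 < κ := by
    rw [hκ]
    positivity
  have hκ1 : κ ≤ 1 := by
    rw [hκ]
    exact Real.rpow_le_one_of_one_le_of_nonpos hN1' (by linarith)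
  have hsum2 : κ * volume.real R * x ≤ ∑ q ∈ I, (volume.real (R ∩ cl t q)) ^ 2 := by
    have h1 : ∑ q ∈ I, (volume.real (R ∩ cl (2 ^ j / N) q)) ^ 2 / (Q0 * 2 ^ j) =
        (∑ q ∈ I, (volume.real (R ∩ cl t q)) ^ 2) / (Q0 * 2 ^ j) := by
      rw [← ht, Finset.sum_div]
    have h2 : c ≤ (∑ q ∈ I, (volume.real (R ∩ cl t q)) ^ 2) / (Q0 * 2 ^ j) := by
      rw [← h1]
      exact hij
    rw [le_div_iff₀ (by positivity)] at h2
    refine le_trans (le_of_eq ?_) h2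
    rw [hκ, hx, hcdef, ← hρdef]
    have h3 : (N : ℝ) ^ (-1 - 11 * η) = (N : ℝ) ^ (-(11 * η)) * (N : ℝ)⁻¹ := by
      rw [← Real.rpow_neg_one, ← Real.rpow_add hNpos]
      congr 1
      ring
    rw [h3]
    ring
  have hIne : I.Nonempty := by
    rw [Finset.nonempty_iff_ne_empty]
    intro h
    rw [h, Finset.sum_empty] at hij
    linarith
  obtain ⟨q0, hq0⟩ := hIne
  have hIm : ∀ q ∈ I, Q0 ≤ q ∧ q < 2 * Q0 ∧ q * 2 ^ j ≤ B := by
    intro q hq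
    rw [hI, Finset.mem_filter, Finset.mem_Ico] at hq
    exact ⟨hq.1.1, hq.1.2, hq.2⟩
  have hQB : (Q0 : ℝ) * 2 ^ j ≤ B := by
    have h1 : Q0 * 2 ^ j ≤ B := le_trans (Nat.mul_le_mul_right _ (hIm q0 hq0).1) (hIm q0 hq0).2.2
    exact_mod_cast h1
  have hvol : ∀ q ∈ I, volume.real (cl t q) ≤ 4 * x := by
    intro q hq
    refine (volume_cl_le ht0 q).trans ?_
    have h1 : (q : ℝ) ≤ 2 * Q0 := by exact_mod_cast (hIm q hq).2.1.le
    rw [← htx]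
    nlinarith [mul_le_mul_of_nonneg_left h1 ht0]
  have hov : ∀ q ∈ I, ∀ q' ∈ I, q ≠ q' → volume.real (cl t q ∩ cl t q') ≤ 32 * x ^ 2 := by
    intro q hq q' hq' hne
    refine (volume_cl_inter_le ht0 hne).trans ?_
    have h1 : (q : ℝ) ≤ 2 * Q0 := by exact_mod_cast (hIm q hq).2.1.le
    have h2 : (q' : ℝ) ≤ 2 * Q0 := by exact_mod_cast (hIm q' hq').2.1.le
    have h3 : (q : ℝ) * q' ≤ 2 * Q0 * (2 * Q0) := mul_le_mul h1 h2 (by positivity) (by positivity)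
    rw [← htx]
    calc 8 * t ^ 2 * q * q' = 8 * t ^ 2 * ((q : ℝ) * q') := by ring
      _ ≤ 8 * t ^ 2 * (2 * Q0 * (2 * Q0)) := mul_le_mul_of_nonneg_left h3 (by positivity)
      _ = 32 * (t * Q0) ^ 2 := by ring
  have hmult : ∀ y, ((I.filter fun q => y ∈ cl t q).card : ℝ) ≤ 1 + 8 * t * Q0 ^ 2 := by
    intro y
    refine le_trans ?_ (card_cl_le ht0 hQ1 y)
    have h1 : (I.filter fun q => y ∈ cl t q) ⊆ (Finset.Ico Q0 (2 * Q0)).filter fun q => y ∈ cl t q := by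
      refine Finset.filter_subset_filter _ ?_
      rw [hI]
      exact Finset.filter_subset _ _
    exact_mod_cast Finset.card_le_card h1
  have hΔ : 16 * √(volume.real R) * (1 + 8 * t * Q0 ^ 2) ≤ κ := by
    have hs : √(volume.real R) ≤ (N : ℝ) ^ (-(3 / 14) : ℝ) := by
      rw [← hρdef]
      refine (Real.sqrt_le_sqrt hρ).trans (le_of_eq ?_)
      rw [Real.sqrt_eq_rpow, ← Real.rpow_mul hNpos.le]
      congr 1
      norm_num
    have ht2 : t * (Q0 : ℝ) ^ 2 ≤ 40401 * (N : ℝ) ^ (1 / 5 + 2 * η) := by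
      have h1 : t * (Q0 : ℝ) ^ 2 ≤ (Q0 * 2 ^ j) ^ 2 / N := by
        rw [ht]
        have h2 : (1 : ℝ) ≤ 2 ^ j := one_le_pow₀ one_le_two
        rw [div_mul_eq_mul_div]
        refine div_le_div_of_nonneg_right ?_ hNpos.le
        nlinarith [mul_nonneg (sub_nonneg.2 h2) (show (0 : ℝ) ≤ 2 ^ j * (Q0 : ℝ) ^ 2 by positivity)]
      have h2 : ((Q0 : ℝ) * 2 ^ j) ^ 2 ≤ (201 * (N : ℝ) ^ (3 / 5 + η)) ^ 2 :=
        pow_le_pow_left₀ (by positivity) (hQB.trans hB201) 2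
      have h3 : (201 * (N : ℝ) ^ (3 / 5 + η)) ^ 2 / N = 40401 * (N : ℝ) ^ (1 / 5 + 2 * η) := by
        have h4 : ((N : ℝ) ^ (3 / 5 + η)) ^ 2 = (N : ℝ) ^ (1 / 5 + 2 * η) * N := by
          have h5 : (N : ℝ) ^ (1 / 5 + 2 * η) * N = (N : ℝ) ^ (1 / 5 + 2 * η + 1) := by
            rw [Real.rpow_add_one hNpos.ne']
          rw [h5, ← Real.rpow_natCast, ← Real.rpow_mul hNpos.le]
          congr 1
          push_cast
          ring
        rw [mul_pow, h4]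
        field_simp
        norm_num
      exact h1.trans ((div_le_div_of_nonneg_right h2 hNpos.le).trans h3.le)
    have h1N : (1 : ℝ) ≤ (N : ℝ) ^ (1 / 5 + 2 * η) := Real.one_le_rpow hN1' (by linarith)
    have hD : 1 + 8 * t * (Q0 : ℝ) ^ 2 ≤ 323209 * (N : ℝ) ^ (1 / 5 + 2 * η) := by
      have : 8 * t * (Q0 : ℝ) ^ 2 = 8 * (t * (Q0 : ℝ) ^ 2) := by ring
      rw [this]
      linarith
    have hD0 : 0 ≤ 1 + 8 * t * (Q0 : ℝ) ^ 2 := by positivity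
    calc 16 * √(volume.real R) * (1 + 8 * t * Q0 ^ 2)
        ≤ 16 * (N : ℝ) ^ (-(3 / 14) : ℝ) * (323209 * (N : ℝ) ^ (1 / 5 + 2 * η)) := by
          refine mul_le_mul (mul_le_mul_of_nonneg_left hs (by norm_num)) hD hD0 (by positivity)
      _ = 16 * 323209 * (N : ℝ) ^ (-(1 / 70) + 2 * η) := by
          have h5 : (N : ℝ) ^ (-(1 / 70) + 2 * η) =
              (N : ℝ) ^ (-(3 / 14) : ℝ) * (N : ℝ) ^ (1 / 5 + 2 * η) := by
            rw [← Real.rpow_add hNpos]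
            congr 1
            ring
          rw [h5]
          ring
      _ ≤ κ := by
          rw [hκ]
          exact hE1
  obtain ⟨Qs, hQs, hcard, hvol3⟩ := exists_rich R hR I (fun q => cl t q) (fun q _ => measurableSet_cl t q) hx0
    hκ0 hκ1 (by rw [← hρdef]; exact hρ0) hvol hov hmult hsum2 hΔ
  obtain ⟨ρ₃, hρ₃⟩ : ∃ ρ₃, ρ₃ = volume.real (R ∩ ⋃ q ∈ Qs, cl t q) := ⟨_, rfl⟩
  rw [← hρ₃, ← hρdef] at hvol3
  rw [← hρdef] at hcard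
  have hκ2 : κ ^ 2 = (N : ℝ) ^ (-(22 * η)) := by
    rw [hκ, ← Real.rpow_natCast, ← Real.rpow_mul hNpos.le]
    congr 1
    push_cast
    ring
  refine ⟨Q0, j, Qs, hQ1, fun q hq => ?_, ?_, ?_⟩
  · have h1 := hIm q (hQs hq)
    rw [Finset.mem_Ico]
    exact ⟨h1.1, h1.2.1⟩
  · rw [← ht, ← hρ₃, ← hρdef]
    refine le_trans ?_ hvol3
    rw [hκ2]
    have h1 : (-23 * η : ℝ) = -(23 * η) := by ring
    rw [h1]
    have h2 := mul_le_mul_of_nonneg_right hE2 hρ0.le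
    linarith
  · rw [← ht, ← hρ₃]
    have h1 : (Qs.card : ℝ) * Q0 * 2 ^ j = Qs.card * x * N := by
      rw [hx]
      field_simp
    have hκi : 32 / κ = 32 * (N : ℝ) ^ (11 * η) := by
      rw [hκ, Real.rpow_neg hNpos.le, div_inv_eq_mul]
    have h2 : ρ ≤ 1000 * (N : ℝ) ^ (22 * η) * ρ₃ := by
      have h3 : κ ^ 2 * (N : ℝ) ^ (22 * η) = 1 := by
        rw [hκ2, ← Real.rpow_add hNpos]
        rw [neg_add_cancel, Real.rpow_zero]
      have h4 : 0 ≤ (N : ℝ) ^ (22 * η) := by positivity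
      have h5 := mul_le_mul_of_nonneg_left hvol3 h4
      have h6 : (N : ℝ) ^ (22 * η) * (κ ^ 2 * ρ / 1000) = ρ / 1000 := by
        calc (N : ℝ) ^ (22 * η) * (κ ^ 2 * ρ / 1000) = (κ ^ 2 * (N : ℝ) ^ (22 * η)) * (ρ / 1000) := by ring
          _ = ρ / 1000 := by rw [h3, one_mul]
      rw [h6] at h5
      linarith
    have hρ30 : 0 ≤ ρ₃ := by
      rw [hρ₃]
      positivity
    rw [h1]
    calc (Qs.card : ℝ) * x * N ≤ 32 / κ * ρ * N := mul_le_mul_of_nonneg_right hcard hNpos.le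
      _ = 32 * (N : ℝ) ^ (11 * η) * N * ρ := by rw [hκi]; ring
      _ ≤ 32 * (N : ℝ) ^ (11 * η) * N * (1000 * (N : ℝ) ^ (22 * η) * ρ₃) :=
          mul_le_mul_of_nonneg_left h2 (by positivity)
      _ = 32000 * (N : ℝ) ^ (33 * η) * (N * ρ₃) := by
          have h5 : (N : ℝ) ^ (33 * η) = (N : ℝ) ^ (11 * η) * (N : ℝ) ^ (22 * η) := by
            rw [← Real.rpow_add hNpos]
            congr 1
            ring
          rw [h5]
          ring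
      _ ≤ (N : ℝ) ^ (35 * η) * (N * ρ₃) := mul_le_mul_of_nonneg_right hE3 (by positivity)

end Pool.Agent.Helper25.MOB
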