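import Pool.Agent.Helper25.MOB.X1
import Pool.Agent.Helper25.MOB.X3

/-!
Block MOB-X4.  The structure statement (steps A - E together).

Take `V` from `step_AB`, `ρ = volume.real (lev N V)`.  `ρ ≤ N / V² ≤ N ^ (1 - 10/7) = N ^ (-3/7)`, `ρ > 0`.  `step_CD` and
`step_E` for `R = lev N V`; put `R₃ = lev N V ∩ ⋃_{q ∈ Qs} cl (2^j/N) q`, `ρ₃ = volume.real R₃ ≥ N ^ (-23η) ρ`.
`∫_{R₃} ‖F‖ ≥ V ρ₃` and `V² ≥ N ^ (1 - 7η) / ρ ≥ N ^ (1 - 30η) / ρ₃`, so `V ρ₃ ≥ √(N ^ (1 - 30η) ρ₃) = N ^ (-15η) √(N ρ₃)`.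
`N ρ₃ ≤ N ρ ≤ N ^ (4/7)`.
-/

namespace Pool.Agent.Helper25.MOB

open Filter MeasureTheory

theorem structure_ev {η : ℝ} (hη : 0 < η) (hη1 : η ≤ 1 / 1000) : ∀ᶠ N : ℕ in atTop,
    ∫ y, ‖F N y‖ ≤ (N : ℝ) ^ (2 / 7 - 20 * η) →
    ∃ (R : Set UnitAddCircle) (Q0 j : ℕ) (Qs : Finset ℕ), MeasurableSet R ∧ 1 ≤ Q0 ∧
      Qs ⊆ Finset.Ico Q0 (2 * Q0) ∧ R ⊆ ⋃ q ∈ Qs, cl (2 ^ j / N) q ∧ 0 < volume.real R ∧
      N * volume.real R ≤ (N : ℝ) ^ (4 / 7 : ℝ) ∧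
      (Qs.card : ℝ) * Q0 * 2 ^ j ≤ (N : ℝ) ^ (35 * η) * (N * volume.real R) ∧
      √(N * volume.real R) ≤ (N : ℝ) ^ (16 * η) * ∫ y in R, ‖F N y‖ := by
  filter_upwards [step_AB hη hη1, step_CD hη hη1, step_E hη hη1, eventually_gt_atTop 0]
    with N hAB hCD hE hN hI
  have hN1 : (1 : ℝ) ≤ N := by exact_mod_cast hN
  have hN0 : (0 : ℝ) < N := by linarith
  obtain ⟨V, hV, hV2, hV3, hS⟩ := hAB hI
  have hV0 : 0 < V := lt_of_lt_of_le (Real.rpow_pos_of_pos hN0 _) hV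
  have hρ0 : 0 < volume.real (lev N V) := by
    have h1 : 0 < V ^ 2 * volume.real (lev N V) :=
      lt_of_lt_of_le (Real.rpow_pos_of_pos hN0 _) hV3
    exact pos_of_mul_pos_right h1 (sq_nonneg V)
  have hρle : volume.real (lev N V) ≤ (N : ℝ) ^ (-(3 / 7) : ℝ) := by
    have h1 : (N : ℝ) ^ (10 / 7 : ℝ) ≤ V ^ 2 := by
      have h2 : (N : ℝ) ^ (10 / 7 : ℝ) = ((N : ℝ) ^ (5 / 7 : ℝ)) ^ 2 := by
        rw [← Real.rpow_natCast, ← Real.rpow_mul hN0.le]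
        norm_num
      rw [h2]
      exact pow_le_pow_left₀ (Real.rpow_nonneg hN0.le _) hV 2
    have h3 : (N : ℝ) ^ (10 / 7 : ℝ) * volume.real (lev N V) ≤ N :=
      le_trans (mul_le_mul_of_nonneg_right h1 hρ0.le) hV2
    have h4 : (N : ℝ) ^ (-(3 / 7) : ℝ) * (N : ℝ) ^ (10 / 7 : ℝ) = N := by
      rw [← Real.rpow_add hN0]
      norm_num
    have h5 : 0 < (N : ℝ) ^ (10 / 7 : ℝ) := Real.rpow_pos_of_pos hN0 _
    have h6 : volume.real (lev N V) * (N : ℝ) ^ (10 / 7 : ℝ) ≤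
        (N : ℝ) ^ (-(3 / 7) : ℝ) * (N : ℝ) ^ (10 / 7 : ℝ) := by
      rw [h4, mul_comm]
      exact h3
    exact le_of_mul_le_mul_right h6 h5
  obtain ⟨Q0, j, Qs, hQ0, hQs, hR1, hR2⟩ := hE (lev N V) (measurableSet_lev N V) hρ0 hρle
    (hCD (lev N V) (measurableSet_lev N V) hρle hS)
  have hmeas : MeasurableSet (lev N V ∩ ⋃ q ∈ Qs, cl (2 ^ j / N) q) :=
    (measurableSet_lev N V).inter
      (Finset.measurableSet_biUnion Qs fun q _ => measurableSet_cl _ _)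
  have hle : volume.real (lev N V ∩ ⋃ q ∈ Qs, cl (2 ^ j / N) q) ≤ volume.real (lev N V) :=
    measureReal_mono Set.inter_subset_left
  have hpos : 0 < volume.real (lev N V ∩ ⋃ q ∈ Qs, cl (2 ^ j / N) q) :=
    lt_of_lt_of_le (mul_pos (Real.rpow_pos_of_pos hN0 _) hρ0) hR1
  refine ⟨lev N V ∩ ⋃ q ∈ Qs, cl (2 ^ j / N) q, Q0, j, Qs, hmeas, hQ0, hQs,
    Set.inter_subset_right, hpos, ?_, hR2, ?_⟩
  · calc (N : ℝ) * volume.real (lev N V ∩ ⋃ q ∈ Qs, cl (2 ^ j / N) q)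
        ≤ N * (N : ℝ) ^ (-(3 / 7) : ℝ) :=
          mul_le_mul_of_nonneg_left (hle.trans hρle) hN0.le
      _ = (N : ℝ) ^ (4 / 7 : ℝ) := by
          nth_rewrite 1 [← Real.rpow_one (N : ℝ)]
          rw [← Real.rpow_add hN0]
          norm_num
  · set ρ₃ := volume.real (lev N V ∩ ⋃ q ∈ Qs, cl (2 ^ j / N) q) with hρ₃
    have hF : V * ρ₃ ≤ ∫ y in lev N V ∩ ⋃ q ∈ Qs, cl (2 ^ j / N) q, ‖F N y‖ := by
      have h1 : ∫ y in lev N V ∩ ⋃ q ∈ Qs, cl (2 ^ j / N) q, V = V * ρ₃ := by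
        rw [setIntegral_const, smul_eq_mul, mul_comm]
      rw [← h1]
      have hc : Continuous fun z : UnitAddCircle => ‖F N z‖ := (continuous_F N).norm
      have hint0 : Integrable (fun z : UnitAddCircle => ‖F N z‖) :=
        hc.integrable_of_hasCompactSupport (HasCompactSupport.of_compactSpace _)
      refine setIntegral_mono_on ?_ hint0.integrableOn hmeas fun y hy => hy.1.1
      exact integrableOn_const (measure_ne_top _ _)
    have hX : √(N * ρ₃) ≤ (N : ℝ) ^ (16 * η) * (V * ρ₃) := by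
      rw [Real.sqrt_le_left (by positivity)]
      have h1 : ((N : ℝ) ^ (16 * η)) ^ 2 = (N : ℝ) ^ (32 * η) := by
        rw [← Real.rpow_natCast, ← Real.rpow_mul hN0.le]
        congr 1
        push_cast
        ring
      have h2 : (N : ℝ) ^ (1 - 30 * η) ≤ V ^ 2 * ρ₃ := by
        calc (N : ℝ) ^ (1 - 30 * η) = (N : ℝ) ^ (-23 * η) * (N : ℝ) ^ (1 - 7 * η) := by
              rw [← Real.rpow_add hN0]
              congr 1
              ring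
          _ ≤ (N : ℝ) ^ (-23 * η) * (V ^ 2 * volume.real (lev N V)) :=
              mul_le_mul_of_nonneg_left hV3 (Real.rpow_nonneg hN0.le _)
          _ = V ^ 2 * ((N : ℝ) ^ (-23 * η) * volume.real (lev N V)) := by ring
          _ ≤ V ^ 2 * ρ₃ := mul_le_mul_of_nonneg_left hR1 (sq_nonneg V)
      have h3 : (N : ℝ) ≤ (N : ℝ) ^ (32 * η) * (V ^ 2 * ρ₃) := by
        calc (N : ℝ) = (N : ℝ) ^ (1 : ℝ) := (Real.rpow_one _).symm
          _ ≤ (N : ℝ) ^ (1 + 2 * η) := Real.rpow_le_rpow_of_exponent_le hN1 (by linarith)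
          _ = (N : ℝ) ^ (32 * η) * (N : ℝ) ^ (1 - 30 * η) := by
              rw [← Real.rpow_add hN0]
              congr 1
              ring
          _ ≤ _ := mul_le_mul_of_nonneg_left h2 (Real.rpow_nonneg hN0.le _)
      calc (N : ℝ) * ρ₃ ≤ ((N : ℝ) ^ (32 * η) * (V ^ 2 * ρ₃)) * ρ₃ :=
            mul_le_mul_of_nonneg_right h3 hpos.le
        _ = ((N : ℝ) ^ (16 * η) * (V * ρ₃)) ^ 2 := by
            rw [mul_pow, h1]
            ring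
    exact hX.trans (mul_le_mul_of_nonneg_left hF (Real.rpow_nonneg hN0.le _))

end Pool.Agent.Helper25.MOB
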