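import Pool.Agent.Helper25.MOB.X0
import Pool.Agent.Helper25.MOB.A3
import Pool.Agent.Helper25.MOB.K1

/-!
Block MOB-X5.  Case I: `r = N volume(R) ≥ N ^ (1/7)`.

Let `W = #Qs Q0 2^j ≤ N ^ (35η) r`, `t = 2^j / N`, and
`Z = ⌊(N / r) ^ (1/4) N ^ (-27 η)⌋₊`.  `r ≤ N ^ (4/7)` gives `Z ≥ N ^ (1/20)` for large `N`; `Z ≤ N`.
`Qs` is not empty (`R` has positive volume), so `Q0 ≤ W ≤ N`.
* `L = Nat.log 2 (8 Q0 Z²)` (`card_prime_dvd_le`, the elements of `D1`, `D2` are `< 8 Q0 Z²`) `≤ N ^ η`, `c₀ = Nat.log 2 (2 Q0)`.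
* `#P = (primesIn Z).card ≥ Z ^ (1 - η) ≥ Z N ^ (-η)`, and `c₀ ≤ #P / 2`.
* `squares_two`: `(#P - c₀) ∫_R ‖F‖ ≤ L (2 ∫‖F‖ + 48 t √N #Qs Q0 Z³)`, with `t √N #Qs Q0 = W / √N`.
* Left side `≥ (1/2) Z N ^ (-17η) √r`.  `48 L W Z³ / √N ≤ Z √r 48 N ^ (36η) √r Z² / √N ≤ 48 N ^ (36η - 54η) Z √r`
  (as `√r Z² / √N ≤ N ^ (-54η)`), at most `(1/4) Z N ^ (-17η) √r`.
* So `2 N ^ η ∫‖F‖ ≥ (1/4) Z √r N ^ (-17η)` and `Z √r ≥ (1/2) N ^ (1/4) r ^ (1/4) N ^ (-27η) ≥ (1/2) N ^ (2/7 - 27η)`, so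
  `∫‖F‖ ≥ N ^ (2/7 - 45 η) / 16 ≥ N ^ (2/7 - 50 η)`.
-/

namespace Pool.Agent.Helper25.MOB

open Filter MeasureTheory

theorem h41_core {A ν ρ Z W I J P L : ℝ} (hA : 192 ≤ A) (hν : 0 < ν) (hρ : 0 < ρ) (hZ0 : 0 < Z)
    (hZ1 : Z ≤ ν / (ρ * A ^ 27)) (hZ2 : ν / (2 * (ρ * A ^ 27)) ≤ Z) (hW0 : 0 ≤ W)
    (hW : W ≤ A ^ 35 * ρ ^ 4) (hI : ρ ^ 2 ≤ A ^ 16 * I) (hP : Z / (2 * A) ≤ P) (hL : L ≤ A)
    (hJ : 0 ≤ J) (hsq : P * I ≤ L * (2 * J + 48 * (W * Z ^ 3 / ν ^ 2))) :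
    ν * ρ / (16 * A ^ 45) ≤ J := by
  have hA0 : 0 < A := by linarith
  have hI0 : ρ ^ 2 / A ^ 16 ≤ I := by
    rw [div_le_iff₀ (by positivity)]
    linarith
  have h1 : Z / (2 * A) * (ρ ^ 2 / A ^ 16) ≤ P * I :=
    mul_le_mul hP hI0 (by positivity) (le_trans (by positivity) hP)
  have h2 : L * (2 * J + 48 * (W * Z ^ 3 / ν ^ 2)) ≤ A * (2 * J + 48 * (W * Z ^ 3 / ν ^ 2)) :=
    mul_le_mul_of_nonneg_right hL (by positivity)
  have h3 : W * Z ^ 3 / ν ^ 2 ≤ Z * ρ ^ 2 / A ^ 19 := by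
    have e1 : Z ^ 2 ≤ (ν / (ρ * A ^ 27)) ^ 2 := pow_le_pow_left₀ hZ0.le hZ1 2
    have e2 : W * Z ^ 3 ≤ (A ^ 35 * ρ ^ 4) * (Z * (ν / (ρ * A ^ 27)) ^ 2) := by
      rw [show W * Z ^ 3 = W * (Z * Z ^ 2) by ring]
      exact mul_le_mul hW (mul_le_mul_of_nonneg_left e1 hZ0.le) (by positivity) (by positivity)
    rw [div_le_iff₀ (by positivity)]
    refine e2.trans (le_of_eq ?_)
    field_simp
  have h4 : A * (2 * J + 48 * (W * Z ^ 3 / ν ^ 2)) ≤ 2 * A * J + 1 / 4 * (Z * ρ ^ 2 / A ^ 17) := by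
    have e1 : 48 * A * (Z * ρ ^ 2 / A ^ 19) ≤ 1 / 4 * (Z * ρ ^ 2 / A ^ 17) := by
      have e2 : Z * ρ ^ 2 / A ^ 17 = A ^ 2 * (Z * ρ ^ 2 / A ^ 19) := by
        field_simp
      rw [e2]
      have e3 : 0 ≤ Z * ρ ^ 2 / A ^ 19 := by positivity
      have e4 : 48 * A ≤ 1 / 4 * A ^ 2 := by nlinarith
      nlinarith
    have e5 : A * (48 * (W * Z ^ 3 / ν ^ 2)) ≤ 48 * A * (Z * ρ ^ 2 / A ^ 19) := by
      rw [show A * (48 * (W * Z ^ 3 / ν ^ 2)) = 48 * A * (W * Z ^ 3 / ν ^ 2) by ring]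
      exact mul_le_mul_of_nonneg_left h3 (by positivity)
    nlinarith
  have h5 : Z / (2 * A) * (ρ ^ 2 / A ^ 16) = 1 / 2 * (Z * ρ ^ 2 / A ^ 17) := by
    field_simp
  have h6 : 1 / 4 * (Z * ρ ^ 2 / A ^ 17) ≤ 2 * A * J := by linarith [h1, h2, h4, h5, hsq]
  have h7 : Z * ρ ^ 2 / (8 * A ^ 18) ≤ J := by
    have e1 : 1 / 4 * (Z * ρ ^ 2 / A ^ 17) = 2 * A * (Z * ρ ^ 2 / (8 * A ^ 18)) := by
      field_simp
      norm_num
    rw [e1] at h6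
    exact le_of_mul_le_mul_left h6 (by positivity)
  refine le_trans ?_ h7
  have e2 : ν * ρ / (16 * A ^ 45) = ν / (2 * (ρ * A ^ 27)) * ρ ^ 2 / (8 * A ^ 18) := by
    field_simp
    norm_num
  rw [e2]
  gcongr

theorem h41_natlog (N : ℕ) : Nat.log 2 (8 * N ^ 3) ≤ 3 * Nat.log 2 N + 6 := by
  rcases Nat.eq_zero_or_pos N with h | h
  · subst h
    simp
  · have h1 : N < 2 ^ (Nat.log 2 N + 1) := Nat.lt_pow_succ_log_self (by norm_num) N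
    have h2 : 8 * N ^ 3 < 2 ^ (3 * Nat.log 2 N + 6) := by
      have h3 : N ^ 3 < (2 ^ (Nat.log 2 N + 1)) ^ 3 := Nat.pow_lt_pow_left h1 (by norm_num)
      rw [← pow_mul] at h3
      calc 8 * N ^ 3 < 8 * 2 ^ ((Nat.log 2 N + 1) * 3) := by omega
        _ = 2 ^ (3 * Nat.log 2 N + 6) := by
          rw [show (8 : ℕ) = 2 ^ 3 by norm_num, ← pow_add]
          congr 1
          ring
    exact (Nat.log_lt_of_lt_pow (by positivity) h2).le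

theorem case_one {η : ℝ} (hη : 0 < η) (hη1 : η ≤ 1 / 1000) : ∀ᶠ N : ℕ in atTop,
    ∀ (R : Set UnitAddCircle) (Q0 j : ℕ) (Qs : Finset ℕ), MeasurableSet R → 1 ≤ Q0 →
      Qs ⊆ Finset.Ico Q0 (2 * Q0) → R ⊆ ⋃ q ∈ Qs, cl (2 ^ j / N) q → 0 < volume.real R →
      (N : ℝ) ^ (1 / 7 : ℝ) ≤ N * volume.real R →
      N * volume.real R ≤ (N : ℝ) ^ (4 / 7 : ℝ) →
      (Qs.card : ℝ) * Q0 * 2 ^ j ≤ (N : ℝ) ^ (35 * η) * (N * volume.real R) →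
      √(N * volume.real R) ≤ (N : ℝ) ^ (16 * η) * ∫ y in R, ‖F N y‖ →
      (N : ℝ) ^ (2 / 7 - 50 * η) ≤ ∫ y, ‖F N y‖ := by
  obtain ⟨H0, hH0⟩ := eventually_atTop.1 (primesIn_ge hη)
  filter_upwards [rpow_ev 192 hη, natlog_ev 3 hη, rpow_ev (H0 : ℝ) (a := 0) (b := 1 / 20) (by norm_num),
    rpow_ev 2 (a := η) (b := 1 / 20 - η) (by linarith),
    rpow_ev 2 (a := 1 / 20) (b := 3 / 28 - 27 * η) (by linarith), eventually_ge_atTop 1] with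
    N E1 E2 E3 E4 E5 hN1
  intro R Q0 j Qs hRm hQ0 hQs hRc hvol h17 h47 hW hI
  have hn1 : (1 : ℝ) ≤ N := by exact_mod_cast hN1
  have hn0 : (0 : ℝ) < N := by linarith
  rw [Real.rpow_zero, mul_one] at E1 E3
  set A : ℝ := (N : ℝ) ^ η with hAdef
  have hA0 : 0 < A := by linarith
  have hAk : ∀ k : ℕ, A ^ k = (N : ℝ) ^ ((k : ℝ) * η) := by
    intro k
    rw [hAdef, ← Real.rpow_natCast, ← Real.rpow_mul hn0.le, mul_comm]
  set r : ℝ := N * volume.real R with hr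
  have hr0 : 0 < r := by positivity
  have hr1 : 1 ≤ r := le_trans (Real.one_le_rpow hn1 (by norm_num)) h17
  set ρ : ℝ := r ^ (1 / 4 : ℝ) with hρdef
  have hρ0 : 0 < ρ := Real.rpow_pos_of_pos hr0 _
  have hρ1 : 1 ≤ ρ := Real.one_le_rpow hr1 (by norm_num)
  have hρ4 : ρ ^ 4 = r := by
    rw [hρdef, ← Real.rpow_natCast, ← Real.rpow_mul hr0.le]
    norm_num
  set ν : ℝ := (N : ℝ) ^ (1 / 4 : ℝ) with hνdef
  have hν0 : 0 < ν := Real.rpow_pos_of_pos hn0 _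
  have hν4 : ν ^ 4 = N := by
    rw [hνdef, ← Real.rpow_natCast, ← Real.rpow_mul hn0.le]
    norm_num
  have hsr : √r = ρ ^ 2 := by
    rw [← hρ4, show ρ ^ 4 = (ρ ^ 2) ^ 2 by ring, Real.sqrt_sq (by positivity)]
  have hsn : √(N : ℝ) = ν ^ 2 := by
    rw [← hν4, show ν ^ 4 = (ν ^ 2) ^ 2 by ring, Real.sqrt_sq (by positivity)]
  have hρle : ρ ≤ (N : ℝ) ^ (1 / 7 : ℝ) := by
    have := Real.rpow_le_rpow hr0.le h47 (show (0 : ℝ) ≤ 1 / 4 by norm_num)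
    rwa [← Real.rpow_mul hn0.le, show (4 / 7 * (1 / 4) : ℝ) = 1 / 7 by norm_num] at this
  have hρge : (N : ℝ) ^ (1 / 28 : ℝ) ≤ ρ := by
    have := Real.rpow_le_rpow (by positivity) h17 (show (0 : ℝ) ≤ 1 / 4 by norm_num)
    rwa [← Real.rpow_mul hn0.le, show (1 / 7 * (1 / 4) : ℝ) = 1 / 28 by norm_num] at this
  -- the parameter Z
  set z : ℝ := ν / (ρ * A ^ 27) with hz
  have hz0 : 0 < z := by positivity
  have hzge : 2 * (N : ℝ) ^ (1 / 20 : ℝ) ≤ z := by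
    refine E5.trans ?_
    rw [hz, le_div_iff₀ (by positivity)]
    calc (N : ℝ) ^ (3 / 28 - 27 * η) * (ρ * A ^ 27)
        ≤ (N : ℝ) ^ (3 / 28 - 27 * η) * ((N : ℝ) ^ (1 / 7 : ℝ) * A ^ 27) := by gcongr
      _ = ν := by
        rw [hAk 27, ← Real.rpow_add hn0, ← Real.rpow_add hn0, hνdef]
        congr 1
        push_cast
        ring
  have hn20 : 1 ≤ (N : ℝ) ^ (1 / 20 : ℝ) := Real.one_le_rpow hn1 (by norm_num)
  obtain ⟨Z, hZdef⟩ : ∃ Z : ℕ, Z = ⌊z⌋₊ := ⟨_, rfl⟩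
  have hZle : (Z : ℝ) ≤ z := hZdef ▸ Nat.floor_le hz0.le
  have hZlt : z < Z + 1 := hZdef ▸ Nat.lt_floor_add_one z
  have hZhalf : z / 2 ≤ Z := by linarith
  have hZ20 : (N : ℝ) ^ (1 / 20 : ℝ) ≤ Z := by linarith
  have hZpos : (0 : ℝ) < Z := by linarith
  have hZ1 : 1 ≤ Z := by exact_mod_cast hn20.trans hZ20
  have hzN : z ≤ N := by
    have h1 : z ≤ ν := by
      rw [hz]
      refine div_le_self hν0.le ?_
      calc (1 : ℝ) = 1 * 1 := by ring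
        _ ≤ ρ * A ^ 27 := mul_le_mul hρ1 (one_le_pow₀ (by linarith)) (by norm_num) hρ0.le
    refine h1.trans ?_
    calc ν ≤ (N : ℝ) ^ (1 : ℝ) := Real.rpow_le_rpow_of_exponent_le hn1 (by norm_num)
      _ = N := Real.rpow_one _
  have hZN : Z ≤ N := by exact_mod_cast hZle.trans hzN
  -- Qs is not empty
  have hQne : 1 ≤ Qs.card := by
    rw [Nat.one_le_iff_ne_zero]
    intro h0
    rw [Finset.card_eq_zero] at h0
    subst h0
    have : R = ∅ := by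
      refine Set.eq_empty_of_subset_empty (hRc.trans ?_)
      simp
    rw [this] at hvol
    simp at hvol
  have hQ0W : (Q0 : ℝ) ≤ (Qs.card : ℝ) * Q0 * 2 ^ j := by
    have h1 : (1 : ℝ) ≤ Qs.card := by exact_mod_cast hQne
    have h2 : (1 : ℝ) ≤ 2 ^ j := one_le_pow₀ (by norm_num)
    have h3 : (0 : ℝ) ≤ Q0 := by positivity
    calc (Q0 : ℝ) = 1 * Q0 * 1 := by ring
      _ ≤ (Qs.card : ℝ) * Q0 * 2 ^ j := by gcongr
  have hQ0N : Q0 ≤ N := by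
    have h1 : (Q0 : ℝ) ≤ N := by
      refine hQ0W.trans (hW.trans ?_)
      calc (N : ℝ) ^ (35 * η) * r ≤ (N : ℝ) ^ (35 * η) * (N : ℝ) ^ (4 / 7 : ℝ) := by gcongr
        _ = (N : ℝ) ^ (35 * η + 4 / 7) := by rw [Real.rpow_add hn0]
        _ ≤ (N : ℝ) ^ (1 : ℝ) := Real.rpow_le_rpow_of_exponent_le hn1 (by linarith)
        _ = N := Real.rpow_one _
    exact_mod_cast h1
  -- the number L
  obtain ⟨L, hLdef⟩ : ∃ L : ℕ, L = Nat.log 2 (8 * N ^ 3) := ⟨_, rfl⟩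
  have hLle : (L : ℝ) ≤ A := by
    refine le_trans ?_ E2
    have := h41_natlog N
    rw [← hLdef] at this
    have h1 : (L : ℝ) ≤ 3 * (Nat.log 2 N : ℝ) + 6 := by exact_mod_cast this
    linarith
  have hPr : ∀ p ∈ primesIn Z, p.Prime := fun p hp => (Finset.mem_filter.1 hp).2
  have hQ0' : 0 ∉ Qs := by
    intro h
    have := Finset.mem_Ico.1 (hQs h)
    omega
  have hbound : ∀ q ∈ Qs, ∀ p ∈ primesIn Z, q * p ^ 2 ≤ 8 * N ^ 3 := by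
    intro q hq p hp
    have h1 := (Finset.mem_Ico.1 (hQs hq)).2
    have h2 := (Finset.mem_Ico.1 (Finset.mem_filter.1 hp).1).2
    calc q * p ^ 2 ≤ (2 * N) * (2 * N) ^ 2 :=
          Nat.mul_le_mul (by omega) (Nat.pow_le_pow_left (by omega) 2)
      _ = 8 * N ^ 3 := by ring
  have hL : ∀ s ∈ D1 Qs (primesIn Z) ∪ D2 Qs (primesIn Z),
      ((primesIn Z).filter fun p => p ∣ s).card ≤ L := by
    intro s hs
    have h1 : 0 < s ∧ s ≤ 8 * N ^ 3 := by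
      rcases Finset.mem_union.1 hs with h | h
      · obtain ⟨v, hv, rfl⟩ := Finset.mem_image.1 h
        obtain ⟨hq, hp⟩ := Finset.mem_product.1 (Finset.mem_filter.1 hv).1
        have hp0 := (hPr _ hp).pos
        have hq0 : 0 < v.1 := Nat.pos_of_ne_zero fun h0 => hQ0' (h0 ▸ hq)
        refine ⟨Nat.mul_pos hq0 hp0, le_trans ?_ (hbound _ hq _ hp)⟩
        exact Nat.mul_le_mul_left _ (by nlinarith)
      · obtain ⟨v, hv, rfl⟩ := Finset.mem_image.1 h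
        obtain ⟨hq, hp⟩ := Finset.mem_product.1 (Finset.mem_filter.1 hv).1
        have hp0 := (hPr _ hp).pos
        have hq0 : 0 < v.1 := Nat.pos_of_ne_zero fun h0 => hQ0' (h0 ▸ hq)
        exact ⟨Nat.mul_pos hq0 (pow_pos hp0 2), hbound _ hq _ hp⟩
    refine (card_prime_dvd_le _ hPr h1.1).trans ?_
    rw [hLdef]
    exact Nat.log_mono_right h1.2
  have hc : ∀ q ∈ Qs, ((primesIn Z).filter fun p => p ∣ q).card ≤ L := by
    intro q hq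
    have hq0 : 0 < q := Nat.pos_of_ne_zero fun h0 => hQ0' (h0 ▸ hq)
    have h1 := (Finset.mem_Ico.1 (hQs hq)).2
    refine (card_prime_dvd_le _ hPr hq0).trans ?_
    rw [hLdef]
    refine Nat.log_mono_right ?_
    calc q ≤ 8 * N ^ 1 := by rw [pow_one]; omega
      _ ≤ 8 * N ^ 3 := Nat.mul_le_mul_left _ (Nat.pow_le_pow_right hN1 (by norm_num))
  have hsq := squares_two N hQ0 hZ1 hQs (t := 2 ^ j / N) (by positivity) hL hc R hRm hRc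
  -- the number of primes
  have hP : (Z : ℝ) / (2 * A) ≤ ((primesIn Z).card : ℝ) - L := by
    have h1 : (H0 : ℝ) ≤ Z := E3.trans hZ20
    have h2 := hH0 Z (by exact_mod_cast h1)
    have h3 : (Z : ℝ) / A ≤ (Z : ℝ) ^ (1 - η) := by
      rw [Real.rpow_sub hZpos, Real.rpow_one]
      refine div_le_div_of_nonneg_left hZpos.le (Real.rpow_pos_of_pos hZpos _) ?_
      exact Real.rpow_le_rpow hZpos.le (by exact_mod_cast hZN) hη.le
    have h4 : (L : ℝ) ≤ (Z : ℝ) / (2 * A) := by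
      refine hLle.trans ?_
      rw [le_div_iff₀ (by positivity)]
      have h5 : 2 * A * A ≤ (N : ℝ) ^ (1 / 20 : ℝ) := by
        calc 2 * A * A ≤ (N : ℝ) ^ (1 / 20 - η) * A := mul_le_mul_of_nonneg_right E4 hA0.le
          _ = (N : ℝ) ^ (1 / 20 : ℝ) := by
            rw [hAdef, ← Real.rpow_add hn0]
            congr 1
            ring
      nlinarith
    have h6 : (Z : ℝ) / A = (Z : ℝ) / (2 * A) + (Z : ℝ) / (2 * A) := by
      field_simp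
      norm_num
    linarith
  -- conclusion
  have hJ0 : 0 ≤ ∫ y, ‖F N y‖ := integral_nonneg fun _ => norm_nonneg _
  have hcore : ν * ρ / (16 * A ^ 45) ≤ ∫ y, ‖F N y‖ := by
    refine h41_core (Z := (Z : ℝ)) (W := (Qs.card : ℝ) * Q0 * 2 ^ j) (I := ∫ y in R, ‖F N y‖)
      (P := ((primesIn Z).card : ℝ) - L) (L := (L : ℝ)) E1 hν0 hρ0 hZpos hZle ?_ (by positivity)
      ?_ ?_ hP hLle hJ0 ?_
    · refine le_trans (le_of_eq ?_) hZhalf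
      rw [hz]
      field_simp
    · rw [hρ4, hAk 35]
      exact_mod_cast hW
    · rw [← hsr, hAk 16]
      exact_mod_cast hI
    · refine hsq.trans (le_of_eq ?_)
      have e : 48 * (2 ^ j / (N : ℝ)) * √(N : ℝ) * (Qs.card : ℝ) * Q0 * (Z : ℝ) ^ 3 =
          48 * ((Qs.card : ℝ) * Q0 * 2 ^ j * (Z : ℝ) ^ 3 / ν ^ 2) := by
        rw [hsn]
        rw [show (N : ℝ) = ν ^ 4 from hν4.symm]
        field_simp
      rw [e]
  refine le_trans ?_ hcore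
  have h1 : (N : ℝ) ^ (2 / 7 - 50 * η) = (N : ℝ) ^ (2 / 7 : ℝ) / A ^ 50 := by
    rw [hAk 50, ← Real.rpow_sub hn0]
    norm_num
  have h2 : (N : ℝ) ^ (2 / 7 : ℝ) ≤ ν * ρ := by
    calc (N : ℝ) ^ (2 / 7 : ℝ) = ν * (N : ℝ) ^ (1 / 28 : ℝ) := by
          rw [hνdef, ← Real.rpow_add hn0]
          norm_num
      _ ≤ ν * ρ := by gcongr
  rw [h1]
  rw [div_le_div_iff₀ (by positivity) (by positivity)]
  have h3 : 16 * A ^ 45 ≤ A ^ 50 := by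
    have h4 : (16 : ℝ) ≤ A ^ 5 := by
      calc (16 : ℝ) ≤ A := by linarith
        _ = A ^ 1 := (pow_one A).symm
        _ ≤ A ^ 5 := pow_le_pow_right₀ (by linarith) (by norm_num)
    calc 16 * A ^ 45 ≤ A ^ 5 * A ^ 45 := by gcongr
      _ = A ^ 50 := by ring
  calc (N : ℝ) ^ (2 / 7 : ℝ) * (16 * A ^ 45) ≤ (ν * ρ) * A ^ 50 := by gcongr
    _ = ν * ρ * A ^ 50 := by ring

end Pool.Agent.Helper25.MOB
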