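import Pool.Agent.Helper25.MOB.X4
import Pool.Agent.Helper25.MOB.X5
import Pool.Agent.Helper25.MOB.X6

/-!
Block MOB-X7.  The final theorem.

Let `η = min (ε / 50) (1/1000)`.  For large `N`: if `∫ ‖F‖ > N ^ (2/7 - 20η)` we are done (`N ≥ 1`, `20 η ≤ 50 η ≤ ε`); otherwise
`structure_ev` and `case_one` or `case_two` give `∫ ‖F‖ ≥ N ^ (2/7 - 50η) ≥ N ^ (2/7 - ε)`.
Transfer to `[0, 1]`: `AddCircle.intervalIntegral_preimage` / `UnitAddCircle.intervalIntegral_preimage` and `ex_coe`.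
-/

namespace Pool.Agent.Helper25.MOB

open Filter MeasureTheory

theorem L1_circle {ε : ℝ} (hε : 0 < ε) : ∀ᶠ N : ℕ in atTop,
    (N : ℝ) ^ (2 / 7 - ε) ≤ ∫ y, ‖F N y‖ := by
  have hη : 0 < min (ε / 50) (1 / 1000) := lt_min (by linarith) (by norm_num)
  have hη1 : min (ε / 50) (1 / 1000) ≤ 1 / 1000 := min_le_right _ _
  have hη2 : 50 * min (ε / 50) (1 / 1000) ≤ ε := by
    have := min_le_left (ε / 50) (1 / 1000)
    linarith
  filter_upwards [structure_ev hη hη1, case_one hη hη1, case_two hη hη1,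
    eventually_ge_atTop 1] with N h1 h2 h3 h4
  have hN : (1 : ℝ) ≤ N := by exact_mod_cast h4
  rcases le_or_gt (∫ y, ‖F N y‖) ((N : ℝ) ^ (2 / 7 - 20 * min (ε / 50) (1 / 1000))) with h | h
  · obtain ⟨R, Q0, j, Qs, hR, hQ0, hQs, hRc, hR0, hR1, hW, hI⟩ := h1 h
    refine (Real.rpow_le_rpow_of_exponent_le hN
      (by linarith : 2 / 7 - ε ≤ 2 / 7 - 50 * min (ε / 50) (1 / 1000))).trans ?_
    rcases le_total ((N : ℝ) ^ (1 / 7 : ℝ)) (N * volume.real R) with h5 | h5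
    · exact h2 R Q0 j Qs hR hQ0 hQs hRc hR0 h5 hR1 hW hI
    · exact h3 R Q0 j Qs hR hQ0 hQs hRc hR0 h5 hW hI
  · exact (Real.rpow_le_rpow_of_exponent_le hN
      (by linarith : 2 / 7 - ε ≤ 2 / 7 - 20 * min (ε / 50) (1 / 1000))).trans h.le

theorem L1_main {ε : ℝ} (hε : 0 < ε) : ∀ᶠ N : ℕ in atTop,
    (N : ℝ) ^ (2 / 7 - ε) ≤ ∫ x in (0 : ℝ)..1, ‖∑ n ∈ Finset.Icc 1 N,
      ((ArithmeticFunction.moebius n : ℤ) : ℂ) *
        Complex.exp (2 * Real.pi * Complex.I * n * x)‖ := by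
  filter_upwards [L1_circle hε] with N h1
  refine h1.trans (le_of_eq ?_)
  have h2 := UnitAddCircle.intervalIntegral_preimage 0 (fun y => ‖F N y‖)
  rw [zero_add] at h2
  rw [← h2]
  congr 1
  funext x
  unfold F
  congr 1
  refine Finset.sum_congr rfl fun n _ => ?_
  rw [ex_coe]
  push_cast
  rfl

end Pool.Agent.Helper25.MOB
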